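import Pool.Agent.Lib.MP_7ea278_ag.Simplex

namespace MP7ea278

/-- homogeneous coordinates, with a coordinate `0` at the place `0` -/
def alcY {m : ℕ} (x : Amb m) (j : Fin (m + 1)) : ℤ := (Fin.cons 0 x.2 : Fin (m + 1) → ℤ) j

/-- the alcoved cone -/
def alcS {m : ℕ} (c : Fin (m + 1) → Fin (m + 1) → ℤ) : Set (Amb m) :=
  {x | 1 ≤ x.1 ∧ ∀ i j : Fin (m + 1), alcY x j - alcY x i ≤ c i j * (x.1 : ℤ)}

theorem alcY_zero {m : ℕ} (x : Amb m) : alcY x 0 = 0 := rfl

theorem alcY_succ {m : ℕ} (x : Amb m) (i : Fin m) : alcY x i.succ = x.2 i := rfl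

theorem alcY_add {m : ℕ} (x y : Amb m) (j : Fin (m + 1)) : alcY (x + y) j = alcY x j + alcY y j := by
  refine Fin.cases ?_ (fun i => ?_) j
  · rfl
  · rfl

theorem alcY_of_zero {m : ℕ} (j : Fin (m + 1)) : alcY (0 : Amb m) j = 0 := by
  refine Fin.cases ?_ (fun i => ?_) j
  · rfl
  · rfl

theorem alcS_add {m : ℕ} (c : Fin (m + 1) → Fin (m + 1) → ℤ) :
    ∀ a ∈ alcS c, ∀ b ∈ alcS c, a + b ∈ alcS c := by
  rintro a ⟨ha1, ha⟩ b ⟨hb1, hb⟩
  refine ⟨?_, fun i j => ?_⟩
  · rw [Prod.fst_add]; omega
  · rw [alcY_add, alcY_add, Prod.fst_add]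
    push_cast
    have h1 := ha i j
    have h2 := hb i j
    linarith

/-- sorting a total preorder -/
theorem alc_sort {m : ℕ} (R : Fin m → Fin m → Prop) (hrefl : ∀ i, R i i)
    (htrans : ∀ i j k, R i j → R j k → R i k) (htot : ∀ i j, R i j ∨ R j i) :
    ∃ σ : Equiv.Perm (Fin m), ∀ a b, a ≤ b → R (σ a) (σ b) := by
  classical
  set key : Fin m → ℕ := fun i => (Finset.univ.filter fun j => R j i).card with hkey
  have h1 : ∀ i j, key i ≤ key j → R i j := by
    intro i j hij
    rcases htot i j with h | h
    · exact h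
    · have hsub : (Finset.univ.filter fun k => R k j) ⊆ Finset.univ.filter fun k => R k i := by
        intro k hk
        rw [Finset.mem_filter] at hk ⊢
        exact ⟨hk.1, htrans k j i hk.2 h⟩
      have heq := Finset.eq_of_subset_of_card_le hsub hij
      have hi : i ∈ Finset.univ.filter fun k => R k i :=
        Finset.mem_filter.2 ⟨Finset.mem_univ i, hrefl i⟩
      rw [← heq, Finset.mem_filter] at hi
      exact hi.2
  refine ⟨Tuple.sort key, fun a b hab => h1 _ _ ?_⟩
  exact Tuple.monotone_sort key hab

/-- the chain cone -/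
def alcC (m : ℕ) : Set (Amb m) :=
  {x | 1 ≤ x.1 ∧ (∀ i, 0 ≤ x.2 i ∧ x.2 i ≤ x.1) ∧ ∀ i j, i ≤ j → x.2 i ≤ x.2 j}

theorem alcC_add (m : ℕ) : ∀ a ∈ alcC m, ∀ b ∈ alcC m, a + b ∈ alcC m := by
  rintro a ⟨ha1, ha2, ha3⟩ b ⟨hb1, hb2, hb3⟩
  refine ⟨?_, fun i => ?_, fun i j hij => ?_⟩
  · rw [Prod.fst_add]; omega
  · rw [Prod.fst_add, Prod.snd_add, Pi.add_apply]
    push_cast
    have h1 := ha2 i
    have h2 := hb2 i
    exact ⟨by linarith, by linarith⟩
  · rw [Prod.snd_add, Pi.add_apply, Pi.add_apply]
    have h1 := ha3 i j hij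
    have h2 := hb3 i j hij
    linarith

/-- permutation and translation of the coordinates -/
def alcF {m : ℕ} (σ : Equiv.Perm (Fin m)) (t : Fin m → ℤ) : Amb m →+ Amb m where
  toFun x := (x.1, fun i => x.2 (σ i) + t (σ i) * (x.1 : ℤ))
  map_zero' := by
    refine Prod.ext rfl ?_
    funext i
    simp
  map_add' x y := by
    refine Prod.ext rfl ?_
    funext i
    simp only [Prod.snd_add, Prod.fst_add, Pi.add_apply]
    push_cast
    ring

/-- the case where all pairs of opposite bounds have sum at most one -/
theorem alc_small {K : Type} [CommRing K] {m : ℕ} (c : Fin (m + 1) → Fin (m + 1) → ℤ)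
    (hc : ∀ i j, i ≠ j → c i j + c j i ≤ 1) : TV K (dg m) (alcS c) := by
  set t : Fin m → ℤ := fun i => c i.succ 0 with ht
  -- the preorder
  obtain ⟨σ, hσ⟩ := alc_sort (fun i j : Fin m => ∀ x ∈ alcS c,
      x.2 i + t i * (x.1 : ℤ) ≤ x.2 j + t j * (x.1 : ℤ)) (fun i x _ => le_rfl)
    (fun i j k h1 h2 x hx => (h1 x hx).trans (h2 x hx)) (by
      intro i j
      by_cases hij : i = j
      · subst hij
        exact Or.inl fun x _ => le_rfl
      have h1 := hc i.succ j.succ (fun h => hij (Fin.succ_injective m h))
      by_cases h2 : c j.succ i.succ + t i - t j ≤ 0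
      · refine Or.inl fun x hx => ?_
        have h3 := hx.2 j.succ i.succ
        rw [alcY_succ, alcY_succ] at h3
        have h4 : (0 : ℤ) ≤ (x.1 : ℤ) := by positivity
        nlinarith
      · refine Or.inr fun x hx => ?_
        have h3 := hx.2 i.succ j.succ
        rw [alcY_succ, alcY_succ] at h3
        have h4 : (0 : ℤ) ≤ (x.1 : ℤ) := by positivity
        have h5 : c i.succ j.succ + t j - t i ≤ 0 := by omega
        nlinarith)
  have hinj : Function.Injective (alcF σ t) := by
    intro x y hxy
    have h0 : ((x.1, fun i => x.2 (σ i) + t (σ i) * (x.1 : ℤ)) : Amb m) =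
        (y.1, fun i => y.2 (σ i) + t (σ i) * (y.1 : ℤ)) := hxy
    have h1 : x.1 = y.1 := (Prod.mk.inj h0).1
    have h2 : ∀ i, x.2 (σ i) + t (σ i) * (x.1 : ℤ) = y.2 (σ i) + t (σ i) * (y.1 : ℤ) :=
      fun i => congrFun (Prod.mk.inj h0).2 i
    refine Prod.ext h1 (funext fun i => ?_)
    have h3 := h2 (σ.symm i)
    rw [Equiv.apply_symm_apply, h1] at h3
    linarith
  rw [← TV_image (K := K) (dg m) (dg m) (alcF σ t) (alcS_add c) hinj.injOn fun x _ => rfl]
  -- the values of the coordinates in terms of the image
  have hW : ∀ x : Amb m, ∀ i : Fin m, x.2 i + t i * (x.1 : ℤ) = (alcF σ t x).2 (σ.symm i) := by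
    intro x i
    change _ = x.2 (σ (σ.symm i)) + t (σ (σ.symm i)) * (x.1 : ℤ)
    rw [Equiv.apply_symm_apply]
  have hsurj : Function.Surjective (alcF σ t) := by
    intro y
    refine ⟨(y.1, fun i => y.2 (σ.symm i) - t i * (y.1 : ℤ)), Prod.ext rfl (funext fun i => ?_)⟩
    change y.2 (σ.symm (σ i)) - t (σ i) * (y.1 : ℤ) + t (σ i) * (y.1 : ℤ) = y.2 i
    rw [Equiv.symm_apply_apply]
    ring
  refine TV_face (dg m) (alcC m) _ (alcC_add m) (fun a ha => ha.1) ?_ ?_ (TV_chain m)
  · rintro _ ⟨x, hx, rfl⟩
    refine ⟨hx.1, fun i => ?_, fun i j hij => hσ i j hij x hx⟩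
    change 0 ≤ x.2 (σ i) + t (σ i) * (x.1 : ℤ) ∧ x.2 (σ i) + t (σ i) * (x.1 : ℤ) ≤ (x.1 : ℤ)
    have h1 := hx.2 (σ i).succ 0
    have h2 := hx.2 0 (σ i).succ
    have h3 := hc 0 (σ i).succ (Fin.succ_ne_zero (σ i)).symm
    rw [alcY_zero, alcY_succ] at h1 h2
    have h4 : (0 : ℤ) ≤ (x.1 : ℤ) := by positivity
    refine ⟨by rw [ht]; dsimp only; linarith, ?_⟩
    rw [ht]
    dsimp only
    nlinarith
  · -- the face property
    have hsign : ∀ i j : Fin (m + 1),
        (∀ x : Amb m, alcF σ t x ∈ alcC m → alcY x j - alcY x i ≤ c i j * (x.1 : ℤ)) ∨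
        (∀ x : Amb m, alcF σ t x ∈ alcC m → c i j * (x.1 : ℤ) ≤ alcY x j - alcY x i) := by
      intro i j
      refine Fin.cases ?_ (fun i => ?_) i
      · refine Fin.cases ?_ (fun j => ?_) j
        · rcases le_or_gt 0 (c 0 0) with h | h
          · left
            intro x _
            rw [sub_self]
            positivity
          · right
            intro x _
            rw [sub_self]
            have h4 : (0 : ℤ) ≤ (x.1 : ℤ) := by positivity
            nlinarith
        · rcases le_or_gt 1 (c 0 j.succ + t j) with h | h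
          · left
            intro x hx
            have h5 := (hx.2.1 (σ.symm j)).2
            rw [← hW] at h5
            change _ ≤ (x.1 : ℤ) at h5
            rw [alcY_zero, alcY_succ]
            have h4 : (0 : ℤ) ≤ (x.1 : ℤ) := by positivity
            nlinarith
          · right
            intro x hx
            have h5 := (hx.2.1 (σ.symm j)).1
            rw [← hW] at h5
            rw [alcY_zero, alcY_succ]
            have h4 : (0 : ℤ) ≤ (x.1 : ℤ) := by positivity
            have h6 : c 0 j.succ + t j ≤ 0 := by omega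
            nlinarith
      · refine Fin.cases ?_ (fun j => ?_) j
        · rcases le_or_gt 0 (c i.succ 0 - t i) with h | h
          · left
            intro x hx
            have h5 := (hx.2.1 (σ.symm i)).1
            rw [← hW] at h5
            rw [alcY_zero, alcY_succ]
            have h4 : (0 : ℤ) ≤ (x.1 : ℤ) := by positivity
            nlinarith
          · right
            intro x hx
            have h5 := (hx.2.1 (σ.symm i)).2
            rw [← hW] at h5
            change _ ≤ (x.1 : ℤ) at h5
            rw [alcY_zero, alcY_succ]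
            have h4 : (0 : ℤ) ≤ (x.1 : ℤ) := by positivity
            have h6 : c i.succ 0 - t i ≤ -1 := by omega
            nlinarith
        · rcases le_total (σ.symm i) (σ.symm j) with hle | hle
          · rcases le_or_gt 1 (c i.succ j.succ + t j - t i) with h | h
            · left
              intro x hx
              have h5 := (hx.2.1 (σ.symm j)).2
              have h6 := (hx.2.1 (σ.symm i)).1
              rw [← hW] at h5 h6
              change _ ≤ (x.1 : ℤ) at h5
              rw [alcY_succ, alcY_succ]
              have h4 : (0 : ℤ) ≤ (x.1 : ℤ) := by positivity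
              nlinarith
            · right
              intro x hx
              have h5 := hx.2.2 _ _ hle
              rw [← hW, ← hW] at h5
              rw [alcY_succ, alcY_succ]
              have h4 : (0 : ℤ) ≤ (x.1 : ℤ) := by positivity
              have h6 : c i.succ j.succ + t j - t i ≤ 0 := by omega
              nlinarith
          · rcases le_or_gt 0 (c i.succ j.succ + t j - t i) with h | h
            · left
              intro x hx
              have h5 := hx.2.2 _ _ hle
              rw [← hW, ← hW] at h5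
              rw [alcY_succ, alcY_succ]
              have h4 : (0 : ℤ) ≤ (x.1 : ℤ) := by positivity
              nlinarith
            · right
              intro x hx
              have h5 := (hx.2.1 (σ.symm i)).2
              have h6 := (hx.2.1 (σ.symm j)).1
              rw [← hW] at h5 h6
              change _ ≤ (x.1 : ℤ) at h5
              rw [alcY_succ, alcY_succ]
              have h4 : (0 : ℤ) ≤ (x.1 : ℤ) := by positivity
              have h7 : c i.succ j.succ + t j - t i ≤ -1 := by omega
              nlinarith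
    intro a ha b hb
    obtain ⟨x, rfl⟩ := hsurj a
    obtain ⟨y, rfl⟩ := hsurj b
    have hmem : ∀ z, alcF σ t z ∈ alcF σ t '' alcS c ↔ z ∈ alcS c := fun z =>
      hinj.mem_set_image
    rw [← map_add, hmem, hmem, hmem]
    constructor
    · intro hxy
      refine ⟨⟨ha.1, fun i j => ?_⟩, ⟨hb.1, fun i j => ?_⟩⟩
      · rcases hsign i j with h | h
        · exact h x ha
        · have h1 := hxy.2 i j
          have h2 := h y hb
          rw [alcY_add, alcY_add, Prod.fst_add] at h1
          push_cast at h1
          linarith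
      · rcases hsign i j with h | h
        · exact h y hb
        · have h1 := hxy.2 i j
          have h2 := h x ha
          rw [alcY_add, alcY_add, Prod.fst_add] at h1
          push_cast at h1
          linarith
    · rintro ⟨h1, h2⟩
      exact alcS_add c x h1 y h2

/-- the cutting function -/
def alcH {m : ℕ} (i j : Fin (m + 1)) (e : ℤ) : Amb m →+ ℤ where
  toFun x := alcY x j - alcY x i - e * (x.1 : ℤ)
  map_zero' := by
    rw [alcY_of_zero, alcY_of_zero]
    simp
  map_add' x y := by
    rw [alcY_add, alcY_add, Prod.fst_add]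
    push_cast
    ring

theorem alc_main {K : Type} [CommRing K] (m : ℕ) :
    ∀ (N : ℕ) (c : Fin (m + 1) → Fin (m + 1) → ℤ),
      (∑ p : Fin (m + 1) × Fin (m + 1), c p.1 p.2).toNat = N → TV K (dg m) (alcS c) := by
  intro N
  induction N using Nat.strong_induction_on with
  | _ N ih =>
    intro c hN
    by_cases h1 : ∃ i j, c i j + c j i < 0
    · obtain ⟨i, j, hij⟩ := h1
      have : alcS c = ∅ := by
        refine Set.eq_empty_of_forall_notMem fun x hx => ?_
        have h2 := hx.2 i j
        have h3 := hx.2 j i
        have h4 : (1 : ℤ) ≤ (x.1 : ℤ) := by exact_mod_cast hx.1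
        nlinarith
      rw [this]
      exact TV_empty _
    push Not at h1
    have hsum : ∀ i j, 1 ≤ c i j + c j i →
        0 < ∑ p : Fin (m + 1) × Fin (m + 1), c p.1 p.2 := by
      intro i j hij
      have e1 : ∑ p : Fin (m + 1) × Fin (m + 1), c p.2 p.1 =
          ∑ p : Fin (m + 1) × Fin (m + 1), c p.1 p.2 :=
        Equiv.sum_comp (Equiv.prodComm (Fin (m + 1)) (Fin (m + 1)))
          (fun p : Fin (m + 1) × Fin (m + 1) => c p.1 p.2)
      have e2 : 0 < ∑ p : Fin (m + 1) × Fin (m + 1), (c p.1 p.2 + c p.2 p.1) :=
        Finset.sum_pos' (fun p _ => h1 p.1 p.2) ⟨(i, j), Finset.mem_univ _, by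
          dsimp only
          omega⟩
      rw [Finset.sum_add_distrib, e1] at e2
      linarith
    -- lowering one bound lowers the sum
    have hstep : ∀ (i j : Fin (m + 1)) (v : ℤ),
        0 < ∑ p : Fin (m + 1) × Fin (m + 1), c p.1 p.2 → v < c i j →
        TV K (dg m) (alcS fun p q => if p = i ∧ q = j then v else c p q) := by
      intro i j v hpos hv
      refine ih _ ?_ _ rfl
      have hlt : ∑ p : Fin (m + 1) × Fin (m + 1), (if p.1 = i ∧ p.2 = j then v else c p.1 p.2) <
          ∑ p : Fin (m + 1) × Fin (m + 1), c p.1 p.2 := by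
        refine Finset.sum_lt_sum (fun p _ => ?_) ⟨(i, j), Finset.mem_univ _, ?_⟩
        · split_ifs with h
          · rw [h.1, h.2]; exact hv.le
          · exact le_rfl
        · dsimp only
          rw [if_pos ⟨rfl, rfl⟩]
          exact hv
      omega
    by_cases h2 : ∃ i, 1 ≤ c i i
    · obtain ⟨i, hi⟩ := h2
      have : alcS c = alcS fun p q => if p = i ∧ q = i then 0 else c p q := by
        ext x
        refine and_congr_right fun hx => forall_congr' fun p => forall_congr' fun q => ?_
        dsimp only
        split_ifs with h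
        · rw [h.1, h.2, sub_self, zero_mul]
          have h4 : (0 : ℤ) ≤ (x.1 : ℤ) := by positivity
          refine ⟨fun _ => le_rfl, fun _ => by nlinarith⟩
        · rfl
      rw [this]
      exact hstep i i 0 (hsum i i (by omega)) (by omega)
    by_cases h3 : ∃ i j, i ≠ j ∧ 2 ≤ c i j + c j i
    · obtain ⟨i, j, hij, h4⟩ := h3
      refine TV_cut (dg m) (alcS c) (alcS_add c) (fun a ha => ha.1) (alcH i j (c i j - 1)) ?_ ?_
      · have : {a | a ∈ alcS c ∧ 0 ≤ alcH i j (c i j - 1) a} =
            alcS fun p q => if p = j ∧ q = i then 1 - c i j else c p q := by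
          ext x
          constructor
          · rintro ⟨hx, hx2⟩
            change 0 ≤ alcY x j - alcY x i - (c i j - 1) * (x.1 : ℤ) at hx2
            refine ⟨hx.1, fun p q => ?_⟩
            dsimp only
            split_ifs with h
            · rw [h.1, h.2]
              linarith
            · exact hx.2 p q
          · rintro ⟨hx1, hx2⟩
            have h5 := hx2 j i
            dsimp only at h5
            rw [if_pos ⟨rfl, rfl⟩] at h5
            have h6 : (1 : ℤ) ≤ (x.1 : ℤ) := by exact_mod_cast hx1
            refine ⟨⟨hx1, fun p q => ?_⟩, ?_⟩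
            · by_cases h : p = j ∧ q = i
              · rw [h.1, h.2]
                nlinarith
              · have h7 := hx2 p q
                dsimp only at h7
                rwa [if_neg h] at h7
            · change 0 ≤ alcY x j - alcY x i - (c i j - 1) * (x.1 : ℤ)
              linarith
        rw [this]
        exact hstep j i (1 - c i j) (hsum i j (by omega)) (by omega)
      · have : {a | a ∈ alcS c ∧ alcH i j (c i j - 1) a ≤ 0} =
            alcS fun p q => if p = i ∧ q = j then c i j - 1 else c p q := by
          ext x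
          constructor
          · rintro ⟨hx, hx2⟩
            change alcY x j - alcY x i - (c i j - 1) * (x.1 : ℤ) ≤ 0 at hx2
            refine ⟨hx.1, fun p q => ?_⟩
            dsimp only
            split_ifs with h
            · rw [h.1, h.2]
              linarith
            · exact hx.2 p q
          · rintro ⟨hx1, hx2⟩
            have h5 := hx2 i j
            dsimp only at h5
            rw [if_pos ⟨rfl, rfl⟩] at h5
            have h6 : (1 : ℤ) ≤ (x.1 : ℤ) := by exact_mod_cast hx1
            refine ⟨⟨hx1, fun p q => ?_⟩, ?_⟩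
            · by_cases h : p = i ∧ q = j
              · rw [h.1, h.2]
                nlinarith
              · have h7 := hx2 p q
                dsimp only at h7
                rwa [if_neg h] at h7
            · change alcY x j - alcY x i - (c i j - 1) * (x.1 : ℤ) ≤ 0
              linarith
        rw [this]
        exact hstep i j (c i j - 1) (hsum i j (by omega)) (by omega)
    · push Not at h3
      refine alc_small c fun i j hij => ?_
      have := h3 i j hij
      omega

/-- Alcoved cones. -/
theorem TV_alcoved {K : Type} [CommRing K] (m : ℕ) (c : Fin (m + 1) → Fin (m + 1) → ℤ) :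
    TV K (dg m) {x | 1 ≤ x.1 ∧ ∀ i j : Fin (m + 1),
      (Fin.cons 0 x.2 : Fin (m + 1) → ℤ) j - (Fin.cons 0 x.2 : Fin (m + 1) → ℤ) i
        ≤ c i j * (x.1 : ℤ)} :=
  alc_main m _ c rfl

end MP7ea278
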