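import Pool.Agent.Lib.MP_7ea278_ag.Words

namespace MP7ea278

open Finsupp

section Append

variable (K : Type) [CommRing K] {M : Type} [AddCommMonoid M]

/-- Junction term of the differential of an appended word. -/
noncomputable def jn (c : M → M → K) : List M → List M → (List M →₀ K)
  | [], _ => 0
  | [_], [] => 0
  | [x], e :: s => single ((x + e) :: s) (c x e)
  | a :: b :: p, s => - (jn c (b :: p) s).mapDomain (List.cons a)

variable {K}

theorem dl_append (c : M → M → K) (p s : List M) :
    dl K c (p ++ s) = (dl K c p).mapDomain (fun p' => p' ++ s) +
      ((-1 : K) ^ p.length) • (dl K c s).mapDomain (fun s' => p ++ s') + jn K c p s := by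
  classical
  induction p with
  | nil =>
    have h : (fun s' : List M => [] ++ s') = id := rfl
    rw [h, Finsupp.mapDomain_id]
    simp [dl_nil, jn]
  | cons a p ih =>
    cases p with
    | nil =>
      cases s with
      | nil => simp [dl, jn]
      | cons e s =>
        have h1 : dl K c ([a] ++ e :: s) = single ((a + e) :: s) (c a e) -
            (dl K c (e :: s)).mapDomain (List.cons a) := rfl
        have h2 : dl K c [a] = 0 := rfl
        have h3 : jn K c [a] (e :: s) = single ((a + e) :: s) (c a e) := rfl
        rw [h1, h2, h3]
        have h4 : (fun s' : List M => [a] ++ s') = List.cons a := rfl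
        rw [h4]
        simp
        abel
    | cons b p =>
      have h1 : dl K c (a :: b :: p ++ s) = single ((a + b) :: (p ++ s)) (c a b) -
            (dl K c (b :: p ++ s)).mapDomain (List.cons a) := rfl
      have h2 : dl K c (a :: b :: p) = single ((a + b) :: p) (c a b) -
            (dl K c (b :: p)).mapDomain (List.cons a) := rfl
      have h3 : jn K c (a :: b :: p) s = - (jn K c (b :: p) s).mapDomain (List.cons a) := rfl
      rw [h1, h2, h3, ih]
      have hsub : ∀ (x y : List M →₀ K) (f : List M → List M),
          Finsupp.mapDomain f (x - y) = Finsupp.mapDomain f x - Finsupp.mapDomain f y := by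
        intro x y f
        exact map_sub (Finsupp.mapDomain.addMonoidHom f) x y
      rw [hsub, Finsupp.mapDomain_add, Finsupp.mapDomain_add, Finsupp.mapDomain_smul,
        Finsupp.mapDomain_single, ← Finsupp.mapDomain_comp, ← Finsupp.mapDomain_comp,
        ← Finsupp.mapDomain_comp]
      have e1 : (List.cons a ∘ fun p' : List M => p' ++ s) = (fun p' => p' ++ s) ∘ List.cons a := by
        funext x; simp
      have e2 : (List.cons a ∘ fun s' : List M => b :: p ++ s') = fun s' => a :: b :: p ++ s' := by
        funext x; simp
      rw [e1, e2]
      simp only [List.length_cons, pow_succ, List.cons_append]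
      simp only [mul_neg, mul_one, neg_neg, neg_smul]
      abel

theorem dl_append_singleton (v : List M) (b a : M) :
    dl K (one2 K) (v ++ [b, a]) = (dl K (one2 K) (v ++ [b])).mapDomain (fun p' => p' ++ [a]) +
      single (v ++ [b + a]) ((-1 : K) ^ v.length) := by
  classical
  have h := dl_append (K := K) (one2 K) (v ++ [b]) [a]
  have e : v ++ [b] ++ [a] = v ++ [b, a] := by simp
  rw [e] at h
  rw [h]
  have h2 : dl K (one2 K) [a] = 0 := rfl
  have h3 : jn K (one2 K) (v ++ [b]) [a] = single (v ++ [b + a]) ((-1 : K) ^ v.length) := by
    clear h e
    induction v with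
    | nil => simp [jn, one2]
    | cons x v ih =>
      have : jn K (one2 K) (x :: v ++ [b]) [a] =
          - (jn K (one2 K) (v ++ [b]) [a]).mapDomain (List.cons x) := by
        cases v with
        | nil => rfl
        | cons y v => rfl
      rw [this, ih, Finsupp.mapDomain_single]
      rw [← Finsupp.single_neg]
      congr 1
      simp [pow_succ]
  rw [h2, h3]
  simp

/-- The differential of the reversed word. -/
theorem dl_reverse (u : List M) :
    dl K (one2 K) u.reverse =
      ((-1 : K) ^ u.length) • (dl K (one2 K) u).mapDomain List.reverse := by
  classical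
  induction u with
  | nil => simp [dl_nil]
  | cons a u ih =>
    cases u with
    | nil => simp [dl]
    | cons b u =>
      have h1 : (a :: b :: u).reverse = u.reverse ++ [b, a] := by simp
      have h2 : (b :: u).reverse = u.reverse ++ [b] := by simp
      rw [h1, dl_append_singleton, ← h2, ih]
      have h3 : dl K (one2 K) (a :: b :: u) = single ((a + b) :: u) 1 -
            (dl K (one2 K) (b :: u)).mapDomain (List.cons a) := rfl
      have hsub : ∀ (x y : List M →₀ K) (f : List M → List M),
          Finsupp.mapDomain f (x - y) = Finsupp.mapDomain f x - Finsupp.mapDomain f y := by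
        intro x y f
        exact map_sub (Finsupp.mapDomain.addMonoidHom f) x y
      rw [h3, hsub, Finsupp.mapDomain_smul, ← Finsupp.mapDomain_comp, ← Finsupp.mapDomain_comp,
        Finsupp.mapDomain_single]
      have e1 : ((fun p' : List M => p' ++ [a]) ∘ List.reverse) = List.reverse ∘ List.cons a := by
        funext x; simp
      rw [e1]
      have e2 : ((a + b) :: u).reverse = u.reverse ++ [b + a] := by
        simp [add_comm]
      rw [e2, smul_sub, smul_single, smul_eq_mul, mul_one]
      simp only [List.length_cons, List.length_reverse, pow_succ]
      simp only [mul_neg, mul_one, neg_neg, neg_smul]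
      abel

end Append

end MP7ea278
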