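import Pool.Agent.Lib.MP_7ea278_ag.PDefs

namespace MP7ea278

theorem bal_exists {n : ℕ} {B : Set (Fin n → ℤ)} {x : Amb n}
    (hx : x ∈ AddSubmonoid.closure ((fun g => ((1 : ℕ), g)) '' B)) :
    ∃ s : Multiset (Fin n → ℤ), (∀ b ∈ s, b ∈ B) ∧
      (s.map (fun g => (((1 : ℕ), g) : Amb n))).sum = x := by
  induction hx using AddSubmonoid.closure_induction with
  | mem y hy =>
    obtain ⟨g, hg, rfl⟩ := hy
    exact ⟨{g}, by simpa using hg, by simp⟩
  | zero => exact ⟨0, by simp, by simp⟩
  | add y z _ _ h1 h2 =>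
    obtain ⟨s, hs, rfl⟩ := h1
    obtain ⟨t, ht, rfl⟩ := h2
    refine ⟨s + t, ?_, by simp⟩
    intro b hb
    rcases Multiset.mem_add.1 hb with h | h
    · exact hs b h
    · exact ht b h

theorem bal_mem {n : ℕ} {B : Set (Fin n → ℤ)} (s : Multiset (Fin n → ℤ)) (hs : ∀ b ∈ s, b ∈ B) :
    (s.map (fun g => (((1 : ℕ), g) : Amb n))).sum ∈
      AddSubmonoid.closure ((fun g => ((1 : ℕ), g)) '' B) := by
  refine AddSubmonoid.multiset_sum_mem _ _ fun y hy => ?_
  obtain ⟨g, hg, rfl⟩ := Multiset.mem_map.1 hy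
  exact AddSubmonoid.subset_closure ⟨g, hs g hg, rfl⟩

theorem bal_fst {n : ℕ} (s : Multiset (Fin n → ℤ)) :
    ((s.map (fun g => (((1 : ℕ), g) : Amb n))).sum).1 = s.card := by
  induction s using Multiset.induction_on with
  | empty => simp
  | cons a s ih => simp [ih, add_comm]

theorem bal_snd {n : ℕ} (s : Multiset (Fin n → ℤ)) (i : Fin n) :
    ((s.map (fun g => (((1 : ℕ), g) : Amb n))).sum).2 i = (s.map (fun g => g i)).sum := by
  induction s using Multiset.induction_on with
  | empty => simp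
  | cons a s ih => simp [ih]

/-- the potential -/
def balP {n : ℕ} (s : Multiset (Fin n → ℤ)) : ℤ := (s.map (fun b => ∑ i, b i ^ 2)).sum

theorem balP_nonneg {n : ℕ} (s : Multiset (Fin n → ℤ)) : 0 ≤ balP s := by
  unfold balP
  refine Multiset.sum_nonneg fun x hx => ?_
  obtain ⟨b, _, rfl⟩ := Multiset.mem_map.1 hx
  exact Finset.sum_nonneg fun i _ => sq_nonneg _

theorem bal_le {s : Multiset ℤ} {a : ℤ} (h : ∀ x ∈ s, a ≤ x) : (s.card : ℤ) * a ≤ s.sum := by
  have := Multiset.card_nsmul_le_sum h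
  simpa using this

theorem bal_ge {s : Multiset ℤ} {a : ℤ} (h : ∀ x ∈ s, x ≤ a) : s.sum ≤ (s.card : ℤ) * a := by
  have := Multiset.sum_le_card_nsmul s a h
  simpa using this

/-- if the multiset is not contained in the cube, two of its members differ by at least two in
some coordinate -/
theorem bal_pair {n : ℕ} (q : Fin n → ℤ) (s : Multiset (Fin n → ℤ))
    (h : ∀ i, (s.card : ℤ) * q i ≤ (s.map (fun g => g i)).sum ∧
      (s.map (fun g => g i)).sum ≤ (s.card : ℤ) * (q i + 1))
    (hn : ¬ ∀ b ∈ s, ∀ i, q i ≤ b i ∧ b i ≤ q i + 1) :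
    ∃ u ∈ s, ∃ v ∈ s, ∃ i, v i + 2 ≤ u i := by
  push Not at hn
  obtain ⟨b, hb, i, hi⟩ := hn
  obtain ⟨t, rfl⟩ := Multiset.exists_cons_of_mem hb
  obtain ⟨h1, h2⟩ := h i
  rw [Multiset.map_cons, Multiset.sum_cons, Multiset.card_cons] at h1 h2
  push_cast at h1 h2
  by_cases hq : q i ≤ b i
  · have hb2 := hi hq
    -- some member is at most `q i`
    by_contra hcon
    push Not at hcon
    have h3 : ∀ x ∈ t.map (fun g => g i), q i + 1 ≤ x := by
      intro x hx
      obtain ⟨c, hc, rfl⟩ := Multiset.mem_map.1 hx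
      have := hcon b (Multiset.mem_cons_self b t) c (Multiset.mem_cons_of_mem hc) i
      omega
    have h4 := bal_le h3
    rw [Multiset.card_map] at h4
    nlinarith
  · by_contra hcon
    push Not at hcon
    have h3 : ∀ x ∈ t.map (fun g => g i), x ≤ q i := by
      intro x hx
      obtain ⟨c, hc, rfl⟩ := Multiset.mem_map.1 hx
      have := hcon c (Multiset.mem_cons_of_mem hc) b (Multiset.mem_cons_self b t) i
      omega
    have h4 := bal_ge h3
    rw [Multiset.card_map] at h4
    nlinarith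

theorem bal_sq {n : ℕ} (u v : Fin n → ℤ) (i j : Fin n) (hij : i ≠ j) (hi : v i + 2 ≤ u i)
    (hj : u j < v j) :
    ∑ t, (u - Pi.single i 1 + Pi.single j 1 : Fin n → ℤ) t ^ 2 +
        ∑ t, (v + Pi.single i 1 - Pi.single j 1 : Fin n → ℤ) t ^ 2
      < ∑ t, u t ^ 2 + ∑ t, v t ^ 2 := by
  rw [← Finset.sum_add_distrib, ← Finset.sum_add_distrib]
  refine Finset.sum_lt_sum (fun t _ => ?_) ⟨i, Finset.mem_univ i, ?_⟩
  · simp only [Pi.add_apply, Pi.sub_apply]
    by_cases hti : t = i
    · subst hti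
      rw [Pi.single_eq_same, Pi.single_eq_of_ne hij]
      nlinarith
    · rw [Pi.single_eq_of_ne hti]
      by_cases htj : t = j
      · subst htj
        rw [Pi.single_eq_same]
        nlinarith
      · rw [Pi.single_eq_of_ne htj]
        simp
  · simp only [Pi.add_apply, Pi.sub_apply]
    rw [Pi.single_eq_same, Pi.single_eq_of_ne hij]
    nlinarith

theorem bal_main {n : ℕ} {B : Set (Fin n → ℤ)} (hB : SymExch B) (q : Fin n → ℤ) (x : Amb n)
    (hx : ∀ i, (x.1 : ℤ) * q i ≤ x.2 i ∧ x.2 i ≤ (x.1 : ℤ) * (q i + 1)) :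
    ∀ (N : ℕ) (s : Multiset (Fin n → ℤ)), (∀ b ∈ s, b ∈ B) →
      (s.map (fun g => (((1 : ℕ), g) : Amb n))).sum = x → (balP s).toNat = N →
      x ∈ AddSubmonoid.closure ((fun g => ((1 : ℕ), g)) '' cell B q) := by
  intro N
  induction N using Nat.strong_induction_on with
  | _ N ih =>
    intro s hs hsx hN
    by_cases hall : ∀ b ∈ s, ∀ i, q i ≤ b i ∧ b i ≤ q i + 1
    · rw [← hsx]
      exact bal_mem s fun b hb => ⟨hs b hb, hall b hb⟩
    · have hcard : x.1 = s.card := by rw [← hsx]; exact bal_fst s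
      have hsnd : ∀ i, x.2 i = (s.map (fun g => g i)).sum := fun i => by
        rw [← hsx]; exact bal_snd s i
      obtain ⟨u, hu, v, hv, i, hi⟩ := bal_pair q s (fun i => by
        rw [← hsnd i, ← hcard]; exact hx i) hall
      obtain ⟨j, hj, hu', hv'⟩ := hB u (hs u hu) v (hs v hv) i (by omega)
      have huv : v ≠ u := fun h => by rw [h] at hi; omega
      have hij : i ≠ j := fun h => by rw [← h] at hj; omega
      obtain ⟨s1, rfl⟩ := Multiset.exists_cons_of_mem hu
      have hv1 : v ∈ s1 := by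
        rcases Multiset.mem_cons.1 hv with h | h
        · exact absurd h huv
        · exact h
      obtain ⟨t, rfl⟩ := Multiset.exists_cons_of_mem hv1
      set u' := u - Pi.single i 1 + Pi.single j 1 with hu'def
      set v' := v + Pi.single i 1 - Pi.single j 1 with hv'def
      have hlt : balP (u' ::ₘ v' ::ₘ t) < balP (u ::ₘ v ::ₘ t) := by
        unfold balP
        simp only [Multiset.map_cons, Multiset.sum_cons]
        have := bal_sq u v i j hij hi hj
        rw [← hu'def, ← hv'def] at this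
        linarith
      have h0 := balP_nonneg (u' ::ₘ v' ::ₘ t)
      refine ih (balP (u' ::ₘ v' ::ₘ t)).toNat (by omega) (u' ::ₘ v' ::ₘ t) ?_ ?_ rfl
      · intro b hb
        rcases Multiset.mem_cons.1 hb with h | h
        · rw [h]; exact hu'
        · rcases Multiset.mem_cons.1 h with h | h
          · rw [h]; exact hv'
          · exact hs b (Multiset.mem_cons_of_mem (Multiset.mem_cons_of_mem h))
      · rw [← hsx]
        simp only [Multiset.map_cons, Multiset.sum_cons]
        rw [← add_assoc, ← add_assoc]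
        congr 1
        refine Prod.ext rfl ?_
        simp only [Prod.snd_add]
        rw [hu'def, hv'def]
        abel

/-- Balanced decomposition: an element of the semigroup generated by a set with the symmetric
exchange property that lies in the cone over a unit cube is a sum of generators in that cube. -/
theorem Sg_cell {n : ℕ} {B : Set (Fin n → ℤ)} (hB : SymExch B) (q : Fin n → ℤ) :
    {x | x ∈ Sg B ∧ ∀ i, (x.1 : ℤ) * q i ≤ x.2 i ∧ x.2 i ≤ (x.1 : ℤ) * (q i + 1)} =
      Sg (cell B q) := by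
  ext x
  constructor
  · rintro ⟨⟨hx, hx0⟩, hq⟩
    obtain ⟨s, hs, hsx⟩ := bal_exists hx
    exact ⟨bal_main hB q x hq _ s hs hsx rfl, hx0⟩
  · rintro ⟨hx, hx0⟩
    obtain ⟨s, hs, hsx⟩ := bal_exists hx
    refine ⟨⟨?_, hx0⟩, fun i => ?_⟩
    · rw [← hsx]
      exact bal_mem s fun b hb => (hs b hb).1
    · rw [← hsx, bal_fst, bal_snd]
      have h1 : ∀ y ∈ s.map (fun g => g i), q i ≤ y := by
        intro y hy
        obtain ⟨b, hb, rfl⟩ := Multiset.mem_map.1 hy
        exact ((hs b hb).2 i).1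
      have h2 : ∀ y ∈ s.map (fun g => g i), y ≤ q i + 1 := by
        intro y hy
        obtain ⟨b, hb, rfl⟩ := Multiset.mem_map.1 hy
        exact ((hs b hb).2 i).2
      have h3 := bal_le h1
      have h4 := bal_ge h2
      rw [Multiset.card_map] at h3 h4
      exact ⟨h3, h4⟩

end MP7ea278
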