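import Pool.Agent.Lib.MP_7ea278_ag.WordsDef

namespace MP7ea278

open Finsupp

variable {K : Type} [CommRing K] {M : Type} [AddCommMonoid M]

/-- Multiplication of a letter into the first letter of a word. -/
noncomputable def mu (c0 : M → M → K) (a : M) : List M → (List M →₀ K)
  | [] => 0
  | b :: v => single ((a + b) :: v) (c0 a b)

theorem dl0_cons (c0 c : M → M → K) (a : M) (v : List M) :
    dl0 K c0 c (a :: v) = mu c0 a v - (dl K c v).mapDomain (List.cons a) := by
  cases v with
  | nil => simp [dl0, mu, dl]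
  | cons b v => rfl

theorem dl_cons (c : M → M → K) (a : M) (v : List M) :
    dl K c (a :: v) = mu c a v - (dl K c v).mapDomain (List.cons a) := by
  rw [← dl0_self, dl0_cons]

theorem dl_nil (c : M → M → K) : dl K c [] = 0 := rfl

theorem dl_support (c : M → M → K) (S : Set M)
    (hadd : ∀ a ∈ S, ∀ b ∈ S, c a b ≠ 0 → a + b ∈ S) :
    ∀ w : List M, (∀ x ∈ w, x ∈ S) → ∀ w' ∈ (dl K c w).support,
      (∀ x ∈ w', x ∈ S) ∧ w'.length + 1 = w.length ∧ w'.sum = w.sum := by
  classical
  intro w
  induction w with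
  | nil => intro _ w' hw'; simp [dl_nil] at hw'
  | cons a v ih =>
    intro hw w' hw'
    rw [dl_cons] at hw'
    have hv : ∀ x ∈ v, x ∈ S := fun x hx => hw x (List.mem_cons_of_mem _ hx)
    have ha : a ∈ S := hw a (by simp)
    rcases Finset.mem_union.1 (Finsupp.support_sub hw') with h | h
    · cases v with
      | nil => simp [mu] at h
      | cons b v =>
        have h' : (mu c a (b :: v)) = single ((a + b) :: v) (c a b) := rfl
        rw [h'] at h
        have h1 := Finset.mem_singleton.1 (Finsupp.support_single_subset h)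
        have hc : c a b ≠ 0 := by
          intro h0
          rw [h0] at h
          simp at h
        subst h1
        have hb : b ∈ S := hw b (by simp)
        refine ⟨?_, by simp, by simp [add_assoc]⟩
        intro x hx
        rcases List.mem_cons.1 hx with rfl | hx
        · exact hadd a ha b hb hc
        · exact hw x (by simp [hx])
    · obtain ⟨v', hv', rfl⟩ := Finset.mem_image.1 (Finsupp.mapDomain_support h)
      obtain ⟨h1, h2, h3⟩ := ih hv v' hv'
      refine ⟨?_, by simp [h2], by simp [h3]⟩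
      intro x hx
      rcases List.mem_cons.1 hx with rfl | hx
      · exact ha
      · exact h1 x hx

theorem ext_dl0_mu (c0 c : M → M → K) (S : Set M) (a : M)
    (hc : ∀ b ∈ S, ∀ e ∈ S, c0 a b * c0 (a + b) e = c b e * c0 a (b + e))
    (v : List M) (hv : ∀ x ∈ v, x ∈ S) :
    ext K (dl0 K c0 c) K (mu c0 a v) = ext K (mu c0 a) K (dl K c v) := by
  classical
  cases v with
  | nil => simp [mu, dl_nil]
  | cons b v =>
    have h1 : mu c0 a (b :: v) = c0 a b • single ((a + b) :: v) (1 : K) := by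
      simp [mu]
    rw [h1, map_smul, ext_single_one, dl0_cons, dl_cons, map_sub, ext_mapDomain]
    have h2 : ext K (fun v'' => mu c0 a (b :: v'')) K (dl K c v) =
        c0 a b • (dl K c v).mapDomain (List.cons (a + b)) := by
      have : (fun v'' => mu c0 a (b :: v'')) =
          fun v'' => c0 a b • single ((a + b) :: v'') (1 : K) := by
        funext v''; simp [mu]
      rw [this, ext_smul_fun, ext_single_fun (K := K) K (List.cons (a + b))]
    rw [h2, smul_sub]
    congr 1
    cases v with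
    | nil => simp [mu]
    | cons e v =>
      have hb : b ∈ S := hv b (by simp)
      have he : e ∈ S := hv e (by simp)
      have h3 : mu c b (e :: v) = c b e • single ((b + e) :: v) (1 : K) := by
        simp [mu]
      rw [h3, map_smul, ext_single_one]
      simp only [mu, smul_single, smul_eq_mul]
      rw [hc b hb e he, add_assoc]

theorem dl_dl (c : M → M → K) (S : Set M)
    (hc : ∀ a ∈ S, ∀ b ∈ S, ∀ e ∈ S, c a b * c (a + b) e = c b e * c a (b + e)) :
    ∀ w : List M, (∀ x ∈ w, x ∈ S) → ext K (dl K c) K (dl K c w) = 0 := by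
  intro w
  induction w with
  | nil => intro _; simp [dl_nil]
  | cons a v ih =>
    intro hw
    have hv : ∀ x ∈ v, x ∈ S := fun x hx => hw x (List.mem_cons_of_mem _ hx)
    have ha : a ∈ S := hw a (by simp)
    have hself : dl K c = dl0 K c c := by
      funext w; rw [dl0_self]
    have h1 := ext_dl0_mu c c S a (hc a ha) v hv
    rw [← hself] at h1
    rw [dl_cons, map_sub, ext_mapDomain, h1]
    have h2 : (fun v' => dl K c (a :: v')) =
        fun v' => mu c a v' - (dl K c v').mapDomain (List.cons a) := by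
      funext v'; rw [dl_cons]
    rw [h2, ext_sub_fun, ← mapDomain_ext, ih hv]
    simp

theorem dl0_dl0 (c0 c : M → M → K) (S0 S : Set M)
    (hc0 : ∀ a ∈ S0, ∀ b ∈ S, ∀ e ∈ S, c0 a b * c0 (a + b) e = c b e * c0 a (b + e))
    (hc : ∀ a ∈ S, ∀ b ∈ S, ∀ e ∈ S, c a b * c (a + b) e = c b e * c a (b + e)) :
    ∀ w ∈ Wd S0 S, ext K (dl0 K c0 c) K (dl0 K c0 c w) = 0 := by
  rintro w ⟨a, v, rfl, ha, hv⟩
  rw [dl0_cons, map_sub, ext_mapDomain, ext_dl0_mu c0 c S a (hc0 a ha) v hv]
  have h2 : (fun v' => dl0 K c0 c (a :: v')) =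
      fun v' => mu c0 a v' - (dl K c v').mapDomain (List.cons a) := by
    funext v'; rw [dl0_cons]
  rw [h2, ext_sub_fun, ← mapDomain_ext, dl_dl c S hc v hv]
  simp

/-- The word complexes are based complexes. -/
theorem isBC_words (deg : M →+ ℕ) (c0 c : M → M → K) (S0 S : Set M)
    (hadd0 : ∀ a ∈ S0, ∀ b ∈ S, c0 a b ≠ 0 → a + b ∈ S0)
    (hadd : ∀ a ∈ S, ∀ b ∈ S, c a b ≠ 0 → a + b ∈ S)
    (hdeg0 : ∀ a ∈ S0, 1 ≤ deg a) (hdeg : ∀ a ∈ S, 1 ≤ deg a)
    (hc0 : ∀ a ∈ S0, ∀ b ∈ S, ∀ e ∈ S, c0 a b * c0 (a + b) e = c b e * c0 a (b + e))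
    (hc : ∀ a ∈ S, ∀ b ∈ S, ∀ e ∈ S, c a b * c (a + b) e = c b e * c a (b + e)) :
    IsBC K (Wd S0 S) (dl0 K c0 c) List.length (wdeg deg) := by
  classical
  refine ⟨?_, dl0_dl0 c0 c S0 S hc0 hc, ?_⟩
  · rintro w ⟨a, v, rfl, ha, hv⟩ w' hw'
    rw [dl0_cons] at hw'
    rcases Finset.mem_union.1 (Finsupp.support_sub hw') with h | h
    · cases v with
      | nil => simp [mu] at h
      | cons b v =>
        have h' : (mu c0 a (b :: v)) = single ((a + b) :: v) (c0 a b) := rfl
        rw [h'] at h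
        have h1 := Finset.mem_singleton.1 (Finsupp.support_single_subset h)
        have hc : c0 a b ≠ 0 := by
          intro h0
          rw [h0] at h
          simp at h
        subst h1
        have hb : b ∈ S := hv b (by simp)
        refine ⟨⟨a + b, v, rfl, hadd0 a ha b hb hc, fun x hx => hv x (by simp [hx])⟩,
          by simp, by simp [wdeg, add_assoc]⟩
    · obtain ⟨v', hv', rfl⟩ := Finset.mem_image.1 (Finsupp.mapDomain_support h)
      obtain ⟨h1, h2, h3⟩ := dl_support c S hadd v hv v' hv'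
      exact ⟨⟨a, v', rfl, ha, h1⟩, by simp [h2], by simp [wdeg, h3]⟩
  · rintro w ⟨a, v, rfl, ha, hv⟩
    have h1 : ∀ v : List M, (∀ x ∈ v, x ∈ S) → v.length ≤ deg v.sum := by
      intro v
      induction v with
      | nil => intro _; simp
      | cons b v ih =>
        intro hv
        have := ih fun x hx => hv x (List.mem_cons_of_mem _ hx)
        have := hdeg b (hv b (by simp))
        simp only [List.length_cons, List.sum_cons, map_add]
        omega
    have := h1 v hv
    have := hdeg0 a ha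
    simp only [List.length_cons, wdeg, List.sum_cons, map_add]
    omega

theorem dl_congr (c c' : M → M → K) (S : Set M)
    (h : ∀ a ∈ S, ∀ b ∈ S, c a b = c' a b) :
    ∀ w : List M, (∀ x ∈ w, x ∈ S) → dl K c w = dl K c' w := by
  intro w
  induction w with
  | nil => intro _; rfl
  | cons a v ih =>
    intro hw
    rw [dl_cons, dl_cons, ih fun x hx => hw x (List.mem_cons_of_mem _ hx)]
    congr 1
    cases v with
    | nil => rfl
    | cons b v => simp only [mu]; rw [h a (hw a (by simp)) b (hw b (by simp))]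

theorem dl0_congr (c0 c c0' c' : M → M → K) (S0 S : Set M)
    (h0 : ∀ a ∈ S0, ∀ b ∈ S, c0 a b = c0' a b) (h : ∀ a ∈ S, ∀ b ∈ S, c a b = c' a b) :
    ∀ w ∈ Wd S0 S, dl0 K c0 c w = dl0 K c0' c' w := by
  rintro w ⟨a, v, rfl, ha, hv⟩
  rw [dl0_cons, dl0_cons, dl_congr c c' S h v hv]
  congr 1
  cases v with
  | nil => rfl
  | cons b v => simp only [mu]; rw [h0 a ha b (hv b (by simp))]

theorem TVX_congr (deg : M →+ ℕ) (c0 c c0' c' : M → M → K) (S0 S : Set M)
    (h0 : ∀ a ∈ S0, ∀ b ∈ S, c0 a b = c0' a b) (h : ∀ a ∈ S, ∀ b ∈ S, c a b = c' a b) (j : ℕ) :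
    TVX K deg c0 c S0 S j ↔ TVX K deg c0' c' S0 S j := by
  have key : ∀ w ∈ Wd S0 S, dl0 K c0 c w = dl0 K c0' c' w := dl0_congr c0 c c0' c' S0 S h0 h
  have e : ∀ (U : Type) [AddCommGroup U] [Module K U] (k : ℕ) (z : List M →₀ U),
      z ∈ Finsupp.supported U K (Hom (Wd S0 S) List.length (wdeg deg) k j) →
      ext K (dl0 K c0 c) U z = ext K (dl0 K c0' c') U z := by
    intro U _ _ k z hz
    exact ext_congr _ U (X := Wd S0 S) key fun ω hω => (hz hω).1
  constructor
  · intro H U _ _ k hk z hz hdz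
    obtain ⟨y, hy, hyz⟩ := H U k hk z hz (by rw [e U k z hz]; exact hdz)
    exact ⟨y, hy, by rw [← e U _ y hy]; exact hyz⟩
  · intro H U _ _ k hk z hz hdz
    obtain ⟨y, hy, hyz⟩ := H U k hk z hz (by rw [← e U k z hz]; exact hdz)
    exact ⟨y, hy, by rw [e U _ y hy]; exact hyz⟩

end MP7ea278
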