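import Pool.Agent.Lib.MP_7ea278_ag.Defs
import Pool.Agent.Lib.MP_7ea278_ag.Words

namespace MP7ea278

section ResAux

open Finsupp

variable {K : Type} [Field K] {L : Type} [AddCommMonoid L]

theorem res_lin_ext {Ω U N : Type} [AddCommGroup U] [Module K U] [AddCommGroup N] [Module K N]
    (f g : (Ω →₀ U) →ₗ[K] N) (X : Set Ω)
    (h : ∀ ω ∈ X, ∀ u, f (single ω u) = g (single ω u)) {z : Ω →₀ U}
    (hz : z ∈ Finsupp.supported U K X) : f z = g z := by
  classical
  rw [← Finsupp.sum_single z, map_finsuppSum, map_finsuppSum]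
  refine Finsupp.sum_congr fun ω hω => h ω (hz (by simpa using hω)) _

theorem res_supp_disj {Ω U : Type} [AddCommGroup U] [Module K U] {X Y : Set Ω}
    (h : ∀ ω ∈ X, ω ∉ Y) {z : Ω →₀ U} (hx : z ∈ Finsupp.supported U K X)
    (hy : z ∈ Finsupp.supported U K Y) : z = 0 := by
  classical
  refine Finsupp.ext fun ω => ?_
  by_contra hne
  have hs : ω ∈ (z.support : Set Ω) := by simpa using hne
  exact h ω (hx hs) (hy hs)

/-- Linear maps and supports. -/
theorem res_map_supported {Ω Ω' U U' : Type} [AddCommGroup U] [Module K U] [AddCommGroup U']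
    [Module K U'] (f : (Ω →₀ U) →ₗ[K] (Ω' →₀ U')) (X : Set Ω) (Y : Set Ω')
    (h : ∀ ω ∈ X, ∀ u, f (single ω u) ∈ Finsupp.supported U' K Y) {z : Ω →₀ U}
    (hz : z ∈ Finsupp.supported U K X) : f z ∈ Finsupp.supported U' K Y := by
  classical
  rw [← Finsupp.sum_single z, map_finsuppSum]
  refine Submodule.sum_mem _ fun ω hω => h ω (hz (by simpa using hω)) _

/-- Chains with constant coefficient `x`. -/
noncomputable def resI (K : Type) [Field K] {L : Type} [AddCommMonoid L] (x : L) :
    (List L →₀ K) →ₗ[K] (List L →₀ AddMonoidAlgebra K L) :=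
  Finsupp.mapRange.linearMap (AddMonoidAlgebra.lsingle x)

theorem resI_single (x : L) (w : List L) (c : K) :
    resI K x (single w c) = single w (AddMonoidAlgebra.single x c) := by
  simp [resI]

theorem resI_apply (x : L) (z : List L →₀ K) (w : List L) :
    resI K x z w = AddMonoidAlgebra.single x (z w) := by
  simp [resI]

/-- Coefficient chains. -/
noncomputable def resC (K : Type) [Field K] {L : Type} [AddCommMonoid L] (x : L) :
    (List L →₀ AddMonoidAlgebra K L) →ₗ[K] (List L →₀ K) :=
  Finsupp.mapRange.linearMap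
    ((Finsupp.lapply x).comp (AddMonoidAlgebra.coeffLinearEquiv K).toLinearMap)

theorem resC_apply (x : L) (z : List L →₀ AddMonoidAlgebra K L) (w : List L) :
    resC K x z w = (z w).coeff x := by
  simp [resC]

/-- The part of the differential multiplying the first letter into the coefficients. -/
noncomputable def resMu (K : Type) [Field K] {L : Type} [AddCommMonoid L] :
    (List L →₀ AddMonoidAlgebra K L) →ₗ[AddMonoidAlgebra K L]
      (List L →₀ AddMonoidAlgebra K L) :=
  Finsupp.lsum (AddMonoidAlgebra K L) fun w => match w with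
    | [] => 0
    | b :: w => (AddMonoidAlgebra.single b (1 : K)) • Finsupp.lsingle w

theorem mu_nil (u : AddMonoidAlgebra K L) : resMu K (single [] u) = 0 := by
  rw [resMu, Finsupp.lsum_single]; rfl

theorem mu_cons (b : L) (w : List L) (u : AddMonoidAlgebra K L) :
    resMu K (single (b :: w) u) = single w (AddMonoidAlgebra.single b (1 : K) * u) := by
  rw [resMu, Finsupp.lsum_single]
  simp [LinearMap.smul_apply, Finsupp.smul_single]

/-- `resMu` as a `K`-linear map. -/
noncomputable def muK (K : Type) [Field K] {L : Type} [AddCommMonoid L] :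
    (List L →₀ AddMonoidAlgebra K L) →ₗ[K] (List L →₀ AddMonoidAlgebra K L) :=
  (resMu K).restrictScalars K

theorem muK_apply (z : List L →₀ AddMonoidAlgebra K L) : muK K z = resMu K z := rfl

/-- The bar differential with coefficients in the ring. -/
noncomputable def dR (K : Type) [Field K] {L : Type} [AddCommMonoid L] :
    (List L →₀ AddMonoidAlgebra K L) →ₗ[K] (List L →₀ AddMonoidAlgebra K L) :=
  ext K (dl K (one2 K)) (AddMonoidAlgebra K L)

/-- The bar differential with coefficients in the field. -/
noncomputable def dK (K : Type) [Field K] {L : Type} [AddCommMonoid L] :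
    (List L →₀ K) →ₗ[K] (List L →₀ K) :=
  ext K (dl K (one2 K)) K

theorem dR_resI (x : L) (z : List L →₀ K) : dR K (resI K x z) = resI K x (dK K z) :=
  ext_mapRange (dl K (one2 K)) K (U' := AddMonoidAlgebra K L) (AddMonoidAlgebra.lsingle x) z

theorem dK_resC (x : L) (z : List L →₀ AddMonoidAlgebra K L) :
    dK K (resC K x z) = resC K x (dR K z) :=
  ext_mapRange (dl K (one2 K)) (AddMonoidAlgebra K L) (U' := K)
    ((Finsupp.lapply x).comp (AddMonoidAlgebra.coeffLinearEquiv K).toLinearMap) z

theorem dR_smul (r : AddMonoidAlgebra K L) (z : List L →₀ AddMonoidAlgebra K L) :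
    dR K (r • z) = r • dR K z := by
  have h : ∀ y : List L →₀ AddMonoidAlgebra K L,
      Finsupp.mapRange (LinearMap.mulLeft K r) (LinearMap.mulLeft K r).map_zero y = r • y := by
    intro y
    refine Finsupp.ext fun w => ?_
    simp
  rw [← h z, ← h (dR K z)]
  exact ext_mapRange (dl K (one2 K)) (AddMonoidAlgebra K L) (U' := AddMonoidAlgebra K L)
    (LinearMap.mulLeft K r) z

theorem dK_nil (c : K) : dK K (single ([] : List L) c) = 0 := by
  rw [dK, ext_single]; simp [dl]

theorem dK_one (a : L) (c : K) : dK K (single [a] c) = 0 := by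
  rw [dK, ext_single]; simp [dl]

theorem dK_cons (a b : L) (w : List L) (c : K) :
    dK K (single (a :: b :: w) c) =
      single ((a + b) :: w) c - (dK K (single (b :: w) c)).mapDomain (List.cons a) := by
  have h1 : ∀ w : List L, dK K (single w c) = c • dl K (one2 K) w := by
    intro w
    have : single w c = c • single w (1 : K) := by simp
    rw [this, map_smul, dK, ext_single_one]
  rw [h1, h1, dl, smul_sub, Finsupp.mapDomain_smul]
  simp [one2]

theorem dR_nil (u : AddMonoidAlgebra K L) : dR K (single ([] : List L) u) = 0 := by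
  rw [dR, ext_single]; simp [dl]

theorem dR_one (a : L) (u : AddMonoidAlgebra K L) : dR K (single [a] u) = 0 := by
  rw [dR, ext_single]; simp [dl]

theorem resI_mapDomain (x : L) (f : List L → List L) (z : List L →₀ K) :
    resI K x (z.mapDomain f) = (resI K x z).mapDomain f := by
  induction z using Finsupp.induction_linear with
  | zero => simp
  | add a b ha hb => rw [Finsupp.mapDomain_add, map_add, ha, hb, map_add, Finsupp.mapDomain_add]
  | single a b => rw [Finsupp.mapDomain_single, resI_single, resI_single, Finsupp.mapDomain_single]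

theorem dR_cons (a b : L) (w : List L) (u : AddMonoidAlgebra K L) :
    dR K (single (a :: b :: w) u) =
      single ((a + b) :: w) u - (dR K (single (b :: w) u)).mapDomain (List.cons a) := by
  induction u using AddMonoidAlgebra.induction_linear with
  | zero => simp
  | add x y hx hy =>
    simp only [Finsupp.single_add, map_add, hx, hy, Finsupp.mapDomain_add]
    abel
  | single x c =>
    simp only [← resI_single, dR_resI, dK_cons, map_sub, resI_mapDomain]

theorem mu_mapDomain (a : L) (z : List L →₀ AddMonoidAlgebra K L) :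
    resMu K (z.mapDomain (List.cons a)) = AddMonoidAlgebra.single a (1 : K) • z := by
  induction z using Finsupp.induction_linear with
  | zero => simp
  | add x y hx hy => rw [Finsupp.mapDomain_add, map_add, hx, hy, smul_add]
  | single w u => rw [Finsupp.mapDomain_single, mu_cons, Finsupp.smul_single, smul_eq_mul]

/-- The two parts of the differential of the resolution: mixed terms. -/
theorem mu_mu (z : List L →₀ AddMonoidAlgebra K L) :
    resMu K (resMu K z) = resMu K (dR K z) + dR K (resMu K z) := by
  induction z using Finsupp.induction_linear with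
  | zero => simp
  | add x y hx hy =>
    simp only [map_add, hx, hy]
    abel
  | single w u =>
    match w with
    | [] => simp [mu_nil, dR_nil]
    | [a] => rw [mu_cons, mu_nil, dR_one, map_zero, dR_nil, add_zero]
    | a :: b :: w =>
      have h1 : (single (b :: w) (AddMonoidAlgebra.single a (1 : K) * u) :
          List L →₀ AddMonoidAlgebra K L) = AddMonoidAlgebra.single a (1 : K) • single (b :: w) u := by
        rw [Finsupp.smul_single, smul_eq_mul]
      rw [mu_cons, mu_cons, dR_cons, map_sub, mu_cons, mu_mapDomain, h1, dR_smul]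
      rw [← mul_assoc, AddMonoidAlgebra.single_mul_single, one_mul, add_comm b a]
      abel

/-- The contracting homotopy. -/
noncomputable def resH (K : Type) [Field K] {L : Type} [AddCommMonoid L] :
    (List L →₀ AddMonoidAlgebra K L) →ₗ[K] (List L →₀ AddMonoidAlgebra K L) := by
  classical
  exact Finsupp.lsum K fun w =>
    (Finsupp.lsum K fun x : L => if x = 0 then 0 else
      (Finsupp.lsingle (x :: w)).comp (AddMonoidAlgebra.lsingle (0 : L))).comp
        (AddMonoidAlgebra.coeffLinearEquiv K).toLinearMap

theorem resH_single_zero (w : List L) (c : K) :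
    resH K (single w (AddMonoidAlgebra.single (0 : L) c)) = 0 := by
  classical
  rw [resH, Finsupp.lsum_single]
  simp

theorem resH_single (x : L) (hx : x ≠ 0) (w : List L) (c : K) :
    resH K (single w (AddMonoidAlgebra.single x c)) = resI K 0 (single (x :: w) c) := by
  classical
  rw [resH, Finsupp.lsum_single, resI_single]
  simp [hx]

theorem resH_resI_zero (z : List L →₀ K) : resH K (resI K (0 : L) z) = 0 := by
  induction z using Finsupp.induction_linear with
  | zero => simp
  | add x y hx hy => rw [map_add, map_add, hx, hy, add_zero]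
  | single w u => rw [resI_single, resH_single_zero]

theorem resH_resI (x : L) (hx : x ≠ 0) (z : List L →₀ K) :
    resH K (resI K x z) = resI K 0 (z.mapDomain (List.cons x)) := by
  induction z using Finsupp.induction_linear with
  | zero => simp
  | add a b ha hb => rw [map_add, map_add, ha, hb, Finsupp.mapDomain_add, map_add]
  | single w u => rw [resI_single, resH_single x hx, Finsupp.mapDomain_single]

theorem mu_resI_cons (x b : L) (w : List L) (c : K) :
    resMu K (resI K x (single (b :: w) c)) = resI K (b + x) (single w c) := by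
  rw [resI_single, mu_cons, resI_single, AddMonoidAlgebra.single_mul_single, one_mul]

/-- Homotopy identity. -/
theorem resH_homotopy (hadd : ∀ x b : L, b ≠ 0 → x + b ≠ 0)
    {z : List L →₀ AddMonoidAlgebra K L}
    (hz : z ∈ Finsupp.supported (AddMonoidAlgebra K L) K {w : List L | w ≠ [] ∧ ∀ x ∈ w, x ≠ 0}) :
    resMu K (resH K z) - dR K (resH K z) = z - resH K (resMu K z - dR K z) := by
  have key := res_lin_ext (K := K)
    (((muK K).comp (resH K)) - ((dR K).comp (resH K)))
    (LinearMap.id - (resH K).comp (muK K - dR K))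
    {w : List L | w ≠ [] ∧ ∀ x ∈ w, x ≠ 0} ?_ hz
  · simpa [muK_apply] using key
  · rintro w ⟨hw, hw'⟩ u
    simp only [LinearMap.sub_apply, LinearMap.comp_apply, muK_apply, LinearMap.id_apply]
    obtain ⟨b, w, rfl⟩ := List.exists_cons_of_ne_nil hw
    have hb : b ≠ 0 := hw' b (by simp)
    induction u using AddMonoidAlgebra.induction_linear with
    | zero => simp
    | add x y hx hy =>
      simp only [Finsupp.single_add, map_add, map_sub] at hx hy ⊢
      rw [add_sub_add_comm, hx, hy]
      abel
    | single x c =>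
      by_cases hx : x = 0
      · subst hx
        rw [resH_single_zero, map_zero, map_zero, sub_zero, ← resI_single, mu_resI_cons, dR_resI,
          map_sub, resH_resI_zero, sub_zero, add_zero, resH_resI b hb, Finsupp.mapDomain_single,
          sub_self]
      · have hxb : b + x ≠ 0 := by rw [add_comm]; exact hadd x b hb
        rw [resH_single x hx, mu_resI_cons, dR_resI, dK_cons, ← resI_single, mu_resI_cons, dR_resI,
          map_sub (resH K), resH_resI x hx, resH_resI (b + x) hxb, Finsupp.mapDomain_single,
          map_sub (resI K 0), add_comm x b, add_zero]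

/-- Words of length `k` in nonzero letters. -/
def resB (L : Type) [AddCommMonoid L] (k : ℕ) : Set (List L) :=
  {w | w.length = k ∧ ∀ x ∈ w, x ≠ 0}

/-- Words of length `k` in letters of degree one. -/
def resW (deg : L →+ ℕ) (k : ℕ) : Set (List L) :=
  {w | w.length = k ∧ ∀ x ∈ w, deg x = 1}

theorem res_ne_zero {deg : L →+ ℕ} {x : L} (h : 1 ≤ deg x) : x ≠ 0 := by
  rintro rfl
  simp at h

theorem resW_wdeg (deg : L →+ ℕ) {k : ℕ} {w : List L} (hw : w ∈ resW deg k) :
    wdeg deg w = k := by
  induction w generalizing k with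
  | nil =>
    obtain ⟨h1, _⟩ := hw
    simp only [List.length_nil] at h1
    simp [wdeg, h1]
  | cons a w ih =>
    obtain ⟨h1, h2⟩ := hw
    have h3 := ih (k := k - 1) ⟨by simp at h1; omega, fun x hx => h2 x (by simp [hx])⟩
    have h4 := h2 a (by simp)
    simp only [List.length_cons] at h1
    simp only [wdeg, List.sum_cons, map_add] at h3 ⊢
    omega

theorem resW_sub_resB (deg : L →+ ℕ) (k : ℕ) : resW deg k ⊆ resB L k := by
  rintro w ⟨h1, h2⟩
  exact ⟨h1, fun x hx => res_ne_zero (by rw [h2 x hx])⟩

theorem resW_sub (deg : L →+ ℕ) (k : ℕ) :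
    resW deg k ⊆ resB L k ∩ {w | wdeg deg w = k} :=
  fun _ hw => ⟨resW_sub_resB deg _ hw, resW_wdeg deg hw⟩

theorem resB_wdeg {deg : L →+ ℕ} (h0 : ∀ x, deg x = 0 → x = 0) {k : ℕ} {w : List L}
    (hw : w ∈ resB L k) : k ≤ wdeg deg w ∧ (wdeg deg w ≤ k → w ∈ resW deg k) := by
  induction w generalizing k with
  | nil =>
    obtain ⟨h1, _⟩ := hw
    simp only [List.length_nil] at h1
    subst h1
    exact ⟨by simp, fun _ => ⟨rfl, by simp⟩⟩
  | cons a w ih =>
    obtain ⟨h1, h2⟩ := hw
    have h3 := ih (k := k - 1) ⟨by simp at h1; omega, fun x hx => h2 x (by simp [hx])⟩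
    have h4 : 1 ≤ deg a := by
      have := h2 a (by simp)
      by_contra h
      exact this (h0 a (by omega))
    simp only [List.length_cons] at h1
    have h5 : wdeg deg (a :: w) = deg a + wdeg deg w := by simp [wdeg]
    rw [h5]
    refine ⟨by omega, fun h6 => ?_⟩
    obtain ⟨h7, h8⟩ := h3
    have h9 := h8 (by omega)
    refine ⟨by simp; omega, fun x hx => ?_⟩
    rcases List.mem_cons.1 hx with rfl | hx
    · omega
    · exact h9.2 x hx

theorem resHom_eq (deg : L →+ ℕ) (k t : ℕ) :
    Hom (Wd {x : L | x ≠ 0} {x : L | x ≠ 0}) List.length (wdeg deg) (k + 1) t =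
      resB L (k + 1) ∩ {w | wdeg deg w = t} := by
  ext w
  constructor
  · rintro ⟨⟨a, v, rfl, ha, hv⟩, h1, h2⟩
    refine ⟨⟨h1, fun x hx => ?_⟩, h2⟩
    rcases List.mem_cons.1 hx with rfl | hx
    · exact ha
    · exact hv x hx
  · rintro ⟨⟨h1, h2⟩, h3⟩
    cases w with
    | nil => simp at h1
    | cons a w => exact ⟨⟨a, w, rfl, h2 a (by simp), fun x hx => h2 x (by simp [hx])⟩, h1, h3⟩

theorem resBC {deg : L →+ ℕ} (h0 : ∀ x, deg x = 0 → x = 0) :
    IsBC K (Wd {x : L | x ≠ 0} {x : L | x ≠ 0}) (dl K (one2 K)) List.length (wdeg deg) := by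
  have hp : ∀ a : L, a ≠ 0 → 1 ≤ deg a := by
    intro a ha
    by_contra h
    exact ha (h0 a (by omega))
  have hadd : ∀ a ∈ {x : L | x ≠ 0}, ∀ b ∈ {x : L | x ≠ 0}, a + b ∈ {x : L | x ≠ 0} := by
    intro a ha b _
    exact res_ne_zero (deg := deg) (by rw [map_add]; have := hp a ha; omega)
  have h := isBC_words (K := K) deg (one2 K) (one2 K) {x : L | x ≠ 0} {x : L | x ≠ 0}
    (fun a ha b hb _ => hadd a ha b hb) (fun a ha b hb _ => hadd a ha b hb) hp hp
    (fun _ _ _ _ _ _ => rfl) (fun _ _ _ _ _ _ => rfl)
  have h2 : dl0 K (one2 K) (one2 K) = dl K (one2 K) (M := L) := funext fun w => dl0_self K _ w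
  rwa [h2] at h

variable {deg : L →+ ℕ}

theorem dR_mem (h0 : ∀ x, deg x = 0 → x = 0) {k t : ℕ} {z : List L →₀ AddMonoidAlgebra K L}
    (hz : z ∈ Finsupp.supported (AddMonoidAlgebra K L) K
      (resB L (k + 2) ∩ {w | wdeg deg w = t})) :
    dR K z ∈ Finsupp.supported (AddMonoidAlgebra K L) K
      (resB L (k + 1) ∩ {w | wdeg deg w = t}) := by
  rw [← resHom_eq] at hz ⊢
  exact (resBC (K := K) h0).ext_mem (AddMonoidAlgebra K L) hz

theorem dR_dR (h0 : ∀ x, deg x = 0 → x = 0) {k : ℕ} {z : List L →₀ AddMonoidAlgebra K L}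
    (hz : z ∈ Finsupp.supported (AddMonoidAlgebra K L) K (resB L (k + 1))) :
    dR K (dR K z) = 0 := by
  refine (resBC (K := K) h0).ext_ext_eq_zero (AddMonoidAlgebra K L)
    (Finsupp.supported_mono ?_ hz)
  rintro w ⟨h1, h2⟩
  cases w with
  | nil => simp at h1
  | cons a w => exact ⟨a, w, rfl, h2 a (by simp), fun x hx => h2 x (by simp [hx])⟩

theorem dR_mem_le (h0 : ∀ x, deg x = 0 → x = 0) {k t : ℕ} {z : List L →₀ AddMonoidAlgebra K L}
    (hz : z ∈ Finsupp.supported (AddMonoidAlgebra K L) K
      (resB L (k + 2) ∩ {w | wdeg deg w ≤ t})) :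
    dR K z ∈ Finsupp.supported (AddMonoidAlgebra K L) K
      (resB L (k + 1) ∩ {w | wdeg deg w ≤ t}) := by
  refine res_map_supported (dR K) _ _ ?_ hz
  rintro w ⟨h1, h2⟩ u
  have h3 : (single w u : List L →₀ AddMonoidAlgebra K L) ∈
      Finsupp.supported (AddMonoidAlgebra K L) K
        (resB L (k + 2) ∩ {w' | wdeg deg w' = wdeg deg w}) :=
    Finsupp.single_mem_supported K u ⟨h1, rfl⟩
  refine Finsupp.supported_mono ?_ (dR_mem h0 h3)
  rintro w' ⟨h4, h5⟩
  exact ⟨h4, le_of_eq_of_le h5 h2⟩

theorem mu_mem_lt (h0 : ∀ x, deg x = 0 → x = 0) {k t : ℕ} {z : List L →₀ AddMonoidAlgebra K L}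
    (hz : z ∈ Finsupp.supported (AddMonoidAlgebra K L) K
      (resB L (k + 1) ∩ {w | wdeg deg w ≤ t})) :
    resMu K z ∈ Finsupp.supported (AddMonoidAlgebra K L) K
      (resB L k ∩ {w | wdeg deg w < t}) := by
  refine res_map_supported (muK K) _ _ ?_ hz
  rintro w ⟨⟨h1, h2⟩, h3⟩ u
  cases w with
  | nil => simp at h1
  | cons a w =>
    rw [muK_apply, mu_cons]
    refine Finsupp.single_mem_supported K _ ⟨⟨by simpa using h1, fun x hx => h2 x (by simp [hx])⟩, ?_⟩
    have h4 : 1 ≤ deg a := by
      have := h2 a (by simp)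
      by_contra h
      exact this (h0 a (by omega))
    have h5 : wdeg deg (a :: w) = deg a + wdeg deg w := by simp [wdeg]
    simp only [Set.mem_ofPred_eq] at h3 ⊢
    omega

theorem mu_mem_W {k : ℕ} {z : List L →₀ AddMonoidAlgebra K L}
    (hz : z ∈ Finsupp.supported (AddMonoidAlgebra K L) K (resW deg (k + 1))) :
    resMu K z ∈ Finsupp.supported (AddMonoidAlgebra K L) K (resW deg k) := by
  refine res_map_supported (muK K) _ _ ?_ hz
  rintro w ⟨h1, h2⟩ u
  cases w with
  | nil => simp at h1
  | cons a w =>
    rw [muK_apply, mu_cons]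
    exact Finsupp.single_mem_supported K _ ⟨by simpa using h1, fun x hx => h2 x (by simp [hx])⟩

theorem mu_W_zero {z : List L →₀ AddMonoidAlgebra K L}
    (hz : z ∈ Finsupp.supported (AddMonoidAlgebra K L) K (resW deg 0)) : resMu K z = 0 := by
  refine res_lin_ext (muK K) 0 _ ?_ hz
  rintro w ⟨h1, _⟩ u
  cases w with
  | nil => rw [muK_apply, mu_nil]; rfl
  | cons a w => simp at h1

theorem dR_W_zero {z : List L →₀ AddMonoidAlgebra K L}
    (hz : z ∈ Finsupp.supported (AddMonoidAlgebra K L) K (resW deg 0)) : dR K z = 0 := by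
  refine res_lin_ext (dR K) 0 _ ?_ hz
  rintro w ⟨h1, _⟩ u
  cases w with
  | nil => rw [dR_nil]; rfl
  | cons a w => simp at h1

theorem dR_W_one {z : List L →₀ AddMonoidAlgebra K L}
    (hz : z ∈ Finsupp.supported (AddMonoidAlgebra K L) K (resW deg 1)) : dR K z = 0 := by
  refine res_lin_ext (dR K) 0 _ ?_ hz
  rintro w ⟨h1, _⟩ u
  match w with
  | [] => simp at h1
  | [a] => rw [dR_one]; rfl
  | a :: b :: w => simp at h1

/-- The differential of the resolution maps cycles to cycles, and squares to zero. -/
theorem mu_cycle (h0 : ∀ x, deg x = 0 → x = 0) {n : ℕ} {z : List L →₀ AddMonoidAlgebra K L}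
    (hz : z ∈ Finsupp.supported (AddMonoidAlgebra K L) K (resW deg (n + 1)))
    (hd : dR K z = 0) : dR K (resMu K z) = 0 ∧ resMu K (resMu K z) = 0 := by
  have h1 := mu_mu z
  rw [hd, map_zero, zero_add] at h1
  have h2 := mu_mem_W hz
  match n, h2 with
  | 0, h2 => exact ⟨dR_W_zero h2, mu_W_zero h2⟩
  | 1, h2 => exact ⟨dR_W_one h2, by rw [h1]; exact dR_W_one h2⟩
  | m + 2, h2 =>
    have h3 : dR K (resMu K z) ∈ Finsupp.supported (AddMonoidAlgebra K L) K
        (resB L (m + 1) ∩ {w | wdeg deg w = m + 2}) :=
      dR_mem h0 (Finsupp.supported_mono (resW_sub deg _) h2)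
    have h4 : resMu K (resMu K z) ∈ Finsupp.supported (AddMonoidAlgebra K L) K (resW deg (m + 1)) :=
      mu_mem_W h2
    rw [h1] at h4
    have h5 : dR K (resMu K z) = 0 := by
      refine res_supp_disj ?_ h3 h4
      rintro w ⟨_, hw⟩ hw2
      have := resW_wdeg deg hw2
      simp only [Set.mem_ofPred_eq] at hw
      omega
    exact ⟨h5, by rw [h1, h5]⟩

/-- Pushing the word degree down. -/
theorem res_descend (h0 : ∀ x, deg x = 0 → x = 0) (hT : TV K deg {x : L | x ≠ 0}) (n : ℕ)
    {Z : List L →₀ AddMonoidAlgebra K L}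
    (hZ : Z ∈ Finsupp.supported (AddMonoidAlgebra K L) K {w | wdeg deg w = n + 1}) (N : ℕ) :
    ∀ Y ∈ Finsupp.supported (AddMonoidAlgebra K L) K
      (resB L (n + 2) ∩ {w | wdeg deg w ≤ n + 2 + N}), resMu K Y - dR K Y = Z →
    ∃ Y' ∈ Finsupp.supported (AddMonoidAlgebra K L) K
      (resB L (n + 2) ∩ {w | wdeg deg w ≤ n + 2}), resMu K Y' - dR K Y' = Z := by
  classical
  induction N with
  | zero => intro Y hY h; exact ⟨Y, hY, h⟩
  | succ N ih =>
    intro Y hY hYZ
    set Y1 := Y.filter (fun w => wdeg deg w = n + 2 + (N + 1)) with hY1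
    set Y2 := Y.filter (fun w => ¬ wdeg deg w = n + 2 + (N + 1)) with hY2
    have hsum : Y1 + Y2 = Y := Finsupp.filter_add_filter_not _ _
    have m1 : Y1 ∈ Finsupp.supported (AddMonoidAlgebra K L) K
        (resB L (n + 2) ∩ {w | wdeg deg w = n + 2 + (N + 1)}) := by
      rw [Finsupp.mem_supported]
      intro w hw
      rw [hY1, Finset.mem_coe, Finsupp.support_filter, Finset.mem_filter] at hw
      exact ⟨(hY hw.1).1, hw.2⟩
    have m2 : Y2 ∈ Finsupp.supported (AddMonoidAlgebra K L) K
        (resB L (n + 2) ∩ {w | wdeg deg w ≤ n + 2 + N}) := by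
      rw [Finsupp.mem_supported]
      intro w hw
      rw [hY2, Finset.mem_coe, Finsupp.support_filter, Finset.mem_filter] at hw
      refine ⟨(hY hw.1).1, ?_⟩
      have h1 := (hY hw.1).2
      have h2 := hw.2
      simp only [Set.mem_ofPred_eq] at h1 ⊢
      omega
    have d1 : dR K Y1 = 0 := by
      have a1 : dR K Y1 ∈ Finsupp.supported (AddMonoidAlgebra K L) K
          {w | wdeg deg w = n + 2 + (N + 1)} :=
        Finsupp.supported_mono Set.inter_subset_right (dR_mem h0 m1)
      have a2 : dR K Y1 = resMu K Y - Z - dR K Y2 := by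
        have : dR K Y = dR K Y1 + dR K Y2 := by rw [← map_add, hsum]
        rw [← hYZ, this]
        abel
      have a3 : resMu K Y ∈ Finsupp.supported (AddMonoidAlgebra K L) K
          {w | wdeg deg w < n + 2 + (N + 1)} :=
        Finsupp.supported_mono Set.inter_subset_right (mu_mem_lt h0 hY)
      have a4 : Z ∈ Finsupp.supported (AddMonoidAlgebra K L) K
          {w | wdeg deg w < n + 2 + (N + 1)} := by
        refine Finsupp.supported_mono ?_ hZ
        intro w hw
        simp only [Set.mem_ofPred_eq] at hw ⊢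
        omega
      have a5 : dR K Y2 ∈ Finsupp.supported (AddMonoidAlgebra K L) K
          {w | wdeg deg w < n + 2 + (N + 1)} := by
        refine Finsupp.supported_mono ?_ (dR_mem_le h0 m2)
        rintro w ⟨_, hw⟩
        simp only [Set.mem_ofPred_eq] at hw ⊢
        omega
      have a6 : dR K Y1 ∈ Finsupp.supported (AddMonoidAlgebra K L) K
          {w | wdeg deg w < n + 2 + (N + 1)} := by
        rw [a2]
        exact Submodule.sub_mem _ (Submodule.sub_mem _ a3 a4) a5
      refine res_supp_disj ?_ a1 a6
      intro w hw hw2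
      simp only [Set.mem_ofPred_eq] at hw hw2
      omega
    have hT' := hT (n + 2 + (N + 1))
    rw [TVX] at hT'
    have h2 : dl0 K (one2 K) (one2 K) = dl K (one2 K) (M := L) := funext fun w => dl0_self K _ w
    rw [h2] at hT'
    obtain ⟨u, hu, hu2⟩ := hT' (AddMonoidAlgebra K L) (n + 2) (by omega) Y1
      (by rw [resHom_eq]; exact m1) d1
    rw [resHom_eq] at hu
    have hu3 : dR K u = Y1 := hu2
    have hmu : resMu K u ∈ Finsupp.supported (AddMonoidAlgebra K L) K
        (resB L (n + 2) ∩ {w | wdeg deg w < n + 2 + (N + 1)}) := by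
      refine mu_mem_lt h0 (Finsupp.supported_mono ?_ hu)
      rintro w ⟨hw1, hw2⟩
      exact ⟨hw1, le_of_eq hw2⟩
    refine ih (Y2 + resMu K u) ?_ ?_
    · refine Submodule.add_mem _ m2 (Finsupp.supported_mono ?_ hmu)
      rintro w ⟨hw1, hw2⟩
      refine ⟨hw1, ?_⟩
      simp only [Set.mem_ofPred_eq] at hw2 ⊢
      omega
    · have e1 : Y2 + resMu K u = Y + (resMu K u - dR K u) := by rw [hu3, ← hsum]; abel
      have e2 : dR K (dR K u) = 0 :=
        dR_dR h0 (Finsupp.supported_mono Set.inter_subset_left hu)
      rw [e1, map_add, map_add, map_sub, map_sub, mu_mu, e2, ← hYZ]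
      abel

/-- Exactness of the resolution. -/
theorem mu_exact (h0 : ∀ x, deg x = 0 → x = 0) (hT : TV K deg {x : L | x ≠ 0}) (n : ℕ)
    {Z : List L →₀ AddMonoidAlgebra K L}
    (hZ : Z ∈ Finsupp.supported (AddMonoidAlgebra K L) K (resW deg (n + 1)))
    (hd : dR K Z = 0) (hm : resMu K Z = 0) :
    ∃ Y ∈ Finsupp.supported (AddMonoidAlgebra K L) K (resW deg (n + 2)),
      dR K Y = 0 ∧ resMu K Y = Z := by
  classical
  have hp : ∀ a : L, a ≠ 0 → 1 ≤ deg a := by
    intro a ha
    by_contra h
    exact ha (h0 a (by omega))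
  have hadd : ∀ x b : L, b ≠ 0 → x + b ≠ 0 := by
    intro x b hb
    exact res_ne_zero (deg := deg) (by rw [map_add]; have := hp b hb; omega)
  have h1 := resH_homotopy (K := K) hadd (z := Z) (Finsupp.supported_mono (by
    rintro w ⟨hw1, hw2⟩
    refine ⟨by rintro rfl; simp at hw1, fun x hx => res_ne_zero (deg := deg) (by rw [hw2 x hx])⟩) hZ)
  rw [hd, hm, sub_zero, map_zero, sub_zero] at h1
  -- support of the homotopy
  have h2 : resH K Z ∈ Finsupp.supported (AddMonoidAlgebra K L) K (resB L (n + 2)) := by
    refine res_map_supported (resH K) _ _ ?_ hZ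
    rintro w hw u
    have hw' := resW_sub_resB deg _ hw
    induction u using AddMonoidAlgebra.induction_linear with
    | zero => simp
    | add x y hx hy =>
      rw [Finsupp.single_add, map_add]
      exact Submodule.add_mem _ hx hy
    | single x c =>
      by_cases hx : x = 0
      · subst hx
        rw [resH_single_zero]
        exact Submodule.zero_mem _
      · rw [resH_single x hx, resI_single]
        refine Finsupp.single_mem_supported K _ ⟨by simp [hw'.1], fun y hy => ?_⟩
        rcases List.mem_cons.1 hy with rfl | hy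
        · exact hx
        · exact hw'.2 y hy
  -- a bound on the degree
  obtain ⟨N, hN⟩ : ∃ N, resH K Z ∈ Finsupp.supported (AddMonoidAlgebra K L) K
      (resB L (n + 2) ∩ {w | wdeg deg w ≤ n + 2 + N}) := by
    refine ⟨(resH K Z).support.sup (wdeg deg), ?_⟩
    rw [Finsupp.mem_supported]
    intro w hw
    refine ⟨h2 hw, ?_⟩
    have := Finset.le_sup (f := wdeg deg) (Finset.mem_coe.1 hw)
    simp only [Set.mem_ofPred_eq]
    omega
  obtain ⟨Y, hY, hYZ⟩ := res_descend h0 hT n
    (Finsupp.supported_mono (fun w hw => resW_wdeg deg hw) hZ) N _ hN h1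
  have hYW : Y ∈ Finsupp.supported (AddMonoidAlgebra K L) K (resW deg (n + 2)) := by
    refine Finsupp.supported_mono ?_ hY
    rintro w ⟨hw1, hw2⟩
    exact (resB_wdeg h0 hw1).2 hw2
  have hdY : dR K Y = 0 := by
    have a1 : dR K Y ∈ Finsupp.supported (AddMonoidAlgebra K L) K {w | wdeg deg w = n + 2} :=
      Finsupp.supported_mono Set.inter_subset_right
        (dR_mem h0 (Finsupp.supported_mono (resW_sub deg _) hYW))
    have a2 : dR K Y ∈ Finsupp.supported (AddMonoidAlgebra K L) K (resW deg (n + 1)) := by
      have : dR K Y = resMu K Y - Z := by rw [← hYZ]; abel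
      rw [this]
      exact Submodule.sub_mem _ (mu_mem_W hYW) hZ
    refine res_supp_disj ?_ a1 a2
    intro w hw hw2
    have := resW_wdeg deg hw2
    simp only [Set.mem_ofPred_eq] at hw
    omega
  refine ⟨Y, hYW, hdY, ?_⟩
  rw [hdY, sub_zero] at hYZ
  exact hYZ

/-- Finiteness of the set of words. -/
theorem resW_finite (hfin : {b : L | deg b = 1}.Finite) (k : ℕ) : (resW deg k).Finite := by
  induction k with
  | zero =>
    refine (Set.finite_singleton ([] : List L)).subset ?_
    rintro w ⟨h1, _⟩
    simpa using List.length_eq_zero_iff.1 h1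
  | succ k ih =>
    refine ((hfin.prod ih).image (fun p : L × List L => p.1 :: p.2)).subset ?_
    rintro w ⟨h1, h2⟩
    cases w with
    | nil => simp at h1
    | cons a w =>
      exact ⟨(a, w), ⟨h2 a (by simp), ⟨by simpa using h1, fun x hx => h2 x (by simp [hx])⟩⟩, rfl⟩

variable (K deg)

/-- Diagonal cycles. -/
noncomputable def resV (k : ℕ) : Submodule K (List L →₀ K) :=
  Finsupp.supported K K (resW deg k) ⊓ LinearMap.ker (dK K)

variable {K deg}

theorem resV_finite (hfin : {b : L | deg b = 1}.Finite) (k : ℕ) :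
    Module.Finite K (resV K deg k) := by
  have h1 : (Finsupp.supported K K (resW deg k)).FG := by
    rw [Finsupp.supported_eq_span_single]
    exact Submodule.fg_span ((resW_finite hfin k).image _)
  have h2 : Module.Finite K (Finsupp.supported K K (resW deg k)) := Module.Finite.iff_fg.2 h1
  exact Submodule.finiteDimensional_of_le (inf_le_left (b := LinearMap.ker (dK K)))

/-- Rank of the modules of the resolution. -/
noncomputable def resr (K : Type) [Field K] {L : Type} [AddCommMonoid L] (deg : L →+ ℕ)
    (k : ℕ) : ℕ := Module.finrank K (resV K deg k)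

/-- Basis of the space of diagonal cycles. -/
noncomputable def rese (K : Type) [Field K] {L : Type} [AddCommMonoid L] (deg : L →+ ℕ)
    (hfin : {b : L | deg b = 1}.Finite) (k : ℕ) :
    Module.Basis (Fin (resr K deg k)) K (resV K deg k) :=
  haveI := resV_finite (K := K) hfin k
  haveI : Module.Free K (resV K deg k) := Module.Free.of_divisionRing K (resV K deg k)
  Module.finBasis K (resV K deg k)

/-- The free module of the resolution as a module of chains. -/
noncomputable def resPhi (K : Type) [Field K] {L : Type} [AddCommMonoid L] (deg : L →+ ℕ)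
    (hfin : {b : L | deg b = 1}.Finite) (k : ℕ) :
    (Fin (resr K deg k) → AddMonoidAlgebra K L) →ₗ[AddMonoidAlgebra K L]
      (List L →₀ AddMonoidAlgebra K L) :=
  Fintype.linearCombination (AddMonoidAlgebra K L)
    (fun p => resI K 0 (rese K deg hfin k p : List L →₀ K))

theorem resPhi_apply (hfin : {b : L | deg b = 1}.Finite) (k : ℕ)
    (v : Fin (resr K deg k) → AddMonoidAlgebra K L) :
    resPhi K deg hfin k v = ∑ p, v p • resI K 0 (rese K deg hfin k p : List L →₀ K) := by
  simp [resPhi, Fintype.linearCombination_apply]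

theorem resC_smul_resI (x : L) (r : AddMonoidAlgebra K L) (z : List L →₀ K) :
    resC K x (r • resI K 0 z) = r.coeff x • z := by
  refine Finsupp.ext fun w => ?_
  rw [resC_apply, Finsupp.smul_apply, resI_apply, smul_eq_mul,
    AddMonoidAlgebra.coeff_mul_single_zero, Finsupp.smul_apply, smul_eq_mul]

theorem resC_resPhi (hfin : {b : L | deg b = 1}.Finite) (k : ℕ) (x : L)
    (v : Fin (resr K deg k) → AddMonoidAlgebra K L) :
    resC K x (resPhi K deg hfin k v) =
      ∑ p, (v p).coeff x • (rese K deg hfin k p : List L →₀ K) := by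
  rw [resPhi_apply, map_sum]
  exact Finset.sum_congr rfl fun p _ => resC_smul_resI x _ _

theorem res_coeff_zero (hfin : {b : L | deg b = 1}.Finite) (k : ℕ) (x : L)
    (v : Fin (resr K deg k) → AddMonoidAlgebra K L)
    (h : resC K x (resPhi K deg hfin k v) = 0) (p : Fin (resr K deg k)) :
    (v p).coeff x = 0 := by
  rw [resC_resPhi] at h
  have h1 : ∑ p, (v p).coeff x • rese K deg hfin k p = 0 := by
    apply Subtype.ext
    rw [Submodule.coe_zero, ← h, Submodule.coe_sum]
    exact Finset.sum_congr rfl fun p _ => Submodule.coe_smul _ _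
  have h2 := (rese K deg hfin k).repr_sum_self (fun p => (v p).coeff x)
  rw [h1, map_zero] at h2
  exact (congrFun h2 p).symm

theorem resPhi_inj (hfin : {b : L | deg b = 1}.Finite) (k : ℕ) :
    Function.Injective (resPhi K deg hfin k) := by
  rw [← LinearMap.ker_eq_bot, LinearMap.ker_eq_bot']
  intro v hv
  funext p
  refine AddMonoidAlgebra.ext (Finsupp.ext fun x => ?_)
  exact res_coeff_zero hfin k x v (by rw [hv, map_zero]) p

theorem resI_mem (x : L) (k : ℕ) {z : List L →₀ K} (hz : z ∈ resV K deg k) :
    resI K x z ∈ Finsupp.supported (AddMonoidAlgebra K L) K (resW deg k) ∧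
      dR K (resI K x z) = 0 := by
  constructor
  · refine res_map_supported (resI K x) _ _ ?_ hz.1
    intro w hw u
    rw [resI_single]
    exact Finsupp.single_mem_supported K _ hw
  · have := hz.2
    rw [dR_resI, LinearMap.mem_ker.1 this, map_zero]

theorem res_smul_supported {X : Set (List L)} (r : AddMonoidAlgebra K L)
    {z : List L →₀ AddMonoidAlgebra K L}
    (hz : z ∈ Finsupp.supported (AddMonoidAlgebra K L) K X) :
    r • z ∈ Finsupp.supported (AddMonoidAlgebra K L) K X := by
  rw [Finsupp.mem_supported] at hz ⊢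
  intro w hw
  refine hz ?_
  rw [Finset.mem_coe, Finsupp.mem_support_iff] at hw ⊢
  intro h
  exact hw (by rw [Finsupp.smul_apply, h, smul_zero])

theorem resPhi_mem (hfin : {b : L | deg b = 1}.Finite) (k : ℕ)
    (v : Fin (resr K deg k) → AddMonoidAlgebra K L) :
    resPhi K deg hfin k v ∈ Finsupp.supported (AddMonoidAlgebra K L) K (resW deg k) ∧
      dR K (resPhi K deg hfin k v) = 0 := by
  rw [resPhi_apply]
  constructor
  · exact Submodule.sum_mem _ fun p _ => res_smul_supported _
      (resI_mem 0 k (rese K deg hfin k p).2).1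
  · rw [map_sum]
    refine Finset.sum_eq_zero fun p _ => ?_
    rw [dR_smul, (resI_mem 0 k (rese K deg hfin k p).2).2, smul_zero]

theorem res_smul_resI (x : L) (c : K) (z : List L →₀ K) :
    (AddMonoidAlgebra.single x c : AddMonoidAlgebra K L) • resI K 0 z = resI K x (c • z) := by
  refine Finsupp.ext fun w => ?_
  rw [Finsupp.smul_apply, resI_apply, resI_apply, smul_eq_mul,
    AddMonoidAlgebra.single_mul_single, add_zero, Finsupp.smul_apply, smul_eq_mul]

theorem resPhi_range (hfin : {b : L | deg b = 1}.Finite) (k : ℕ)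
    {Z : List L →₀ AddMonoidAlgebra K L}
    (hZ : Z ∈ Finsupp.supported (AddMonoidAlgebra K L) K (resW deg k)) (hd : dR K Z = 0) :
    ∃ v, resPhi K deg hfin k v = Z := by
  classical
  have h1 : ∀ x, resC K x Z ∈ resV K deg k := by
    intro x
    refine ⟨?_, ?_⟩
    · refine res_map_supported (resC K x) _ _ ?_ hZ
      intro w hw u
      have : resC K x (single w u) = single w (u.coeff x) := by simp [resC]
      rw [this]
      exact Finsupp.single_mem_supported K _ hw
    · rw [SetLike.mem_coe, LinearMap.mem_ker, dK_resC, hd, map_zero]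
  set F : Finset L := Z.support.biUnion (fun w => (Z w).coeff.support) with hF
  have h2 : Z = ∑ x ∈ F, resI K x (resC K x Z) := by
    refine Finsupp.ext fun w => ?_
    rw [Finsupp.finsetSum_apply]
    simp only [resI_apply, resC_apply]
    by_cases hw : w ∈ Z.support
    · have h3 : Z w = ∑ x ∈ (Z w).coeff.support, AddMonoidAlgebra.single x ((Z w).coeff x) :=
        (AddMonoidAlgebra.sum_coeff_single (Z w)).symm
      conv_lhs => rw [h3]
      refine Finset.sum_subset ?_ ?_
      · intro x hx
        rw [hF, Finset.mem_biUnion]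
        exact ⟨w, hw, hx⟩
      · intro x _ hx
        rw [Finsupp.notMem_support_iff.1 hx, AddMonoidAlgebra.single_zero]
    · rw [Finsupp.notMem_support_iff.1 hw]
      simp
  have h3 : Z ∈ LinearMap.range (resPhi K deg hfin k) := by
    rw [h2]
    refine Submodule.sum_mem _ fun x _ => ?_
    refine ⟨fun p => AddMonoidAlgebra.single x ((rese K deg hfin k).repr ⟨_, h1 x⟩ p), ?_⟩
    rw [resPhi_apply]
    simp only [res_smul_resI]
    rw [← map_sum]
    congr 1
    have h4 := (rese K deg hfin k).sum_repr ⟨_, h1 x⟩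
    have h5 := congrArg Subtype.val h4
    rw [← Submodule.coe_subtype, map_sum] at h5
    simpa using h5
  exact h3

/-- The columns of the matrices of the resolution. -/
theorem resA_exists (h0 : ∀ x, deg x = 0 → x = 0) (hfin : {b : L | deg b = 1}.Finite) (k : ℕ)
    (q : Fin (resr K deg (k + 1))) :
    ∃ v, resPhi K deg hfin k v = resMu K (resI K 0 (rese K deg hfin (k + 1) q : List L →₀ K)) := by
  have h1 := resI_mem (K := K) (deg := deg) 0 (k + 1) (rese K deg hfin (k + 1) q).2
  exact resPhi_range hfin k (mu_mem_W h1.1) (mu_cycle h0 h1.1 h1.2).1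

/-- The matrices of the resolution. -/
noncomputable def resA (h0 : ∀ x, deg x = 0 → x = 0) (hfin : {b : L | deg b = 1}.Finite)
    (k : ℕ) : Matrix (Fin (resr K deg k)) (Fin (resr K deg (k + 1))) (AddMonoidAlgebra K L) :=
  fun p q => (resA_exists (K := K) h0 hfin k q).choose p

theorem resA_spec (h0 : ∀ x, deg x = 0 → x = 0) (hfin : {b : L | deg b = 1}.Finite) (k : ℕ)
    (q : Fin (resr K deg (k + 1))) :
    resPhi K deg hfin k (fun p => resA (K := K) h0 hfin k p q) =
      resMu K (resI K 0 (rese K deg hfin (k + 1) q : List L →₀ K)) :=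
  (resA_exists (K := K) h0 hfin k q).choose_spec

theorem resA_mulVec (h0 : ∀ x, deg x = 0 → x = 0) (hfin : {b : L | deg b = 1}.Finite) (k : ℕ)
    (v : Fin (resr K deg (k + 1)) → AddMonoidAlgebra K L) :
    resPhi K deg hfin k ((resA (K := K) h0 hfin k).mulVec v) =
      resMu K (resPhi K deg hfin (k + 1) v) := by
  have h1 : (resA (K := K) h0 hfin k).mulVec v =
      ∑ q, v q • (fun p => resA (K := K) h0 hfin k p q) := by
    funext p
    rw [Matrix.mulVec, dotProduct, Finset.sum_apply]
    refine Finset.sum_congr rfl fun q _ => ?_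
    rw [Pi.smul_apply, smul_eq_mul, mul_comm]
  rw [h1, map_sum, resPhi_apply, map_sum]
  refine Finset.sum_congr rfl fun q _ => ?_
  rw [map_smul, map_smul, resA_spec]

end ResAux

variable (K : Type) [Field K] (L : Type) [AddCommMonoid L] (deg : L →+ ℕ)

/-- Linear forms of a graded monoid algebra. -/
noncomputable def linForms : Submodule K (AddMonoidAlgebra K L) :=
  Submodule.span K {x | ∃ b, deg b = 1 ∧ x = AddMonoidAlgebra.single b 1}

theorem resA_lin (h0 : ∀ x, deg x = 0 → x = 0) (hfin : {b : L | deg b = 1}.Finite)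
    (k : ℕ) (p : Fin (resr K deg k)) (q : Fin (resr K deg (k + 1))) :
    resA (K := K) h0 hfin k p q ∈ linForms K L deg := by
  classical
  have h1 : ∀ x, deg x ≠ 1 → (resA (K := K) h0 hfin k p q).coeff x = 0 := by
    intro x hx
    refine res_coeff_zero hfin k x (fun p => resA (K := K) h0 hfin k p q) ?_ p
    rw [resA_spec]
    refine res_lin_ext ((resC K x).comp ((muK K).comp (resI K 0))) 0 (resW deg (k + 1)) ?_
      (rese K deg hfin (k + 1) q).2.1
    rintro w ⟨hw1, hw2⟩ u
    cases w with
    | nil => simp at hw1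
    | cons b w =>
      have hb : b ≠ x := by
        rintro rfl
        exact hx (hw2 b (by simp))
      rw [LinearMap.comp_apply, LinearMap.comp_apply, muK_apply, mu_resI_cons, add_zero,
        resI_single]
      refine Finsupp.ext fun w' => ?_
      rw [resC_apply]
      by_cases hw' : w = w'
      · subst hw'
        simp [Finsupp.single_eq_of_ne hb.symm]
      · rw [Finsupp.single_eq_of_ne (Ne.symm hw')]
        simp
  rw [← AddMonoidAlgebra.sum_coeff_single (resA (K := K) h0 hfin k p q)]
  refine Submodule.sum_mem _ fun x hx => ?_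
  have h2 : deg x = 1 := by
    by_contra h
    exact (Finsupp.mem_support_iff.1 hx) (h1 x h)
  have h3 : (AddMonoidAlgebra.single x ((resA (K := K) h0 hfin k p q).coeff x) :
      AddMonoidAlgebra K L) = ((resA (K := K) h0 hfin k p q).coeff x) •
        AddMonoidAlgebra.single x (1 : K) := by
    rw [AddMonoidAlgebra.smul_single, smul_eq_mul, mul_one]
  rw [h3]
  exact Submodule.smul_mem _ _ (Submodule.subset_span ⟨x, h2, rfl⟩)

theorem resr_zero : resr K deg 0 = 1 := by
  have h1 : resV K deg 0 = Submodule.span K {(Finsupp.single ([] : List L) (1 : K) : List L →₀ K)} := by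
    have h2 : (resW deg 0 : Set (List L)) = {[]} := by
      ext w
      constructor
      · rintro ⟨h, _⟩
        simpa using List.length_eq_zero_iff.1 h
      · rintro rfl
        exact ⟨rfl, by simp⟩
    rw [resV, h2, inf_eq_left.2, Finsupp.supported_eq_span_single, Set.image_singleton]
    intro z hz
    rw [LinearMap.mem_ker]
    refine res_lin_ext (dK K) 0 _ ?_ hz
    rintro w rfl u
    rw [dK_nil]; rfl
  rw [resr, h1]
  exact finrank_span_singleton (by simp)

/-- Off-diagonal exactness of the bar complex implies Koszulness. -/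
theorem koszul_of_TV (h0 : ∀ x, deg x = 0 → x = 0) (hfin : {b : L | deg b = 1}.Finite)
    (hgen : AddSubmonoid.closure {b : L | deg b = 1} = ⊤) (hT : TV K deg {x : L | x ≠ 0}) :
    IsKoszulAlg K (AddMonoidAlgebra K L) (linForms K L deg) := by
  classical
  refine ⟨resr K deg, fun k => resA h0 hfin k, resr_zero K L deg,
    fun k p q => resA_lin K L deg h0 hfin k p q, ?_, ?_⟩
  · intro v
    constructor
    · intro hv
      have h1 : ∀ (p : Fin (resr K deg 0)) (b : L), deg b = 1 →
          Pi.single p (AddMonoidAlgebra.single b (1 : K)) ∈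
            LinearMap.range (Matrix.mulVecLin (resA (K := K) h0 hfin 0)) := by
        intro p b hb
        set e : List L →₀ K := (rese K deg hfin 0 p : List L →₀ K) with he
        have he2 : e ∈ Finsupp.supported K K (resW deg 0) := (rese K deg hfin 0 p).2.1
        have he3 : e = Finsupp.single [] (e []) := by
          refine Finsupp.ext fun w => ?_
          by_cases hw : w = []
          · subst hw; simp
          · rw [Finsupp.single_eq_of_ne hw]
            by_contra hne
            have := he2 (Finset.mem_coe.2 (Finsupp.mem_support_iff.2 hne))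
            exact hw (List.length_eq_zero_iff.1 this.1)
        have h2 : resI K 0 (Finsupp.single [b] (e [])) ∈
            Finsupp.supported (AddMonoidAlgebra K L) K (resW deg 1) := by
          rw [resI_single]
          exact Finsupp.single_mem_supported K _ ⟨rfl, by simpa using hb⟩
        obtain ⟨w, hw⟩ := resPhi_range hfin 1 h2 (dR_W_one h2)
        refine ⟨w, ?_⟩
        apply resPhi_inj hfin 0
        rw [Matrix.mulVecLin_apply, resA_mulVec, hw, mu_resI_cons, resPhi_apply]
        rw [Finset.sum_eq_single p]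
        · rw [Pi.single_eq_same, ← he, add_zero, res_smul_resI, one_smul, ← he3]
        · intro q _ hq
          rw [Pi.single_eq_of_ne hq, zero_smul]
        · intro h; exact absurd (Finset.mem_univ p) h
      have h2 : ∀ (p : Fin (resr K deg 0)) (r : AddMonoidAlgebra K L),
          r ∈ Ideal.span ((linForms K L deg : Submodule K (AddMonoidAlgebra K L)) :
            Set (AddMonoidAlgebra K L)) →
          Pi.single p r ∈ LinearMap.range (Matrix.mulVecLin (resA (K := K) h0 hfin 0)) := by
        intro p r hr
        refine Submodule.span_induction (p := fun r _ => Pi.single p r ∈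
          LinearMap.range (Matrix.mulVecLin (resA (K := K) h0 hfin 0))) ?_ ?_ ?_ ?_ hr
        · intro x hx
          refine Submodule.span_induction (p := fun r _ => Pi.single p r ∈
            LinearMap.range (Matrix.mulVecLin (resA (K := K) h0 hfin 0))) ?_ ?_ ?_ ?_ hx
          · rintro y ⟨b, hb, rfl⟩
            exact h1 p b hb
          · rw [Pi.single_zero]; exact Submodule.zero_mem _
          · intro a b _ _ ha hb
            rw [Pi.single_add]; exact Submodule.add_mem _ ha hb
          · intro c a _ ha
            have : (Pi.single p (c • a) : Fin (resr K deg 0) → AddMonoidAlgebra K L) =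
                (AddMonoidAlgebra.single (0 : L) c) • Pi.single p a := by
              rw [← Pi.single_smul]
              congr 1
              refine AddMonoidAlgebra.ext (Finsupp.ext fun x => ?_)
              rw [smul_eq_mul, AddMonoidAlgebra.coeff_single_zero_mul,
                AddMonoidAlgebra.coeff_smul, Finsupp.smul_apply, smul_eq_mul]
            rw [this]
            exact Submodule.smul_mem _ _ ha
        · rw [Pi.single_zero]; exact Submodule.zero_mem _
        · intro a b _ _ ha hb
          rw [Pi.single_add]; exact Submodule.add_mem _ ha hb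
        · intro c a _ ha
          rw [Pi.single_smul]
          exact Submodule.smul_mem _ _ ha
      have h3 : v ∈ LinearMap.range (Matrix.mulVecLin (resA (K := K) h0 hfin 0)) := by
        have : v = ∑ p, Pi.single p (v p) := by
          funext q
          rw [Finset.sum_apply, Finset.sum_pi_single]
          simp
        rw [this]
        exact Submodule.sum_mem _ fun p _ => h2 p _ (hv p)
      obtain ⟨w, hw⟩ := h3
      exact ⟨w, hw.symm⟩
    · rintro ⟨w, rfl⟩ p
      rw [Matrix.mulVec, dotProduct]
      refine Ideal.sum_mem _ fun q _ => ?_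
      exact Ideal.mul_mem_right _ _ (Ideal.subset_span (resA_lin K L deg h0 hfin 0 p q))
  · intro k v
    constructor
    · intro hv
      have h1 := resPhi_mem hfin (k + 1) v
      have h2 : resMu K (resPhi K deg hfin (k + 1) v) = 0 := by
        rw [← resA_mulVec h0, hv, map_zero]
      obtain ⟨Y, hY, hY2, hY3⟩ := mu_exact h0 hT k h1.1 h1.2 h2
      obtain ⟨w, hw⟩ := resPhi_range hfin (k + 2) hY hY2
      refine ⟨w, ?_⟩
      apply resPhi_inj hfin (k + 1)
      rw [resA_mulVec, hw, hY3]
    · rintro ⟨w, rfl⟩
      apply resPhi_inj hfin k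
      have h1 := resPhi_mem hfin (k + 2) w
      rw [resA_mulVec, resA_mulVec, map_zero]
      exact (mu_cycle h0 h1.1 h1.2).2

end MP7ea278
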