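import Pool.Agent.Lib.MP_7ea278_ag.RingCongr
import Pool.Agent.Lib.MP_7ea278_ag.Res1

namespace MP7ea278

/-- The monoid generated by the bases, at height one. -/
def LB {n : ℕ} (B : Finset (Fin n → ℕ)) : AddSubmonoid (ℕ × (Fin n → ℕ)) :=
  AddSubmonoid.closure ((fun b => ((1 : ℕ), b)) '' (B : Set (Fin n → ℕ)))

/-- The height on that monoid. -/
def degLB {n : ℕ} (B : Finset (Fin n → ℕ)) : LB B →+ ℕ :=
  (AddMonoidHom.fst ℕ (Fin n → ℕ)).comp (LB B).subtype

private theorem bri_mem {n : ℕ} (B : Finset (Fin n → ℕ)) (b : B) :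
    ((1 : ℕ), (b : Fin n → ℕ)) ∈ LB B := AddSubmonoid.subset_closure ⟨b, b.2, rfl⟩

private theorem bri_height {n : ℕ} (B : Finset (Fin n → ℕ)) {x : ℕ × (Fin n → ℕ)}
    (hx : x ∈ LB B) : (x.1 = 0 → x = 0) ∧ (x.1 = 1 → x.2 ∈ B) := by
  unfold LB at hx
  induction hx using AddSubmonoid.closure_induction with
  | mem x hx =>
    obtain ⟨b, hb, rfl⟩ := hx
    exact ⟨fun h => absurd h one_ne_zero, fun _ => hb⟩
  | zero => exact ⟨fun _ => rfl, fun h => absurd h zero_ne_one⟩
  | add x y _ _ ihx ihy =>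
    constructor
    · intro h
      have h' : x.1 + y.1 = 0 := h
      rw [ihx.1 (by omega), ihy.1 (by omega), add_zero]
    · intro h
      have h' : x.1 + y.1 = 1 := h
      rcases Nat.eq_zero_or_pos x.1 with h0 | h0
      · rw [ihx.1 h0, zero_add]
        exact ihy.2 (by omega)
      · have hy0 : y.1 = 0 := by omega
        rw [ihy.1 hy0, add_zero]
        exact ihx.2 (by omega)

private theorem bri_sum {n : ℕ} (B : Finset (Fin n → ℕ)) (d : ℕ) (hB : ∀ b ∈ B, ∑ i, b i = d)
    {x : ℕ × (Fin n → ℕ)} (hx : x ∈ LB B) : ∑ i, x.2 i = x.1 * d := by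
  unfold LB at hx
  induction hx using AddSubmonoid.closure_induction with
  | mem x hx =>
    obtain ⟨b, hb, rfl⟩ := hx
    rw [one_mul]
    exact hB b hb
  | zero => simp
  | add x y _ _ ihx ihy =>
    rw [Prod.fst_add, Prod.snd_add, add_mul, ← ihx, ← ihy, ← Finset.sum_add_distrib]
    rfl

/-- the monomial presentation of the monoid algebra -/
noncomputable def briPhi (K : Type) [Field K] {n : ℕ} (B : Finset (Fin n → ℕ)) :
    MvPolynomial B K →ₐ[K] AddMonoidAlgebra K (LB B) :=
  MvPolynomial.aeval fun b => AddMonoidAlgebra.single (⟨_, bri_mem B b⟩ : LB B) 1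

private theorem bri_single (K : Type) [Field K] {n : ℕ} (B : Finset (Fin n → ℕ)) :
    ∀ x (hx : x ∈ LB B), AddMonoidAlgebra.single (⟨x, hx⟩ : LB B) (1 : K) ∈ (briPhi K B).range := by
  intro x hx
  unfold LB at hx
  induction hx using AddSubmonoid.closure_induction with
  | mem x hx =>
    obtain ⟨b, hb, rfl⟩ := hx
    refine ⟨MvPolynomial.X ⟨b, hb⟩, ?_⟩
    simp [briPhi]
  | zero => exact one_mem _
  | add x y hx hy ihx ihy =>
    have h := mul_mem ihx ihy
    rw [AddMonoidAlgebra.single_mul_single, one_mul] at h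
    exact h

private theorem bri_surj (K : Type) [Field K] {n : ℕ} (B : Finset (Fin n → ℕ)) :
    Function.Surjective (briPhi K B) := by
  intro f
  have h : f ∈ (briPhi K B).range := by
    induction f using AddMonoidAlgebra.induction_linear with
    | zero => exact zero_mem _
    | add f g hf hg => exact add_mem hf hg
    | single m a =>
      have h1 : AddMonoidAlgebra.single m a = a • AddMonoidAlgebra.single m (1 : K) := by
        simp
      rw [h1]
      exact Subalgebra.smul_mem _ (bri_single K B m.1 m.2) a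
  exact h

/-- the exponent of a monomial -/
noncomputable def briG {n : ℕ} (B : Finset (Fin n → ℕ)) : LB B →+ (Fin n →₀ ℕ) where
  toFun x := Finsupp.equivFunOnFinite.symm x.1.2
  map_zero' := by
    ext i
    rfl
  map_add' x y := by
    ext i
    rfl

private theorem bri_inj {n : ℕ} (B : Finset (Fin n → ℕ)) (d : ℕ) (hd : 0 < d)
    (hB : ∀ b ∈ B, ∑ i, b i = d) : Function.Injective (briG B) := by
  intro x y hxy
  have h1 : x.1.2 = y.1.2 := Finsupp.equivFunOnFinite.symm.injective hxy
  have h2 := bri_sum B d hB x.2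
  have h3 := bri_sum B d hB y.2
  rw [h1, h3] at h2
  exact Subtype.ext (Prod.ext (Nat.eq_of_mul_eq_mul_right hd h2).symm h1)

private theorem bri_comp (K : Type) [Field K] {n : ℕ} (B : Finset (Fin n → ℕ)) :
    (AddMonoidAlgebra.mapDomainAlgHom K K (briG B)).comp (briPhi K B) = toricMap K B := by
  apply MvPolynomial.algHom_ext
  intro b
  have h1 : toricMap K B (MvPolynomial.X b) =
      MvPolynomial.monomial (Finsupp.equivFunOnFinite.symm (b : Fin n → ℕ)) (1 : K) := by
    unfold toricMap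
    rw [MvPolynomial.aeval_X, MvPolynomial.monomial_eq, map_one, one_mul, Finsupp.prod_fintype]
    · rfl
    · intro i
      exact pow_zero _
  rw [h1, AlgHom.comp_apply, briPhi, MvPolynomial.aeval_X]
  exact AddMonoidAlgebra.mapDomain_single

private theorem bri_ker (K : Type) [Field K] {n : ℕ} (B : Finset (Fin n → ℕ)) (d : ℕ) (hd : 0 < d)
    (hB : ∀ b ∈ B, ∑ i, b i = d) : toricIdeal K B = RingHom.ker (briPhi K B) := by
  ext x
  unfold toricIdeal
  rw [RingHom.mem_ker, RingHom.mem_ker, ← bri_comp, AlgHom.comp_apply]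
  have h1 : Function.Injective (AddMonoidAlgebra.mapDomainAlgHom K K (briG B)) :=
    AddMonoidAlgebra.mapDomain_injective (bri_inj B d hd hB)
  exact map_eq_zero_iff _ h1

/-- The base ring is the monoid algebra of `LB B`. -/
theorem baseRing_iff (K : Type) [Field K] {n : ℕ} (B : Finset (Fin n → ℕ)) (d : ℕ) (hd : 0 < d)
    (hB : ∀ b ∈ B, ∑ i, b i = d) :
    IsKoszulAlg K (BaseRing K B) (degOne K B) ↔
      IsKoszulAlg K (AddMonoidAlgebra K (LB B)) (linForms K (LB B) (degLB B)) := by
  set e : BaseRing K B ≃ₐ[K] AddMonoidAlgebra K (LB B) :=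
    (Ideal.quotientEquivAlgOfEq K (bri_ker K B d hd hB)).trans
      (Ideal.quotientKerAlgEquivOfSurjective (bri_surj K B)) with he
  have hX : ∀ b : B, e (Ideal.Quotient.mk (toricIdeal K B) (MvPolynomial.X b)) =
      AddMonoidAlgebra.single (⟨_, bri_mem B b⟩ : LB B) 1 := by
    intro b
    have h1 : e (Ideal.Quotient.mk (toricIdeal K B) (MvPolynomial.X b)) =
        briPhi K B (MvPolynomial.X b) := rfl
    rw [h1, briPhi, MvPolynomial.aeval_X]
  refine IsKoszulAlg.congr e _ _ ?_
  unfold degOne linForms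
  rw [Submodule.map_span]
  congr 1
  ext y
  constructor
  · rintro ⟨_, ⟨b, rfl⟩, rfl⟩
    exact ⟨⟨_, bri_mem B b⟩, rfl, hX b⟩
  · rintro ⟨b, hb, rfl⟩
    have hb1 : b.1.1 = 1 := hb
    have hb2 := (bri_height B b.2).2 hb1
    refine ⟨_, ⟨⟨b.1.2, hb2⟩, rfl⟩, ?_⟩
    refine (hX _).trans ?_
    congr 1
    exact Subtype.ext (Prod.ext hb1.symm rfl)

end MP7ea278
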