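import Pool.Agent.Lib.MP_7ea278_ag.TwoLevel

namespace MP7ea278

open Finsupp

variable {K : Type} [CommRing K] {M : Type} [AddCommMonoid M]

/-- The hypotheses of the gluing lemma on the structure constants, without exactness. -/
structure GlueData (deg : M →+ ℕ) (c : M → M → K) (D P N : Set M) : Prop where
  hDP : Disjoint D P
  hDN : Disjoint D N
  hPN : Disjoint P N
  degD : ∀ a ∈ D, 1 ≤ deg a
  degP : ∀ a ∈ P, 1 ≤ deg a
  degN : ∀ a ∈ N, 1 ≤ deg a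
  aDD : ∀ a ∈ D, ∀ b ∈ D, a + b ∈ D
  aDP : ∀ a ∈ D, ∀ b ∈ P, a + b ∈ P
  aPD : ∀ a ∈ P, ∀ b ∈ D, a + b ∈ P
  aPP : ∀ a ∈ P, ∀ b ∈ P, a + b ∈ P
  aDN : ∀ a ∈ D, ∀ b ∈ N, a + b ∈ N
  aND : ∀ a ∈ N, ∀ b ∈ D, a + b ∈ N
  aNN : ∀ a ∈ N, ∀ b ∈ N, a + b ∈ N
  cDD : ∀ a ∈ D, ∀ b ∈ D, c a b = 1
  cDP : ∀ a ∈ D, ∀ b ∈ P, c a b = 1
  cPD : ∀ a ∈ P, ∀ b ∈ D, c a b = 1
  cPP : ∀ a ∈ P, ∀ b ∈ P, c a b = 1
  cDN : ∀ a ∈ D, ∀ b ∈ N, c a b = 1
  cND : ∀ a ∈ N, ∀ b ∈ D, c a b = 1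
  cNN : ∀ a ∈ N, ∀ b ∈ N, c a b = 1
  cPN : ∀ a ∈ P, ∀ b ∈ N, c a b = 0
  cNP : ∀ a ∈ N, ∀ b ∈ P, c a b = 0

namespace GlueData

variable {deg : M →+ ℕ} {c : M → M → K} {D P N : Set M}

theorem swap (h : GlueData deg c D P N) : GlueData deg c D N P where
  hDP := h.hDN
  hDN := h.hDP
  hPN := h.hPN.symm
  degD := h.degD
  degP := h.degN
  degN := h.degP
  aDD := h.aDD
  aDP := h.aDN
  aPD := h.aND
  aPP := h.aNN
  aDN := h.aDP
  aND := h.aPD
  aNN := h.aPP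
  cDD := h.cDD
  cDP := h.cDN
  cPD := h.cND
  cPP := h.cNN
  cDN := h.cDP
  cND := h.cPD
  cNN := h.cPP
  cPN := h.cNP
  cNP := h.cPN

theorem cocycle (h : GlueData deg c D P N) (a b e : M) (ha : a ∈ D ∪ P ∪ N)
    (hb : b ∈ D ∪ P ∪ N) (he : e ∈ D ∪ P ∪ N) :
    c a b * c (a + b) e = c b e * c a (b + e) := by
  rcases ha with (ha | ha) | ha <;> rcases hb with (hb | hb) | hb <;>
    rcases he with (he | he) | he <;>
    simp [h.cDD, h.cDP, h.cPD, h.cPP, h.cDN, h.cND, h.cNN, h.cPN, h.cNP,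
      h.aDD, h.aDP, h.aPD, h.aPP, h.aDN, h.aND, h.aNN, ha, hb, he]

theorem hdeg (h : GlueData deg c D P N) : ∀ a ∈ D ∪ P ∪ N, 1 ≤ deg a := by
  rintro a ((ha | ha) | ha)
  · exact h.degD a ha
  · exact h.degP a ha
  · exact h.degN a ha

theorem disj (h : GlueData deg c D P N) : Disjoint (D ∪ P) N :=
  Set.disjoint_union_left.2 ⟨h.hDN, h.hPN⟩

theorem h2 (h : GlueData deg c D P N) :
    ∀ a ∈ D ∪ P, ∀ b ∈ D ∪ P, c a b ≠ 0 → a + b ∈ D ∪ P := by
  rintro a (ha | ha) b (hb | hb) _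
  · exact Or.inl (h.aDD a ha b hb)
  · exact Or.inr (h.aDP a ha b hb)
  · exact Or.inr (h.aPD a ha b hb)
  · exact Or.inr (h.aPP a ha b hb)

theorem h3 (h : GlueData deg c D P N) :
    ∀ a ∈ D ∪ P, ∀ b ∈ N, c a b ≠ 0 → a + b ∈ N := by
  rintro a (ha | ha) b hb h0
  · exact h.aDN a ha b hb
  · exact absurd (h.cPN a ha b hb) h0

theorem h4 (h : GlueData deg c D P N) :
    ∀ a ∈ N, ∀ b ∈ D ∪ P ∪ N, c a b ≠ 0 → a + b ∈ N := by
  rintro a ha b ((hb | hb) | hb) h0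
  · exact h.aND a ha b hb
  · exact absurd (h.cNP a ha b hb) h0
  · exact h.aNN a ha b hb

theorem one_on (h : GlueData deg c D P N) :
    ∀ a ∈ D ∪ P, ∀ b ∈ D ∪ P, c a b = 1 := by
  rintro a (ha | ha) b (hb | hb)
  · exact h.cDD a ha b hb
  · exact h.cDP a ha b hb
  · exact h.cPD a ha b hb
  · exact h.cPP a ha b hb

/-- One side of the gluing. -/
theorem side (h : GlueData deg c D P N) (j : ℕ)
    (HP : ∀ j, TVX K deg (one2 K) (one2 K) P (D ∪ P) j)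
    (hN : ∀ j' < j, TVX K deg c c N (D ∪ P ∪ N) j') :
    TVX K deg c c P (D ∪ P ∪ N) j := by
  refine TVX_twoLevel deg c c P (D ∪ P) N h.disj (fun a ha b hb => h.cPN a ha b hb) ?_ h.h2 h.h3
    h.h4 h.degP h.hdeg (fun a ha b hb e he => h.cocycle a b e (Or.inl (Or.inr ha)) hb he)
    (fun a ha b hb e he => h.cocycle a b e ha hb he) j ?_ hN
  · rintro a ha b (hb | hb) _
    · exact h.aPD a ha b hb
    · exact h.aPP a ha b hb
  · intro j' _
    refine (TVX_congr deg c c (one2 K) (one2 K) P (D ∪ P) ?_ ?_ j').2 (HP j')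
    · intro a ha b hb
      exact h.one_on a (Or.inr ha) b hb
    · intro a ha b hb
      exact h.one_on a ha b hb

theorem both (h : GlueData deg c D P N)
    (HP : ∀ j, TVX K deg (one2 K) (one2 K) P (D ∪ P) j)
    (HN : ∀ j, TVX K deg (one2 K) (one2 K) N (D ∪ N) j) (j : ℕ) :
    TVX K deg c c P (D ∪ P ∪ N) j ∧ TVX K deg c c N (D ∪ P ∪ N) j := by
  have hS : D ∪ N ∪ P = D ∪ P ∪ N := Set.union_right_comm D N P
  induction j using Nat.strong_induction_on with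
  | _ j ih =>
    refine ⟨h.side j HP fun j' hj' => (ih j' hj').2, ?_⟩
    have := h.swap.side j HN (fun j' hj' => by rw [hS]; exact (ih j' hj').1)
    rwa [hS] at this

end GlueData

/-- Gluing lemma: fibre product of two semigroups over a common face. -/
theorem TVX_glue (deg : M →+ ℕ) (c : M → M → K) (D P N : Set M)
    (hDP : Disjoint D P) (hDN : Disjoint D N) (hPN : Disjoint P N)
    (hdeg : ∀ a ∈ D ∪ P ∪ N, 1 ≤ deg a)
    (hDD : ∀ a ∈ D, ∀ b ∈ D, a + b ∈ D)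
    (hDPa : ∀ a ∈ D ∪ P, ∀ b ∈ P, a + b ∈ P) (hDNa : ∀ a ∈ D ∪ N, ∀ b ∈ N, a + b ∈ N)
    (hc1 : ∀ a ∈ D ∪ P, ∀ b ∈ D ∪ P, c a b = 1) (hc2 : ∀ a ∈ D ∪ N, ∀ b ∈ D ∪ N, c a b = 1)
    (hc3 : ∀ a ∈ P, ∀ b ∈ N, c a b = 0 ∧ c b a = 0)
    (HP : ∀ j, TVX K deg (one2 K) (one2 K) P (D ∪ P) j)
    (HN : ∀ j, TVX K deg (one2 K) (one2 K) N (D ∪ N) j)
    (HT : TV K deg (D ∪ P)) (j : ℕ) :
    TVX K deg c c (D ∪ P ∪ N) (D ∪ P ∪ N) j := by
  classical
  have h : GlueData deg c D P N :=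
    { hDP := hDP
      hDN := hDN
      hPN := hPN
      degD := fun a ha => hdeg a (Or.inl (Or.inl ha))
      degP := fun a ha => hdeg a (Or.inl (Or.inr ha))
      degN := fun a ha => hdeg a (Or.inr ha)
      aDD := hDD
      aDP := fun a ha b hb => hDPa a (Or.inl ha) b hb
      aPD := fun a ha b hb => by rw [add_comm]; exact hDPa b (Or.inl hb) a ha
      aPP := fun a ha b hb => hDPa a (Or.inr ha) b hb
      aDN := fun a ha b hb => hDNa a (Or.inl ha) b hb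
      aND := fun a ha b hb => by rw [add_comm]; exact hDNa b (Or.inl hb) a ha
      aNN := fun a ha b hb => hDNa a (Or.inr ha) b hb
      cDD := fun a ha b hb => hc1 a (Or.inl ha) b (Or.inl hb)
      cDP := fun a ha b hb => hc1 a (Or.inl ha) b (Or.inr hb)
      cPD := fun a ha b hb => hc1 a (Or.inr ha) b (Or.inl hb)
      cPP := fun a ha b hb => hc1 a (Or.inr ha) b (Or.inr hb)
      cDN := fun a ha b hb => hc2 a (Or.inl ha) b (Or.inr hb)
      cND := fun a ha b hb => hc2 a (Or.inr ha) b (Or.inl hb)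
      cNN := fun a ha b hb => hc2 a (Or.inr ha) b (Or.inr hb)
      cPN := fun a ha b hb => (hc3 a ha b hb).1
      cNP := fun a ha b hb => (hc3 b hb a ha).2 }
  obtain ⟨c0, hc0⟩ : ∃ c0 : M → M → K, ∀ a b, c0 a b = if b ∈ N then 0 else c a b := ⟨_, fun _ _ => rfl⟩
  have hc0N : ∀ a, ∀ b ∈ N, c0 a b = 0 := fun a b hb => by rw [hc0, if_pos hb]
  have hNot : ∀ b ∈ D ∪ P, b ∉ N := fun b hb hbN => Set.disjoint_left.1 h.disj hb hbN
  have hc0T : ∀ a, ∀ b ∈ D ∪ P, c0 a b = c a b := fun a b hb => by rw [hc0, if_neg (hNot b hb)]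
  have hTT : ∀ a ∈ D ∪ P, ∀ b ∈ D ∪ P, a + b ∈ D ∪ P := by
    rintro a (ha | ha) b (hb | hb)
    · exact Or.inl (h.aDD a ha b hb)
    · exact Or.inr (h.aDP a ha b hb)
    · exact Or.inr (h.aPD a ha b hb)
    · exact Or.inr (h.aPP a ha b hb)
  -- cocycle identity for `c0`
  have hcoc : ∀ a ∈ D ∪ P, ∀ b ∈ D ∪ P ∪ N, ∀ e ∈ D ∪ P ∪ N,
      c0 a b * c0 (a + b) e = c b e * c0 a (b + e) := by
    intro a ha b hb e he
    rcases hb with hb | hb
    · rcases he with he | he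
      · rw [hc0T a b hb, hc0T (a + b) e he, hc0T a (b + e) (hTT b hb e he),
          h.one_on a ha b hb, h.one_on (a + b) (hTT a ha b hb) e he, h.one_on b hb e he,
          h.one_on a ha (b + e) (hTT b hb e he)]
      · rw [hc0N (a + b) e he, mul_zero]
        rcases hb with hb | hb
        · rw [hc0N a (b + e) (h.aDN b hb e he), mul_zero]
        · rw [h.cPN b hb e he, zero_mul]
    · rw [hc0N a b hb, zero_mul]
      rcases he with (he | he) | he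
      · rw [hc0N a (b + e) (h.aND b hb e he), mul_zero]
      · rw [h.cNP b hb e he, zero_mul]
      · rw [hc0N a (b + e) (h.aNN b hb e he), mul_zero]
  have haddc : ∀ a ∈ D ∪ P ∪ N, ∀ b ∈ D ∪ P ∪ N, c a b ≠ 0 → a + b ∈ D ∪ P ∪ N := by
    rintro a (ha | ha) b (hb | hb) h0
    · exact Or.inl (hTT a ha b hb)
    · exact Or.inr (h.h3 a ha b hb h0)
    · exact Or.inr (h.h4 a ha b (Or.inl hb) h0)
    · exact Or.inr (h.aNN a ha b hb)
  have hadd0 : ∀ a ∈ D ∪ P, ∀ b ∈ D ∪ P ∪ N, c0 a b ≠ 0 → a + b ∈ D ∪ P := by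
    rintro a ha b (hb | hb) h0
    · exact hTT a ha b hb
    · exact absurd (hc0N a b hb) h0
  have hdegT : ∀ a ∈ D ∪ P, 1 ≤ deg a := fun a ha => h.hdeg a (Or.inl ha)
  have hWd : Wd (D ∪ P ∪ N) (D ∪ P ∪ N) = Wd N (D ∪ P ∪ N) ∪ Wd (D ∪ P) (D ∪ P ∪ N) := by
    ext w
    constructor
    · rintro ⟨a, v, rfl, ha | ha, hv⟩
      · exact Or.inr ⟨a, v, rfl, ha, hv⟩
      · exact Or.inl ⟨a, v, rfl, ha, hv⟩
    · rintro (⟨a, v, rfl, ha, hv⟩ | ⟨a, v, rfl, ha, hv⟩)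
      · exact ⟨a, v, rfl, Or.inr ha, hv⟩
      · exact ⟨a, v, rfl, Or.inl ha, hv⟩
  have hBC := isBC_words deg c c (D ∪ P ∪ N) (D ∪ P ∪ N) haddc haddc h.hdeg h.hdeg
    (fun a ha b hb e he => h.cocycle a b e ha hb he) (fun a ha b hb e he => h.cocycle a b e ha hb he)
  have hBCN := isBC_words deg c c N (D ∪ P ∪ N) h.h4 haddc h.degN h.hdeg
    (fun a ha b hb e he => h.cocycle a b e (Or.inr ha) hb he)
    (fun a ha b hb e he => h.cocycle a b e ha hb he)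
  have hBCT := isBC_words deg c0 c (D ∪ P) (D ∪ P ∪ N) hadd0 haddc hdegT h.hdeg hcoc
    (fun a ha b hb e he => h.cocycle a b e ha hb he)
  rw [hWd] at hBC
  unfold TVX
  rw [hWd]
  refine ODat_union (δ2 := dl0 K c0 c) hBC ?_ ?_ ?_ ?_ ?_ ?_
  · rw [Set.disjoint_left]
    rintro w ⟨a, v, rfl, ha, hv⟩ ⟨a', v', he, ha', hv'⟩
    injection he with h1 h2
    subst h1
    exact hNot _ ha' ha
  · intro ω hω ω' hω'
    exact (hBCN.maps ω hω ω' hω').1
  · rintro ω ⟨a, v, rfl, ha, hv⟩ ω' hω'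
    rw [dl0_cons, dl0_cons]
    rw [Finsupp.sub_apply, Finsupp.sub_apply]
    congr 1
    cases v with
    | nil => rfl
    | cons b v =>
      simp only [mu]
      rcases hv b (by simp) with hb | hb
      · rw [hc0T a b hb]
      · rw [hc0N a b hb]
        rcases ha with ha | ha
        · have hne : (a + b) :: v ≠ ω' := by
            rintro rfl
            obtain ⟨a', v', he, ha', _⟩ := hω'
            injection he with h1 h2
            subst h1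
            exact hNot _ ha' (h.aDN a ha b hb)
          rw [Finsupp.single_eq_of_ne hne.symm, Finsupp.single_eq_of_ne hne.symm]
        · rw [h.cPN a ha b hb]
  · intro ω hω ω' hω'
    exact (hBCT.maps ω hω ω' hω').1
  · exact (h.both HP HN j).2
  · refine TVX_twoLevel deg c0 c (D ∪ P) (D ∪ P) N h.disj (fun a _ b hb => hc0N a b hb)
      (fun a ha b hb _ => hTT a ha b hb) h.h2 h.h3 h.h4 hdegT h.hdeg hcoc
      (fun a ha b hb e he => h.cocycle a b e ha hb he) j ?_ ?_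
    · intro j' _
      refine (TVX_congr deg c0 c (one2 K) (one2 K) (D ∪ P) (D ∪ P) ?_ ?_ j').2 (HT j')
      · intro a ha b hb
        rw [hc0T a b hb]
        exact h.one_on a ha b hb
      · intro a ha b hb
        exact h.one_on a ha b hb
    · intro j' _
      exact (h.both HP HN j').2

end MP7ea278
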