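import Pool.Agent.Lib.MP_7ea278_ag.Retract
import Pool.Agent.Lib.MP_7ea278_ag.Glue

namespace MP7ea278

open Finsupp

variable {K : Type} [CommRing K] {M : Type} [AddCommMonoid M]

/-- positive part of an additive function -/
def cutW (h : M →+ ℤ) (x : M) : ℕ := (h x).toNat

/-- the structure constants of the cut -/
def cutC (K : Type) [CommRing K] (h : M →+ ℤ) (a b : M) : K :=
  if cutW h (a + b) = cutW h a + cutW h b then 1 else 0

theorem cutW_le (h : M →+ ℤ) (a b : M) : cutW h (a + b) ≤ cutW h a + cutW h b := by
  unfold cutW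
  rw [map_add]
  omega

theorem cutC_one (h : M →+ ℤ) (a b : M) (hab : (0 ≤ h a ∧ 0 ≤ h b) ∨ (h a ≤ 0 ∧ h b ≤ 0)) :
    cutC K h a b = 1 := by
  unfold cutC cutW
  rw [map_add, if_pos]
  omega

theorem cutC_zero (h : M →+ ℤ) (a b : M) (hab : (0 < h a ∧ h b < 0) ∨ (h a < 0 ∧ 0 < h b)) :
    cutC K h a b = 0 := by
  unfold cutC cutW
  rw [map_add, if_neg]
  omega

/-- the statistic of a word -/
def cutT (h : M →+ ℤ) (w : List M) : ℕ := (w.map (cutW h)).sum

theorem cutT_cons (h : M →+ ℤ) (a : M) (w : List M) : cutT h (a :: w) = cutW h a + cutT h w := by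
  simp [cutT]

theorem dl_cutC_support (h : M →+ ℤ) : ∀ w : List M, ∀ w' ∈ (dl K (cutC K h) w).support,
    cutT h w' = cutT h w := by
  classical
  intro w
  induction w with
  | nil => intro w' hw'; simp [dl_nil] at hw'
  | cons a v ih =>
    intro w' hw'
    rw [dl_cons] at hw'
    rcases Finset.mem_union.1 (Finsupp.support_sub hw') with h1 | h1
    · cases v with
      | nil => simp [mu] at h1
      | cons b v =>
        have h' : (mu (cutC K h) a (b :: v)) = single ((a + b) :: v) (cutC K h a b) := rfl
        rw [h'] at h1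
        have h2 := Finset.mem_singleton.1 (Finsupp.support_single_subset h1)
        have hc : cutW h (a + b) = cutW h a + cutW h b := by
          by_contra hne
          have : cutC K h a b = 0 := by
            unfold cutC
            rw [if_neg hne]
          rw [this] at h1
          simp at h1
        rw [h2, cutT_cons, cutT_cons, cutT_cons, hc]
        ring
    · obtain ⟨v', hv', rfl⟩ := Finset.mem_image.1 (Finsupp.mapDomain_support h1)
      rw [cutT_cons, cutT_cons, ih v' hv']

theorem dl_sub_support (h : M →+ ℤ) : ∀ w : List M,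
    ∀ w' ∈ (dl K (one2 K) w - dl K (cutC K h) w).support, cutT h w' < cutT h w := by
  classical
  intro w
  induction w with
  | nil => intro w' hw'; simp [dl_nil] at hw'
  | cons a v ih =>
    intro w' hw'
    have e : dl K (one2 K) (a :: v) - dl K (cutC K h) (a :: v) =
        (mu (one2 K) a v - mu (cutC K h) a v) -
          (dl K (one2 K) v - dl K (cutC K h) v).mapDomain (List.cons a) := by
      rw [dl_cons, dl_cons]
      have : (dl K (one2 K) v - dl K (cutC K h) v).mapDomain (List.cons a) =
          (dl K (one2 K) v).mapDomain (List.cons a) -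
            (dl K (cutC K h) v).mapDomain (List.cons a) := by
        rw [sub_eq_add_neg, Finsupp.mapDomain_add, sub_eq_add_neg]
        congr 1
        have h1 := (Finsupp.mapDomain.addMonoidHom (M := K) (List.cons a)).map_neg
          (dl K (cutC K h) v)
        exact h1
      rw [this]
      abel
    rw [e] at hw'
    rcases Finset.mem_union.1 (Finsupp.support_sub hw') with h1 | h1
    · cases v with
      | nil => simp [mu] at h1
      | cons b v =>
        have h' : mu (one2 K) a (b :: v) - mu (cutC K h) a (b :: v) =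
            single ((a + b) :: v) (1 - cutC K h a b) := by
          show single ((a + b) :: v) (one2 K a b) - single ((a + b) :: v) (cutC K h a b) = _
          rw [← Finsupp.single_sub]
          rfl
        rw [h'] at h1
        have h2 := Finset.mem_singleton.1 (Finsupp.support_single_subset h1)
        have hc : cutW h (a + b) ≠ cutW h a + cutW h b := by
          intro heq
          have : cutC K h a b = 1 := by
            unfold cutC
            rw [if_pos heq]
          rw [this] at h1
          simp at h1
        have hle := cutW_le h a b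
        rw [h2, cutT_cons, cutT_cons, cutT_cons]
        omega
    · obtain ⟨v', hv', rfl⟩ := Finset.mem_image.1 (Finsupp.mapDomain_support h1)
      rw [cutT_cons, cutT_cons]
      have := ih v' hv'
      omega

/-- Cut theorem: if both halves of a semigroup, cut by an additive function, have vanishing
off-diagonal homology, so has the semigroup. -/
theorem TV_cut (deg : M →+ ℕ) (S : Set M) (hS : ∀ a ∈ S, ∀ b ∈ S, a + b ∈ S)
    (hdeg : ∀ a ∈ S, 1 ≤ deg a) (h : M →+ ℤ) (hp : TV K deg {a | a ∈ S ∧ 0 ≤ h a})
    (hn : TV K deg {a | a ∈ S ∧ h a ≤ 0}) : TV K deg S := by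
  classical
  intro j
  -- the cut semigroup
  have hcut : TVX K deg (cutC K h) (cutC K h) S S j := by
    set D : Set M := {a | a ∈ S ∧ h a = 0} with hD
    set P : Set M := {a | a ∈ S ∧ 0 < h a} with hP
    set N : Set M := {a | a ∈ S ∧ h a < 0} with hN
    have hDP : D ∪ P = {a | a ∈ S ∧ 0 ≤ h a} := by
      ext a
      simp only [hD, hP, Set.mem_union, Set.mem_ofPred_eq]
      constructor
      · rintro (⟨h1, h2⟩ | ⟨h1, h2⟩)
        · exact ⟨h1, h2.ge⟩
        · exact ⟨h1, h2.le⟩
      · rintro ⟨h1, h2⟩
        rcases h2.eq_or_lt with h3 | h3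
        · exact Or.inl ⟨h1, h3.symm⟩
        · exact Or.inr ⟨h1, h3⟩
    have hDN : D ∪ N = {a | a ∈ S ∧ h a ≤ 0} := by
      ext a
      simp only [hD, hN, Set.mem_union, Set.mem_ofPred_eq]
      constructor
      · rintro (⟨h1, h2⟩ | ⟨h1, h2⟩)
        · exact ⟨h1, h2.le⟩
        · exact ⟨h1, h2.le⟩
      · rintro ⟨h1, h2⟩
        rcases h2.eq_or_lt with h3 | h3
        · exact Or.inl ⟨h1, h3⟩
        · exact Or.inr ⟨h1, h3⟩
    have hall : D ∪ P ∪ N = S := by
      ext a
      rw [hDP]
      simp only [hN, Set.mem_union, Set.mem_ofPred_eq]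
      constructor
      · rintro (⟨h1, _⟩ | ⟨h1, _⟩) <;> exact h1
      · intro h1
        rcases le_or_gt 0 (h a) with h2 | h2
        · exact Or.inl ⟨h1, h2⟩
        · exact Or.inr ⟨h1, h2⟩
    have hglue := TVX_glue (K := K) deg (cutC K h) D P N
      (by
        rw [Set.disjoint_left]
        rintro a ⟨_, h1⟩ ⟨_, h2⟩
        omega)
      (by
        rw [Set.disjoint_left]
        rintro a ⟨_, h1⟩ ⟨_, h2⟩
        omega)
      (by
        rw [Set.disjoint_left]
        rintro a ⟨_, h1⟩ ⟨_, h2⟩
        omega)
      (by
        rw [hall]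
        exact hdeg)
      (by
        rintro a ⟨h1, h2⟩ b ⟨h3, h4⟩
        exact ⟨hS a h1 b h3, by rw [map_add, h2, h4, add_zero]⟩)
      (by
        rw [hDP]
        rintro a ⟨h1, h2⟩ b ⟨h3, h4⟩
        exact ⟨hS a h1 b h3, by rw [map_add]; omega⟩)
      (by
        rw [hDN]
        rintro a ⟨h1, h2⟩ b ⟨h3, h4⟩
        exact ⟨hS a h1 b h3, by rw [map_add]; omega⟩)
      (by
        rw [hDP]
        rintro a ⟨h1, h2⟩ b ⟨h3, h4⟩
        exact cutC_one h a b (Or.inl ⟨h2, h4⟩))
      (by
        rw [hDN]
        rintro a ⟨h1, h2⟩ b ⟨h3, h4⟩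
        exact cutC_one h a b (Or.inr ⟨h2, h4⟩))
      (by
        rintro a ⟨h1, h2⟩ b ⟨h3, h4⟩
        exact ⟨cutC_zero h a b (Or.inl ⟨h2, h4⟩), cutC_zero h b a (Or.inr ⟨h4, h2⟩)⟩)
      (by
        intro j'
        have h1 := TVX_ideal (K := K) deg (D ∪ P) D
          (by
            rw [hDP]
            rintro a ⟨h1, h2⟩ b ⟨h3, h4⟩
            exact ⟨hS a h1 b h3, by rw [map_add]; omega⟩)
          (by
            rw [hDP]
            rintro a ⟨h1, _⟩
            exact hdeg a h1)
          Set.subset_union_left
          (by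
            rw [hDP]
            rintro a ⟨h1, h2⟩ b ⟨h3, h4⟩
            constructor
            · rintro ⟨_, h5⟩
              rw [map_add] at h5
              exact ⟨⟨h1, by omega⟩, ⟨h3, by omega⟩⟩
            · rintro ⟨⟨_, h5⟩, ⟨_, h6⟩⟩
              exact ⟨hS a h1 b h3, by rw [map_add]; omega⟩)
          (by rw [hDP]; exact hp) j'
        have h2 : (D ∪ P) \ D = P := by
          ext a
          simp only [hD, hP, Set.mem_sdiff, Set.mem_union, Set.mem_ofPred_eq]
          constructor
          · rintro ⟨h3 | h3, h4⟩
            · exact absurd h3 h4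
            · exact h3
          · intro h3
            exact ⟨Or.inr h3, fun h4 => by have := h3.2; have := h4.2; omega⟩
        rw [h2] at h1
        exact h1)
      (by
        intro j'
        have h1 := TVX_ideal (K := K) deg (D ∪ N) D
          (by
            rw [hDN]
            rintro a ⟨h1, h2⟩ b ⟨h3, h4⟩
            exact ⟨hS a h1 b h3, by rw [map_add]; omega⟩)
          (by
            rw [hDN]
            rintro a ⟨h1, _⟩
            exact hdeg a h1)
          Set.subset_union_left
          (by
            rw [hDN]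
            rintro a ⟨h1, h2⟩ b ⟨h3, h4⟩
            constructor
            · rintro ⟨_, h5⟩
              rw [map_add] at h5
              exact ⟨⟨h1, by omega⟩, ⟨h3, by omega⟩⟩
            · rintro ⟨⟨_, h5⟩, ⟨_, h6⟩⟩
              exact ⟨hS a h1 b h3, by rw [map_add]; omega⟩)
          (by rw [hDN]; exact hn) j'
        have h2 : (D ∪ N) \ D = N := by
          ext a
          simp only [hD, hN, Set.mem_sdiff, Set.mem_union, Set.mem_ofPred_eq]
          constructor
          · rintro ⟨h3 | h3, h4⟩
            · exact absurd h3 h4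
            · exact h3
          · intro h3
            exact ⟨Or.inr h3, fun h4 => by have := h3.2; have := h4.2; omega⟩
        rw [h2] at h1
        exact h1)
      (by rw [hDP]; exact hp) j
    rw [hall] at hglue
    exact hglue
  -- perturbation
  have hBC : IsBC K (Wd S S) (dl0 K (one2 K) (one2 K)) List.length (wdeg deg) :=
    isBC_words deg (one2 K) (one2 K) S S (fun a ha b hb _ => hS a ha b hb)
      (fun a ha b hb _ => hS a ha b hb) hdeg hdeg (fun _ _ _ _ _ _ => rfl)
      (fun _ _ _ _ _ _ => rfl)
  refine ODat_perturb (δ0 := dl0 K (cutC K h) (cutC K h)) (cutT h) hBC ?_ ?_ hcut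
  · rintro w ⟨a, v, rfl, ha, hv⟩ w' hw'
    rw [dl0_self] at hw'
    have hall : ∀ x ∈ a :: v, x ∈ S := by
      intro x hx
      rcases List.mem_cons.1 hx with rfl | hx
      · exact ha
      · exact hv x hx
    obtain ⟨h1, h2, h3⟩ := dl_support (cutC K h) S (fun a ha b hb _ => hS a ha b hb) (a :: v)
      hall w' hw'
    refine ⟨?_, h2, by unfold wdeg; rw [h3], dl_cutC_support h (a :: v) w' hw'⟩
    cases w' with
    | nil =>
      simp only [List.length_nil, List.length_cons] at h2
      have hv0 : v = [] := List.length_eq_zero_iff.mp (by omega)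
      rw [hv0] at hw'
      have : dl K (cutC K h) [a] = 0 := rfl
      rw [this] at hw'
      simp at hw'
    | cons b u =>
      exact ⟨b, u, rfl, h1 b (by simp), fun x hx => h1 x (List.mem_cons_of_mem _ hx)⟩
  · rintro w _ w' hw'
    rw [dl0_self, dl0_self] at hw'
    exact dl_sub_support h w w' hw'

end MP7ea278
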