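import Pool.Agent.Lib.MP_7ea278_ag.Balance
import Pool.Agent.Lib.MP_7ea278_ag.Cut

namespace MP7ea278

theorem Sg_deg {n : ℕ} {G : Set (Fin n → ℤ)} : ∀ a ∈ Sg G, 1 ≤ dg n a := by
  rintro x ⟨hx, hx0⟩
  obtain ⟨s, hs, hsx⟩ := bal_exists hx
  show 1 ≤ x.1
  by_contra hlt
  apply hx0
  have h1 : s.card = 0 := by
    rw [← bal_fst s, hsx]
    omega
  rw [Multiset.card_eq_zero] at h1
  rw [← hsx, h1]
  rfl

theorem Sg_add {n : ℕ} {G : Set (Fin n → ℤ)} : ∀ a ∈ Sg G, ∀ b ∈ Sg G, a + b ∈ Sg G := by
  intro a ha b hb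
  refine ⟨AddSubmonoid.add_mem _ ha.1 hb.1, ?_⟩
  intro h
  have h1 := Sg_deg a ha
  have h2 : dg n (a + b) = 0 := by rw [h, map_zero]
  rw [map_add] at h2
  omega

/-- The part of the semigroup over a box. -/
def boxR {n : ℕ} (B : Set (Fin n → ℤ)) (a b : Fin n → ℤ) : Set (Amb n) :=
  {x | x ∈ Sg B ∧ ∀ i, (x.1 : ℤ) * a i ≤ x.2 i ∧ x.2 i ≤ (x.1 : ℤ) * b i}

/-- The cutting function. -/
def boxH {n : ℕ} (i : Fin n) (m : ℤ) : Amb n →+ ℤ where
  toFun x := x.2 i - m * (x.1 : ℤ)
  map_zero' := by simp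
  map_add' := by
    intro x y
    simp only [Prod.snd_add, Pi.add_apply, Prod.fst_add]
    push_cast
    ring

theorem boxR_hi {n : ℕ} (B : Set (Fin n → ℤ)) (a b : Fin n → ℤ) (i : Fin n) (m : ℤ)
    (h : a i ≤ m) :
    {x | x ∈ boxR B a b ∧ 0 ≤ boxH i m x} = boxR B (Function.update a i m) b := by
  ext x
  constructor
  · rintro ⟨⟨hx, hab⟩, hh⟩
    have hh' : 0 ≤ x.2 i - m * (x.1 : ℤ) := hh
    refine ⟨hx, fun t => ⟨?_, (hab t).2⟩⟩
    by_cases ht : t = i
    · subst ht
      rw [Function.update_self]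
      linarith
    · rw [Function.update_of_ne ht]
      exact (hab t).1
  · rintro ⟨hx, hab⟩
    have h0 : (0 : ℤ) ≤ (x.1 : ℤ) := Int.natCast_nonneg _
    have hi := (hab i).1
    rw [Function.update_self] at hi
    refine ⟨⟨hx, fun t => ⟨?_, (hab t).2⟩⟩, ?_⟩
    · by_cases ht : t = i
      · subst ht
        exact le_trans (mul_le_mul_of_nonneg_left h h0) hi
      · have := (hab t).1
        rwa [Function.update_of_ne ht] at this
    · show 0 ≤ x.2 i - m * (x.1 : ℤ)
      linarith

theorem boxR_lo {n : ℕ} (B : Set (Fin n → ℤ)) (a b : Fin n → ℤ) (i : Fin n) (m : ℤ)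
    (h : m ≤ b i) :
    {x | x ∈ boxR B a b ∧ boxH i m x ≤ 0} = boxR B a (Function.update b i m) := by
  ext x
  constructor
  · rintro ⟨⟨hx, hab⟩, hh⟩
    have hh' : x.2 i - m * (x.1 : ℤ) ≤ 0 := hh
    refine ⟨hx, fun t => ⟨(hab t).1, ?_⟩⟩
    by_cases ht : t = i
    · subst ht
      rw [Function.update_self]
      linarith
    · rw [Function.update_of_ne ht]
      exact (hab t).2
  · rintro ⟨hx, hab⟩
    have h0 : (0 : ℤ) ≤ (x.1 : ℤ) := Int.natCast_nonneg _
    have hi := (hab i).2
    rw [Function.update_self] at hi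
    refine ⟨⟨hx, fun t => ⟨(hab t).1, ?_⟩⟩, ?_⟩
    · by_cases ht : t = i
      · subst ht
        exact le_trans hi (mul_le_mul_of_nonneg_left h h0)
      · have := (hab t).2
        rwa [Function.update_of_ne ht] at this
    · show x.2 i - m * (x.1 : ℤ) ≤ 0
      linarith

theorem boxR_add {n : ℕ} (B : Set (Fin n → ℤ)) (a b : Fin n → ℤ) :
    ∀ x ∈ boxR B a b, ∀ y ∈ boxR B a b, x + y ∈ boxR B a b := by
  rintro x ⟨hx, hx'⟩ y ⟨hy, hy'⟩
  refine ⟨Sg_add x hx y hy, fun i => ?_⟩
  have h1 := hx' i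
  have h2 := hy' i
  simp only [Prod.snd_add, Pi.add_apply, Prod.fst_add]
  push_cast
  constructor
  · rw [add_mul]
    linarith
  · rw [add_mul]
    linarith

theorem boxR_TV {K : Type} [CommRing K] {n : ℕ} {B : Set (Fin n → ℤ)}
    (hB : SymExch B) (h : ∀ q, TV K (dg n) (Sg (cell B q))) :
    ∀ (N : ℕ) (a b : Fin n → ℤ), (∀ i, a i + 1 ≤ b i) → (∑ i, (b i - a i)).toNat = N →
      TV K (dg n) (boxR B a b) := by
  intro N
  induction N using Nat.strong_induction_on with
  | _ N ih =>
    intro a b hab hN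
    have hsum : ∀ a b : Fin n → ℤ, (∀ i, a i + 1 ≤ b i) → 0 ≤ ∑ i, (b i - a i) := fun a b hab =>
      Finset.sum_nonneg fun i _ => by linarith [hab i]
    by_cases hex : ∃ i, a i + 2 ≤ b i
    · obtain ⟨i, hi⟩ := hex
      have h1 : ∀ t, Function.update a i (a i + 1) t + 1 ≤ b t := by
        intro t
        by_cases ht : t = i
        · subst ht
          rw [Function.update_self]
          linarith
        · rw [Function.update_of_ne ht]
          exact hab t
      have h2 : ∀ t, a t + 1 ≤ Function.update b i (a i + 1) t := by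
        intro t
        by_cases ht : t = i
        · subst ht
          rw [Function.update_self]
        · rw [Function.update_of_ne ht]
          exact hab t
      have h3 : ∑ t, (b t - Function.update a i (a i + 1) t) < ∑ t, (b t - a t) := by
        refine Finset.sum_lt_sum (fun t _ => ?_) ⟨i, Finset.mem_univ i, ?_⟩
        · by_cases ht : t = i
          · subst ht
            rw [Function.update_self]
            linarith
          · rw [Function.update_of_ne ht]
        · rw [Function.update_self]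
          linarith
      have h4 : ∑ t, (Function.update b i (a i + 1) t - a t) < ∑ t, (b t - a t) := by
        refine Finset.sum_lt_sum (fun t _ => ?_) ⟨i, Finset.mem_univ i, ?_⟩
        · by_cases ht : t = i
          · subst ht
            rw [Function.update_self]
            linarith
          · rw [Function.update_of_ne ht]
        · rw [Function.update_self]
          linarith
      have h5 := hsum _ _ h1
      have h6 := hsum _ _ h2
      refine TV_cut (dg n) (boxR B a b) (boxR_add B a b) (fun x hx => Sg_deg x hx.1)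
        (boxH i (a i + 1)) ?_ ?_
      · rw [boxR_hi B a b i (a i + 1) (by linarith)]
        exact ih _ (by omega) _ _ h1 rfl
      · rw [boxR_lo B a b i (a i + 1) (by linarith)]
        exact ih _ (by omega) _ _ h2 rfl
    · have hb : ∀ i, b i = a i + 1 := by
        intro i
        have h1 := hab i
        have h2 : ¬ (a i + 2 ≤ b i) := fun h => hex ⟨i, h⟩
        omega
      have e : boxR B a b = Sg (cell B a) := by
        rw [← Sg_cell hB a]
        ext x
        constructor
        · rintro ⟨hx, hx'⟩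
          refine ⟨hx, fun i => ?_⟩
          rw [← hb i]
          exact hx' i
        · rintro ⟨hx, hx'⟩
          refine ⟨hx, fun i => ?_⟩
          rw [hb i]
          exact hx' i
      rw [e]
      exact h a

/-- The reduction to unit cubes. -/
theorem TV_of_cells {K : Type} [CommRing K] {n : ℕ} {B : Set (Fin n → ℤ)} (hfin : B.Finite)
    (hB : SymExch B) (h : ∀ q, TV K (dg n) (Sg (cell B q))) : TV K (dg n) (Sg B) := by
  have hlo : ∃ a : Fin n → ℤ, ∀ g ∈ B, a ≤ g := by
    obtain ⟨a, ha⟩ := hfin.bddBelow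
    exact ⟨a, fun g hg => ha hg⟩
  have hhi : ∃ b : Fin n → ℤ, ∀ g ∈ B, g ≤ b := by
    obtain ⟨b, hb⟩ := hfin.bddAbove
    exact ⟨b, fun g hg => hb hg⟩
  obtain ⟨a, ha⟩ := hlo
  obtain ⟨b, hb⟩ := hhi
  have e : boxR B a (fun i => max (b i) (a i + 1)) = Sg B := by
    ext x
    constructor
    · exact fun hx => hx.1
    · intro hx
      refine ⟨hx, fun i => ?_⟩
      obtain ⟨s, hs, hsx⟩ := bal_exists hx.1
      rw [← hsx, bal_fst, bal_snd]
      have h1 : ∀ y ∈ s.map (fun g => g i), a i ≤ y := by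
        intro y hy
        obtain ⟨c, hc, rfl⟩ := Multiset.mem_map.1 hy
        exact ha c (hs c hc) i
      have h2 : ∀ y ∈ s.map (fun g => g i), y ≤ max (b i) (a i + 1) := by
        intro y hy
        obtain ⟨c, hc, rfl⟩ := Multiset.mem_map.1 hy
        exact le_trans (hb c (hs c hc) i) (le_max_left _ _)
      have h3 := bal_le h1
      have h4 := bal_ge h2
      rw [Multiset.card_map] at h3 h4
      exact ⟨h3, h4⟩
  rw [← e]
  exact boxR_TV hB h _ a _ (fun i => le_max_right _ _) rfl

/-- The translation as an additive map. -/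
def boxT {n : ℕ} (q : Fin n → ℤ) : Amb n →+ Amb n where
  toFun x := (x.1, x.2 - x.1 • q)
  map_zero' := by simp
  map_add' := by
    intro x y
    refine Prod.ext rfl ?_
    simp only [Prod.snd_add, Prod.fst_add, add_smul]
    abel

theorem boxT_apply {n : ℕ} (q : Fin n → ℤ) (x : Amb n) : boxT q x = (x.1, x.2 - x.1 • q) := rfl

theorem boxT_inj {n : ℕ} (q : Fin n → ℤ) : Function.Injective (boxT q) := by
  intro x y h
  rw [boxT_apply, boxT_apply] at h
  have h1 : x.1 = y.1 := (Prod.mk.inj h).1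
  have h2 : x.2 - x.1 • q = y.2 - y.1 • q := (Prod.mk.inj h).2
  rw [h1] at h2
  exact Prod.ext h1 (sub_left_injective h2)

theorem boxT_image {n : ℕ} (G : Set (Fin n → ℤ)) (q : Fin n → ℤ) :
    boxT q '' (Sg G) = Sg ((fun b => b - q) '' G) := by
  have e1 : boxT q '' ((fun g => (((1 : ℕ), g) : Amb n)) '' G) =
      (fun g => (((1 : ℕ), g) : Amb n)) '' ((fun b => b - q) '' G) := by
    rw [Set.image_image, Set.image_image]
    refine Set.image_congr fun g _ => ?_
    rw [boxT_apply]
    simp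
  have e2 : (AddSubmonoid.closure ((fun g => (((1 : ℕ), g) : Amb n)) '' G)).map (boxT q) =
      AddSubmonoid.closure ((fun g => (((1 : ℕ), g) : Amb n)) '' ((fun b => b - q) '' G)) := by
    rw [AddMonoidHom.map_mclosure, e1]
  ext x
  constructor
  · rintro ⟨y, ⟨hy, hy0⟩, rfl⟩
    refine ⟨?_, ?_⟩
    · rw [← e2]
      exact ⟨y, hy, rfl⟩
    · intro h
      apply hy0
      apply boxT_inj q
      rw [h, map_zero]
  · rintro ⟨hx, hx0⟩
    rw [← e2] at hx
    obtain ⟨y, hy, rfl⟩ := hx
    refine ⟨y, ⟨hy, ?_⟩, rfl⟩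
    intro h
    apply hx0
    rw [h, map_zero]

/-- Translation. -/
theorem TV_translate {K : Type} [CommRing K] {n : ℕ} (G : Set (Fin n → ℤ)) (q : Fin n → ℤ) :
    TV K (dg n) (Sg ((fun b => b - q) '' G)) ↔ TV K (dg n) (Sg G) := by
  rw [← boxT_image]
  exact TV_image (dg n) (dg n) (boxT q) Sg_add (boxT_inj q).injOn (fun x _ => rfl)

end MP7ea278
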