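import Pool.Agent.Lib.MP_7ea278_ag.Box

namespace MP7ea278

theorem boxR_TV_nonneg {K : Type} [CommRing K] {n : ℕ} {B : Set (Fin n → ℤ)}
    (hB : SymExch B) (h : ∀ q, (∀ i, 0 ≤ q i) → TV K (dg n) (Sg (cell B q))) :
    ∀ (N : ℕ) (a b : Fin n → ℤ), (∀ i, 0 ≤ a i) → (∀ i, a i + 1 ≤ b i) → (∑ i, (b i - a i)).toNat = N →
      TV K (dg n) (boxR B a b) := by
  intro N
  induction N using Nat.strong_induction_on with
  | _ N ih =>
    intro a b ha0 hab hN
    have hsum : ∀ a b : Fin n → ℤ, (∀ i, a i + 1 ≤ b i) → 0 ≤ ∑ i, (b i - a i) := fun a b hab =>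
      Finset.sum_nonneg fun i _ => by linarith [hab i]
    by_cases hex : ∃ i, a i + 2 ≤ b i
    · obtain ⟨i, hi⟩ := hex
      have h1 : ∀ t, Function.update a i (a i + 1) t + 1 ≤ b t := by
        intro t
        by_cases ht : t = i
        · subst ht
          rw [Function.update_self]
          linarith
        · rw [Function.update_of_ne ht]
          exact hab t
      have h2 : ∀ t, a t + 1 ≤ Function.update b i (a i + 1) t := by
        intro t
        by_cases ht : t = i
        · subst ht
          rw [Function.update_self]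
        · rw [Function.update_of_ne ht]
          exact hab t
      have h3 : ∑ t, (b t - Function.update a i (a i + 1) t) < ∑ t, (b t - a t) := by
        refine Finset.sum_lt_sum (fun t _ => ?_) ⟨i, Finset.mem_univ i, ?_⟩
        · by_cases ht : t = i
          · subst ht
            rw [Function.update_self]
            linarith
          · rw [Function.update_of_ne ht]
        · rw [Function.update_self]
          linarith
      have h4 : ∑ t, (Function.update b i (a i + 1) t - a t) < ∑ t, (b t - a t) := by
        refine Finset.sum_lt_sum (fun t _ => ?_) ⟨i, Finset.mem_univ i, ?_⟩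
        · by_cases ht : t = i
          · subst ht
            rw [Function.update_self]
            linarith
          · rw [Function.update_of_ne ht]
        · rw [Function.update_self]
          linarith
      have h5 := hsum _ _ h1
      have h6 := hsum _ _ h2
      refine TV_cut (dg n) (boxR B a b) (boxR_add B a b) (fun x hx => Sg_deg x hx.1)
        (boxH i (a i + 1)) ?_ ?_
      · rw [boxR_hi B a b i (a i + 1) (by linarith)]
        refine ih _ (by omega) _ _ (fun t => ?_) h1 rfl
        by_cases ht : t = i
        · subst ht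
          rw [Function.update_self]
          linarith [ha0 t]
        · rw [Function.update_of_ne ht]
          exact ha0 t
      · rw [boxR_lo B a b i (a i + 1) (by linarith)]
        exact ih _ (by omega) _ _ ha0 h2 rfl
    · have hb : ∀ i, b i = a i + 1 := by
        intro i
        have h1 := hab i
        have h2 : ¬ (a i + 2 ≤ b i) := fun h => hex ⟨i, h⟩
        omega
      have e : boxR B a b = Sg (cell B a) := by
        rw [← Sg_cell hB a]
        ext x
        constructor
        · rintro ⟨hx, hx'⟩
          refine ⟨hx, fun i => ?_⟩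
          rw [← hb i]
          exact hx' i
        · rintro ⟨hx, hx'⟩
          refine ⟨hx, fun i => ?_⟩
          rw [hb i]
          exact hx' i
      rw [e]
      exact h a ha0

/-- The reduction to unit cubes with nonnegative corners. -/
theorem TV_of_cells_nonneg {K : Type} [CommRing K] {n : ℕ} {B : Set (Fin n → ℤ)} (hfin : B.Finite)
    (hB : SymExch B) (hB0 : ∀ b ∈ B, ∀ i, 0 ≤ b i)
    (h : ∀ q, (∀ i, 0 ≤ q i) → TV K (dg n) (Sg (cell B q))) : TV K (dg n) (Sg B) := by
  have hlo : ∃ a : Fin n → ℤ, (∀ i, 0 ≤ a i) ∧ ∀ g ∈ B, a ≤ g :=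
    ⟨0, fun _ => le_refl _, fun g hg i => hB0 g hg i⟩
  have hhi : ∃ b : Fin n → ℤ, ∀ g ∈ B, g ≤ b := by
    obtain ⟨b, hb⟩ := hfin.bddAbove
    exact ⟨b, fun g hg => hb hg⟩
  obtain ⟨a, ha0, ha⟩ := hlo
  obtain ⟨b, hb⟩ := hhi
  have e : boxR B a (fun i => max (b i) (a i + 1)) = Sg B := by
    ext x
    constructor
    · exact fun hx => hx.1
    · intro hx
      refine ⟨hx, fun i => ?_⟩
      obtain ⟨s, hs, hsx⟩ := bal_exists hx.1
      rw [← hsx, bal_fst, bal_snd]
      have h1 : ∀ y ∈ s.map (fun g => g i), a i ≤ y := by
        intro y hy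
        obtain ⟨c, hc, rfl⟩ := Multiset.mem_map.1 hy
        exact ha c (hs c hc) i
      have h2 : ∀ y ∈ s.map (fun g => g i), y ≤ max (b i) (a i + 1) := by
        intro y hy
        obtain ⟨c, hc, rfl⟩ := Multiset.mem_map.1 hy
        exact le_trans (hb c (hs c hc) i) (le_max_left _ _)
      have h3 := bal_le h1
      have h4 := bal_ge h2
      rw [Multiset.card_map] at h3 h4
      exact ⟨h3, h4⟩
  rw [← e]
  exact boxR_TV_nonneg hB h _ a _ ha0 (fun i => le_max_right _ _) rfl

end MP7ea278
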