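import Mathlib

/-!
Abstract based complexes with universal coefficients.
-/

namespace MP7ea278

open Finsupp

section Abstract

variable (K : Type) [CommRing K] {Ω Ω' Ω'' : Type}

/-- Linear extension of a map on basis elements, with coefficients in a module `U`. -/
noncomputable def ext (φ : Ω → Ω' →₀ K) (U : Type) [AddCommGroup U] [Module K U] :
    (Ω →₀ U) →ₗ[K] (Ω' →₀ U) :=
  Finsupp.lsum K (fun ω => (φ ω).sum fun ω' c => c • Finsupp.lsingle ω')

variable {K}
variable (φ : Ω → Ω' →₀ K) (U : Type) [AddCommGroup U] [Module K U]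

theorem ext_single (ω : Ω) (u : U) :
    ext K φ U (single ω u) = (φ ω).sum fun ω' c => single ω' (c • u) := by
  rw [ext, Finsupp.lsum_single]
  simp [Finsupp.sum, LinearMap.sum_apply]

theorem ext_single_apply (ω : Ω) (u : U) (ω' : Ω') :
    ext K φ U (single ω u) ω' = φ ω ω' • u := by
  classical
  rw [ext_single, Finsupp.sum_apply, Finsupp.sum]
  rw [Finset.sum_eq_single ω']
  · simp
  · intro b _ hb
    rw [Finsupp.single_eq_of_ne hb.symm]
  · intro h
    simp only [Finsupp.mem_support_iff, not_not] at h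
    simp [h]

theorem ext_apply (z : Ω →₀ U) (ω' : Ω') :
    ext K φ U z ω' = z.sum fun ω u => φ ω ω' • u := by
  classical
  induction z using Finsupp.induction_linear with
  | zero => simp
  | add f g hf hg =>
    rw [map_add, Finsupp.add_apply, hf, hg, Finsupp.sum_add_index']
    · intro a; simp
    · intro a b c; simp
  | single a b =>
    rw [ext_single_apply, Finsupp.sum_single_index]; simp

@[simp] theorem ext_single_one (ω : Ω) : ext K φ K (single ω 1) = φ ω := by
  classical
  refine Finsupp.ext fun ω' => ?_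
  rw [ext_single_apply]; simp

/-- Two extensions of maps that agree on the support of the chain agree. -/
theorem ext_congr {φ' : Ω → Ω' →₀ K} {X : Set Ω} (h : ∀ ω ∈ X, φ ω = φ' ω)
    {z : Ω →₀ U} (hz : z ∈ Finsupp.supported U K X) : ext K φ U z = ext K φ' U z := by
  classical
  refine Finsupp.ext fun ω' => ?_
  rw [ext_apply, ext_apply, Finsupp.sum, Finsupp.sum]
  refine Finset.sum_congr rfl fun ω hω => ?_
  rw [h ω (hz (by simpa using hω))]

/-- Support of an extension. -/
theorem ext_mem_supported {X : Set Ω} {Y : Set Ω'}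
    (h : ∀ ω ∈ X, ∀ ω' ∈ (φ ω).support, ω' ∈ Y)
    {z : Ω →₀ U} (hz : z ∈ Finsupp.supported U K X) :
    ext K φ U z ∈ Finsupp.supported U K Y := by
  classical
  rw [Finsupp.mem_supported]
  intro ω' hω'
  by_contra hY
  have : ext K φ U z ω' = 0 := by
    rw [ext_apply, Finsupp.sum]
    refine Finset.sum_eq_zero fun ω hω => ?_
    have hωX : ω ∈ X := hz (by simpa using hω)
    have : φ ω ω' = 0 := by
      by_contra hne
      exact hY (h ω hωX ω' (Finsupp.mem_support_iff.2 hne))
    simp [this]
  exact (Finsupp.mem_support_iff.1 (Finset.mem_coe.1 hω')) this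

/-- Naturality in the coefficients. -/
theorem ext_mapRange {U' : Type} [AddCommGroup U'] [Module K U'] (f : U →ₗ[K] U') (z : Ω →₀ U) :
    ext K φ U' (Finsupp.mapRange f f.map_zero z) = Finsupp.mapRange f f.map_zero (ext K φ U z) := by
  classical
  induction z using Finsupp.induction_linear with
  | zero => simp
  | add a b ha hb =>
    rw [Finsupp.mapRange_add' , map_add, ha, hb, map_add, Finsupp.mapRange_add']
  | single a b =>
    refine Finsupp.ext fun ω' => ?_
    rw [Finsupp.mapRange_single, ext_single_apply, Finsupp.mapRange_apply, ext_single_apply,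
      map_smul]

/-- Composition of extensions. -/
theorem ext_ext (ψ : Ω' → Ω'' →₀ K) (z : Ω →₀ U) :
    ext K ψ U (ext K φ U z) = ext K (fun ω => ext K ψ K (φ ω)) U z := by
  classical
  induction z using Finsupp.induction_linear with
  | zero => simp
  | add a b ha hb => simp only [map_add, ha, hb]
  | single a u =>
    refine Finsupp.ext fun ω' => ?_
    rw [ext_single_apply, ext_apply, ext_single, ext_apply]
    rw [Finsupp.sum_sum_index (by simp) (by intro a b c; simp)]
    rw [Finsupp.sum, Finsupp.sum, Finset.sum_smul]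
    refine Finset.sum_congr rfl fun ω _ => ?_
    rw [Finsupp.sum_single_index (by simp), smul_smul, smul_eq_mul]

theorem ext_add_fun (ψ : Ω → Ω' →₀ K) (z : Ω →₀ U) :
    ext K (fun ω => φ ω + ψ ω) U z = ext K φ U z + ext K ψ U z := by
  classical
  refine Finsupp.ext fun ω' => ?_
  rw [Finsupp.add_apply, ext_apply, ext_apply, ext_apply, ← Finsupp.sum_add]
  refine Finsupp.sum_congr fun ω _ => ?_
  rw [Finsupp.add_apply, add_smul]

theorem ext_smul_fun (c : K) (z : Ω →₀ U) :
    ext K (fun ω => c • φ ω) U z = c • ext K φ U z := by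
  classical
  refine Finsupp.ext fun ω' => ?_
  rw [Finsupp.smul_apply, ext_apply, ext_apply, Finsupp.smul_sum]
  refine Finsupp.sum_congr fun ω _ => ?_
  rw [Finsupp.smul_apply, smul_eq_mul, mul_smul]

theorem ext_neg_fun (z : Ω →₀ U) :
    ext K (fun ω => - φ ω) U z = - ext K φ U z := by
  have := ext_smul_fun φ U (-1) z
  simpa using this

theorem ext_sub_fun (ψ : Ω → Ω' →₀ K) (z : Ω →₀ U) :
    ext K (fun ω => φ ω - ψ ω) U z = ext K φ U z - ext K ψ U z := by
  simp only [sub_eq_add_neg]
  rw [ext_add_fun, ext_neg_fun]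

theorem ext_zero_fun (z : Ω →₀ U) : ext K (fun _ => (0 : Ω' →₀ K)) U z = 0 := by
  classical
  refine Finsupp.ext fun ω' => ?_
  rw [ext_apply]; simp

/-- `mapDomain` is an extension. -/
theorem ext_single_fun (f : Ω → Ω') (z : Ω →₀ U) :
    ext K (fun ω => single (f ω) (1 : K)) U z = Finsupp.mapDomain f z := by
  classical
  induction z using Finsupp.induction_linear with
  | zero => simp
  | add a b ha hb => rw [map_add, ha, hb, Finsupp.mapDomain_add]
  | single a u =>
    rw [ext_single, Finsupp.sum_single_index (by simp), Finsupp.mapDomain_single, one_smul]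

/-- Extension of a map along a map of basis elements. -/
theorem ext_mapDomain (f : Ω'' → Ω) (z : Ω'' →₀ U) :
    ext K φ U (Finsupp.mapDomain f z) = ext K (fun ω => φ (f ω)) U z := by
  classical
  induction z using Finsupp.induction_linear with
  | zero => simp
  | add a b ha hb => rw [Finsupp.mapDomain_add, map_add, map_add, ha, hb]
  | single a u => rw [Finsupp.mapDomain_single, ext_single, ext_single]

theorem mapDomain_ext (f : Ω' → Ω'') (z : Ω →₀ U) :
    Finsupp.mapDomain f (ext K φ U z) = ext K (fun ω => Finsupp.mapDomain f (φ ω)) U z := by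
  rw [← ext_single_fun (K := K) U f, ext_ext]
  have : (fun ω => ext K (fun ω => single (f ω) (1 : K)) K (φ ω)) =
      fun ω => Finsupp.mapDomain f (φ ω) := by
    funext ω
    rw [ext_single_fun]
  rw [this]

/-- Restriction of a chain to a set is an extension. -/
theorem ext_filter_fun (X : Set Ω) [DecidablePred (· ∈ X)] (z : Ω →₀ U) :
    ext K (fun ω => if ω ∈ X then single ω (1 : K) else 0) U z = z.filter (· ∈ X) := by
  classical
  induction z using Finsupp.induction_linear with
  | zero => rw [map_zero, Finsupp.filter_zero]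
  | add a b ha hb => rw [map_add, ha, hb, Finsupp.filter_add]
  | single a u =>
    by_cases h : a ∈ X
    · rw [Finsupp.filter_single_of_pos _ h]
      rw [ext_single, if_pos h, Finsupp.sum_single_index (by simp), one_smul]
    · rw [Finsupp.filter_single_of_neg _ h]
      rw [ext_single, if_neg h, Finsupp.sum_zero_index]

variable (K)

/-- The set of basis elements in `X` of length `k` and degree `j`. -/
def Hom (X : Set Ω) (ℓ g : Ω → ℕ) (k j : ℕ) : Set Ω := {ω | ω ∈ X ∧ ℓ ω = k ∧ g ω = j}

/-- Off-diagonal exactness in degree `j`, with universal coefficients. -/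
def ODat (X : Set Ω) (δ : Ω → Ω →₀ K) (ℓ g : Ω → ℕ) (j : ℕ) : Prop :=
  ∀ (U : Type) [AddCommGroup U] [Module K U] (k : ℕ), k ≠ j →
    ∀ z ∈ Finsupp.supported U K (Hom X ℓ g k j), ext K δ U z = 0 →
      ∃ y ∈ Finsupp.supported U K (Hom X ℓ g (k + 1) j), ext K δ U y = z

/-- `X, δ, ℓ, g` is a based complex: `δ` maps `X` to `X`, lowers the length by one, keeps the
degree, and squares to zero; the length is at most the degree. -/
structure IsBC (X : Set Ω) (δ : Ω → Ω →₀ K) (ℓ g : Ω → ℕ) : Prop where
  maps : ∀ ω ∈ X, ∀ ω' ∈ (δ ω).support, ω' ∈ X ∧ ℓ ω' + 1 = ℓ ω ∧ g ω' = g ω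
  sq : ∀ ω ∈ X, ext K δ K (δ ω) = 0
  le : ∀ ω ∈ X, ℓ ω ≤ g ω

variable {K}

/-- The differential squares to zero on chains supported in `X`. -/
theorem IsBC.ext_ext_eq_zero {X : Set Ω} {δ : Ω → Ω →₀ K} {ℓ g : Ω → ℕ} (h : IsBC K X δ ℓ g)
    {z : Ω →₀ U} (hz : z ∈ Finsupp.supported U K X) : ext K δ U (ext K δ U z) = 0 := by
  rw [ext_ext, ext_congr (fun ω => ext K δ K (δ ω)) U (φ' := fun _ => 0) (X := X) ?_ hz,
    ext_zero_fun]
  intro ω hω
  exact h.sq ω hω

/-- The differential maps homogeneous chains to homogeneous chains. -/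
theorem IsBC.ext_mem {X : Set Ω} {δ : Ω → Ω →₀ K} {ℓ g : Ω → ℕ} (h : IsBC K X δ ℓ g) {k j : ℕ}
    {z : Ω →₀ U} (hz : z ∈ Finsupp.supported U K (Hom X ℓ g (k + 1) j)) :
    ext K δ U z ∈ Finsupp.supported U K (Hom X ℓ g k j) := by
  refine ext_mem_supported δ U (X := Hom X ℓ g (k + 1) j) ?_ hz
  rintro ω ⟨hω, h1, h2⟩ ω' hω'
  obtain ⟨a, b, c⟩ := h.maps ω hω ω' hω'
  exact ⟨a, by omega, by omega⟩

end Abstract

end MP7ea278
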