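import Pool.Agent.Lib.MP_7ea278_ag.Chain

namespace MP7ea278

open Finsupp

variable {K : Type} [Field K] {Ω : Type}

private theorem cf_mapRange_mem {U V : Type} [AddCommGroup U] [Module K U] [AddCommGroup V]
    [Module K V] {S : Set Ω} (f : U →ₗ[K] V) {z : Ω →₀ U} (hz : z ∈ Finsupp.supported U K S) :
    Finsupp.mapRange f f.map_zero z ∈ Finsupp.supported V K S := by
  rw [Finsupp.mem_supported] at hz ⊢
  intro ω hω
  refine hz ?_
  rw [Finset.mem_coe, Finsupp.mem_support_iff] at hω ⊢
  intro h0
  apply hω
  rw [Finsupp.mapRange_apply, h0, map_zero]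

/-- Over a field, exactness with coefficients in the field implies exactness with all
coefficients. -/
theorem ODat_of_base {X : Set Ω} {δ : Ω → Ω →₀ K} {ℓ g : Ω → ℕ} {j : ℕ}
    (h : ∀ k, k ≠ j → ∀ z ∈ Finsupp.supported K K (Hom X ℓ g k j), ext K δ K z = 0 →
      ∃ y ∈ Finsupp.supported K K (Hom X ℓ g (k + 1) j), ext K δ K y = z) :
    ODat K X δ ℓ g j := by
  classical
  intro U _ _ k hk z hz hz0
  let b := Module.Basis.ofVectorSpace K U
  have hy : ∀ i, ∃ y ∈ Finsupp.supported K K (Hom X ℓ g (k + 1) j),
      ext K δ K y = Finsupp.mapRange (b.coord i) (b.coord i).map_zero z := by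
    intro i
    refine h k hk _ (cf_mapRange_mem (b.coord i) hz) ?_
    rw [ext_mapRange, hz0, Finsupp.mapRange_zero]
  choose y hy1 hy2 using hy
  set I := z.support.biUnion (fun ω => (b.repr (z ω)).support) with hI
  refine ⟨∑ i ∈ I, Finsupp.mapRange (LinearMap.toSpanSingleton K U (b i))
    (LinearMap.toSpanSingleton K U (b i)).map_zero (y i), ?_, ?_⟩
  · exact Submodule.sum_mem _ fun i _ => cf_mapRange_mem _ (hy1 i)
  · rw [map_sum]
    refine Finsupp.ext fun ω => ?_
    rw [Finsupp.finsetSum_apply]
    have e : ∀ i ∈ I, (ext K δ U (Finsupp.mapRange (LinearMap.toSpanSingleton K U (b i))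
        (LinearMap.toSpanSingleton K U (b i)).map_zero (y i))) ω = b.repr (z ω) i • b i := by
      intro i _
      rw [ext_mapRange, hy2 i, Finsupp.mapRange_apply, Finsupp.mapRange_apply,
        LinearMap.toSpanSingleton_apply, Module.Basis.coord_apply]
    rw [Finset.sum_congr rfl e]
    by_cases hω : ω ∈ z.support
    · have hsub : (b.repr (z ω)).support ⊆ I := by
        intro i hi
        exact Finset.mem_biUnion.2 ⟨ω, hω, hi⟩
      have h1 := b.linearCombination_repr (z ω)
      rw [Finsupp.linearCombination_apply, Finsupp.sum_of_support_subset _ hsub _ (by simp)] at h1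
      exact h1
    · rw [Finsupp.notMem_support_iff] at hω
      simp [hω]

end MP7ea278
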