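import Mathlib

/-!
Definitions for the question of Herzog and Hibi: discrete polymatroids, base rings, Koszul
algebras.
-/

namespace MP7ea278

/-- A discrete polymatroid on `Fin n`: a nonempty finite set of vectors of natural numbers,
closed under passing to smaller vectors and satisfying the augmentation axiom. -/
def IsDPM {n : ℕ} (P : Finset (Fin n → ℕ)) : Prop :=
  P.Nonempty ∧ (∀ u ∈ P, ∀ v : Fin n → ℕ, v ≤ u → v ∈ P) ∧
    ∀ u ∈ P, ∀ v ∈ P, ∑ i, u i < ∑ i, v i → ∃ i, u i < v i ∧ u + Pi.single i 1 ∈ P

/-- The bases: the elements of maximal modulus. -/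
def bases {n : ℕ} (P : Finset (Fin n → ℕ)) : Finset (Fin n → ℕ) :=
  P.filter fun u => ∀ v ∈ P, ∑ i, v i ≤ ∑ i, u i

/-- The monomial map `y_b ↦ x^b`. -/
noncomputable def toricMap (K : Type) [Field K] {n : ℕ} (B : Finset (Fin n → ℕ)) :
    MvPolynomial B K →ₐ[K] MvPolynomial (Fin n) K :=
  MvPolynomial.aeval fun b => ∏ i, (MvPolynomial.X i) ^ (b.1 i)

/-- The toric ideal, the kernel of the monomial map. -/
noncomputable def toricIdeal (K : Type) [Field K] {n : ℕ} (B : Finset (Fin n → ℕ)) :
    Ideal (MvPolynomial B K) := RingHom.ker (toricMap K B)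

/-- The base ring, the quotient by the toric ideal. -/
abbrev BaseRing (K : Type) [Field K] {n : ℕ} (B : Finset (Fin n → ℕ)) : Type :=
  MvPolynomial B K ⧸ toricIdeal K B

/-- The component of degree one of the base ring: the span of the classes of the variables. -/
noncomputable def degOne (K : Type) [Field K] {n : ℕ} (B : Finset (Fin n → ℕ)) :
    Submodule K (BaseRing K B) :=
  Submodule.span K (Set.range fun b : B => Ideal.Quotient.mk (toricIdeal K B) (MvPolynomial.X b))

/-- A standard graded algebra `R` with component `V` of degree one is Koszul: its residue field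
has a resolution by finitely generated free modules, starting with `R`, all of whose maps are
given by matrices with entries in `V`. -/
def IsKoszulAlg (K R : Type) [Field K] [CommRing R] [Algebra K R] (V : Submodule K R) : Prop :=
  ∃ (r : ℕ → ℕ) (A : ∀ i, Matrix (Fin (r i)) (Fin (r (i + 1))) R),
    r 0 = 1 ∧ (∀ i p q, A i p q ∈ V) ∧
    (∀ v : Fin (r 0) → R, (∀ p, v p ∈ Ideal.span (V : Set R)) ↔ ∃ w, v = (A 0).mulVec w) ∧
    ∀ i, ∀ v : Fin (r (i + 1)) → R, (A i).mulVec v = 0 ↔ ∃ w, v = (A (i + 1)).mulVec w

/-- The base ring of the discrete polymatroid `P` over `K` is Koszul. -/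
def KoszulBaseRing (K : Type) [Field K] {n : ℕ} (P : Finset (Fin n → ℕ)) : Prop :=
  IsKoszulAlg K (BaseRing K (bases P)) (degOne K (bases P))

end MP7ea278
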