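import Pool.Agent.Lib.MP_7ea278_ag.Shuffle

namespace MP7ea278

open Finsupp

section DiagA

variable (K : Type) [CommRing K] {M : Type} [AddCommMonoid M]

/-- Sign of the antipode. -/
def eps (q : ℕ) : K := (-1) ^ (q * (q + 1) / 2)

open Classical in
/-- Signed sum of shuffles of the reversed prefixes with letters in `D`. -/
noncomputable def Phi (D : Set M) : List M → List M → (List M →₀ K)
  | r, [] => eps K r.length • sh K r []
  | r, e :: v => eps K r.length • sh K r (e :: v) + (if e ∈ D then Phi D (e :: r) v else 0)
termination_by _ v => v.length

variable {K}

theorem eps_succ (q : ℕ) : eps K (q + 1) = eps K q * (-1) ^ (q + 1) := by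
  rw [eps, eps, ← pow_add]
  congr 1
  have : (q + 1) * (q + 1 + 1) = q * (q + 1) + (q + 1) * 2 := by ring
  rw [this, Nat.add_mul_div_right _ _ (by norm_num)]

theorem Phi_nil (D : Set M) (r : List M) : Phi K D r [] = eps K r.length • sh K r [] := by
  rw [Phi]

open Classical in
theorem Phi_cons (D : Set M) (r : List M) (e : M) (v : List M) :
    Phi K D r (e :: v) = eps K r.length • sh K r (e :: v) +
      (if e ∈ D then Phi K D (e :: r) v else 0) := by
  rw [Phi]

/-- The part with first letter in `D`. -/
theorem Phi_first (D : Set M) (x : M) (r v : List M) (b : M) (hb : b ∈ D) (t : List M) :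
    Phi K D (x :: r) v (b :: t) =
      eps K (r.length + 1) * (sh K r v).mapDomain (List.cons x) (b :: t) := by
  classical
  induction v generalizing x r with
  | nil =>
    rw [Phi_nil, sh_nil_right, sh_nil_right, Finsupp.mapDomain_single, Finsupp.smul_apply,
      smul_eq_mul, List.length_cons]
  | cons e v ih =>
    rw [Phi_cons, sh_cons_cons, List.length_cons]
    by_cases he : e ∈ D
    · rw [if_pos he, Finsupp.add_apply, ih (x := e) (r := x :: r), List.length_cons,
        eps_succ (r.length + 1), Finsupp.smul_apply, Finsupp.add_apply, Finsupp.smul_apply,
        smul_eq_mul, smul_eq_mul, pow_succ (-1 : K) (r.length + 1)]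
      ring
    · rw [if_neg he, add_zero, Finsupp.smul_apply, Finsupp.add_apply, Finsupp.smul_apply,
        smul_eq_mul, smul_eq_mul]
      have : (Finsupp.mapDomain (List.cons e) (sh K (x :: r) v)) (b :: t) = 0 := by
        apply Finsupp.mapDomain_of_notMem_range
        rintro ⟨w, hw⟩
        have : e = b := by
          have := congrArg List.head? hw
          simpa using this
        exact he (this ▸ hb)
      rw [this]
      ring

open Classical in
theorem Phi_sum (D : Set M) (r v : List M) :
    Phi K D r v = ∑ i ∈ Finset.range (v.length + 1),
      if (∀ x ∈ v.take i, x ∈ D) then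
        eps K (r.length + i) • sh K ((v.take i).reverse ++ r) (v.drop i) else 0 := by
  induction v generalizing r with
  | nil => rw [Phi_nil]; simp
  | cons e v ih =>
    rw [Phi_cons, List.length_cons, Finset.sum_range_succ', add_comm]
    congr 1
    · by_cases he : e ∈ D
      · rw [if_pos he, ih]
        refine Finset.sum_congr rfl fun i _ => ?_
        simp only [List.take_succ_cons, List.drop_succ_cons, List.forall_mem_cons, he, true_and,
          List.reverse_cons, List.append_assoc, List.singleton_append, List.length_cons]
        rw [show r.length + 1 + i = r.length + (i + 1) by omega]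
      · rw [if_neg he]
        symm
        refine Finset.sum_eq_zero fun i _ => ?_
        simp [he]

end DiagA

end MP7ea278
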