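import Pool.Agent.Lib.MP_7ea278_ag.Append

namespace MP7ea278

open Finsupp

variable {K : Type} [CommRing K] {M : Type} [AddCommMonoid M]

theorem support_dl_cons (c : M → M → K) (a b : M) (v w' : List M)
    (h : w' ∈ (dl K c (a :: b :: v)).support) :
    w' = (a + b) :: v ∨ ∃ v' ∈ (dl K c (b :: v)).support, w' = a :: v' := by
  classical
  rw [dl_cons] at h
  rcases Finset.mem_union.1 (Finsupp.support_sub h) with h | h
  · left
    have h' : (mu c a (b :: v)) = single ((a + b) :: v) (c a b) := rfl
    rw [h'] at h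
    exact Finset.mem_singleton.1 (Finsupp.support_single_subset h)
  · right
    obtain ⟨v', hv', rfl⟩ := Finset.mem_image.1 (Finsupp.mapDomain_support h)
    exact ⟨v', hv', rfl⟩

theorem face_words (c : M → M → K) (S D : Set M)
    (hD : ∀ a ∈ S, ∀ b ∈ S, (a + b ∈ D ↔ a ∈ D ∧ b ∈ D)) :
    ∀ u : List M, (∀ x ∈ u, x ∈ S) → ∀ u' ∈ (dl K c u).support,
      ((∀ x ∈ u', x ∈ D) ↔ ∀ x ∈ u, x ∈ D) := by
  intro u
  induction u with
  | nil => intro _ u' hu'; simp [dl_nil] at hu'
  | cons a v ih =>
    intro hu u' hu'
    cases v with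
    | nil => simp [dl] at hu'
    | cons b v =>
      rcases support_dl_cons c a b v u' hu' with rfl | ⟨v', hv', rfl⟩
      · simp only [List.mem_cons, forall_eq_or_imp]
        rw [hD a (hu a (by simp)) b (hu b (by simp))]
        tauto
      · have := ih (fun x hx => hu x (List.mem_cons_of_mem _ hx)) v' hv'
        rw [List.forall_mem_cons, List.forall_mem_cons, this]

theorem jn_support (c : M → M → K) (e : M) (s : List M) :
    ∀ u : List M, u ≠ [] → ∀ w' ∈ (jn K c u (e :: s)).support,
      ∃ p x, u = p ++ [x] ∧ w' = p ++ (x + e) :: s := by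
  classical
  intro u
  induction u with
  | nil => intro h; exact absurd rfl h
  | cons a u ih =>
    intro _ w' hw'
    cases u with
    | nil =>
      have h' : jn K c [a] (e :: s) = single ((a + e) :: s) (c a e) := rfl
      rw [h'] at hw'
      have := Finset.mem_singleton.1 (Finsupp.support_single_subset hw')
      exact ⟨[], a, by simp, by simpa using this⟩
    | cons b u =>
      have h' : jn K c (a :: b :: u) (e :: s) =
        - (jn K c (b :: u) (e :: s)).mapDomain (List.cons a) := rfl
      rw [h', Finsupp.support_neg] at hw'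
      obtain ⟨v', hv', rfl⟩ := Finset.mem_image.1 (Finsupp.mapDomain_support hw')
      obtain ⟨p, x, h1, h2⟩ := ih (by simp) v' hv'
      exact ⟨a :: p, x, by rw [h1]; rfl, by rw [h2]; rfl⟩

theorem jn_nil (c : M → M → K) : ∀ u : List M, jn K c u [] = 0 := by
  intro u
  induction u with
  | nil => rfl
  | cons a u ih =>
    cases u with
    | nil => rfl
    | cons b u =>
      have h' : jn K c (a :: b :: u) [] =
        - (jn K c (b :: u) []).mapDomain (List.cons a) := rfl
      rw [h', ih]; simp

theorem ext_eq_zero_of_support {Ω Ω' : Type} (φ : Ω → Ω' →₀ K) (z : Ω →₀ K)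
    (h : ∀ ω ∈ z.support, φ ω = 0) : ext K φ K z = 0 := by
  rw [ext_congr φ K (φ' := fun _ => 0) (X := (z.support : Set Ω)) (fun ω hω => h ω hω)
    (by rw [Finsupp.mem_supported]), ext_zero_fun]

theorem ext_congr_support {Ω Ω' : Type} (φ φ' : Ω → Ω' →₀ K) (z : Ω →₀ K)
    (h : ∀ ω ∈ z.support, φ ω = φ' ω) : ext K φ K z = ext K φ' K z :=
  ext_congr φ K (X := (z.support : Set Ω)) (fun ω hω => h ω hω)
    (by rw [Finsupp.mem_supported])

/-- All letters of a word whose length is its degree have degree one. -/
theorem letters_deg_one (deg : M →+ ℕ) : ∀ w : List M, (∀ x ∈ w, 1 ≤ deg x) →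
    deg w.sum = w.length → ∀ x ∈ w, deg x = 1 := by
  intro w
  induction w with
  | nil => simp
  | cons a v ih =>
    intro h1 h2 x hx
    have hv : ∀ x ∈ v, 1 ≤ deg x := fun x hx => h1 x (List.mem_cons_of_mem _ hx)
    have h3 : ∀ v : List M, (∀ x ∈ v, 1 ≤ deg x) → v.length ≤ deg v.sum := by
      intro v
      induction v with
      | nil => intro _; simp
      | cons b v ih =>
        intro hv
        have := ih fun x hx => hv x (List.mem_cons_of_mem _ hx)
        have := hv b (by simp)
        simp only [List.length_cons, List.sum_cons, map_add]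
        omega
    have h4 := h3 v hv
    have h5 := h1 a (by simp)
    simp only [List.length_cons, List.sum_cons, map_add] at h2
    rcases List.mem_cons.1 hx with rfl | hx
    · omega
    · exact ih hv (by omega) x hx

theorem deg_sum_of_one (deg : M →+ ℕ) : ∀ w : List M, (∀ x ∈ w, deg x = 1) →
    deg w.sum = w.length := by
  intro w
  induction w with
  | nil => simp
  | cons a v ih =>
    intro h
    simp only [List.length_cons, List.sum_cons, map_add]
    rw [ih fun x hx => h x (List.mem_cons_of_mem _ hx), h a (by simp)]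
    omega

open Classical in
/-- First projection. -/
noncomputable def pi1 (K : Type) [CommRing K] (deg : M →+ ℕ) (D : Set M) (q : ℕ) (w : List M) :
    (List M × List M) →₀ K :=
  if (∀ x ∈ w.take (q - 1), x ∈ D) ∧ deg (w.take (q - 1)).sum = q then
    single (w.take (q - 1), w.drop (q - 1)) 1 else 0

open Classical in
/-- Second projection. -/
noncomputable def pi2 (K : Type) [CommRing K] (deg : M →+ ℕ) (D : Set M) (q : ℕ) (w : List M) :
    (List M × List M) →₀ K :=
  if (∀ x ∈ w.take q, x ∈ D) ∧ deg (w.take q).sum = q ∧ q ≤ w.length then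
    single (w.take q, w.drop q) 1 else 0

open Classical in
theorem pi1_dl (deg : M →+ ℕ) (S D : Set M)
    (hD : ∀ a ∈ S, ∀ b ∈ S, (a + b ∈ D ↔ a ∈ D ∧ b ∈ D)) (q : ℕ) (hq : 1 ≤ q) (u v : List M)
    (hu : u.length = q) (hSu : ∀ x ∈ u, x ∈ S)
    (h1u : ∀ x ∈ u, deg x = 1) :
    ext K (pi1 K deg D q) K (dl K (one2 K) (u ++ v)) =
      if (∀ x ∈ u, x ∈ D) then (dl K (one2 K) u).mapDomain (fun u' => (u', v)) else 0 := by
  rw [dl_append, map_add, map_add, ext_mapDomain, map_smul, ext_mapDomain]
  have hune : u ≠ [] := by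
    intro h; rw [h] at hu; simp at hu; omega
  -- second term vanishes
  have h2 : ∀ v' : List M, pi1 K deg D q (u ++ v') = 0 := by
    intro v'
    rw [pi1, if_neg]
    rintro ⟨_, h⟩
    have e : (u ++ v').take (q - 1) = u.take (q - 1) := by
      rw [List.take_append_of_le_length (by omega)]
    rw [e, deg_sum_of_one deg _ (fun x hx => h1u x (List.mem_of_mem_take hx)),
      List.length_take] at h
    omega
  have h3 : ∀ w' ∈ (jn K (one2 K) u v).support, pi1 K deg D q w' = 0 := by
    intro w' hw'
    cases v with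
    | nil => rw [jn_nil] at hw'; simp at hw'
    | cons e s =>
      obtain ⟨p, x, hp, rfl⟩ := jn_support _ e s u hune w' hw'
      rw [pi1, if_neg]
      rintro ⟨_, h⟩
      have hlen : p.length = q - 1 := by
        rw [hp] at hu; simp at hu; omega
      have e : (p ++ (x + e) :: s).take (q - 1) = p := by
        rw [← hlen]; simp
      rw [e, deg_sum_of_one deg _ (fun y hy => h1u y (by rw [hp]; simp [hy])), hlen] at h
      omega
  have h4 : ext K (fun v' => pi1 K deg D q (u ++ v')) K (dl K (one2 K) v) = 0 :=
    ext_eq_zero_of_support _ _ fun v' _ => h2 v'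
  rw [h4, ext_eq_zero_of_support _ _ h3, smul_zero, add_zero, add_zero]
  -- first term
  have h5 : ∀ u' ∈ (dl K (one2 K) u).support, pi1 K deg D q (u' ++ v) =
      if (∀ x ∈ u, x ∈ D) then single (u', v) 1 else 0 := by
    intro u' hu'
    have hsup := dl_support (one2 K) Set.univ (fun _ _ _ _ _ => trivial) u (fun _ _ => trivial) u' hu'
    have hlen : u'.length = q - 1 := by omega
    have e1 : (u' ++ v).take (q - 1) = u' := by rw [← hlen]; simp
    have e2 : (u' ++ v).drop (q - 1) = v := by rw [← hlen]; simp
    have e3 : deg u'.sum = q := by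
      rw [hsup.2.2, deg_sum_of_one deg u h1u, hu]
    rw [pi1, e1, e2, e3]
    have e4 := face_words (one2 K) S D hD u hSu u' hu'
    by_cases hc : ∀ x ∈ u, x ∈ D
    · rw [if_pos ⟨e4.2 hc, rfl⟩, if_pos hc]
    · rw [if_neg (fun h => hc (e4.1 h.1)), if_neg hc]
  rw [ext_congr_support _ _ _ h5]
  by_cases hc : ∀ x ∈ u, x ∈ D
  · simp only [if_pos hc]
    rw [ext_single_fun (K := K) K (fun u' : List M => (u', v))]
  · simp only [if_neg hc]
    rw [ext_zero_fun]

open Classical in
theorem pi2_dl (deg : M →+ ℕ) (S D : Set M) (q : ℕ) (hq : 1 ≤ q) (u v : List M)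
    (hu : u.length = q) (h1u : ∀ x ∈ u, deg x = 1) (h1v : ∀ x ∈ v, deg x = 1) :
    ext K (pi2 K deg D q) K (dl K (one2 K) (u ++ v)) =
      ((-1 : K) ^ q) • if (∀ x ∈ u, x ∈ D) then
        (dl K (one2 K) v).mapDomain (fun v' => (u, v')) else 0 := by
  rw [dl_append, map_add, map_add, ext_mapDomain, map_smul, ext_mapDomain]
  have hune : u ≠ [] := by
    intro h; rw [h] at hu; simp at hu; omega
  have h3 : ∀ w' ∈ (jn K (one2 K) u v).support, pi2 K deg D q w' = 0 := by
    intro w' hw'
    cases v with
    | nil => rw [jn_nil] at hw'; simp at hw'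
    | cons e s =>
      obtain ⟨p, x, hp, rfl⟩ := jn_support _ e s u hune w' hw'
      rw [pi2, if_neg]
      rintro ⟨_, h, _⟩
      have hlen : p.length = q - 1 := by
        rw [hp] at hu; simp at hu; omega
      have e' : (p ++ (x + e) :: s).take q = p ++ [x + e] := by
        rw [List.take_append]
        have : q - p.length = 1 := by omega
        rw [this, List.take_of_length_le (by omega)]
        simp
      have hx : deg x = 1 := h1u x (by rw [hp]; simp)
      have he : deg e = 1 := h1v e (by simp)
      rw [e', List.sum_append, map_add,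
        deg_sum_of_one deg _ (fun y hy => h1u y (by rw [hp]; simp [hy])), hlen] at h
      simp only [List.sum_cons, List.sum_nil, map_add, hx, he, map_zero] at h
      omega
  have h5 : ∀ u' ∈ (dl K (one2 K) u).support, pi2 K deg D q (u' ++ v) = 0 := by
    intro u' hu'
    have hsup := dl_support (one2 K) Set.univ (fun _ _ _ _ _ => trivial) u (fun _ _ => trivial) u' hu'
    have hlen : u'.length = q - 1 := by omega
    have e3 : deg u'.sum = q := by
      rw [hsup.2.2, deg_sum_of_one deg u h1u, hu]
    rw [pi2, if_neg]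
    rintro ⟨_, h, h'⟩
    cases v with
    | nil => simp at h'; omega
    | cons e s =>
      have e' : (u' ++ e :: s).take q = u' ++ [e] := by
        rw [List.take_append]
        have : q - u'.length = 1 := by omega
        rw [this, List.take_of_length_le (by omega)]
        simp
      have he : deg e = 1 := h1v e (by simp)
      rw [e', List.sum_append, map_add, e3] at h
      simp only [List.sum_cons, List.sum_nil, map_add, he, map_zero] at h
      omega
  rw [ext_eq_zero_of_support _ _ h3, ext_eq_zero_of_support _ _ h5, zero_add, add_zero, hu]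
  congr 1
  have h6 : ∀ v' : List M, pi2 K deg D q (u ++ v') =
      if (∀ x ∈ u, x ∈ D) then single (u, v') 1 else 0 := by
    intro v'
    have e1 : (u ++ v').take q = u := by rw [← hu]; simp
    have e2 : (u ++ v').drop q = v' := by rw [← hu]; simp
    have e3 : deg u.sum = q := by rw [deg_sum_of_one deg u h1u, hu]
    have e4 : q ≤ (u ++ v').length := by simp; omega
    rw [pi2, e1, e2, e3]
    by_cases hc : ∀ x ∈ u, x ∈ D
    · rw [if_pos ⟨hc, rfl, e4⟩, if_pos hc]
    · rw [if_neg (fun h => hc h.1), if_neg hc]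
  have h7 : (fun v' : List M => pi2 K deg D q (u ++ v')) = fun v' =>
      if (∀ x ∈ u, x ∈ D) then single (u, v') 1 else 0 := funext h6
  rw [h7]
  by_cases hc : ∀ x ∈ u, x ∈ D
  · simp only [if_pos hc]
    rw [ext_single_fun (K := K) K (fun v' : List M => (u, v'))]
  · simp only [if_neg hc]
    rw [ext_zero_fun]

open Classical in
/-- The twisted differential has the same projections. -/
theorem pi_dl0 (deg : M →+ ℕ) (S D : Set M)
    (hD : ∀ a ∈ S, ∀ b ∈ S, (a + b ∈ D ↔ a ∈ D ∧ b ∈ D)) (q : ℕ) (hq : 1 ≤ q) (w : List M)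
    (hS : ∀ x ∈ w, x ∈ S) (h1 : ∀ x ∈ w, deg x = 1) :
    ext K (pi1 K deg D q) K (dl0 K (fun _ b => if b ∈ D then 1 else 0) (one2 K) w) =
      ext K (pi1 K deg D q) K (dl K (one2 K) w) ∧
    ext K (pi2 K deg D q) K (dl0 K (fun _ b => if b ∈ D then 1 else 0) (one2 K) w) =
      ext K (pi2 K deg D q) K (dl K (one2 K) w) := by
  cases w with
  | nil => exact ⟨rfl, rfl⟩
  | cons a w =>
    cases w with
    | nil => exact ⟨rfl, rfl⟩
    | cons b w =>
      by_cases hb : b ∈ D
      · have : dl0 K (fun _ b => if b ∈ D then 1 else 0) (one2 K) (a :: b :: w) =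
            dl K (one2 K) (a :: b :: w) := by
          change single ((a + b) :: w) (if b ∈ D then (1 : K) else 0) - _ =
            single ((a + b) :: w) (1 : K) - _
          rw [if_pos hb]
        rw [this]; exact ⟨rfl, rfl⟩
      · have e : dl K (one2 K) (a :: b :: w) =
            dl0 K (fun _ b => if b ∈ D then 1 else 0) (one2 K) (a :: b :: w) +
              single ((a + b) :: w) 1 := by
          rw [dl0_cons, dl_cons]
          simp [mu, hb, one2]
          abel
        have hab : a + b ∉ D := fun h => hb ((hD a (hS a (by simp)) b (hS b (by simp))).1 h).2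
        have ha1 := h1 a (by simp)
        have hb1 := h1 b (by simp)
        rw [e, map_add, map_add, ext_single_one, ext_single_one]
        constructor
        · have : pi1 K deg D q ((a + b) :: w) = 0 := by
            rw [pi1, if_neg]
            rintro ⟨h, h'⟩
            rcases Nat.lt_or_ge 1 q with h1q | h1q
            · apply hab
              apply h
              obtain ⟨r, hr⟩ : ∃ r, q - 1 = r + 1 := ⟨q - 2, by omega⟩
              rw [hr]; simp
            · have : q - 1 = 0 := by omega
              rw [this] at h'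
              simp at h'
              omega
          rw [this, add_zero]
        · have : pi2 K deg D q ((a + b) :: w) = 0 := by
            rw [pi2, if_neg]
            rintro ⟨h, h', _⟩
            apply hab
            apply h
            obtain ⟨r, hr⟩ : ∃ r, q = r + 1 := ⟨q - 1, by omega⟩
            rw [hr]; simp
          rw [this, add_zero]

open Classical in
/-- The differential of a diagonal cycle vanishes before and after position `q`. -/
theorem diag_proj (deg : M →+ ℕ) (S D : Set M) (hS : ∀ a ∈ S, ∀ b ∈ S, a + b ∈ S)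
    (hdeg : ∀ a ∈ S, 1 ≤ deg a) (hDS : D ⊆ S)
    (hD : ∀ a ∈ S, ∀ b ∈ S, (a + b ∈ D ↔ a ∈ D ∧ b ∈ D))
    (U : Type) [AddCommGroup U] [Module K U] (j : ℕ) (z : List M →₀ U)
    (hz : z ∈ Finsupp.supported U K (Hom (Wd D S) List.length (wdeg deg) j j))
    (hdz : ext K (dl0 K (fun _ b => if b ∈ D then 1 else 0) (one2 K)) U z = 0)
    (q : ℕ) (hq : 1 ≤ q) (hqj : q ≤ j) :
    ext K (fun w : List M => if (∀ x ∈ w.take q, x ∈ D) then
        (dl K (one2 K) (w.take q)).mapDomain (fun u' => (u', w.drop q)) else 0) U z = 0 ∧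
    ext K (fun w : List M => if (∀ x ∈ w.take q, x ∈ D) then
        (dl K (one2 K) (w.drop q)).mapDomain (fun v' => (w.take q, v')) else 0) U z = 0 := by
  have hw : ∀ w ∈ Hom (Wd D S) List.length (wdeg deg) j j,
      (∀ x ∈ w, x ∈ S) ∧ (∀ x ∈ w, deg x = 1) ∧ w.length = j := by
    rintro w ⟨⟨a, v, rfl, ha, hv⟩, h1, h2⟩
    have hS' : ∀ x ∈ a :: v, x ∈ S := by
      intro x hx
      rcases List.mem_cons.1 hx with rfl | hx
      · exact hDS ha
      · exact hv x hx
    exact ⟨hS', letters_deg_one deg _ (fun x hx => hdeg x (hS' x hx))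
      (by rw [h1]; exact h2), h1⟩
  constructor
  · rw [ext_congr _ U (φ' := fun w => ext K (pi1 K deg D q) K
      (dl0 K (fun _ b => if b ∈ D then 1 else 0) (one2 K) w))
      (X := Hom (Wd D S) List.length (wdeg deg) j j) ?_ hz, ← ext_ext, hdz, map_zero]
    intro w hwm
    obtain ⟨h1, h2, h3⟩ := hw w hwm
    rw [(pi_dl0 deg S D hD q hq w h1 h2).1]
    have e : w.take q ++ w.drop q = w := List.take_append_drop q w
    conv_rhs => rw [← e]
    rw [pi1_dl deg S D hD q hq (w.take q) (w.drop q) (by rw [List.length_take]; omega)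
      (fun x hx => h1 x (List.mem_of_mem_take hx)) (fun x hx => h2 x (List.mem_of_mem_take hx))]
  · have key : ((-1 : K) ^ q) • ext K (fun w : List M => if (∀ x ∈ w.take q, x ∈ D) then
        (dl K (one2 K) (w.drop q)).mapDomain (fun v' => (w.take q, v')) else 0) U z = 0 := by
      rw [← ext_smul_fun, ext_congr _ U (φ' := fun w => ext K (pi2 K deg D q) K
        (dl0 K (fun _ b => if b ∈ D then 1 else 0) (one2 K) w))
        (X := Hom (Wd D S) List.length (wdeg deg) j j) ?_ hz, ← ext_ext, hdz, map_zero]
      intro w hwm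
      obtain ⟨h1, h2, h3⟩ := hw w hwm
      rw [(pi_dl0 deg S D hD q hq w h1 h2).2]
      have e : w.take q ++ w.drop q = w := List.take_append_drop q w
      conv_rhs => rw [← e]
      rw [pi2_dl deg S D q hq (w.take q) (w.drop q) (by rw [List.length_take]; omega)
        (fun x hx => h2 x (List.mem_of_mem_take hx)) (fun x hx => h2 x (List.mem_of_mem_drop hx))]
    have h1 : ((-1 : K) ^ q) * ((-1 : K) ^ q) = 1 := by
      rw [← mul_pow]; simp
    have h2 := congrArg (fun t => ((-1 : K) ^ q) • t) key
    simp only [smul_smul, h1, one_smul, smul_zero] at h2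
    exact h2

end MP7ea278
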