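import Pool.Agent.Lib.MP_7ea278_ag.DiagA
import Pool.Agent.Lib.MP_7ea278_ag.DiagC
import Pool.Agent.Lib.MP_7ea278_ag.Words

namespace MP7ea278

open Finsupp

variable {K : Type} [CommRing K] {M : Type} [AddCommMonoid M]

theorem dlf_ext_sum_fun {Ω Ω' ι : Type} (s : Finset ι) (φ : ι → Ω → Ω' →₀ K) (U : Type)
    [AddCommGroup U] [Module K U] (z : Ω →₀ U) :
    ext K (fun ω => ∑ i ∈ s, φ i ω) U z = ∑ i ∈ s, ext K (φ i) U z := by
  classical
  induction s using Finset.induction_on with
  | empty => simpa using ext_zero_fun (K := K) U z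
  | insert i s hi ih =>
    simp only [Finset.sum_insert hi]
    rw [ext_add_fun, ih]

theorem dlf_sh_perm (n : ℕ) : ∀ u v : List M, u.length + v.length ≤ n →
    ∀ t ∈ (sh K u v).support, t.Perm (u ++ v) := by
  classical
  induction n with
  | zero =>
    intro u v h t ht
    have hu : u = [] := List.length_eq_zero_iff.1 (by omega)
    have hv : v = [] := List.length_eq_zero_iff.1 (by omega)
    subst hu; subst hv
    rw [sh_nil_left] at ht
    have := Finsupp.support_single_subset ht
    simp only [Finset.mem_singleton] at this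
    subst this
    exact List.Perm.refl _
  | succ n ih =>
    intro u v h t ht
    cases u with
    | nil =>
      rw [sh_nil_left] at ht
      have := Finsupp.support_single_subset ht
      simp only [Finset.mem_singleton] at this
      subst this
      exact List.Perm.refl _
    | cons a u =>
      cases v with
      | nil =>
        rw [sh_nil_right] at ht
        have := Finsupp.support_single_subset ht
        simp only [Finset.mem_singleton] at this
        subst this
        simp
      | cons b v =>
        simp only [List.length_cons] at h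
        rw [sh_cons_cons] at ht
        rcases Finset.mem_union.1 (Finsupp.support_add ht) with h1 | h1
        · obtain ⟨t', ht', rfl⟩ := Finset.mem_image.1 (Finsupp.mapDomain_support h1)
          have := ih u (b :: v) (by simp only [List.length_cons]; omega) t' ht'
          exact List.Perm.cons a this
        · obtain ⟨t', ht', rfl⟩ := Finset.mem_image.1
            (Finsupp.mapDomain_support (Finsupp.support_smul h1))
          have := ih (a :: u) v (by simp only [List.length_cons]; omega) t' ht'
          exact (List.Perm.cons b this).trans List.perm_middle.symm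

theorem dlf_Phi_perm (D : Set M) (v : List M) : ∀ r : List M,
    ∀ t ∈ (Phi K D r v).support, t.Perm (r ++ v) := by
  classical
  induction v with
  | nil =>
    intro r t ht
    rw [Phi_nil] at ht
    exact dlf_sh_perm _ r [] le_rfl t (Finsupp.support_smul ht)
  | cons e v ih =>
    intro r t ht
    rw [Phi_cons] at ht
    rcases Finset.mem_union.1 (Finsupp.support_add ht) with h1 | h1
    · exact dlf_sh_perm _ r (e :: v) le_rfl t (Finsupp.support_smul h1)
    · by_cases he : e ∈ D
      · rw [if_pos he] at h1
        exact (ih (e :: r) t h1).trans (List.perm_middle.symm)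
      · rw [if_neg he] at h1
        simp at h1

/-- the lift on words -/
noncomputable def dlfPsi (D : Set M) : List M → (List M →₀ K)
  | [] => 0
  | a :: w => - Phi K D [a] w

theorem dlf_Psi_mem (deg : M →+ ℕ) (S D : Set M) (hDS : D ⊆ S) (j : ℕ) (w : List M)
    (hw : w ∈ Hom (Wd D S) List.length (wdeg deg) j j) (t : List M)
    (ht : t ∈ (dlfPsi (K := K) D w).support) :
    t ∈ Hom (Wd S S) List.length (wdeg deg) j j := by
  obtain ⟨⟨a, v, rfl, ha, hv⟩, h1, h2⟩ := hw
  have hp : t.Perm (a :: v) := by
    simp only [dlfPsi, Finsupp.support_neg] at ht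
    exact dlf_Phi_perm D v [a] t ht
  refine ⟨?_, ?_, ?_⟩
  · have hall : ∀ x ∈ t, x ∈ S := by
      intro x hx
      have := hp.mem_iff.1 hx
      rcases List.mem_cons.1 this with h | h
      · subst h; exact hDS ha
      · exact hv x h
    cases t with
    | nil => simp at hp
    | cons b t =>
      exact ⟨b, t, rfl, hall b (by simp), fun x hx => hall x (by simp [hx])⟩
  · rw [← h1]; exact hp.length_eq
  · rw [← h2]
    unfold wdeg
    rw [hp.sum_eq]

/-- shuffle of the reversed first word with the second word -/
noncomputable def dlfB (p : List M × List M) : List M →₀ K := sh K p.1.reverse p.2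

theorem dlf_dsh (u v : List M) :
    ext K (dl K (one2 K)) K (sh K u.reverse v) =
      ((-1 : K) ^ u.length) • ext K dlfB K
        ((dl K (one2 K) u).mapDomain (fun u' => (u', v)) +
          (dl K (one2 K) v).mapDomain (fun v' => (u, v'))) := by
  rw [dl_sh_aux _ u.reverse v le_rfl, dl_reverse, map_smul, map_add, shf_ext_mapDomain',
    shf_ext_mapDomain', shf_ext_mapDomain', List.length_reverse, smul_add]
  rfl

open Classical in
theorem dlf_dPsi (S D : Set M) (j : ℕ) (w : List M) (hw : w ∈ Wd D S) (hj : w.length = j) :
    ext K (dl K (one2 K)) K (dlfPsi D w) =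
      ∑ i ∈ Finset.range j, (-(eps K (i + 1) * (-1 : K) ^ (i + 1))) • ext K dlfB K
        ((if (∀ x ∈ w.take (i + 1), x ∈ D) then
          (dl K (one2 K) (w.take (i + 1))).mapDomain (fun u' => (u', w.drop (i + 1))) else 0) +
        (if (∀ x ∈ w.take (i + 1), x ∈ D) then
          (dl K (one2 K) (w.drop (i + 1))).mapDomain (fun v' => (w.take (i + 1), v')) else 0)) := by
  obtain ⟨a, v, rfl, ha, hv⟩ := hw
  simp only [dlfPsi, map_neg]
  rw [Phi_sum, map_sum, ← Finset.sum_neg_distrib]
  subst hj
  rw [List.length_cons]
  refine Finset.sum_congr rfl fun i hi => ?_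
  simp only [List.take_succ_cons, List.drop_succ_cons, List.forall_mem_cons, ha, true_and]
  by_cases h : ∀ x ∈ v.take i, x ∈ D
  · rw [if_pos h, if_pos h, if_pos h, map_smul]
    have h1 : (v.take i).reverse ++ [a] = (a :: v.take i).reverse := by simp
    have h2 : (a :: v.take i).length = i + 1 := by
      have : i < v.length + 1 := Finset.mem_range.1 hi
      simp only [List.length_cons, List.length_take]
      omega
    rw [h1, dlf_dsh, h2, smul_smul, neg_smul]
    have h3 : ([] : List M).length + 1 + i = i + 1 := by simp [add_comm]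
    rw [h3]
  · rw [if_neg h, if_neg h, if_neg h]
    simp

open Classical in
/-- Diagonal cycles with first letter in a face lift to diagonal cycles of the whole bar
complex. -/
theorem diag_lift (deg : M →+ ℕ) (S D : Set M) (hS : ∀ a ∈ S, ∀ b ∈ S, a + b ∈ S)
    (hdeg : ∀ a ∈ S, 1 ≤ deg a) (hDS : D ⊆ S)
    (hD : ∀ a ∈ S, ∀ b ∈ S, (a + b ∈ D ↔ a ∈ D ∧ b ∈ D))
    (U : Type) [AddCommGroup U] [Module K U] (j : ℕ) (z : List M →₀ U)
    (hz : z ∈ Finsupp.supported U K (Hom (Wd D S) List.length (wdeg deg) j j))
    (hdz : ext K (dl0 K (fun _ b => if b ∈ D then 1 else 0) (one2 K)) U z = 0) :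
    ∃ Y ∈ Finsupp.supported U K (Hom (Wd S S) List.length (wdeg deg) j j),
      ext K (dl K (one2 K)) U Y = 0 ∧ ∀ w ∈ Wd D S, Y w = z w := by
  refine ⟨ext K (dlfPsi D) U z, ?_, ?_, ?_⟩
  · exact ext_mem_supported _ U (X := Hom (Wd D S) List.length (wdeg deg) j j)
      (fun w hw t ht => dlf_Psi_mem deg S D hDS j w hw t ht) hz
  · rw [ext_ext]
    rw [ext_congr _ U (X := Hom (Wd D S) List.length (wdeg deg) j j)
      (fun w hw => dlf_dPsi (K := K) S D j w hw.1 hw.2.1) hz]
    rw [dlf_ext_sum_fun]
    refine Finset.sum_eq_zero fun i hi => ?_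
    rw [ext_smul_fun, ← ext_ext, ext_add_fun]
    obtain ⟨h1, h2⟩ := diag_proj deg S D hS hdeg hDS hD U j z hz hdz (i + 1) (by omega)
      (by have := Finset.mem_range.1 hi; omega)
    rw [h1, h2]
    simp
  · rintro w ⟨b, t, rfl, hb, ht⟩
    rw [ext_apply]
    have : ∀ w ∈ z.support, (dlfPsi (K := K) D w) (b :: t) • z w =
        if w = b :: t then z w else 0 := by
      intro w hw
      obtain ⟨⟨a, v, rfl, ha, hv⟩, -, -⟩ := hz hw
      simp only [dlfPsi, Finsupp.neg_apply]
      rw [Phi_first D a [] v b hb t, sh_nil_left, Finsupp.mapDomain_single]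
      have he : eps K (([] : List M).length + 1) = -1 := by simp [eps]
      rw [he, Finsupp.single_apply]
      split_ifs <;> simp
    rw [Finsupp.sum, Finset.sum_congr rfl this, Finset.sum_ite_eq']
    split_ifs with h
    · rfl
    · exact (Finsupp.notMem_support_iff.1 h).symm

end MP7ea278
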