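import Pool.Agent.Lib.MP_7ea278_ag.PDefs

namespace MP7ea278

/-- number of elements of each colour -/
def xcnt {n : ℕ} (I : Finset (Fin n × ℕ)) (k : Fin n) : ℕ := (I.filter fun q => q.1 = k).card

theorem xcnt_mono {n : ℕ} {I J : Finset (Fin n × ℕ)} (h : I ⊆ J) : xcnt I ≤ xcnt J := by
  intro k
  exact Finset.card_le_card (Finset.filter_subset_filter _ h)

theorem xcnt_insert {n : ℕ} {I : Finset (Fin n × ℕ)} {e : Fin n × ℕ} (h : e ∉ I) :
    xcnt (insert e I) = xcnt I + Pi.single e.1 1 := by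
  funext k
  unfold xcnt
  rw [Finset.filter_insert, Pi.add_apply]
  by_cases hk : e.1 = k
  · rw [if_pos hk, Finset.card_insert_of_notMem (fun h' => h (Finset.mem_filter.1 h').1), hk,
      Pi.single_eq_same]
  · rw [if_neg hk, Pi.single_eq_of_ne (fun h' => hk h'.symm), add_zero]

theorem xcnt_erase {n : ℕ} {I : Finset (Fin n × ℕ)} {e : Fin n × ℕ} (h : e ∈ I) :
    xcnt (I.erase e) + Pi.single e.1 1 = xcnt I := by
  rw [← xcnt_insert (Finset.notMem_erase e I), Finset.insert_erase h]

theorem xcnt_sum {n : ℕ} (I : Finset (Fin n × ℕ)) : ∑ k, xcnt I k = I.card := by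
  unfold xcnt
  exact (Finset.card_eq_sum_card_fiberwise (f := fun q : Fin n × ℕ => q.1) (t := Finset.univ)
    (fun _ _ => Finset.mem_coe.2 (Finset.mem_univ _))).symm

/-- the standard set with given numbers of elements -/
def xB {n : ℕ} (u : Fin n → ℕ) : Finset (Fin n × ℕ) :=
  (Finset.univ ×ˢ Finset.range (∑ k, u k)).filter fun q => q.2 < u q.1

theorem mem_xB {n : ℕ} (u : Fin n → ℕ) (q : Fin n × ℕ) : q ∈ xB u ↔ q.2 < u q.1 := by
  unfold xB
  rw [Finset.mem_filter, Finset.mem_product, Finset.mem_range]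
  refine ⟨fun h => h.2, fun h => ⟨⟨Finset.mem_univ _, ?_⟩, h⟩⟩
  exact lt_of_lt_of_le h (Finset.single_le_sum (f := u) (fun _ _ => Nat.zero_le _)
    (Finset.mem_univ q.1))

theorem xcnt_xB {n : ℕ} (u : Fin n → ℕ) : xcnt (xB u) = u := by
  funext k
  have h : (xB u).filter (fun q => q.1 = k) = (Finset.range (u k)).image fun t => (k, t) := by
    ext ⟨a, b⟩
    rw [Finset.mem_filter, mem_xB, Finset.mem_image]
    constructor
    · rintro ⟨h1, h2⟩
      simp only at h1 h2
      subst h2
      exact ⟨b, Finset.mem_range.2 h1, rfl⟩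
    · rintro ⟨t, ht, h2⟩
      rw [Prod.mk.injEq] at h2
      obtain ⟨rfl, rfl⟩ := h2
      exact ⟨Finset.mem_range.1 ht, rfl⟩
  unfold xcnt
  rw [h, Finset.card_image_of_injective _ (fun a b hab => (Prod.mk.inj hab).2), Finset.card_range]

/-- the matroid of a discrete polymatroid -/
noncomputable def xM {n : ℕ} {P : Finset (Fin n → ℕ)} (hP : IsDPM P) : Matroid (Fin n × ℕ) :=
  (IndepMatroid.ofFinset Set.univ (fun I => xcnt I ∈ P)
    (by
      obtain ⟨u, hu⟩ := hP.1
      refine hP.2.1 u hu _ ?_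
      intro k
      unfold xcnt
      simp)
    (fun I J hJ hIJ => hP.2.1 _ hJ _ (xcnt_mono hIJ))
    (by
      intro I J hI hJ hc
      rw [← xcnt_sum, ← xcnt_sum] at hc
      obtain ⟨i, hi, hmem⟩ := hP.2.2 _ hI _ hJ hc
      have hex : ∃ e ∈ J, e ∉ I ∧ e.1 = i := by
        by_contra hcon
        push Not at hcon
        have : J.filter (fun q => q.1 = i) ⊆ I.filter (fun q => q.1 = i) := by
          intro q hq
          rw [Finset.mem_filter] at hq ⊢
          refine ⟨?_, hq.2⟩
          by_contra h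
          exact hcon q hq.1 h hq.2
        have := Finset.card_le_card this
        unfold xcnt at hi
        omega
      obtain ⟨e, he, heI, hei⟩ := hex
      refine ⟨e, he, heI, ?_⟩
      rw [xcnt_insert heI, hei]
      exact hmem)
    (fun I _ => Set.subset_univ _)).matroid

theorem xM_indep {n : ℕ} {P : Finset (Fin n → ℕ)} (hP : IsDPM P) (I : Finset (Fin n × ℕ)) :
    (xM hP).Indep (I : Set (Fin n × ℕ)) ↔ xcnt I ∈ P := by
  unfold xM
  rw [IndepMatroid.matroid_Indep]
  exact IndepMatroid.ofFinset_indep _ _ _ _ _ _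

theorem xM_E {n : ℕ} {P : Finset (Fin n → ℕ)} (hP : IsDPM P) (e : Fin n × ℕ) :
    e ∈ (xM hP).E := by
  unfold xM
  exact Set.mem_univ _

theorem xbases {n : ℕ} {P : Finset (Fin n → ℕ)} {u w : Fin n → ℕ} (hu : u ∈ bases P)
    (hw : w ∈ P) (hs : ∑ k, w k = ∑ k, u k) : w ∈ bases P := by
  unfold bases at hu ⊢
  rw [Finset.mem_filter] at hu ⊢
  refine ⟨hw, fun v hv => ?_⟩
  rw [hs]
  exact hu.2 v hv

/-- The bases of a discrete polymatroid satisfy the symmetric exchange property. -/
theorem symExch_bases {n : ℕ} {P : Finset (Fin n → ℕ)} (hP : IsDPM P) : SymExch (basesZ P) := by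
  rintro _ ⟨u, hu, rfl⟩ _ ⟨v, hv, rfl⟩ i hi
  rw [Finset.mem_coe] at hu hv
  have hi' : v i < u i := by
    unfold castZ at hi
    exact_mod_cast hi
  have huP : u ∈ P := (Finset.mem_filter.1 hu).1
  have hvP : v ∈ P := (Finset.mem_filter.1 hv).1
  set M := xM hP with hM
  set x : Fin n × ℕ := (i, u i - 1) with hx
  have hxu : x ∈ xB u := by rw [mem_xB, hx]; simp only; omega
  have hxv : x ∉ xB v := by rw [mem_xB, hx]; simp only; omega
  have iu : M.Indep (xB u : Set (Fin n × ℕ)) := by rw [hM, xM_indep, xcnt_xB]; exact huP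
  have iv : M.Indep (xB v : Set (Fin n × ℕ)) := by rw [hM, xM_indep, xcnt_xB]; exact hvP
  have hxv' : x ∉ (xB v : Set (Fin n × ℕ)) := by rwa [Finset.mem_coe]
  have hxcl : x ∈ M.closure (xB v : Set (Fin n × ℕ)) := by
    rw [iv.mem_closure_iff']
    refine ⟨xM_E hP x, fun h => ?_⟩
    exfalso
    rw [← Finset.coe_insert, hM, xM_indep, xcnt_insert hxv, xcnt_xB] at h
    have h1 := (Finset.mem_filter.1 hv).2 _ h
    have h2 : ∑ k, (v + Pi.single x.1 1 : Fin n → ℕ) k = ∑ k, v k + 1 := by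
      simp only [Pi.add_apply, Finset.sum_add_distrib]
      rw [Finset.sum_pi_single']
      simp
    omega
  have hC := iv.fundCircuit_isCircuit hxcl hxv'
  have hxC := hC.mem_closure_sdiff_singleton_of_mem (M.mem_fundCircuit x _)
  have hxu' : x ∉ M.closure ((xB u : Set (Fin n × ℕ)) \ {x}) :=
    iu.notMem_closure_sdiff_of_mem (Finset.mem_coe.2 hxu)
  have hns : ¬ (M.fundCircuit x (xB v : Set (Fin n × ℕ)) \ {x} ⊆
      M.closure ((xB u : Set (Fin n × ℕ)) \ {x})) := by
    intro hsub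
    exact hxu' (M.closure_subset_closure_of_subset_closure hsub hxC)
  rw [Set.not_subset] at hns
  obtain ⟨y, ⟨hyC, hyx⟩, hycl⟩ := hns
  have hyx' : y ≠ x := hyx
  have hyv : y ∈ xB v := by
    rcases M.fundCircuit_subset_insert x _ hyC with h | h
    · exact absurd h hyx'
    · exact Finset.mem_coe.1 h
  have iu' : M.Indep ((xB u : Set (Fin n × ℕ)) \ {x}) := iu.subset Set.sdiff_subset
  rw [iu'.notMem_closure_iff (xM_E hP y)] at hycl
  obtain ⟨k1, k2⟩ := hycl
  have k3 := (iv.mem_fundCircuit_iff hxcl hxv').1 hyC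
  have hyu : y ∉ xB u := fun h => k2 ⟨Finset.mem_coe.2 h, hyx⟩
  have hye : y ∉ (xB u).erase x := fun h => hyu (Finset.mem_of_mem_erase h)
  have c1 : xcnt (insert y ((xB u).erase x)) ∈ P := by
    rw [← xM_indep hP, Finset.coe_insert, Finset.coe_erase]
    exact k1
  have c2 : xcnt ((insert x (xB v)).erase y) ∈ P := by
    rw [← xM_indep hP, Finset.coe_erase, Finset.coe_insert]
    exact k3
  have e1 : xcnt (insert y ((xB u).erase x)) + Pi.single i 1 = u + Pi.single y.1 1 := by
    rw [xcnt_insert hye]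
    have := xcnt_erase hxu
    rw [xcnt_xB] at this
    nth_rewrite 2 [← this]
    rw [hx]
    simp only
    abel
  have e2 : xcnt ((insert x (xB v)).erase y) + Pi.single y.1 1 = v + Pi.single i 1 := by
    rw [xcnt_erase (Finset.mem_insert_of_mem hyv), xcnt_insert hxv, xcnt_xB]
  have hs1 : ∀ a : Fin n, ∑ k, (Pi.single a 1 : Fin n → ℕ) k = 1 := by
    intro a
    rw [Finset.sum_pi_single']
    simp
  have b1 : xcnt (insert y ((xB u).erase x)) ∈ bases P := by
    refine xbases hu c1 ?_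
    have := congrArg (fun f : Fin n → ℕ => ∑ k, f k) e1
    simp only [Pi.add_apply, Finset.sum_add_distrib, hs1] at this
    omega
  have b2 : xcnt ((insert x (xB v)).erase y) ∈ bases P := by
    refine xbases hv c2 ?_
    have := congrArg (fun f : Fin n → ℕ => ∑ k, f k) e2
    simp only [Pi.add_apply, Finset.sum_add_distrib, hs1] at this
    omega
  refine ⟨y.1, ?_, ?_, ?_⟩
  · rw [mem_xB] at hyv hyu
    unfold castZ
    have : u y.1 < v y.1 := by omega
    exact_mod_cast this
  · refine ⟨_, Finset.mem_coe.2 b1, ?_⟩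
    funext k
    have h1 := congrFun e1 k
    simp only [Pi.add_apply, Pi.single_apply] at h1
    simp only [castZ, Pi.add_apply, Pi.sub_apply, Pi.single_apply]
    split_ifs at h1 ⊢ <;> omega
  · refine ⟨_, Finset.mem_coe.2 b2, ?_⟩
    funext k
    have h1 := congrFun e2 k
    simp only [Pi.add_apply, Pi.single_apply] at h1
    simp only [castZ, Pi.add_apply, Pi.sub_apply, Pi.single_apply]
    split_ifs at h1 ⊢ <;> omega

end MP7ea278
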