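import Pool.Agent.Lib.MP_7ea278_ag.PDefs

namespace MP7ea278

/-- The bases of a discrete polymatroid have the same modulus, and there is one. -/
theorem exists_modulus {n : ℕ} {P : Finset (Fin n → ℕ)} (hP : IsDPM P) :
    (bases P).Nonempty ∧ ∃ d, ∀ b ∈ bases P, ∑ i, b i = d := by
  obtain ⟨b, hb, hmax⟩ := P.exists_max_image (fun u => ∑ i, u i) hP.1
  have hbb : b ∈ bases P := Finset.mem_filter.2 ⟨hb, hmax⟩
  refine ⟨⟨b, hbb⟩, ∑ i, b i, ?_⟩
  intro c hc
  have hc' := Finset.mem_filter.1 hc
  exact le_antisymm (hmax c hc'.1) (hc'.2 b hb)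

/-- Restricting to a unit cube and translating keeps the exchange property. -/
theorem symExch_cell {n : ℕ} {B : Set (Fin n → ℤ)} (hB : SymExch B) (q : Fin n → ℤ) :
    SymExch ((fun b => b - q) '' cell B q) := by
  rintro _ ⟨b, ⟨hb, hbq⟩, rfl⟩ _ ⟨c, ⟨hc, hcq⟩, rfl⟩ i hi
  simp only [Pi.sub_apply] at hi
  obtain ⟨j, h1, h2, h3⟩ := hB b hb c hc i (by omega)
  refine ⟨j, by simp only [Pi.sub_apply]; omega, ?_, ?_⟩
  · refine ⟨b - Pi.single i 1 + Pi.single j 1, ⟨h2, fun k => ?_⟩, ?_⟩
    · have e1 := hbq k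
      have e2 := hcq k
      have e3 := hbq i
      have e4 := hcq i
      have e5 := hbq j
      have e6 := hcq j
      simp only [Pi.sub_apply, Pi.add_apply, Pi.single_apply]
      split_ifs with c1 c2 c2
      · subst c1; subst c2; omega
      · subst c1; omega
      · subst c2; omega
      · omega
    · funext k
      simp only [Pi.sub_apply, Pi.add_apply]
      ring
  · refine ⟨c + Pi.single i 1 - Pi.single j 1, ⟨h3, fun k => ?_⟩, ?_⟩
    · have e1 := hbq k
      have e2 := hcq k
      have e3 := hbq i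
      have e4 := hcq i
      have e5 := hbq j
      have e6 := hcq j
      simp only [Pi.sub_apply, Pi.add_apply, Pi.single_apply]
      split_ifs with c1 c2 c2
      · subst c1; subst c2; omega
      · subst c1; omega
      · subst c2; omega
      · omega
    · funext k
      simp only [Pi.sub_apply, Pi.add_apply]
      ring

open Classical in
/-- indicator vector -/
noncomputable def x2ind {n : ℕ} (S : Set (Fin n)) : Fin n → ℤ := fun i => if i ∈ S then 1 else 0

open Classical in
/-- indicator vector with natural values -/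
noncomputable def x2indN {n : ℕ} (S : Set (Fin n)) : Fin n → ℕ := fun i => if i ∈ S then 1 else 0

theorem x2_cast {n : ℕ} (S : Set (Fin n)) : castZ (x2indN S) = x2ind S := by
  classical
  funext i
  unfold castZ x2ind x2indN
  split_ifs <;> simp

theorem x2_sum {n : ℕ} (S : Set (Fin n)) : ∑ i, x2indN S i = S.ncard := by
  classical
  unfold x2indN
  rw [Finset.sum_boole, Set.ncard_eq_toFinset_card']
  simp only [Nat.cast_id]
  congr 1
  ext i
  simp

theorem x2_supp {n : ℕ} {w : Fin n → ℕ} (h : ∀ i, w i ≤ 1) : w = x2indN {i | w i ≠ 0} := by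
  classical
  funext i
  unfold x2indN
  have := h i
  split_ifs with h1
  · have h2 : w i ≠ 0 := h1
    omega
  · have h2 : ¬ w i ≠ 0 := h1
    omega

theorem x2_suppZ {n : ℕ} {w : Fin n → ℤ} (h : ∀ i, 0 ≤ w i ∧ w i ≤ 1) :
    w = x2ind {i | w i ≠ 0} := by
  classical
  funext i
  unfold x2ind
  have := h i
  split_ifs with h1
  · have h2 : w i ≠ 0 := h1
    omega
  · have h2 : ¬ w i ≠ 0 := h1
    omega

theorem x2_suppN {n : ℕ} (S : Set (Fin n)) : {i | x2indN S i ≠ 0} = S := by
  classical
  ext i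
  change x2indN S i ≠ 0 ↔ i ∈ S
  unfold x2indN
  split_ifs with h <;> simp [h]

/-- A nonempty set of `0/1` vectors with the exchange property is the set of bases of a
discrete polymatroid all of whose vectors are `0/1` (that is, of a matroid). -/
theorem exists_matroid {n : ℕ} {C : Set (Fin n → ℤ)} (hC : SymExch C) (hne : C.Nonempty)
    (h01 : ∀ u ∈ C, ∀ i, 0 ≤ u i ∧ u i ≤ 1) (d : ℤ) (hd : ∀ u ∈ C, ∑ i, u i = d) :
    ∃ P : Finset (Fin n → ℕ), IsDPM P ∧ (∀ u ∈ P, ∀ i, u i ≤ 1) ∧ basesZ P = C := by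
  classical
  let M : Matroid (Fin n) := Matroid.ofIsBaseOfFinite (E := Set.univ) Set.finite_univ
    (fun S => x2ind S ∈ C)
    (by
      obtain ⟨u, hu⟩ := hne
      exact ⟨_, (x2_suppZ (h01 u hu)) ▸ hu⟩)
    (by
      intro X Y hX hY a ha
      have h1 : x2ind Y a < x2ind X a := by
        unfold x2ind
        rw [if_pos ha.1, if_neg ha.2]
        norm_num
      obtain ⟨j, hj, h2, -⟩ := hC _ hX _ hY a h1
      unfold x2ind at hj
      have hjX : j ∉ X := by
        intro h
        rw [if_pos h] at hj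
        split_ifs at hj <;> omega
      have hjY : j ∈ Y := by
        by_contra h
        rw [if_neg h, if_neg hjX] at hj
        omega
      refine ⟨j, ⟨hjY, hjX⟩, ?_⟩
      have e : x2ind (insert j (X \ {a})) = x2ind X - Pi.single a 1 + Pi.single j 1 := by
        funext k
        have haj : a ≠ j := by rintro rfl; exact hjX ha.1
        simp only [x2ind, Set.mem_insert_iff, Set.mem_sdiff, Set.mem_singleton_iff, Pi.add_apply,
          Pi.sub_apply, Pi.single_apply]
        by_cases c1 : k = j
        · subst c1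
          simp [hjX, haj.symm]
        · by_cases c2 : k = a
          · subst c2
            simp [ha.1, haj]
          · simp [c1, c2]
      change x2ind (insert j (X \ {a})) ∈ C
      rw [e]
      exact h2)
    (fun B _ => Set.subset_univ B)
  have hMB : ∀ S, M.IsBase S ↔ x2ind S ∈ C := fun S => Iff.rfl
  have hcard : ∀ S, M.IsBase S → (S.ncard : ℤ) = d := by
    intro S hS
    have h1 := hd _ ((hMB S).1 hS)
    rw [← x2_cast] at h1
    unfold castZ at h1
    rw [← Nat.cast_sum, x2_sum] at h1
    exact h1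
  let P : Finset (Fin n → ℕ) := (Fintype.piFinset fun _ : Fin n => Finset.range 2).filter
    fun w => M.Indep {i | w i ≠ 0}
  have hPm : ∀ w, w ∈ P ↔ (∀ i, w i ≤ 1) ∧ M.Indep {i | w i ≠ 0} := by
    intro w
    change w ∈ (Fintype.piFinset fun _ : Fin n => Finset.range 2).filter _ ↔ _
    rw [Finset.mem_filter, Fintype.mem_piFinset]
    simp only [Finset.mem_range]
    exact and_congr_left fun _ => forall_congr' fun i => by omega
  have hsum : ∀ w : Fin n → ℕ, (∀ i, w i ≤ 1) →
      ∑ i, w i = ({i | w i ≠ 0} : Set (Fin n)).ncard := by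
    intro w hw
    conv_lhs => rw [x2_supp hw]
    exact x2_sum _
  refine ⟨P, ⟨?_, ?_, ?_⟩, ?_, ?_⟩
  · refine ⟨0, ?_⟩
    rw [hPm]
    refine ⟨fun i => by simp, ?_⟩
    have : {i : Fin n | (0 : Fin n → ℕ) i ≠ 0} = ∅ := by ext; simp
    rw [this]
    exact M.empty_indep
  · intro u hu v hv
    rw [hPm] at hu ⊢
    refine ⟨fun i => (hv i).trans (hu.1 i), hu.2.subset ?_⟩
    intro i hi
    have h1 : v i ≠ 0 := hi
    have h2 : v i ≤ u i := hv i
    change u i ≠ 0
    omega
  · intro u hu v hv hlt
    rw [hPm] at hu hv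
    rw [hsum u hu.1, hsum v hv.1] at hlt
    have henc : ({i | u i ≠ 0} : Set (Fin n)).encard < ({i | v i ≠ 0} : Set (Fin n)).encard := by
      rw [← (Set.toFinite {i | u i ≠ 0}).cast_ncard_eq, ← (Set.toFinite {i | v i ≠ 0}).cast_ncard_eq]
      exact_mod_cast hlt
    obtain ⟨e, he, hins⟩ := hu.2.augment hv.2 henc
    have h1 : v e ≠ 0 := he.1
    have h2 : ¬ u e ≠ 0 := he.2
    push Not at h2
    refine ⟨e, by omega, ?_⟩
    rw [hPm]
    constructor
    · intro i
      rw [Pi.add_apply, Pi.single_apply]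
      have := hu.1 i
      split_ifs with h3
      · subst h3; omega
      · omega
    · convert hins using 1
      ext i
      rw [Set.mem_insert_iff]
      change (u + Pi.single e 1 : Fin n → ℕ) i ≠ 0 ↔ i = e ∨ u i ≠ 0
      rw [Pi.add_apply, Pi.single_apply]
      split_ifs with h3
      · simp [h3]
      · simp [h3]
  · intro u hu i
    exact ((hPm u).1 hu).1 i
  · have hmax : ∀ w ∈ P, ((∑ i, w i : ℕ) : ℤ) ≤ d := by
      intro w hw
      rw [hPm] at hw
      rw [hsum w hw.1]
      obtain ⟨B, hB, hsub⟩ := hw.2.exists_isBase_superset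
      rw [← hcard B hB]
      exact_mod_cast Set.ncard_le_ncard hsub (Set.toFinite B)
    have hbP : ∀ B, M.IsBase B → x2indN B ∈ P := by
      intro B hB
      rw [hPm, x2_suppN]
      refine ⟨fun i => ?_, hB.indep⟩
      unfold x2indN
      split_ifs <;> simp
    ext u
    constructor
    · rintro ⟨w, hw, rfl⟩
      rw [Finset.mem_coe] at hw
      have hw' := Finset.mem_filter.1 hw
      have hw2 := (hPm w).1 hw'.1
      obtain ⟨B, hB, hsub⟩ := hw2.2.exists_isBase_superset
      have h1 := hw'.2 _ (hbP B hB)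
      rw [x2_sum, hsum w hw2.1] at h1
      have h2 : {i | w i ≠ 0} = B := Set.eq_of_subset_of_ncard_le hsub h1 (Set.toFinite B)
      rw [x2_supp hw2.1, h2, x2_cast]
      exact (hMB B).1 hB
    · intro hu
      have hB : M.IsBase {i | u i ≠ 0} := by
        rw [hMB, ← x2_suppZ (h01 u hu)]; exact hu
      refine ⟨x2indN {i | u i ≠ 0}, ?_, ?_⟩
      · rw [Finset.mem_coe]
        refine Finset.mem_filter.2 ⟨hbP _ hB, fun v hv => ?_⟩
        have h1 := hmax v hv
        rw [← hcard _ hB, ← x2_sum] at h1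
        exact_mod_cast h1
      · rw [x2_cast, ← x2_suppZ (h01 u hu)]

end MP7ea278
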