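import Pool.Agent.Lib.MP_7ea278_ag.PairBC

namespace MP7ea278

open Finsupp

variable {K : Type} [CommRing K] {Ωp Ωs : Type}

theorem kn_mem {Ω : Type} {U : Type} [AddCommGroup U] [Module K U] {S : Set Ω} {z : Ω →₀ U} :
    z ∈ Finsupp.supported U K S ↔ ∀ x, z x ≠ 0 → x ∈ S := by
  rw [Finsupp.mem_supported]
  constructor
  · intro h x hx
    exact h (Finset.mem_coe.2 (Finsupp.mem_support_iff.2 hx))
  · intro h x hx
    exact h x (Finsupp.mem_support_iff.1 (Finset.mem_coe.1 hx))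

/-- the restriction of a chain commutes with a map that keeps the condition -/
theorem kn_filter {Ω Ω' : Type} (φ : Ω → Ω' →₀ K) (U : Type) [AddCommGroup U] [Module K U]
    (Q : Ω → Prop) (Q' : Ω' → Prop) [DecidablePred Q] [DecidablePred Q'] (X : Set Ω)
    (h : ∀ ω ∈ X, ∀ ω' ∈ (φ ω).support, (Q ω ↔ Q' ω')) (z : Ω →₀ U)
    (hz : z ∈ Finsupp.supported U K X) :
    ext K φ U (z.filter Q) = (ext K φ U z).filter Q' := by
  classical
  refine Finsupp.ext fun ω' => ?_
  rw [ext_apply, Finsupp.filter_apply, Finsupp.sum, Finsupp.support_filter, Finset.sum_filter,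
    ext_apply, Finsupp.sum]
  by_cases hQ : Q' ω'
  · rw [if_pos hQ]
    refine Finset.sum_congr rfl fun ω hω => ?_
    by_cases hQω : Q ω
    · rw [if_pos hQω, Finsupp.filter_apply, if_pos hQω]
    · rw [if_neg hQω]
      have h1 : φ ω ω' = 0 := by
        by_contra hne
        exact hQω ((h ω (hz (Finset.mem_coe.2 hω)) ω' (Finsupp.mem_support_iff.2 hne)).2 hQ)
      rw [h1, zero_smul]
  · rw [if_neg hQ]
    refine Finset.sum_eq_zero fun ω hω => ?_
    by_cases hQω : Q ω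
    · rw [if_pos hQω]
      have h1 : φ ω ω' = 0 := by
        by_contra hne
        exact hQ ((h ω (hz (Finset.mem_coe.2 hω)) ω' (Finsupp.mem_support_iff.2 hne)).1 hQω)
      rw [h1, zero_smul]
    · rw [if_neg hQω]

/-- the tensor product differential in terms of slices -/
theorem kn_dPair_apply (δp : Ωp → Ωp →₀ K) (ℓp : Ωp → ℕ) (δs : Ωs → Ωs →₀ K)
    (U : Type) [AddCommGroup U] [Module K U] (z : Ωp × Ωs →₀ U) (p : Ωp) (s : Ωs) :
    ext K (dPair δp ℓp δs) U z (p, s) =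
      ext K δp (Ωs →₀ U) z.curry p s + (-1 : K) ^ (ℓp p) • ext K δs U (z.curry p) s := by
  classical
  induction z using Finsupp.induction_linear with
  | zero =>
    have h0 : (0 : Ωp × Ωs →₀ U).curry = 0 := by
      refine Finsupp.ext fun a => Finsupp.ext fun b => ?_
      rfl
    rw [h0]
    simp
  | add a b ha hb =>
    have h0 : (a + b).curry = a.curry + b.curry := by
      refine Finsupp.ext fun a => Finsupp.ext fun b => ?_
      rfl
    rw [map_add, Finsupp.add_apply, ha, hb, h0, map_add, Finsupp.add_apply, Finsupp.add_apply,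
      Finsupp.add_apply, map_add, Finsupp.add_apply, smul_add]
    abel
  | single a u =>
    obtain ⟨q, t⟩ := a
    rw [Finsupp.curry_single, ext_single_apply, ext_single_apply]
    rw [dPair, Finsupp.add_apply, Finsupp.smul_apply, add_smul]
    congr 1
    · rw [Finsupp.smul_apply]
      dsimp only
      by_cases hs : s = t
      · subst hs
        rw [Finsupp.single_eq_same]
        have hinj : Function.Injective (fun p : Ωp => (p, s)) := fun a b hab =>
          (Prod.mk.inj hab).1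
        have := Finsupp.mapDomain_apply hinj (δp q) p
        rw [this]
      · rw [Finsupp.single_eq_of_ne (Ne.symm (fun h => hs h.symm)), smul_zero,
          Finsupp.mapDomain_of_notMem_range, zero_smul]
        rintro ⟨p', hp'⟩
        exact hs (Prod.mk.inj hp').2.symm
    · dsimp only
      by_cases hp : p = q
      · subst hp
        rw [Finsupp.single_eq_same, ext_single_apply]
        have hinj : Function.Injective (fun s : Ωs => (p, s)) := fun a b hab =>
          (Prod.mk.inj hab).2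
        have := Finsupp.mapDomain_apply hinj (δs t) s
        rw [this, smul_eq_mul, mul_smul]
      · rw [Finsupp.single_eq_of_ne (Ne.symm (fun h => hp h.symm)), map_zero, Finsupp.zero_apply,
          smul_zero, Finsupp.mapDomain_of_notMem_range, smul_zero, zero_smul]
        rintro ⟨p', hp'⟩
        exact hp (Prod.mk.inj hp').1.symm

theorem kn_sign {U : Type} [AddCommGroup U] [Module K U] (n : ℕ) (u : U)
    (h : (-1 : K) ^ n • u = 0) : u = 0 := by
  have h1 : (-1 : K) ^ n * (-1 : K) ^ n = 1 := by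
    rw [← mul_pow]
    simp
  have h2 : u = ((-1 : K) ^ n * (-1 : K) ^ n) • u := by rw [h1, one_smul]
  rw [h2, mul_smul, h, smul_zero]

/-- the component of `δp ⊗ 1` at a top element is zero -/
theorem kn_top {Xp : Set Ωp} {δp : Ωp → Ωp →₀ K} {ℓp gp : Ωp → ℕ} (hp : IsBC K Xp δp ℓp gp)
    (V : Type) [AddCommGroup V] [Module K V] (Z : Ωp →₀ V) (m : ℕ)
    (hZ : ∀ q, Z q ≠ 0 → q ∈ Xp ∧ ℓp q ≤ m) (p : Ωp) (hpm : ℓp p = m) :
    ext K δp V Z p = 0 := by
  rw [ext_apply, Finsupp.sum]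
  refine Finset.sum_eq_zero fun q hq => ?_
  have hq' := hZ q (Finsupp.mem_support_iff.1 hq)
  have h1 : δp q p = 0 := by
    by_contra hne
    have := (hp.maps q hq'.1 p (Finsupp.mem_support_iff.2 hne)).2.1
    omega
  rw [h1, zero_smul]

/-- the case where the suffixes are on the diagonal -/
theorem kn_diag {Xp : Set Ωp} {δp : Ωp → Ωp →₀ K} {ℓp gp : Ωp → ℕ} {Xs : Set Ωs}
    {δs : Ωs → Ωs →₀ K} {ℓs gs : Ωs → ℕ} (hp : IsBC K Xp δp ℓp gp)
    (U : Type) [AddCommGroup U] [Module K U] (m l j1 j2 : ℕ) (hk : m ≠ j1)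
    (hp1 : ODat K Xp δp ℓp gp j1) (z : Ωp × Ωs →₀ U)
    (hz : ∀ x, z x ≠ 0 → x.1 ∈ Xp ∧ x.2 ∈ Xs ∧ ℓp x.1 = m ∧ ℓs x.2 = l ∧ gp x.1 = j1 ∧
      gs x.2 = j2)
    (hdz : ext K (dPair δp ℓp δs) U z = 0) :
    ∃ y : Ωp × Ωs →₀ U, (∀ x, y x ≠ 0 → x.1 ∈ Xp ∧ x.2 ∈ Xs ∧ ℓp x.1 = m + 1 ∧ ℓs x.2 = l ∧
      gp x.1 = j1 ∧ gs x.2 = j2) ∧ ext K (dPair δp ℓp δs) U y = z := by
  classical
  have hZ : ∀ q, z.curry q ≠ 0 → q ∈ Xp ∧ ℓp q = m ∧ gp q = j1 := by
    intro q hq
    obtain ⟨s, hs⟩ := Finsupp.ne_iff.1 hq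
    have := hz (q, s) hs
    exact ⟨this.1, this.2.2.1, this.2.2.2.2.1⟩
  have hcs : ∀ p, ext K δs U (z.curry p) = 0 := by
    intro p
    by_cases hpm : ℓp p = m
    · refine Finsupp.ext fun s => ?_
      have h1 := kn_dPair_apply δp ℓp δs U z p s
      rw [hdz, kn_top hp _ z.curry m (fun q hq => ⟨(hZ q hq).1, (hZ q hq).2.1.le⟩) p hpm] at h1
      simp only [Finsupp.zero_apply, zero_add] at h1
      rw [Finsupp.zero_apply]
      exact kn_sign _ _ h1.symm
    · have h1 : z.curry p = 0 := by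
        by_contra hne
        exact hpm (hZ p hne).2.1
      rw [h1, map_zero]
  have hcp : ext K δp (Ωs →₀ U) z.curry = 0 := by
    refine Finsupp.ext fun p => Finsupp.ext fun s => ?_
    have h1 := kn_dPair_apply δp ℓp δs U z p s
    rw [hdz, hcs p] at h1
    simp only [Finsupp.zero_apply, smul_zero, add_zero] at h1
    rw [Finsupp.zero_apply, Finsupp.zero_apply]
    exact h1.symm
  let V : Submodule K (Ωs →₀ U) :=
    Finsupp.supported U K (Hom Xs ℓs gs l j2) ⊓ LinearMap.ker (ext K δs U)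
  have hV : ∀ p, z.curry p ∈ V := by
    intro p
    refine Submodule.mem_inf.2 ⟨?_, LinearMap.mem_ker.2 (hcs p)⟩
    rw [kn_mem]
    intro s hs
    have := hz (p, s) hs
    exact ⟨this.2.1, this.2.2.2.1, this.2.2.2.2.2⟩
  let Z' : Ωp →₀ V := Finsupp.onFinset z.curry.support (fun p => ⟨z.curry p, hV p⟩) (by
    intro p hp
    rw [Finsupp.mem_support_iff]
    intro h
    apply hp
    apply Subtype.ext
    exact h)
  have hZ'p : ∀ p, (Z' p : Ωs →₀ U) = z.curry p := fun p => rfl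
  have hZ' : Finsupp.mapRange V.subtype V.subtype.map_zero Z' = z.curry := by
    refine Finsupp.ext fun p => ?_
    rw [Finsupp.mapRange_apply]
    exact hZ'p p
  have hinj : Function.Injective
      (Finsupp.mapRange V.subtype V.subtype.map_zero : (Ωp →₀ V) → (Ωp →₀ (Ωs →₀ U))) :=
    Finsupp.mapRange_injective _ _ V.subtype_injective
  have hcyc : ext K δp V Z' = 0 := by
    apply hinj
    rw [← ext_mapRange, hZ', hcp, Finsupp.mapRange_zero]
  obtain ⟨Y', hY'1, hY'2⟩ := hp1 V m hk Z' (by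
    rw [kn_mem]
    intro p hp
    have h1 : z.curry p ≠ 0 := by
      intro h
      apply hp
      apply Subtype.ext
      exact h
    exact hZ p h1) hcyc
  rw [kn_mem] at hY'1
  refine ⟨(Finsupp.mapRange V.subtype V.subtype.map_zero Y').uncurry, ?_, ?_⟩
  · rintro ⟨p, s⟩ hx
    have hx' : ((Y' p : Ωs →₀ U)) s ≠ 0 := hx
    have h1 : Y' p ≠ 0 := by
      intro h
      rw [h] at hx'
      exact hx' rfl
    have h2 := hY'1 p h1
    have h3 := (Submodule.mem_inf.1 (Y' p).2).1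
    rw [kn_mem] at h3
    have h4 := h3 s hx'
    exact ⟨h2.1, h4.1, h2.2.1, h4.2.1, h2.2.2, h4.2.2⟩
  · refine Finsupp.ext fun x => ?_
    obtain ⟨p, s⟩ := x
    rw [kn_dPair_apply, Finsupp.curry_uncurry, ext_mapRange, hY'2, hZ', Finsupp.mapRange_apply]
    have h3 : ext K δs U (V.subtype (Y' p)) = 0 :=
      LinearMap.mem_ker.1 (Submodule.mem_inf.1 (Y' p).2).2
    rw [h3, Finsupp.zero_apply, smul_zero, add_zero, Finsupp.curry_apply]

/-- the case where the top suffixes are off the diagonal: one step -/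
theorem kn_off {Xp : Set Ωp} {δp : Ωp → Ωp →₀ K} {ℓp gp : Ωp → ℕ} {Xs : Set Ωs}
    {δs : Ωs → Ωs →₀ K} {ℓs gs : Ωs → ℕ} (hp : IsBC K Xp δp ℓp gp)
    (U : Type) [AddCommGroup U] [Module K U] (m l j1 j2 : ℕ) (hl : l ≠ j2)
    (hs2 : ODat K Xs δs ℓs gs j2) (z : Ωp × Ωs →₀ U)
    (hz : ∀ x, z x ≠ 0 → x.1 ∈ Xp ∧ x.2 ∈ Xs ∧ ℓp x.1 + ℓs x.2 = m + l ∧ gp x.1 = j1 ∧
      gs x.2 = j2 ∧ ℓp x.1 < m + 1)
    (hdz : ext K (dPair δp ℓp δs) U z = 0) :
    ∃ y : Ωp × Ωs →₀ U, (∀ x, y x ≠ 0 → x.1 ∈ Xp ∧ x.2 ∈ Xs ∧ ℓp x.1 + ℓs x.2 = m + l + 1 ∧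
      gp x.1 = j1 ∧ gs x.2 = j2) ∧
      ∀ x, (z - ext K (dPair δp ℓp δs) U y) x ≠ 0 → x.1 ∈ Xp ∧ x.2 ∈ Xs ∧
        ℓp x.1 + ℓs x.2 = m + l ∧ gp x.1 = j1 ∧ gs x.2 = j2 ∧ ℓp x.1 < m := by
  classical
  have hZ : ∀ q, z.curry q ≠ 0 → q ∈ Xp ∧ ℓp q ≤ m ∧ gp q = j1 := by
    intro q hq
    obtain ⟨s, hs⟩ := Finsupp.ne_iff.1 hq
    have := hz (q, s) hs
    exact ⟨this.1, Nat.le_of_lt_succ this.2.2.2.2.2, this.2.2.2.1⟩
  have hcs : ∀ p, ℓp p = m → ext K δs U (z.curry p) = 0 := by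
    intro p hpm
    refine Finsupp.ext fun s => ?_
    have h1 := kn_dPair_apply δp ℓp δs U z p s
    rw [hdz, kn_top hp _ z.curry m (fun q hq => ⟨(hZ q hq).1, (hZ q hq).2.1⟩) p hpm] at h1
    simp only [Finsupp.zero_apply, zero_add] at h1
    rw [Finsupp.zero_apply]
    exact kn_sign _ _ h1.symm
  have hex : ∀ p, ∃ v : Ωs →₀ U, ℓp p = m →
      v ∈ Finsupp.supported U K (Hom Xs ℓs gs (l + 1) j2) ∧ ext K δs U v = z.curry p := by
    intro p
    by_cases hpm : ℓp p = m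
    · obtain ⟨v, hv1, hv2⟩ := hs2 U l hl (z.curry p) (by
        rw [kn_mem]
        intro s hs
        have h1 := hz (p, s) hs
        have h2 : ℓp p + ℓs s = m + l := h1.2.2.1
        exact ⟨h1.2.1, by omega, h1.2.2.2.2.1⟩) (hcs p hpm)
      exact ⟨v, fun _ => ⟨hv1, hv2⟩⟩
    · exact ⟨0, fun h => absurd h hpm⟩
  choose y hy using hex
  let Y : Ωp →₀ (Ωs →₀ U) := Finsupp.onFinset z.curry.support
    (fun p => if ℓp p = m ∧ z.curry p ≠ 0 then (-1 : K) ^ m • y p else 0) (by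
      intro p hp
      rw [Finsupp.mem_support_iff]
      intro h
      apply hp
      rw [if_neg]
      exact fun hh => hh.2 h)
  have hYp : ∀ p, ℓp p = m → z.curry p ≠ 0 → Y p = (-1 : K) ^ m • y p := fun p h1 h2 =>
    if_pos ⟨h1, h2⟩
  have hYn : ∀ p, ¬ (ℓp p = m ∧ z.curry p ≠ 0) → Y p = 0 := fun p h => if_neg h
  have hYs : ∀ p s, Y p s ≠ 0 → p ∈ Xp ∧ s ∈ Xs ∧ ℓp p = m ∧ ℓs s = l + 1 ∧ gp p = j1 ∧
      gs s = j2 := by
    intro p s hps
    have h1 : ℓp p = m ∧ z.curry p ≠ 0 := by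
      by_contra hne
      rw [hYn p hne] at hps
      exact hps rfl
    have h2 := hZ p h1.2
    have h3 := (hy p h1.1).1
    rw [kn_mem] at h3
    rw [hYp p h1.1 h1.2, Finsupp.smul_apply] at hps
    have h4 : y p s ≠ 0 := by
      intro h
      rw [h, smul_zero] at hps
      exact hps rfl
    have h5 := h3 s h4
    exact ⟨h2.1, h5.1, h1.1, h5.2.1, h2.2.2, h5.2.2⟩
  have hYq : ∀ q, Y q ≠ 0 → q ∈ Xp ∧ ℓp q = m ∧ gp q = j1 := by
    intro q hq
    obtain ⟨s, hs⟩ := Finsupp.ne_iff.1 hq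
    have := hYs q s hs
    exact ⟨this.1, this.2.2.1, this.2.2.2.2.1⟩
  refine ⟨Y.uncurry, ?_, ?_⟩
  · rintro ⟨p, s⟩ hx
    have h1 := hYs p s hx
    refine ⟨h1.1, h1.2.1, ?_, h1.2.2.2.2.1, h1.2.2.2.2.2⟩
    show ℓp p + ℓs s = m + l + 1
    rw [h1.2.2.1, h1.2.2.2.1]
    ring
  · rintro ⟨p, s⟩ hx
    rw [Finsupp.sub_apply, kn_dPair_apply, Finsupp.curry_uncurry] at hx
    by_cases hpm : ℓp p = m
    · exfalso
      apply hx
      rw [kn_top hp _ Y m (fun q hq => ⟨(hYq q hq).1, (hYq q hq).2.1.le⟩) p hpm,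
        Finsupp.zero_apply, zero_add]
      by_cases hz0 : z.curry p = 0
      · rw [hYn p (fun h => h.2 hz0), map_zero, Finsupp.zero_apply, smul_zero, sub_zero]
        have h1 : z.curry p s = 0 := by rw [hz0]; rfl
        exact h1
      · rw [hYp p hpm hz0, map_smul, (hy p hpm).2, Finsupp.smul_apply, smul_smul, hpm,
          ← mul_pow, neg_one_mul, neg_neg, one_pow, one_smul, Finsupp.curry_apply, sub_self]
    · rw [hYn p (fun h => hpm h.1), map_zero, Finsupp.zero_apply, smul_zero, add_zero] at hx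
      by_cases hz0 : z (p, s) = 0
      · rw [hz0, zero_sub] at hx
        have hx' : ext K δp (Ωs →₀ U) Y p s ≠ 0 := fun h => hx (by rw [h, neg_zero])
        rw [ext_apply, Finsupp.sum, Finsupp.finsetSum_apply] at hx'
        obtain ⟨q, hq, hqs⟩ := Finset.exists_ne_zero_of_sum_ne_zero hx'
        rw [Finsupp.smul_apply] at hqs
        have h1 : Y q s ≠ 0 := by
          intro h
          rw [h, smul_zero] at hqs
          exact hqs rfl
        have h2 : δp q p ≠ 0 := by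
          intro h
          rw [h, zero_smul] at hqs
          exact hqs rfl
        have h3 := hYs q s h1
        have h4 := hp.maps q h3.1 p (Finsupp.mem_support_iff.2 h2)
        have h5 := h4.2.1
        have h6 := h3.2.2.1
        have h7 := h3.2.2.2.1
        refine ⟨h4.1, h3.2.1, ?_, ?_, h3.2.2.2.2.2, ?_⟩
        · show ℓp p + ℓs s = m + l
          omega
        · show gp p = j1
          rw [h4.2.2]
          exact h3.2.2.2.2.1
        · show ℓp p < m
          omega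
      · have h1 := hz (p, s) hz0
        refine ⟨h1.1, h1.2.1, h1.2.2.1, h1.2.2.2.1, h1.2.2.2.2.1, ?_⟩
        have h2 : ℓp p < m + 1 := h1.2.2.2.2.2
        show ℓp p < m
        omega

theorem kn_claim {Xp : Set Ωp} {δp : Ωp → Ωp →₀ K} {ℓp gp : Ωp → ℕ} {Xs : Set Ωs}
    {δs : Ωs → Ωs →₀ K} {ℓs gs : Ωs → ℕ} (hp : IsBC K Xp δp ℓp gp) (hs : IsBC K Xs δs ℓs gs)
    (U : Type) [AddCommGroup U] [Module K U] (k j1 j2 : ℕ) (hk : k ≠ j1 + j2)
    (hp1 : ODat K Xp δp ℓp gp j1) (hs2 : ODat K Xs δs ℓs gs j2) (m : ℕ) :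
    ∀ z : Ωp × Ωs →₀ U, (∀ x, z x ≠ 0 → x.1 ∈ Xp ∧ x.2 ∈ Xs ∧ ℓp x.1 + ℓs x.2 = k ∧
        gp x.1 = j1 ∧ gs x.2 = j2 ∧ ℓp x.1 < m) →
      ext K (dPair δp ℓp δs) U z = 0 →
      ∃ y : Ωp × Ωs →₀ U, (∀ x, y x ≠ 0 → x.1 ∈ Xp ∧ x.2 ∈ Xs ∧ ℓp x.1 + ℓs x.2 = k + 1 ∧
        gp x.1 = j1 ∧ gs x.2 = j2) ∧ ext K (dPair δp ℓp δs) U y = z := by
  classical
  induction m with
  | zero =>
    intro z hz _
    have h0 : z = 0 := by
      refine Finsupp.ext fun x => ?_
      by_contra h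
      exact absurd (hz x h).2.2.2.2.2 (Nat.not_lt_zero _)
    refine ⟨0, ?_, ?_⟩
    · intro x hx
      exact absurd rfl hx
    · rw [map_zero, h0]
  | succ m ih =>
    intro z hz hdz
    by_cases hkm : k < m
    · apply ih z _ hdz
      intro x hx
      obtain ⟨h1, h2, h3, h4, h5, h6⟩ := hz x hx
      exact ⟨h1, h2, h3, h4, h5, by omega⟩
    obtain ⟨l, rfl⟩ : ∃ l, k = m + l := ⟨k - m, by omega⟩
    by_cases hl : l = j2
    · obtain ⟨y, hy1, hy2⟩ := kn_diag (ℓs := ℓs) hp U m l j1 j2 (by omega) hp1 z (by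
        intro x hx
        obtain ⟨h1, h2, h3, h4, h5, h6⟩ := hz x hx
        have h7 := hs.le x.2 h2
        exact ⟨h1, h2, by omega, by omega, h4, h5⟩) hdz
      refine ⟨y, ?_, hy2⟩
      intro x hx
      obtain ⟨h1, h2, h3, h4, h5, h6⟩ := hy1 x hx
      exact ⟨h1, h2, by omega, h5, h6⟩
    · obtain ⟨y, hy1, hy2⟩ := kn_off hp U m l j1 j2 hl hs2 z hz hdz
      have hdd : ext K (dPair δp ℓp δs) U (ext K (dPair δp ℓp δs) U y) = 0 := by
        apply (isBC_pair hp hs).ext_ext_eq_zero U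
        rw [kn_mem]
        intro x hx
        exact Set.mem_prod.2 ⟨(hy1 x hx).1, (hy1 x hx).2.1⟩
      obtain ⟨y', hy'1, hy'2⟩ := ih (z - ext K (dPair δp ℓp δs) U y) hy2 (by
        rw [map_sub, hdz, hdd, sub_zero])
      refine ⟨y' + y, ?_, ?_⟩
      · intro x hx
        by_cases h : y' x = 0
        · rw [Finsupp.add_apply, h, zero_add] at hx
          exact hy1 x hx
        · exact hy'1 x h
      · rw [map_add, hy'2, sub_add_cancel]

/-- Tensor product of two complexes that are exact off the diagonal. -/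
theorem kunneth {Xp : Set Ωp} {δp : Ωp → Ωp →₀ K} {ℓp gp : Ωp → ℕ} {Xs : Set Ωs}
    {δs : Ωs → Ωs →₀ K} {ℓs gs : Ωs → ℕ} (hp : IsBC K Xp δp ℓp gp) (hs : IsBC K Xs δs ℓs gs)
    (hg : ∀ p ∈ Xp, 1 ≤ gp p) (j : ℕ) (hpj : ∀ j' ≤ j, ODat K Xp δp ℓp gp j')
    (hsj : ∀ j' < j, ODat K Xs δs ℓs gs j') :
    ODat K (Xp ×ˢ Xs) (dPair δp ℓp δs) (fun x => ℓp x.1 + ℓs x.2)
      (fun x => gp x.1 + gs x.2) j := by
  classical
  intro U _ _ k hk z hz hdz
  have hbc := isBC_pair hp hs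
  rw [kn_mem] at hz
  have key : ∀ j1, ∃ y : Ωp × Ωs →₀ U,
      y ∈ Finsupp.supported U K (Hom (Xp ×ˢ Xs) (fun x => ℓp x.1 + ℓs x.2)
        (fun x => gp x.1 + gs x.2) (k + 1) j) ∧
      ext K (dPair δp ℓp δs) U y = z.filter (fun x => gp x.1 = j1) := by
    intro j1
    by_cases hj1 : 1 ≤ j1 ∧ j1 ≤ j
    · obtain ⟨j2, rfl⟩ : ∃ j2, j = j1 + j2 := ⟨j - j1, by omega⟩
      obtain ⟨y, hy1, hy2⟩ := kn_claim hp hs U k j1 j2 hk (hpj j1 (by omega))
        (hsj j2 (by omega)) (k + 1) (z.filter (fun x => gp x.1 = j1)) (by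
          intro x hx
          rw [Finsupp.filter_apply] at hx
          by_cases hg1 : gp x.1 = j1
          · rw [if_pos hg1] at hx
            obtain ⟨h1, h2, h3⟩ := hz x hx
            obtain ⟨h4, h5⟩ := Set.mem_prod.1 h1
            dsimp only at h2 h3
            exact ⟨h4, h5, h2, hg1, by omega, by omega⟩
          · rw [if_neg hg1] at hx
            exact absurd rfl hx) (by
          rw [kn_filter (dPair δp ℓp δs) U (fun x => gp x.1 = j1) (fun x => gp x.1 = j1)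
            (Xp ×ˢ Xs) ?_ z ?_, hdz, Finsupp.filter_zero]
          · rintro ⟨p, s⟩ hx ⟨p', s'⟩ hx'
            obtain ⟨hxp, hxs⟩ := Set.mem_prod.1 hx
            dsimp only at hxp hxs ⊢
            have h1 : gp p' = gp p := by
              have h2 : (dPair δp ℓp δs) (p, s) (p', s') ≠ 0 := Finsupp.mem_support_iff.1 hx'
              have h3 := kn_dPair_apply δp ℓp δs K (single (p, s) 1) p' s'
              rw [ext_single_one, Finsupp.curry_single] at h3
              dsimp only at h3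
              by_cases hpp : p' = p
              · rw [hpp]
              · rw [Finsupp.single_eq_of_ne (Ne.symm (fun h => hpp h.symm)), map_zero,
                  Finsupp.zero_apply, smul_zero, add_zero, ext_single_apply] at h3
                have h4 : δp p p' ≠ 0 := by
                  intro h
                  rw [h, zero_smul, Finsupp.zero_apply] at h3
                  exact h2 h3
                exact (hp.maps p hxp p' (Finsupp.mem_support_iff.2 h4)).2.2
            rw [h1]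
          · rw [kn_mem]
            intro x hx
            exact (hz x hx).1)
      refine ⟨y, ?_, hy2⟩
      rw [kn_mem]
      intro x hx
      obtain ⟨h1, h2, h3, h4, h5⟩ := hy1 x hx
      exact ⟨Set.mem_prod.2 ⟨h1, h2⟩, h3, by dsimp only; omega⟩
    · refine ⟨0, Submodule.zero_mem _, ?_⟩
      rw [map_zero]
      refine Finsupp.ext fun x => ?_
      rw [Finsupp.zero_apply, Finsupp.filter_apply]
      by_cases hg1 : gp x.1 = j1
      · rw [if_pos hg1]
        by_contra hne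
        obtain ⟨h1, h2, h3⟩ := hz x (fun h => hne h.symm)
        have h4 := hg x.1 (Set.mem_prod.1 h1).1
        dsimp only at h2 h3
        exact hj1 ⟨by omega, by omega⟩
      · rw [if_neg hg1]
  choose y hy1 hy2 using key
  refine ⟨∑ j1 ∈ Finset.range (j + 1), y j1, Submodule.sum_mem _ (fun j1 _ => hy1 j1), ?_⟩
  rw [map_sum]
  refine Finsupp.ext fun x => ?_
  rw [Finsupp.finsetSum_apply]
  by_cases hx : z x = 0
  · rw [hx]
    refine Finset.sum_eq_zero fun j1 _ => ?_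
    rw [hy2, Finsupp.filter_apply, hx]
    exact ite_self _
  · obtain ⟨h1, h2, h3⟩ := hz x hx
    dsimp only at h2 h3
    rw [Finset.sum_eq_single (gp x.1)]
    · rw [hy2, Finsupp.filter_apply, if_pos rfl]
    · intro b _ hb
      rw [hy2, Finsupp.filter_apply, if_neg (fun h => hb h.symm)]
    · intro h
      exact absurd (Finset.mem_range.2 (by omega)) h

end MP7ea278
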