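import Pool.Agent.Lib.MP_7ea278_ag.Chain

namespace MP7ea278

open Finsupp

variable {K : Type} [CommRing K] {Ω : Type}

/-- If `δ` is a perturbation of `δ0` that strictly lowers the statistic `τ`, exactness for `δ0`
implies exactness for `δ`. -/
theorem ODat_perturb {X : Set Ω} {δ δ0 : Ω → Ω →₀ K} {ℓ g : Ω → ℕ} (τ : Ω → ℕ)
    (h : IsBC K X δ ℓ g)
    (h0 : ∀ ω ∈ X, ∀ ω' ∈ (δ0 ω).support, ω' ∈ X ∧ ℓ ω' + 1 = ℓ ω ∧ g ω' = g ω ∧ τ ω' = τ ω)
    (hd : ∀ ω ∈ X, ∀ ω' ∈ (δ ω - δ0 ω).support, τ ω' < τ ω) {j : ℕ}
    (hj : ODat K X δ0 ℓ g j) : ODat K X δ ℓ g j := by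
  classical
  intro U _ _ k hk
  -- claim by induction on the bound
  have claim : ∀ N : ℕ, ∀ z : Ω →₀ U, z ∈ Finsupp.supported U K (Hom X ℓ g k j ∩ {ω | τ ω < N}) →
      ext K δ U z = 0 → ∃ y ∈ Finsupp.supported U K (Hom X ℓ g (k + 1) j), ext K δ U y = z := by
    intro N
    induction N with
    | zero =>
      intro z hz _
      have : z = 0 := by
        rw [← Finsupp.support_eq_empty]
        refine Finset.eq_empty_of_forall_notMem fun ω hω => ?_
        have := (hz (Finset.mem_coe.2 hω)).2
        simp at this
      exact ⟨0, Submodule.zero_mem _, by rw [this, map_zero]⟩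
    | succ N ih =>
      intro z hz hdz
      set zN := z.filter (fun ω => τ ω = N) with hzN
      set zr := z.filter (fun ω => ¬ τ ω = N) with hzr
      have hsplit : zN + zr = z := Finsupp.filter_add_filter_not z _
      have hzNs : zN ∈ Finsupp.supported U K (Hom X ℓ g k j) := by
        intro ω hω
        have := Finsupp.mem_support_iff.1 (Finset.mem_coe.1 hω)
        rw [hzN, Finsupp.filter_apply] at this
        have hne : z ω ≠ 0 := by
          intro h'; rw [h'] at this; simp at this
        exact (hz (Finset.mem_coe.2 (Finsupp.mem_support_iff.2 hne))).1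
      have hzNs' : zN ∈ Finsupp.supported U K (X ∩ {ω | τ ω = N}) := by
        intro ω hω
        refine ⟨(hzNs hω).1, ?_⟩
        have := Finsupp.mem_support_iff.1 (Finset.mem_coe.1 hω)
        rw [hzN, Finsupp.filter_apply] at this
        by_contra hne
        exact this (if_neg hne)
      have hzrs : zr ∈ Finsupp.supported U K (Hom X ℓ g k j ∩ {ω | τ ω < N}) := by
        intro ω hω
        have h1 := Finsupp.mem_support_iff.1 (Finset.mem_coe.1 hω)
        rw [hzr, Finsupp.filter_apply] at h1
        have hne : z ω ≠ 0 := by
          intro h'; rw [h'] at h1; simp at h1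
        have h2 := hz (Finset.mem_coe.2 (Finsupp.mem_support_iff.2 hne))
        have h3 : ¬ τ ω = N := by
          by_contra h'
          exact h1 (if_neg (not_not.2 h'))
        have h4 : τ ω < N + 1 := h2.2
        exact ⟨h2.1, by
          change τ ω < N
          omega⟩
      -- `δ0 zN = 0`
      have hdz0 : ext K δ0 U zN = 0 := by
        have e1 : ext K δ U z = ext K δ0 U zN + ext K (fun ω => δ ω - δ0 ω) U zN +
            ext K δ U zr := by
          rw [ext_sub_fun, ← hsplit, map_add]; abel
        have s1 : ext K δ0 U zN ∈ Finsupp.supported U K {ω | τ ω = N} :=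
          ext_mem_supported δ0 U (X := X ∩ {ω | τ ω = N})
            (fun ω hω ω' hω' => by
              have h1 := (h0 ω hω.1 ω' hω').2.2.2
              have h2 : τ ω = N := hω.2
              change τ ω' = N
              omega) hzNs'
        have s2 : ext K (fun ω => δ ω - δ0 ω) U zN ∈ Finsupp.supported U K {ω | τ ω < N} :=
          ext_mem_supported _ U (X := X ∩ {ω | τ ω = N})
            (fun ω hω ω' hω' => by
              have h1 := hd ω hω.1 ω' hω'
              have h2 : τ ω = N := hω.2
              change τ ω' < N
              omega) hzNs'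
        have s3 : ext K δ U zr ∈ Finsupp.supported U K {ω | τ ω < N} :=
          ext_mem_supported δ U (X := Hom X ℓ g k j ∩ {ω | τ ω < N})
            (fun ω hω ω' hω' => by
              have hω2 : τ ω < N := hω.2
              have : δ ω ω' = δ0 ω ω' + (δ ω - δ0 ω) ω' := by simp
              change τ ω' < N
              by_cases h1 : δ0 ω ω' = 0
              · have h2 : (δ ω - δ0 ω) ω' ≠ 0 := by
                  intro h3
                  rw [h1, h3] at this
                  exact (Finsupp.mem_support_iff.1 hω') (by rw [this]; simp)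
                have := hd ω hω.1.1 ω' (Finsupp.mem_support_iff.2 h2)
                omega
              · have := (h0 ω hω.1.1 ω' (Finsupp.mem_support_iff.2 h1)).2.2.2
                omega) hzrs
        refine Finsupp.ext fun ω => ?_
        rw [Finsupp.zero_apply]
        by_cases hω : τ ω = N
        · have h1 := DFunLike.congr_fun (hdz.symm.trans e1) ω
          rw [Finsupp.add_apply, Finsupp.add_apply, Finsupp.zero_apply] at h1
          have h2 : ext K (fun ω => δ ω - δ0 ω) U zN ω = 0 := by
            by_contra hne
            have : τ ω < N := s2 (Finset.mem_coe.2 (Finsupp.mem_support_iff.2 hne))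
            omega
          have h3 : ext K δ U zr ω = 0 := by
            by_contra hne
            have : τ ω < N := s3 (Finset.mem_coe.2 (Finsupp.mem_support_iff.2 hne))
            omega
          rw [h2, h3] at h1
          simpa using h1.symm
        · by_contra hne
          exact hω (s1 (Finset.mem_coe.2 (Finsupp.mem_support_iff.2 hne)))
      obtain ⟨y, hy, hyz⟩ := hj U k hk zN hzNs hdz0
      set yN := y.filter (fun ω => τ ω = N) with hyN
      set yr := y.filter (fun ω => ¬ τ ω = N) with hyr
      have hysplit : yN + yr = y := Finsupp.filter_add_filter_not y _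
      have hyNs : yN ∈ Finsupp.supported U K (Hom X ℓ g (k + 1) j ∩ {ω | τ ω = N}) := by
        intro ω hω
        have h1 := Finsupp.mem_support_iff.1 (Finset.mem_coe.1 hω)
        rw [hyN, Finsupp.filter_apply] at h1
        have hne : y ω ≠ 0 := by
          intro h'; rw [h'] at h1; simp at h1
        refine ⟨hy (Finset.mem_coe.2 (Finsupp.mem_support_iff.2 hne)), ?_⟩
        by_contra hne'
        exact h1 (if_neg hne')
      have hyrs : yr ∈ Finsupp.supported U K (Hom X ℓ g (k + 1) j ∩ {ω | ¬ τ ω = N}) := by
        intro ω hω
        have h1 := Finsupp.mem_support_iff.1 (Finset.mem_coe.1 hω)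
        rw [hyr, Finsupp.filter_apply] at h1
        have hne : y ω ≠ 0 := by
          intro h'; rw [h'] at h1; simp at h1
        refine ⟨hy (Finset.mem_coe.2 (Finsupp.mem_support_iff.2 hne)), ?_⟩
        intro hne'
        exact h1 (if_neg (not_not.2 hne'))
      have hyNz : ext K δ0 U yN = zN := by
        have e1 : ext K δ0 U yN + ext K δ0 U yr = zN := by
          rw [← map_add, hysplit, hyz]
        have s1 : ext K δ0 U yN ∈ Finsupp.supported U K {ω | τ ω = N} :=
          ext_mem_supported δ0 U (X := Hom X ℓ g (k + 1) j ∩ {ω | τ ω = N})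
            (fun ω hω ω' hω' => by
              have h1 := (h0 ω hω.1.1 ω' hω').2.2.2
              have h2 : τ ω = N := hω.2
              change τ ω' = N
              omega) hyNs
        have s2 : ext K δ0 U yr ∈ Finsupp.supported U K {ω | ¬ τ ω = N} :=
          ext_mem_supported δ0 U (X := Hom X ℓ g (k + 1) j ∩ {ω | ¬ τ ω = N})
            (fun ω hω ω' hω' => by
              have h1 := (h0 ω hω.1.1 ω' hω').2.2.2
              have h2 : ¬ τ ω = N := hω.2
              change ¬ τ ω' = N
              omega) hyrs
        refine Finsupp.ext fun ω => ?_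
        have h1 := DFunLike.congr_fun e1 ω
        rw [Finsupp.add_apply] at h1
        by_cases hω : τ ω = N
        · have h3 : ext K δ0 U yr ω = 0 := by
            by_contra hne
            exact s2 (Finset.mem_coe.2 (Finsupp.mem_support_iff.2 hne)) hω
          rw [h3, add_zero] at h1
          exact h1
        · have h3 : ext K δ0 U yN ω = 0 := by
            by_contra hne
            exact hω (s1 (Finset.mem_coe.2 (Finsupp.mem_support_iff.2 hne)))
          have h4 : zN ω = 0 := by
            by_contra hne
            exact hω (hzNs' (Finset.mem_coe.2 (Finsupp.mem_support_iff.2 hne))).2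
          rw [h3, h4]
      have hyNs'' : yN ∈ Finsupp.supported U K (Hom X ℓ g (k + 1) j) :=
        fun ω hω => (hyNs hω).1
      have hyNX : yN ∈ Finsupp.supported U K X := fun ω hω => (hyNs hω).1.1
      -- the remainder
      have hrem : z - ext K δ U yN ∈
          Finsupp.supported U K (Hom X ℓ g k j ∩ {ω | τ ω < N}) := by
        have e : z - ext K δ U yN = zr - ext K (fun ω => δ ω - δ0 ω) U yN := by
          rw [ext_sub_fun, hyNz, ← hsplit]; abel
        have t1 : ext K (fun ω => δ ω - δ0 ω) U yN ∈ Finsupp.supported U K {ω | τ ω < N} :=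
          ext_mem_supported _ U (X := Hom X ℓ g (k + 1) j ∩ {ω | τ ω = N})
            (fun ω hω ω' hω' => by
              have h1 := hd ω hω.1.1 ω' hω'
              have h2 : τ ω = N := hω.2
              change τ ω' < N
              omega) hyNs
        have t2 : z - ext K δ U yN ∈ Finsupp.supported U K {ω | τ ω < N} := by
          rw [e]
          exact Submodule.sub_mem _ (fun ω hω => (hzrs hω).2) t1
        have t3 : z - ext K δ U yN ∈ Finsupp.supported U K (Hom X ℓ g k j) :=
          Submodule.sub_mem _ (fun ω hω => (hz hω).1) (h.ext_mem U hyNs'')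
        exact fun ω hω => ⟨t3 hω, t2 hω⟩
      obtain ⟨y', hy', hyz'⟩ := ih (z - ext K δ U yN) hrem (by
        rw [map_sub, hdz, h.ext_ext_eq_zero U hyNX, sub_zero])
      refine ⟨y' + yN, Submodule.add_mem _ hy' hyNs'', ?_⟩
      rw [map_add, hyz']; abel
  intro z hz hdz
  refine claim (z.support.sup τ + 1) z (fun ω hω => ⟨hz hω, ?_⟩) hdz
  change τ ω < z.support.sup τ + 1
  have := Finset.le_sup (f := τ) (Finset.mem_coe.1 hω)
  omega

end MP7ea278
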