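import Pool.Agent.Lib.MP_7ea278_ag.WordsDef

namespace MP7ea278

open Finsupp

variable {K : Type} [CommRing K] {Ω Ω' : Type}

private theorem tr_comm {X : Set Ω} (f : Ω → Ω') {δ : Ω → Ω →₀ K} {δ' : Ω' → Ω' →₀ K}
    (hδ : ∀ ω ∈ X, (δ ω).mapDomain f = δ' (f ω)) (U : Type) [AddCommGroup U] [Module K U]
    {z : Ω →₀ U} (hz : z ∈ Finsupp.supported U K X) :
    ext K δ' U (Finsupp.mapDomain f z) = Finsupp.mapDomain f (ext K δ U z) := by
  rw [← ext_single_fun (K := K) U f z, ext_ext, ← ext_single_fun (K := K) U f (ext K δ U z),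
    ext_ext]
  refine ext_congr _ U (X := X) ?_ hz
  intro ω hω
  rw [ext_single_one, ext_single_fun, hδ ω hω]

private theorem tr_surj {S : Set Ω} (f : Ω → Ω') (U : Type) [AddCommGroup U] [Module K U]
    {z' : Ω' →₀ U} (hz : z' ∈ Finsupp.supported U K (f '' S)) :
    ∃ z ∈ Finsupp.supported U K S, Finsupp.mapDomain f z = z' := by
  have h : z' ∈ (Finsupp.supported U K S).map (Finsupp.lmapDomain U K f) := by
    rw [Finsupp.lmapDomain_supported]
    exact hz
  obtain ⟨z, hz1, hz2⟩ := h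
  exact ⟨z, hz1, hz2⟩

private theorem tr_map_mem {S : Set Ω} (f : Ω → Ω') (U : Type) [AddCommGroup U] [Module K U]
    {z : Ω →₀ U} (hz : z ∈ Finsupp.supported U K S) :
    Finsupp.mapDomain f z ∈ Finsupp.supported U K (f '' S) := by
  have h : Finsupp.mapDomain f z ∈ (Finsupp.supported U K S).map (Finsupp.lmapDomain U K f) :=
    ⟨z, hz, rfl⟩
  rw [Finsupp.lmapDomain_supported] at h
  exact h

private theorem tr_inj {X : Set Ω} {f : Ω → Ω'} (hf : Set.InjOn f X) (U : Type) [AddCommGroup U]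
    [Module K U] {z w : Ω →₀ U} (hz : z ∈ Finsupp.supported U K X)
    (hw : w ∈ Finsupp.supported U K X) (h : Finsupp.mapDomain f z = Finsupp.mapDomain f w) :
    z = w :=
  Finsupp.mapDomain_injOn X hf ((Finsupp.mem_supported K z).1 hz)
    ((Finsupp.mem_supported K w).1 hw) h

/-- Exactness is invariant under a bijection of basis elements. -/
theorem ODat_bijOn {X : Set Ω} {X' : Set Ω'} (f : Ω → Ω') (hf : Set.BijOn f X X')
    {δ : Ω → Ω →₀ K} {ℓ g : Ω → ℕ} {δ' : Ω' → Ω' →₀ K} {ℓ' g' : Ω' → ℕ}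
    (hX : ∀ ω ∈ X, ∀ ω' ∈ (δ ω).support, ω' ∈ X)
    (hδ : ∀ ω ∈ X, (δ ω).mapDomain f = δ' (f ω))
    (hℓ : ∀ ω ∈ X, ℓ' (f ω) = ℓ ω) (hg : ∀ ω ∈ X, g' (f ω) = g ω) (j : ℕ) :
    ODat K X δ ℓ g j ↔ ODat K X' δ' ℓ' g' j := by
  have himg : ∀ k, f '' (Hom X ℓ g k j) = Hom X' ℓ' g' k j := by
    intro k
    apply Set.Subset.antisymm
    · rintro _ ⟨ω, ⟨h1, h2, h3⟩, rfl⟩
      exact ⟨hf.mapsTo h1, by rw [hℓ ω h1, h2], by rw [hg ω h1, h3]⟩
    · rintro ω' ⟨h1, h2, h3⟩
      obtain ⟨ω, hω, rfl⟩ := hf.surjOn h1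
      exact ⟨ω, ⟨hω, by rw [← hℓ ω hω, h2], by rw [← hg ω hω, h3]⟩, rfl⟩
  have hsub : ∀ k, Hom X ℓ g k j ⊆ X := fun k ω h => h.1
  constructor
  · intro H U _ _ k hk z' hz' hz0
    rw [← himg k] at hz'
    obtain ⟨z, hz, rfl⟩ := tr_surj f U hz'
    have hzX : z ∈ Finsupp.supported U K X := Finsupp.supported_mono (hsub k) hz
    rw [tr_comm f hδ U hzX] at hz0
    have hz1 : ext K δ U z = 0 := by
      refine tr_inj hf.injOn U (ext_mem_supported δ U hX hzX) (Submodule.zero_mem _) ?_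
      rw [hz0, Finsupp.mapDomain_zero]
    obtain ⟨y, hy, hyz⟩ := H U k hk z hz hz1
    refine ⟨Finsupp.mapDomain f y, ?_, ?_⟩
    · rw [← himg (k + 1)]
      exact tr_map_mem f U hy
    · rw [tr_comm f hδ U (Finsupp.supported_mono (hsub (k + 1)) hy), hyz]
  · intro H U _ _ k hk z hz hz0
    have hzX : z ∈ Finsupp.supported U K X := Finsupp.supported_mono (hsub k) hz
    have h1 : Finsupp.mapDomain f z ∈ Finsupp.supported U K (Hom X' ℓ' g' k j) := by
      rw [← himg k]
      exact tr_map_mem f U hz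
    obtain ⟨y', hy', hyz'⟩ := H U k hk _ h1 (by rw [tr_comm f hδ U hzX, hz0,
      Finsupp.mapDomain_zero])
    rw [← himg (k + 1)] at hy'
    obtain ⟨y, hy, rfl⟩ := tr_surj f U hy'
    refine ⟨y, hy, ?_⟩
    have hyX : y ∈ Finsupp.supported U K X := Finsupp.supported_mono (hsub (k + 1)) hy
    rw [tr_comm f hδ U hyX] at hyz'
    exact tr_inj hf.injOn U (ext_mem_supported δ U hX hyX) hzX hyz'

private theorem un_apply {X2 : Set Ω} {δ δ2 : Ω → Ω →₀ K}
    (hδ2 : ∀ ω ∈ X2, ∀ ω' ∈ X2, δ2 ω ω' = δ ω ω') (U : Type) [AddCommGroup U] [Module K U]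
    {z : Ω →₀ U} (hz : z ∈ Finsupp.supported U K X2) {ω' : Ω} (hω' : ω' ∈ X2) :
    ext K δ2 U z ω' = ext K δ U z ω' := by
  classical
  rw [ext_apply, ext_apply, Finsupp.sum, Finsupp.sum]
  refine Finset.sum_congr rfl fun ω hω => ?_
  rw [hδ2 ω (hz (by simpa using hω)) ω' hω']

private theorem un_zero {X : Set Ω} (U : Type) [AddCommGroup U] [Module K U]
    {z : Ω →₀ U} (hz : z ∈ Finsupp.supported U K X) {ω' : Ω} (hω' : ω' ∉ X) : z ω' = 0 := by
  by_contra h
  exact hω' (hz (Finset.mem_coe.2 (Finsupp.mem_support_iff.2 h)))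

private theorem un_mem {X : Set Ω} (U : Type) [AddCommGroup U] [Module K U]
    {z : Ω →₀ U} (hz : ∀ ω, ω ∉ X → z ω = 0) : z ∈ Finsupp.supported U K X := by
  rw [Finsupp.mem_supported]
  intro ω hω
  by_contra h
  exact (Finsupp.mem_support_iff.1 (Finset.mem_coe.1 hω)) (hz ω h)

/-- If `X = X1 ∪ X2` where `X1` spans a subcomplex and `δ2` is the quotient differential on `X2`,
exactness on `X1` and `X2` implies exactness on `X`. -/
theorem ODat_union {X1 X2 : Set Ω} {δ δ2 : Ω → Ω →₀ K} {ℓ g : Ω → ℕ}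
    (h : IsBC K (X1 ∪ X2) δ ℓ g) (hdisj : Disjoint X1 X2)
    (h1 : ∀ ω ∈ X1, ∀ ω' ∈ (δ ω).support, ω' ∈ X1)
    (hδ2 : ∀ ω ∈ X2, ∀ ω' ∈ X2, δ2 ω ω' = δ ω ω')
    (hδ2' : ∀ ω ∈ X2, ∀ ω' ∈ (δ2 ω).support, ω' ∈ X2) {j : ℕ}
    (H1 : ODat K X1 δ ℓ g j) (H2 : ODat K X2 δ2 ℓ g j) : ODat K (X1 ∪ X2) δ ℓ g j := by
  classical
  intro U _ _ k hk z hz hz0
  have hd : ∀ ω, ω ∈ X2 → ω ∉ X1 := fun ω h2 h1 => Set.disjoint_left.1 hdisj h1 h2
  have hz2 : z.filter (· ∈ X2) ∈ Finsupp.supported U K (Hom X2 ℓ g k j) := by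
    refine un_mem U fun ω hω => ?_
    by_cases hωX : ω ∈ X2
    · rw [Finsupp.filter_apply_pos _ _ hωX]
      refine un_zero U hz ?_
      rintro ⟨_, a, b⟩
      exact hω ⟨hωX, a, b⟩
    · rw [Finsupp.filter_apply_neg _ _ hωX]
  have hz2X : z.filter (· ∈ X2) ∈ Finsupp.supported U K X2 :=
    Finsupp.supported_mono (fun ω h => h.1) hz2
  have hz1 : z - z.filter (· ∈ X2) ∈ Finsupp.supported U K X1 := by
    refine un_mem U fun ω hω => ?_
    rw [Finsupp.sub_apply]
    by_cases hωX : ω ∈ X2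
    · rw [Finsupp.filter_apply_pos _ _ hωX, sub_self]
    · rw [Finsupp.filter_apply_neg _ _ hωX, sub_zero]
      refine un_zero U hz ?_
      rintro ⟨a, _⟩
      rcases a with a | a
      · exact hω a
      · exact hωX a
  have hcyc : ext K δ2 U (z.filter (· ∈ X2)) = 0 := by
    refine Finsupp.ext fun ω' => ?_
    rw [Finsupp.zero_apply]
    by_cases hω' : ω' ∈ X2
    · rw [un_apply hδ2 U hz2X hω']
      have e1 : ext K δ U (z - z.filter (· ∈ X2)) ω' = 0 :=
        un_zero U (ext_mem_supported δ U h1 hz1) (hd ω' hω')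
      rw [map_sub, hz0, zero_sub, Finsupp.neg_apply, neg_eq_zero] at e1
      exact e1
    · exact un_zero U (ext_mem_supported δ2 U hδ2' hz2X) hω'
  obtain ⟨v, hv, hvz⟩ := H2 U k hk _ hz2 hcyc
  have hvX2 : v ∈ Finsupp.supported U K X2 := Finsupp.supported_mono (fun ω h => h.1) hv
  have hs2 : Hom X2 ℓ g (k + 1) j ⊆ Hom (X1 ∪ X2) ℓ g (k + 1) j :=
    fun ω hω => ⟨Or.inr hω.1, hω.2⟩
  have hs1 : Hom X1 ℓ g (k + 1) j ⊆ Hom (X1 ∪ X2) ℓ g (k + 1) j :=
    fun ω hω => ⟨Or.inl hω.1, hω.2⟩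
  have hvX : v ∈ Finsupp.supported U K (Hom (X1 ∪ X2) ℓ g (k + 1) j) :=
    Finsupp.supported_mono hs2 hv
  have hvU : v ∈ Finsupp.supported U K (X1 ∪ X2) :=
    Finsupp.supported_mono (fun ω hω => hω.1) hvX
  have hz' : z - ext K δ U v ∈ Finsupp.supported U K (Hom X1 ℓ g k j) := by
    have hzz : z - ext K δ U v ∈ Finsupp.supported U K (Hom (X1 ∪ X2) ℓ g k j) :=
      Submodule.sub_mem _ hz (h.ext_mem U hvX)
    refine un_mem U fun ω hω => ?_
    by_cases hωX : ω ∈ X2
    · rw [Finsupp.sub_apply, ← un_apply hδ2 U hvX2 hωX, hvz, Finsupp.filter_apply_pos _ _ hωX,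
        sub_self]
    · refine un_zero U hzz ?_
      rintro ⟨a, b⟩
      rcases a with a | a
      · exact hω ⟨a, b⟩
      · exact hωX a
  obtain ⟨y1, hy1, hyz1⟩ := H1 U k hk _ hz' (by
    rw [map_sub, hz0, h.ext_ext_eq_zero U hvU, sub_zero])
  refine ⟨v + y1, Submodule.add_mem _ hvX (Finsupp.supported_mono hs1 hy1), ?_⟩
  rw [map_add, hyz1]
  abel

variable {M M' : Type} [AddCommMonoid M] [AddCommMonoid M']

omit [AddCommMonoid M] in
private theorem ti_mem_Wd {S : Set M} (w : List M) : w ∈ Wd S S ↔ w ≠ [] ∧ ∀ x ∈ w, x ∈ S := by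
  constructor
  · rintro ⟨a, v, rfl, ha, hv⟩
    refine ⟨by simp, ?_⟩
    intro x hx
    rcases List.mem_cons.1 hx with hx | hx
    · rw [hx]; exact ha
    · exact hv x hx
  · rintro ⟨h1, h2⟩
    cases w with
    | nil => exact absurd rfl h1
    | cons a v =>
      exact ⟨a, v, rfl, h2 a (by simp), fun x hx => h2 x (by simp [hx])⟩

private theorem ti_sum_mem {S : Set M} (hS : ∀ a ∈ S, ∀ b ∈ S, a + b ∈ S) (w : List M)
    (hw : w ≠ []) (h : ∀ x ∈ w, x ∈ S) : w.sum ∈ S := by
  induction w with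
  | nil => exact absurd rfl hw
  | cons a v ih =>
    cases v with
    | nil => simpa using h a (by simp)
    | cons b v =>
      rw [List.sum_cons]
      exact hS a (h a (by simp)) _ (ih (by simp) fun x hx => h x (List.mem_cons_of_mem _ hx))

private theorem ti_supp {S : Set M} (hS : ∀ a ∈ S, ∀ b ∈ S, a + b ∈ S) (c : M → M → K)
    (w : List M) (h : ∀ x ∈ w, x ∈ S) :
    ∀ w' ∈ (dl K c w).support, w' ≠ [] ∧ ∀ x ∈ w', x ∈ S := by
  classical
  induction w with
  | nil => intro w' hw'; simp [dl] at hw'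
  | cons a v ih =>
    cases v with
    | nil => intro w' hw'; simp [dl] at hw'
    | cons b v =>
      intro w' hw'
      rw [dl] at hw'
      have hv : ∀ x ∈ b :: v, x ∈ S := fun x hx => h x (List.mem_cons_of_mem _ hx)
      rcases Finset.mem_union.1 (Finsupp.support_sub hw') with h' | h'
      · have e := Finset.mem_singleton.1 (Finsupp.support_single_subset h')
        rw [e]
        refine ⟨by simp, ?_⟩
        intro x hx
        rcases List.mem_cons.1 hx with hx | hx
        · rw [hx]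
          exact hS a (h a (by simp)) b (h b (by simp))
        · exact h x (by simp [hx])
      · have h'' := Finsupp.mapDomain_support h'
        obtain ⟨u, hu, rfl⟩ := Finset.mem_image.1 h''
        refine ⟨by simp, ?_⟩
        intro x hx
        rcases List.mem_cons.1 hx with hx | hx
        · rw [hx]
          exact h a (by simp)
        · exact (ih hv u hu).2 x hx

private theorem ti_map (f : M →+ M') (w : List M) :
    (dl K (one2 K) w).mapDomain (List.map f) = dl K (one2 K) (List.map f w) := by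
  classical
  induction w with
  | nil => simp [dl]
  | cons a v ih =>
    cases v with
    | nil => simp [dl]
    | cons b v =>
      have hsub : ∀ x y : List M →₀ K, (x - y).mapDomain (List.map f)
          = x.mapDomain (List.map f) - y.mapDomain (List.map f) := by
        intro x y
        exact map_sub (Finsupp.mapDomain.addMonoidHom (M := K) (List.map f)) x y
      have hcomp : (List.map f) ∘ (List.cons a) = (List.cons (f a)) ∘ (List.map f) := by
        funext u
        simp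
      rw [List.map_cons] at ih
      rw [dl, List.map_cons, List.map_cons, dl, hsub, Finsupp.mapDomain_single, ← ih,
        ← Finsupp.mapDomain_comp, ← Finsupp.mapDomain_comp, hcomp, List.map_cons, map_add]
      rfl

/-- `TV` is invariant under additive maps injective on the letters. -/
theorem TV_image (deg : M →+ ℕ) (deg' : M' →+ ℕ) (f : M →+ M') {S : Set M}
    (hS : ∀ a ∈ S, ∀ b ∈ S, a + b ∈ S) (hf : Set.InjOn f S) (hdeg : ∀ x ∈ S, deg' (f x) = deg x) :
    TV K deg' (f '' S) ↔ TV K deg S := by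
  have hbij : Set.BijOn (List.map f) (Wd S S) (Wd (f '' S) (f '' S)) := by
    refine ⟨?_, ?_, ?_⟩
    · intro w hw
      obtain ⟨h1, h2⟩ := (ti_mem_Wd w).1 hw
      refine (ti_mem_Wd _).2 ⟨by simpa using h1, ?_⟩
      intro x hx
      obtain ⟨y, hy, rfl⟩ := List.mem_map.1 hx
      exact ⟨y, h2 y hy, rfl⟩
    · have key : ∀ l1 l2 : List M, (∀ x ∈ l1, x ∈ S) → (∀ x ∈ l2, x ∈ S) →
          List.map f l1 = List.map f l2 → l1 = l2 := by
        intro l1
        induction l1 with
        | nil =>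
          intro l2 _ _ h
          cases l2 with
          | nil => rfl
          | cons b l2 => simp at h
        | cons a l1 ih =>
          intro l2 h1 h2 h
          cases l2 with
          | nil => simp at h
          | cons b l2 =>
            rw [List.map_cons, List.map_cons] at h
            injection h with e1 e2
            rw [hf (h1 a (by simp)) (h2 b (by simp)) e1,
              ih l2 (fun x hx => h1 x (List.mem_cons_of_mem _ hx))
                (fun x hx => h2 x (List.mem_cons_of_mem _ hx)) e2]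
      intro w1 hw1 w2 hw2 h
      exact key w1 w2 ((ti_mem_Wd w1).1 hw1).2 ((ti_mem_Wd w2).1 hw2).2 h
    · have key : ∀ l' : List M', (∀ x ∈ l', x ∈ f '' S) →
          ∃ l : List M, (∀ x ∈ l, x ∈ S) ∧ List.map f l = l' := by
        intro l'
        induction l' with
        | nil => intro _; exact ⟨[], by simp, rfl⟩
        | cons a l' ih =>
          intro h
          obtain ⟨l, h1, h2⟩ := ih fun x hx => h x (List.mem_cons_of_mem _ hx)
          obtain ⟨b, hb, hb'⟩ := h a (by simp)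
          refine ⟨b :: l, ?_, ?_⟩
          · intro x hx
            rcases List.mem_cons.1 hx with hx | hx
            · rw [hx]; exact hb
            · exact h1 x hx
          · rw [List.map_cons, h2, hb']
      intro w' hw'
      obtain ⟨h1, h2⟩ := (ti_mem_Wd w').1 hw'
      obtain ⟨l, hl, rfl⟩ := key w' h2
      exact ⟨l, (ti_mem_Wd l).2 ⟨by simpa using h1, hl⟩, rfl⟩
  have hj : ∀ j, TVX K deg (one2 K) (one2 K) S S j ↔
      TVX K deg' (one2 K) (one2 K) (f '' S) (f '' S) j := by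
    intro j
    refine ODat_bijOn (List.map f) hbij ?_ ?_ ?_ ?_ j
    · intro w hw w' hw'
      rw [dl0_self] at hw'
      exact (ti_mem_Wd w').2 (ti_supp hS _ w ((ti_mem_Wd w).1 hw).2 w' hw')
    · intro w _
      rw [dl0_self, dl0_self, ti_map]
    · intro w _
      exact List.length_map _
    · intro w hw
      obtain ⟨h1, h2⟩ := (ti_mem_Wd w).1 hw
      rw [wdeg, wdeg, ← map_list_sum, hdeg _ (ti_sum_mem hS w h1 h2)]
  exact ⟨fun H j => (hj j).2 (H j), fun H j => (hj j).1 (H j)⟩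

end MP7ea278
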