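import Pool.Agent.Lib.MP_7ea278_ag.Words
import Pool.Agent.Lib.MP_7ea278_ag.Perturb
import Pool.Agent.Lib.MP_7ea278_ag.Kunneth
import Pool.Agent.Lib.MP_7ea278_ag.Transport
import Pool.Agent.Lib.MP_7ea278_ag.Append

namespace MP7ea278

open Finsupp

variable {K : Type} [CommRing K] {M : Type} [AddCommMonoid M]

/-- the junction term on pairs -/
private noncomputable def tl_J (c : M → M → K) : List M × List M → (List M × List M →₀ K)
  | (_, []) => 0
  | (p, e :: s) => if 2 ≤ p.length then
      single (p.dropLast, (p.getLastD 0 + e) :: s) ((-1 : K) ^ (p.length - 1) * c (p.getLastD 0) e)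
      else 0

private theorem tl_J_cons (c : M → M → K) (p : List M) (e : M) (s : List M) :
    tl_J c (p, e :: s) = if 2 ≤ p.length then
      single (p.dropLast, (p.getLastD 0 + e) :: s) ((-1 : K) ^ (p.length - 1) * c (p.getLastD 0) e)
      else 0 := rfl

private theorem tl_jn_nil (c : M → M → K) (p : List M) : jn K c p [] = 0 := by
  induction p with
  | nil => rfl
  | cons a p ih =>
    cases p with
    | nil => rfl
    | cons b p =>
      show -(jn K c (b :: p) []).mapDomain (List.cons a) = 0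
      rw [ih, Finsupp.mapDomain_zero, neg_zero]

private theorem tl_jn_cons (c : M → M → K) (e : M) (s : List M) (a : M) (p : List M) :
    jn K c (a :: p) (e :: s) =
      single ((a :: p).dropLast ++ ((a :: p).getLastD 0 + e) :: s)
        ((-1 : K) ^ p.length * c ((a :: p).getLastD 0) e) := by
  induction p generalizing a with
  | nil =>
    show single ((a + e) :: s) (c a e) = _
    simp
  | cons b p ih =>
    show -(jn K c (b :: p) (e :: s)).mapDomain (List.cons a) = _
    rw [ih, Finsupp.mapDomain_single, ← Finsupp.single_neg]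
    congr 1
    simp only [List.length_cons, pow_succ, List.getLastD_cons]
    ring

/-- the differential of an appended word -/
private theorem tl_dl0_append (c0 c : M → M → K) (S0 S1 S2 : Set M)
    (h0 : ∀ a ∈ S0, ∀ b ∈ S2, c0 a b = 0) (p s : List M) (hp : p ∈ Wd S0 S1)
    (hs : s = [] ∨ s ∈ Wd S2 (S1 ∪ S2)) :
    dl0 K c0 c (p ++ s) = (dl0 K c0 c p).mapDomain (fun p' => p' ++ s) +
      ((-1 : K) ^ p.length) • (dl K c s).mapDomain (fun s' => p ++ s') +
      (tl_J c (p, s)).mapDomain (fun x => x.1 ++ x.2) := by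
  obtain ⟨a, v, rfl, ha, hv⟩ := hp
  cases v with
  | nil =>
    cases s with
    | nil =>
      show (0 : List M →₀ K) = (0 : List M →₀ K).mapDomain _ + (-1 : K) ^ 1 • (0 : List M →₀ K).mapDomain _ +
        (0 : List M × List M →₀ K).mapDomain _
      simp
    | cons e s =>
      have he : e ∈ S2 := by
        rcases hs with hs | ⟨e', v', h, he', -⟩
        · simp at hs
        · rw [List.cons.injEq] at h
          rw [h.1]; exact he'
      show single ((a + e) :: s) (c0 a e) - (dl K c (e :: s)).mapDomain (List.cons a) = _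
      rw [h0 a ha e he, single_zero, zero_sub]
      have h1 : tl_J c ([a], e :: s) = 0 := by
        simp [tl_J]
      rw [h1, Finsupp.mapDomain_zero, add_zero]
      show _ = (0 : List M →₀ K).mapDomain _ + _
      rw [Finsupp.mapDomain_zero, zero_add]
      simp only [List.length_cons, List.length_nil, zero_add, pow_one, neg_smul, one_smul]
      rfl
  | cons b v =>
    show single ((a + b) :: (v ++ s)) (c0 a b) - (dl K c ((b :: v) ++ s)).mapDomain (List.cons a) = _
    rw [dl_append]
    have h1 : (tl_J c (a :: b :: v, s)).mapDomain (fun x => x.1 ++ x.2) = jn K c (a :: b :: v) s := by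
      cases s with
      | nil =>
        rw [tl_jn_nil]
        show (0 : List M × List M →₀ K).mapDomain _ = 0
        exact Finsupp.mapDomain_zero
      | cons e s =>
        rw [tl_jn_cons]
        have : tl_J c (a :: b :: v, e :: s) =
          single ((a :: b :: v).dropLast, ((a :: b :: v).getLastD 0 + e) :: s)
            ((-1 : K) ^ ((a :: b :: v).length - 1) * c ((a :: b :: v).getLastD 0) e) := by
          rw [tl_J_cons, if_pos (by simp)]
        rw [this, Finsupp.mapDomain_single]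
        rfl
    rw [h1]
    show _ = (single ((a + b) :: v) (c0 a b) - (dl K c (b :: v)).mapDomain (List.cons a)).mapDomain
      (fun p' => p' ++ s) + _ + -(jn K c (b :: v) s).mapDomain (List.cons a)
    have h2 : ∀ (x y : List M →₀ K) (g : List M → List M), (x - y).mapDomain g =
        x.mapDomain g - y.mapDomain g := by
      intro x y g
      exact map_sub (Finsupp.mapDomain.addMonoidHom g) x y
    rw [h2, Finsupp.mapDomain_single, ← Finsupp.mapDomain_comp, Finsupp.mapDomain_add,
      Finsupp.mapDomain_add, ← Finsupp.mapDomain_comp, Finsupp.mapDomain_smul,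
      ← Finsupp.mapDomain_comp]
    have h3 : (List.cons a ∘ fun p' => p' ++ s) = ((fun p' => p' ++ s) ∘ List.cons a) := by
      funext x; rfl
    have h4 : (List.cons a ∘ fun s' => b :: v ++ s') = fun s' => a :: b :: v ++ s' := by
      funext x; rfl
    rw [h3, h4]
    have h5 : (-1 : K) ^ (a :: b :: v).length = -((-1 : K) ^ (b :: v).length) := by
      rw [List.length_cons (a := a), pow_succ]
      ring
    rw [h5, neg_smul]
    show _ = single (((a + b) :: v) ++ s) (c0 a b) - _ + _ + _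
    rw [List.cons_append]
    abel

private theorem tl_inj {S1 S2 : Set M} (hdisj : Disjoint S1 S2) (s s' : List M)
    (hs : s = [] ∨ s ∈ Wd S2 (S1 ∪ S2)) (hs' : s' = [] ∨ s' ∈ Wd S2 (S1 ∪ S2)) (v v' : List M)
    (hv : ∀ x ∈ v, x ∈ S1) (hv' : ∀ x ∈ v', x ∈ S1) (h : v ++ s = v' ++ s') : v = v' ∧ s = s' := by
  induction v generalizing v' with
  | nil =>
    cases v' with
    | nil => exact ⟨rfl, h⟩
    | cons b v' =>
      exfalso
      rw [List.nil_append, List.cons_append] at h
      have hb : b ∈ S1 := hv' b (List.mem_cons_self ..)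
      rcases hs with hs | ⟨e, w, hw, he, -⟩
      · rw [hs] at h; simp at h
      · rw [hw, List.cons.injEq] at h
        rw [h.1] at he
        exact Set.disjoint_left.mp hdisj hb he
  | cons a v ih =>
    cases v' with
    | nil =>
      exfalso
      rw [List.nil_append, List.cons_append] at h
      have hb : a ∈ S1 := hv a (List.mem_cons_self ..)
      rcases hs' with hs | ⟨e, w, hw, he, -⟩
      · rw [hs] at h; simp at h
      · rw [hw, List.cons.injEq] at h
        rw [← h.1] at he
        exact Set.disjoint_left.mp hdisj hb he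
    | cons b v' =>
      rw [List.cons_append, List.cons_append, List.cons.injEq] at h
      obtain ⟨h1, h2⟩ := ih v' (fun x hx => hv x (List.mem_cons_of_mem _ hx))
        (fun x hx => hv' x (List.mem_cons_of_mem _ hx)) h.2
      exact ⟨by rw [h.1, h1], h2⟩

private theorem tl_split {S1 S2 : Set M} (w : List M) (hw : ∀ x ∈ w, x ∈ S1 ∪ S2) :
    ∃ v s, w = v ++ s ∧ (∀ x ∈ v, x ∈ S1) ∧ (s = [] ∨ s ∈ Wd S2 (S1 ∪ S2)) := by
  induction w with
  | nil => exact ⟨[], [], rfl, by simp, Or.inl rfl⟩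
  | cons b w ih =>
    obtain ⟨v, s, h1, h2, h3⟩ := ih (fun x hx => hw x (List.mem_cons_of_mem _ hx))
    rcases hw b (List.mem_cons_self ..) with hb | hb
    · refine ⟨b :: v, s, by rw [h1, List.cons_append], ?_, h3⟩
      intro x hx
      rcases List.mem_cons.mp hx with rfl | hx
      · exact hb
      · exact h2 x hx
    · exact ⟨[], b :: w, rfl, by simp, Or.inr ⟨b, w, rfl, hb,
        fun x hx => hw x (List.mem_cons_of_mem _ hx)⟩⟩

private theorem tl_bijOn {S0 S1 S2 : Set M} (hdisj : Disjoint S1 S2) :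
    Set.BijOn (fun x : List M × List M => x.1 ++ x.2)
      (Wd S0 S1 ×ˢ {s | s = [] ∨ s ∈ Wd S2 (S1 ∪ S2)}) (Wd S0 (S1 ∪ S2)) := by
  refine ⟨?_, ?_, ?_⟩
  · rintro ⟨p, s⟩ ⟨⟨a, v, h1, ha, hv⟩, hs⟩
    simp only at h1 hs
    refine ⟨a, v ++ s, by simp [h1], ha, ?_⟩
    intro x hx
    rcases List.mem_append.mp hx with hx | hx
    · exact Or.inl (hv x hx)
    · rcases hs with hs | ⟨e, w, hw, he, hw'⟩
      · rw [hs] at hx; simp at hx
      · rw [hw] at hx
        rcases List.mem_cons.mp hx with rfl | hx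
        · exact Or.inr he
        · exact hw' x hx
  · rintro ⟨p, s⟩ ⟨⟨a, v, h1, ha, hv⟩, hs⟩ ⟨p', s'⟩ ⟨⟨a', v', h1', ha', hv'⟩, hs'⟩ h
    simp only at h h1 h1' hs hs'
    subst h1 h1'
    rw [List.cons_append, List.cons_append, List.cons.injEq] at h
    obtain ⟨h2, h3⟩ := tl_inj hdisj s s' hs hs' v v' hv hv' h.2
    rw [h.1, h2, h3]
  · rintro w ⟨a, v, rfl, ha, hv⟩
    obtain ⟨v1, s, h1, h2, h3⟩ := tl_split v hv
    exact ⟨(a :: v1, s), ⟨⟨a, v1, rfl, ha, h2⟩, h3⟩, by simp [h1]⟩

/-- the support of the junction term -/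
private theorem tl_J_supp (deg : M →+ ℕ) (c : M → M → K) {S0 S1 S2 : Set M}
    (h3 : ∀ a ∈ S1, ∀ b ∈ S2, c a b ≠ 0 → a + b ∈ S2) (hdeg : ∀ a ∈ S1 ∪ S2, 1 ≤ deg a)
    (x : List M × List M) (hx : x ∈ Wd S0 S1 ×ˢ {s | s = [] ∨ s ∈ Wd S2 (S1 ∪ S2)})
    (y : List M × List M) (hy : y ∈ (tl_J c x).support) :
    y ∈ Wd S0 S1 ×ˢ {s | s = [] ∨ s ∈ Wd S2 (S1 ∪ S2)} ∧
      y.1.length + y.2.length + 1 = x.1.length + x.2.length ∧
      wdeg deg y.1 + wdeg deg y.2 = wdeg deg x.1 + wdeg deg x.2 ∧ wdeg deg y.1 < wdeg deg x.1 := by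
  classical
  obtain ⟨p, s⟩ := x
  obtain ⟨⟨a, v, h1, ha, hv⟩, hs⟩ := hx
  simp only at h1 hs
  subst h1
  cases s with
  | nil =>
    exfalso
    have : tl_J c (a :: v, []) = 0 := rfl
    rw [this] at hy
    simp at hy
  | cons e s =>
    rw [tl_J_cons] at hy
    split_ifs at hy with hl
    · -- decompose `v = u ++ [z]`
      rcases List.eq_nil_or_concat v with hv0 | ⟨u, z, hu⟩
      · exfalso
        rw [hv0] at hl
        simp at hl
      · rw [List.concat_eq_append] at hu
        subst hu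
        have hdl : (a :: (u ++ [z])).dropLast = a :: u := by
          rw [← List.cons_append, List.dropLast_concat]
        have hgl : (a :: (u ++ [z])).getLastD 0 = z := by
          rw [← List.cons_append, List.getLastD_eq_getLast?, List.getLast?_concat]
          rfl
        rw [hdl, hgl] at hy
        have hz : z ∈ S1 := hv z (by simp)
        rcases hs with hs | ⟨e', w, hw, he, hw'⟩
        · simp at hs
        · rw [List.cons.injEq] at hw
          obtain ⟨h4, h5⟩ := hw
          subst h4 h5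
          have hy2 := Finsupp.support_single_subset hy
          rw [Finset.mem_singleton] at hy2
          have hne : c z e ≠ 0 := by
            intro h0
            rw [h0, mul_zero, single_zero] at hy
            simp at hy
          subst hy2
          have hdz := hdeg z (Or.inl hz)
          refine ⟨⟨⟨a, u, rfl, ha, fun x hx => hv x (by simp [hx])⟩,
            Or.inr ⟨z + e, s, rfl, h3 z hz e he hne, hw'⟩⟩, ?_, ?_, ?_⟩
          · simp
            omega
          · simp only [wdeg, List.sum_cons, List.sum_append, List.sum_nil, map_add, add_zero]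
            omega
          · simp only [wdeg, List.sum_cons, List.sum_append, List.sum_nil, map_add, add_zero]
            omega
    · simp at hy

/-- Two-level lemma: words are split at the first letter in `S2`. -/
theorem TVX_twoLevel (deg : M →+ ℕ) (c0 c : M → M → K) (S0 S1 S2 : Set M)
    (hdisj : Disjoint S1 S2)
    (h0 : ∀ a ∈ S0, ∀ b ∈ S2, c0 a b = 0)
    (h1 : ∀ a ∈ S0, ∀ b ∈ S1, c0 a b ≠ 0 → a + b ∈ S0)
    (h2 : ∀ a ∈ S1, ∀ b ∈ S1, c a b ≠ 0 → a + b ∈ S1)
    (h3 : ∀ a ∈ S1, ∀ b ∈ S2, c a b ≠ 0 → a + b ∈ S2)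
    (h4 : ∀ a ∈ S2, ∀ b ∈ S1 ∪ S2, c a b ≠ 0 → a + b ∈ S2)
    (hdeg0 : ∀ a ∈ S0, 1 ≤ deg a) (hdeg : ∀ a ∈ S1 ∪ S2, 1 ≤ deg a)
    (hc0 : ∀ a ∈ S0, ∀ b ∈ S1 ∪ S2, ∀ e ∈ S1 ∪ S2,
      c0 a b * c0 (a + b) e = c b e * c0 a (b + e))
    (hc : ∀ a ∈ S1 ∪ S2, ∀ b ∈ S1 ∪ S2, ∀ e ∈ S1 ∪ S2,
      c a b * c (a + b) e = c b e * c a (b + e))
    (j : ℕ) (hpre : ∀ j' ≤ j, TVX K deg c0 c S0 S1 j')
    (hsuf : ∀ j' < j, TVX K deg c c S2 (S1 ∪ S2) j') :
    TVX K deg c0 c S0 (S1 ∪ S2) j := by
  classical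
  have hSdl : dl0 K c c = dl K c := funext (dl0_self K c)
  -- the three based complexes
  have hBC' : IsBC K (Wd S0 (S1 ∪ S2)) (dl0 K c0 c) List.length (wdeg deg) := by
    refine isBC_words deg c0 c S0 (S1 ∪ S2) ?_ ?_ hdeg0 hdeg hc0 hc
    · intro a ha b hb hne
      rcases hb with hb | hb
      · exact h1 a ha b hb hne
      · exact absurd (h0 a ha b hb) hne
    · intro a ha b hb hne
      rcases ha with ha | ha
      · rcases hb with hb | hb
        · exact Or.inl (h2 a ha b hb hne)
        · exact Or.inr (h3 a ha b hb hne)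
      · exact Or.inr (h4 a ha b hb hne)
  have hBCp : IsBC K (Wd S0 S1) (dl0 K c0 c) List.length (wdeg deg) :=
    isBC_words deg c0 c S0 S1 h1 h2 hdeg0 (fun a ha => hdeg a (Or.inl ha))
      (fun a ha b hb e he => hc0 a ha b (Or.inl hb) e (Or.inl he))
      (fun a ha b hb e he => hc a (Or.inl ha) b (Or.inl hb) e (Or.inl he))
  have hBC2 : IsBC K (Wd S2 (S1 ∪ S2)) (dl K c) List.length (wdeg deg) := by
    rw [← hSdl]
    refine isBC_words deg c c S2 (S1 ∪ S2) h4 ?_ (fun a ha => hdeg a (Or.inr ha)) hdeg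
      (fun a ha => hc a (Or.inr ha)) hc
    intro a ha b hb hne
    rcases ha with ha | ha
    · rcases hb with hb | hb
      · exact Or.inl (h2 a ha b hb hne)
      · exact Or.inr (h3 a ha b hb hne)
    · exact Or.inr (h4 a ha b hb hne)
  set Xs : Set (List M) := {s | s = [] ∨ s ∈ Wd S2 (S1 ∪ S2)} with hXs
  have hBCs : IsBC K Xs (dl K c) List.length (wdeg deg) := by
    refine ⟨?_, ?_, ?_⟩
    · rintro s (rfl | hs) s' hs'
      · have : dl K c ([] : List M) = 0 := rfl
        rw [this] at hs'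
        simp at hs'
      · obtain ⟨h5, h6, h7⟩ := hBC2.maps s hs s' hs'
        exact ⟨Or.inr h5, h6, h7⟩
    · rintro s (rfl | hs)
      · have : dl K c ([] : List M) = 0 := rfl
        rw [this, map_zero]
      · exact hBC2.sq s hs
    · rintro s (rfl | hs)
      · simp
      · exact hBC2.le s hs
  -- exactness of the suffix complex
  have hODs : ∀ j' < j, ODat K Xs (dl K c) List.length (wdeg deg) j' := by
    intro j' hj' U _ _ k hk z hz hdz
    by_cases hk0 : k = 0
    · have hz0 : z = 0 := by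
        rw [← Finsupp.support_eq_empty]
        refine Finset.eq_empty_of_forall_notMem fun ω hω => ?_
        obtain ⟨h5, h6, h7⟩ := hz (Finset.mem_coe.2 hω)
        rw [hk0] at h6
        have h8 : ω = [] := List.eq_nil_of_length_eq_zero h6
        rw [h8] at h7
        apply hk
        rw [hk0, ← h7]
        simp [wdeg]
      exact ⟨0, Submodule.zero_mem _, by rw [hz0, map_zero]⟩
    · have hz' : z ∈ Finsupp.supported U K (Hom (Wd S2 (S1 ∪ S2)) List.length (wdeg deg) k j') := by
        intro ω hω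
        obtain ⟨h5, h6, h7⟩ := hz hω
        rcases h5 with h5 | h5
        · exfalso
          rw [h5] at h6
          exact hk0 h6.symm
        · exact ⟨h5, h6, h7⟩
      obtain ⟨y, hy, hdy⟩ := hsuf j' hj' U k hk z hz' (by rw [hSdl]; exact hdz)
      refine ⟨y, ?_, by rw [hSdl] at hdy; exact hdy⟩
      intro ω hω
      obtain ⟨h5, h6, h7⟩ := hy hω
      exact ⟨Or.inr h5, h6, h7⟩
  -- the tensor product complex
  have hgp : ∀ p ∈ Wd S0 S1, 1 ≤ wdeg deg p := by
    rintro p ⟨a, v, rfl, ha, -⟩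
    have := hdeg0 a ha
    simp only [wdeg, List.sum_cons, map_add]
    omega
  have hK := kunneth hBCp hBCs hgp j hpre hODs
  have hBCx := isBC_pair hBCp hBCs
  have hbij := tl_bijOn (S0 := S0) hdisj
  rw [← hXs] at hbij
  set δ : List M × List M → (List M × List M →₀ K) :=
    fun x => dPair (dl0 K c0 c) List.length (dl K c) x + tl_J c x with hδ
  have hmap : ∀ x ∈ Wd S0 S1 ×ˢ Xs, (δ x).mapDomain (fun x => x.1 ++ x.2) =
      dl0 K c0 c (x.1 ++ x.2) := by
    rintro ⟨p, s⟩ ⟨hp, hs⟩
    rw [tl_dl0_append c0 c S0 S1 S2 h0 p s hp hs, hδ]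
    simp only [dPair, Finsupp.mapDomain_add, Finsupp.mapDomain_smul, ← Finsupp.mapDomain_comp]
    rfl
  have hmaps : ∀ x ∈ Wd S0 S1 ×ˢ Xs, ∀ y ∈ (δ x).support, y ∈ Wd S0 S1 ×ˢ Xs ∧
      (y.1.length + y.2.length) + 1 = x.1.length + x.2.length ∧
      wdeg deg y.1 + wdeg deg y.2 = wdeg deg x.1 + wdeg deg x.2 := by
    intro x hx y hy
    have := Finsupp.support_add hy
    rcases Finset.mem_union.mp this with h5 | h5
    · exact hBCx.maps x hx y h5
    · obtain ⟨h6, h7, h8, -⟩ := tl_J_supp deg c h3 hdeg x hx y h5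
      exact ⟨h6, h7, h8⟩
  have hcomm : ∀ z ∈ Finsupp.supported K K (Wd S0 S1 ×ˢ Xs),
      (ext K δ K z).mapDomain (fun x => x.1 ++ x.2) =
        ext K (dl0 K c0 c) K (z.mapDomain (fun x => x.1 ++ x.2)) := by
    intro z hz
    rw [← ext_single_fun (K := K), ext_ext, ← ext_single_fun (K := K) (z := z), ext_ext]
    refine ext_congr _ K (X := Wd S0 S1 ×ˢ Xs) ?_ hz
    intro x hx
    rw [ext_single_fun, hmap x hx, ext_single_one]
  have hBCδ : IsBC K (Wd S0 S1 ×ˢ Xs) δ (fun x => x.1.length + x.2.length)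
      (fun x => wdeg deg x.1 + wdeg deg x.2) := by
    refine ⟨hmaps, ?_, hBCx.le⟩
    intro x hx
    have hsup : δ x ∈ Finsupp.supported K K (Wd S0 S1 ×ˢ Xs) :=
      fun y hy => (hmaps x hx y hy).1
    have hsup2 : ext K δ K (δ x) ∈ Finsupp.supported K K (Wd S0 S1 ×ˢ Xs) :=
      ext_mem_supported δ K (X := Wd S0 S1 ×ˢ Xs) (fun ω hω ω' hω' => (hmaps ω hω ω' hω').1) hsup
    have h5 : (ext K δ K (δ x)).mapDomain (fun x => x.1 ++ x.2) = 0 := by
      rw [hcomm _ hsup, hmap x hx]
      exact hBC'.sq _ (hbij.mapsTo hx)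
    have h6 := Finsupp.mapDomain_injOn (M := K) (Wd S0 S1 ×ˢ Xs) hbij.injOn
    apply h6 hsup2 (Submodule.zero_mem (Finsupp.supported K K (Wd S0 S1 ×ˢ Xs)))
    rw [h5, Finsupp.mapDomain_zero]
  have hP : ODat K (Wd S0 S1 ×ˢ Xs) δ (fun x => x.1.length + x.2.length)
      (fun x => wdeg deg x.1 + wdeg deg x.2) j := by
    refine ODat_perturb (fun x => wdeg deg x.1) hBCδ ?_ ?_ hK
    · intro x hx y hy
      obtain ⟨h5, h6, h7⟩ := hBCx.maps x hx y hy
      refine ⟨h5, h6, h7, ?_⟩
      have := Finsupp.support_add hy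
      rcases Finset.mem_union.mp this with h8 | h8
      · have h9 := Finsupp.mapDomain_support h8
        rw [Finset.mem_image] at h9
        obtain ⟨p', hp', rfl⟩ := h9
        exact (hBCp.maps x.1 hx.1 p' hp').2.2
      · have h9 := Finsupp.support_smul h8
        have h10 := Finsupp.mapDomain_support h9
        rw [Finset.mem_image] at h10
        obtain ⟨s', hs', rfl⟩ := h10
        rfl
    · intro x hx y hy
      have h5 : δ x - dPair (dl0 K c0 c) List.length (dl K c) x = tl_J c x := by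
        rw [hδ]
        simp only
        abel
      rw [h5] at hy
      exact (tl_J_supp deg c h3 hdeg x hx y hy).2.2.2
  refine (ODat_bijOn (fun x : List M × List M => x.1 ++ x.2) hbij
    (fun x hx y hy => (hmaps x hx y hy).1) hmap ?_ ?_ j).mp hP
  · rintro ⟨p, s⟩ -
    simp
  · rintro ⟨p, s⟩ -
    simp [wdeg]

end MP7ea278
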