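import Pool.Agent.Lib.MP_7ea278_ag.DiagLift
import Pool.Agent.Lib.MP_7ea278_ag.TwoLevel

namespace MP7ea278

open Finsupp

variable {K : Type} [CommRing K] {M : Type} [AddCommMonoid M]

/-! ### helpers -/

section RetractHelpers

variable {Ω Ω' : Type}

theorem rt_zero_of_disjoint {U : Type} [AddCommGroup U] [Module K U] {X Y : Set Ω}
    (h : ∀ ω ∈ X, ω ∉ Y) {z : Ω →₀ U} (h1 : z ∈ Finsupp.supported U K X)
    (h2 : z ∈ Finsupp.supported U K Y) : z = 0 := by
  refine Finsupp.ext fun ω => ?_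
  rw [Finsupp.zero_apply]
  by_contra hne
  have hm := Finset.mem_coe.2 (Finsupp.mem_support_iff.2 hne)
  exact h ω (h1 hm) (h2 hm)

theorem rt_filter_mem {U : Type} [AddCommGroup U] [Module K U] (X Y : Set Ω)
    [DecidablePred (· ∈ Y)] {z : Ω →₀ U} (h1 : z ∈ Finsupp.supported U K X) :
    z.filter (· ∈ Y) ∈ Finsupp.supported U K (X ∩ Y) := by
  intro ω hω
  have h2 := Finsupp.mem_support_iff.1 (Finset.mem_coe.1 hω)
  rw [Finsupp.filter_apply] at h2
  have h3 : ω ∈ Y := by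
    by_contra h4
    exact h2 (if_neg h4)
  rw [if_pos h3] at h2
  exact ⟨h1 (Finset.mem_coe.2 (Finsupp.mem_support_iff.2 h2)), h3⟩

theorem rt_filter_mem' {U : Type} [AddCommGroup U] [Module K U] (X Y : Set Ω)
    [DecidablePred (· ∈ Y)] {z : Ω →₀ U} (h1 : z ∈ Finsupp.supported U K X) :
    z - z.filter (· ∈ Y) ∈ Finsupp.supported U K (X \ Y) := by
  intro ω hω
  have h2 := Finsupp.mem_support_iff.1 (Finset.mem_coe.1 hω)
  rw [Finsupp.sub_apply, Finsupp.filter_apply] at h2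
  by_cases h3 : ω ∈ Y
  · exact absurd (by rw [if_pos h3, sub_self]) h2
  · rw [if_neg h3, sub_zero] at h2
    exact ⟨h1 (Finset.mem_coe.2 (Finsupp.mem_support_iff.2 h2)), h3⟩

theorem rt_filter_ext {U : Type} [AddCommGroup U] [Module K U] (φ : Ω → Ω' →₀ K) (Y : Set Ω')
    [DecidablePred (· ∈ Y)] (z : Ω →₀ U) :
    (ext K φ U z).filter (· ∈ Y) = ext K (fun ω => (φ ω).filter (· ∈ Y)) U z := by
  rw [← ext_filter_fun (K := K) U Y, ext_ext]
  have : (fun ω => ext K (fun ω => if ω ∈ Y then single ω (1 : K) else 0) K (φ ω)) =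
      fun ω => (φ ω).filter (· ∈ Y) := by
    funext ω
    rw [ext_filter_fun]
  rw [this]

theorem rt_filter_self {U : Type} [AddCommGroup U] [Module K U] (Y : Set Ω)
    [DecidablePred (· ∈ Y)] {z : Ω →₀ U} (h1 : z ∈ Finsupp.supported U K Y) :
    z.filter (· ∈ Y) = z := by
  rw [Finsupp.filter_eq_self_iff]
  intro ω hω
  exact h1 (Finset.mem_coe.2 (Finsupp.mem_support_iff.2 hω))

theorem rt_filter_zero {U : Type} [AddCommGroup U] [Module K U] (X Y : Set Ω)
    [DecidablePred (· ∈ Y)] (h : ∀ ω ∈ X, ω ∉ Y) {z : Ω →₀ U}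
    (h1 : z ∈ Finsupp.supported U K X) : z.filter (· ∈ Y) = 0 := by
  rw [Finsupp.filter_eq_zero_iff]
  intro ω hω
  by_contra hne
  exact h ω (h1 (Finset.mem_coe.2 (Finsupp.mem_support_iff.2 hne))) hω

end RetractHelpers

theorem rt_sum_mem (S D : Set M) (hS : ∀ a ∈ S, ∀ b ∈ S, a + b ∈ S)
    (hD : ∀ a ∈ S, ∀ b ∈ S, (a + b ∈ D ↔ a ∈ D ∧ b ∈ D)) (v : List M) (a : M) (ha : a ∈ S)
    (hv : ∀ x ∈ v, x ∈ S) :
    (a + v.sum ∈ S) ∧ (a + v.sum ∈ D ↔ a ∈ D ∧ ∀ x ∈ v, x ∈ D) := by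
  induction v generalizing a with
  | nil => simp [ha]
  | cons b v ih =>
    have hb : b ∈ S := hv b (by simp)
    have hv' : ∀ x ∈ v, x ∈ S := fun x hx => hv x (List.mem_cons_of_mem _ hx)
    have h1 := ih (a + b) (hS a ha b hb) hv'
    rw [List.sum_cons, ← add_assoc]
    refine ⟨h1.1, ?_⟩
    rw [h1.2, hD a ha b hb, List.forall_mem_cons, and_assoc]

theorem rt_isBC (deg : M →+ ℕ) (S : Set M) (hS : ∀ a ∈ S, ∀ b ∈ S, a + b ∈ S)
    (hdeg : ∀ a ∈ S, 1 ≤ deg a) :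
    IsBC K (Wd S S) (dl0 K (one2 K) (one2 K)) List.length (wdeg deg) :=
  isBC_words deg (one2 K) (one2 K) S S (fun a ha b hb _ => hS a ha b hb)
    (fun a ha b hb _ => hS a ha b hb) hdeg hdeg (fun _ _ _ _ _ _ => by simp [one2])
    (fun _ _ _ _ _ _ => by simp [one2])

omit [AddCommMonoid M] in
theorem rt_Wd_mono {S0 S T0 T : Set M} (h0 : S0 ⊆ T0) (h : S ⊆ T) : Wd S0 S ⊆ Wd T0 T := by
  rintro w ⟨a, v, rfl, ha, hv⟩
  exact ⟨a, v, rfl, h0 ha, fun x hx => h (hv x hx)⟩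

omit [AddCommMonoid M] in
theorem rt_Hom_mono {X Y : Set (List M)} (h : X ⊆ Y) (g : List M → ℕ) (k j : ℕ) :
    Hom X List.length g k j ⊆ Hom Y List.length g k j := by
  rintro w ⟨h1, h2, h3⟩
  exact ⟨h h1, h2, h3⟩

/-- A face of a semigroup with vanishing off-diagonal homology has the same property. -/
theorem TV_face (deg : M →+ ℕ) (S D : Set M) (hS : ∀ a ∈ S, ∀ b ∈ S, a + b ∈ S)
    (hdeg : ∀ a ∈ S, 1 ≤ deg a) (hDS : D ⊆ S)
    (hD : ∀ a ∈ S, ∀ b ∈ S, (a + b ∈ D ↔ a ∈ D ∧ b ∈ D)) (hT : TV K deg S) : TV K deg D := by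
  classical
  have hDD : ∀ a ∈ D, ∀ b ∈ D, a + b ∈ D := fun a ha b hb =>
    (hD a (hDS ha) b (hDS hb)).2 ⟨ha, hb⟩
  have hBD : IsBC K (Wd D D) (dl0 K (one2 K) (one2 K)) List.length (wdeg deg) :=
    rt_isBC deg D hDD fun a ha => hdeg a (hDS ha)
  intro j U _ _ k hk z hz hdz
  have hsub := rt_Wd_mono hDS hDS
  obtain ⟨y, hy, hyz⟩ := hT j U k hk z (Finsupp.supported_mono (rt_Hom_mono hsub _ k j) hz) hdz
  refine ⟨y.filter (· ∈ Wd D D), ?_, ?_⟩
  · have h1 := rt_filter_mem (K := K) _ (Wd D D) hy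
    exact fun w hw => ⟨(h1 hw).2, (h1 hw).1.2.1, (h1 hw).1.2.2⟩
  · have h1 := rt_filter_mem (K := K) _ (Wd D D) hy
    have h2 := rt_filter_mem' (K := K) _ (Wd D D) hy
    have s1 : ext K (dl0 K (one2 K) (one2 K)) U (y.filter (· ∈ Wd D D)) ∈
        Finsupp.supported U K (Wd D D) :=
      ext_mem_supported _ U (X := Hom (Wd S S) List.length (wdeg deg) (k + 1) j ∩ Wd D D)
        (fun w hw w' hw' => (hBD.maps w hw.2 w' hw').1) h1
    have s2 : ext K (dl0 K (one2 K) (one2 K)) U (y - y.filter (· ∈ Wd D D)) ∈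
        Finsupp.supported U K (Wd D D)ᶜ := by
      refine ext_mem_supported _ U
        (X := Hom (Wd S S) List.length (wdeg deg) (k + 1) j \ Wd D D) ?_ h2
      rintro w ⟨⟨⟨a, v, rfl, ha, hv⟩, _⟩, hwD⟩ w' hw' ⟨a', v', rfl, ha', hv'⟩
      rw [dl0_self] at hw'
      have h3 := dl_support (one2 K) S (fun a ha b hb _ => hS a ha b hb) (a :: v)
        (by
          intro x hx
          rcases List.mem_cons.1 hx with rfl | hx
          · exact ha
          · exact hv x hx) _ hw'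
      have h4 := (rt_sum_mem S D hS hD v a ha hv).2
      have h5 := (rt_sum_mem S D hS hD v' a' (hDS ha') fun x hx => hDS (hv' x hx)).2
      have h6 : a' + v'.sum = a + v.sum := by simpa using h3.2.2
      rw [h6] at h5
      have h7 := h4.1 (h5.2 ⟨ha', hv'⟩)
      exact hwD ⟨a, v, rfl, h7.1, h7.2⟩
    have e : ext K (dl0 K (one2 K) (one2 K)) U (y.filter (· ∈ Wd D D)) - z =
        -ext K (dl0 K (one2 K) (one2 K)) U (y - y.filter (· ∈ Wd D D)) := by
      rw [map_sub, hyz]; abel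
    have hz' : z ∈ Finsupp.supported U K (Wd D D) :=
      Finsupp.supported_mono (fun w hw => hw.1) hz
    have t1 := Submodule.sub_mem _ s1 hz'
    have t2 : ext K (dl0 K (one2 K) (one2 K)) U (y.filter (· ∈ Wd D D)) - z ∈
        Finsupp.supported U K (Wd D D)ᶜ := by
      rw [e]; exact Submodule.neg_mem _ s2
    refine sub_eq_zero.1 (rt_zero_of_disjoint (K := K) (X := Wd D D) (Y := (Wd D D)ᶜ) ?_ t1 t2)
    intro w hw hw'
    exact hw' hw

open Classical in
/-- structure constants of the quotient by the complement of a face -/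
noncomputable def rtc (K : Type) [CommRing K] (D : Set M) : M → M → K :=
  fun _ b => if b ∈ D then 1 else 0

open Classical in
theorem rt_filter_D (S D : Set M) (hS : ∀ a ∈ S, ∀ b ∈ S, a + b ∈ S) (hDS : D ⊆ S)
    (hD : ∀ a ∈ S, ∀ b ∈ S, (a + b ∈ D ↔ a ∈ D ∧ b ∈ D)) (w : List M) (hw : w ∈ Wd D S) :
    (dl0 K (one2 K) (one2 K) w).filter (· ∈ Wd D S) = dl0 K (rtc K D) (one2 K) w := by
  obtain ⟨a, v, rfl, ha, hv⟩ := hw
  rw [dl0_cons, dl0_cons, Finsupp.filter_sub]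
  congr 1
  · cases v with
    | nil =>
      simp only [mu]
      exact Finsupp.filter_zero _
    | cons b v =>
      have hb : b ∈ S := hv b (by simp)
      simp only [mu, one2, rtc]
      by_cases h : b ∈ D
      · rw [if_pos h]
        refine Finsupp.filter_single_of_pos _ ?_
        exact ⟨a + b, v, rfl, (hD a (hDS ha) b hb).2 ⟨ha, h⟩,
          fun x hx => hv x (List.mem_cons_of_mem _ hx)⟩
      · rw [if_neg h, Finsupp.single_zero]
        refine Finsupp.filter_single_of_neg _ ?_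
        rintro ⟨a', v', h1, h2, h3⟩
        have h4 : a + b = a' := (List.cons.inj h1).1
        rw [← h4] at h2
        exact h ((hD a (hDS ha) b hb).1 h2).2
  · refine rt_filter_self (K := K) _ ?_
    intro w' hw'
    obtain ⟨v', hv', rfl⟩ := Finset.mem_image.1 (Finsupp.mapDomain_support (Finset.mem_coe.1 hw'))
    exact ⟨a, v', rfl, ha, (dl_support (one2 K) S (fun a ha b hb _ => hS a ha b hb) v hv v' hv').1⟩

open Classical in
theorem rt_filter_J (deg : M →+ ℕ) (S D : Set M) (hS : ∀ a ∈ S, ∀ b ∈ S, a + b ∈ S)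
    (hdeg : ∀ a ∈ S, 1 ≤ deg a)
    (hD : ∀ a ∈ S, ∀ b ∈ S, (a + b ∈ D ↔ a ∈ D ∧ b ∈ D)) (w : List M) (hw : w ∈ Wd (S \ D) S) :
    (dl0 K (one2 K) (one2 K) w).filter (· ∈ Wd D S) = 0 := by
  have hB : IsBC K (Wd (S \ D) S) (dl0 K (one2 K) (one2 K)) List.length (wdeg deg) :=
    isBC_words deg (one2 K) (one2 K) (S \ D) S
      (fun a ha b hb _ => ⟨hS a ha.1 b hb, fun h => ha.2 ((hD a ha.1 b hb).1 h).1⟩)
      (fun a ha b hb _ => hS a ha b hb) (fun a ha => hdeg a ha.1) hdeg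
      (fun _ _ _ _ _ _ => by simp [one2]) (fun _ _ _ _ _ _ => by simp [one2])
  refine rt_filter_zero (K := K) (Wd (S \ D) S) _ ?_ fun w' hw' => (hB.maps w hw w' hw').1
  rintro w' ⟨a, v, rfl, ha, _⟩ ⟨a', v', h1, ha', _⟩
  have h4 : a = a' := (List.cons.inj h1).1
  rw [← h4] at ha'
  exact ha.2 ha'

open Classical in
/-- the part of the boundary with first letter in the face -/
theorem rt_filter_dl (deg : M →+ ℕ) (S D : Set M) (hS : ∀ a ∈ S, ∀ b ∈ S, a + b ∈ S)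
    (hdeg : ∀ a ∈ S, 1 ≤ deg a) (hDS : D ⊆ S)
    (hD : ∀ a ∈ S, ∀ b ∈ S, (a + b ∈ D ↔ a ∈ D ∧ b ∈ D))
    (U : Type) [AddCommGroup U] [Module K U] (y : List M →₀ U)
    (hy : y ∈ Finsupp.supported U K (Wd S S)) :
    (ext K (dl0 K (one2 K) (one2 K)) U y).filter (· ∈ Wd D S) =
      ext K (dl0 K (rtc K D) (one2 K)) U (y.filter (· ∈ Wd D S)) := by
  have h1 := rt_filter_mem (K := K) _ (Wd D S) hy
  have h2 := rt_filter_mem' (K := K) _ (Wd D S) hy
  have e : y = y.filter (· ∈ Wd D S) + (y - y.filter (· ∈ Wd D S)) := by abel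
  have e2 : ext K (dl0 K (one2 K) (one2 K)) U y =
      ext K (dl0 K (one2 K) (one2 K)) U (y.filter (· ∈ Wd D S)) +
        ext K (dl0 K (one2 K) (one2 K)) U (y - y.filter (· ∈ Wd D S)) := by
    rw [← map_add]
    congr 1
  rw [e2, Finsupp.filter_add, rt_filter_ext, rt_filter_ext]
  have h3 : ext K (fun ω => (dl0 K (one2 K) (one2 K) ω).filter (· ∈ Wd D S)) U
      (y - y.filter (· ∈ Wd D S)) = 0 := by
    rw [ext_congr _ U (φ' := fun _ => 0) (X := Wd S S \ Wd D S) ?_ h2, ext_zero_fun]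
    rintro w ⟨⟨a, v, rfl, ha, hv⟩, hwD⟩
    refine rt_filter_J deg S D hS hdeg hD _ ⟨a, v, rfl, ⟨ha, fun haD => ?_⟩, hv⟩
    exact hwD ⟨a, v, rfl, haD, hv⟩
  rw [h3, add_zero]
  exact ext_congr _ U (X := Wd S S ∩ Wd D S)
    (fun w hw => rt_filter_D S D hS hDS hD w hw.2) h1

/-- The ideal of the elements off a face has a linear resolution. -/
theorem TVX_ideal (deg : M →+ ℕ) (S D : Set M) (hS : ∀ a ∈ S, ∀ b ∈ S, a + b ∈ S)
    (hdeg : ∀ a ∈ S, 1 ≤ deg a) (hDS : D ⊆ S)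
    (hD : ∀ a ∈ S, ∀ b ∈ S, (a + b ∈ D ↔ a ∈ D ∧ b ∈ D)) (hT : TV K deg S) (j : ℕ) :
    TVX K deg (one2 K) (one2 K) (S \ D) S j := by
  classical
  induction j using Nat.strong_induction_on with
  | _ j ih =>
  have hDD : ∀ a ∈ D, ∀ b ∈ D, a + b ∈ D := fun a ha b hb =>
    (hD a (hDS ha) b (hDS hb)).2 ⟨ha, hb⟩
  have hun : D ∪ (S \ D) = S := Set.union_sdiff_cancel hDS
  have hface : TV K deg D := TV_face deg S D hS hdeg hDS hD hT
  -- the complex of words with first letter in the face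
  have hα : TVX K deg (rtc K D) (one2 K) D S j := by
    have h1 := TVX_twoLevel (K := K) deg (rtc K D) (one2 K) D D (S \ D) Set.disjoint_sdiff_right
      (fun a _ b hb => by simp [rtc, hb.2])
      (fun a ha b hb _ => hDD a ha b hb) (fun a ha b hb _ => hDD a ha b hb)
      (fun a ha b hb _ => ⟨hS a (hDS ha) b hb.1, fun h => hb.2 ((hD a (hDS ha) b hb.1).1 h).2⟩)
      (fun a ha b hb _ => by
        rw [hun] at hb
        exact ⟨hS a ha.1 b hb, fun h => ha.2 ((hD a ha.1 b hb).1 h).1⟩)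
      (fun a ha => hdeg a (hDS ha)) (fun a ha => by rw [hun] at ha; exact hdeg a ha)
      (fun a ha b hb e he => by
        rw [hun] at hb he
        have h2 := hD b hb e he
        simp only [rtc, one2]
        by_cases hb' : b ∈ D <;> by_cases he' : e ∈ D <;> simp [h2, hb', he'])
      (fun _ _ _ _ _ _ => by simp [one2]) j
      (fun j' _ => by
        refine (TVX_congr deg (rtc K D) (one2 K) (one2 K) (one2 K) D D ?_ (fun _ _ _ _ => rfl)
          j').2 (hface j')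
        intro a _ b hb
        simp [rtc, one2, hb])
      (fun j' hj' => by rw [hun]; exact ih j' hj')
    rwa [hun] at h1
  intro U _ _ k hk z hz hdz
  have hBS := rt_isBC (K := K) deg S hS hdeg
  have hsubJ : Wd (S \ D) S ⊆ Wd S S := rt_Wd_mono Set.sdiff_subset subset_rfl
  have hsubD : Wd D S ⊆ Wd S S := rt_Wd_mono hDS subset_rfl
  have hJD : ∀ w ∈ Wd (S \ D) S, w ∉ Wd D S := by
    rintro w ⟨a, v, rfl, ha, _⟩ ⟨a', v', h1, ha', _⟩
    have h4 : a = a' := (List.cons.inj h1).1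
    rw [← h4] at ha'
    exact ha.2 ha'
  have hdiff : ∀ (i : ℕ) (y' : List M →₀ U),
      y' ∈ Finsupp.supported U K (Hom (Wd S S) List.length (wdeg deg) i j) →
      y'.filter (· ∈ Wd D S) = 0 →
      y' ∈ Finsupp.supported U K (Hom (Wd (S \ D) S) List.length (wdeg deg) i j) := by
    intro i y' h1 h2 w hw
    have h3 := h1 hw
    obtain ⟨⟨a, v, rfl, ha, hv⟩, h4, h5⟩ := h3
    refine ⟨⟨a, v, rfl, ⟨ha, fun haD => ?_⟩, hv⟩, h4, h5⟩
    rw [Finsupp.filter_eq_zero_iff] at h2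
    exact (Finsupp.mem_support_iff.1 (Finset.mem_coe.1 hw)) (h2 _ ⟨a, v, rfl, haD, hv⟩)
  obtain ⟨y, hy, hyz⟩ := hT j U k hk z (Finsupp.supported_mono (rt_Hom_mono hsubJ _ k j) hz) hdz
  have hyS : y ∈ Finsupp.supported U K (Wd S S) := Finsupp.supported_mono (fun w hw => hw.1) hy
  set yD := y.filter (· ∈ Wd D S) with hyD
  have hyDs : yD ∈ Finsupp.supported U K (Hom (Wd D S) List.length (wdeg deg) (k + 1) j) := by
    have h1 := rt_filter_mem (K := K) _ (Wd D S) hy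
    exact fun w hw => ⟨(h1 hw).2, (h1 hw).1.2.1, (h1 hw).1.2.2⟩
  have hyDc : ext K (dl0 K (rtc K D) (one2 K)) U yD = 0 := by
    rw [hyD, ← rt_filter_dl deg S D hS hdeg hDS hD U y hyS, hyz]
    exact rt_filter_zero (K := K) (Wd (S \ D) S) _ hJD
      (Finsupp.supported_mono (fun w hw => hw.1) hz)
  by_cases hkj : k + 1 = j
  · subst hkj
    obtain ⟨Y, hY, hdY, hYe⟩ := diag_lift (K := K) deg S D hS hdeg hDS hD U (k + 1) yD hyDs hyDc
    have hself : dl K (one2 K : M → M → K) = dl0 K (one2 K) (one2 K) := by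
      funext w
      exact (dl0_self K (one2 K) w).symm
    rw [hself] at hdY
    refine ⟨y - Y, hdiff (k + 1) _ (Submodule.sub_mem _ hy hY) ?_, ?_⟩
    · rw [Finsupp.filter_eq_zero_iff]
      intro w hw
      rw [Finsupp.sub_apply, hYe w hw, hyD, Finsupp.filter_apply, if_pos hw, sub_self]
    · rw [map_sub, hyz, hdY, sub_zero]
  · obtain ⟨v, hv, hvy⟩ := hα U (k + 1) hkj yD hyDs hyDc
    have hvS : v ∈ Finsupp.supported U K (Hom (Wd S S) List.length (wdeg deg) (k + 1 + 1) j) :=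
      Finsupp.supported_mono (rt_Hom_mono hsubD _ _ j) hv
    have hvS' : v ∈ Finsupp.supported U K (Wd S S) :=
      Finsupp.supported_mono (fun w hw => hw.1) hvS
    refine ⟨y - ext K (dl0 K (one2 K) (one2 K)) U v,
      hdiff (k + 1) _ (Submodule.sub_mem _ hy (hBS.ext_mem U hvS)) ?_, ?_⟩
    · rw [Finsupp.filter_sub, rt_filter_dl deg S D hS hdeg hDS hD U v hvS',
        rt_filter_self (K := K) (Wd D S) (Finsupp.supported_mono (fun w hw => hw.1) hv), hvy]
      exact sub_self _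
    · rw [map_sub, hyz, hBS.ext_ext_eq_zero U hvS', sub_zero]

end MP7ea278
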