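import Pool.Agent.Lib.MP_7ea278_ag.SmallRankA
import Pool.Agent.Lib.MP_7ea278_ag.Transport

namespace MP7ea278

private theorem sr_height {n : ℕ} {G : Set (Fin n → ℤ)} {x : Amb n}
    (hx : x ∈ AddSubmonoid.closure ((fun g => ((1 : ℕ), g)) '' G)) : x = 0 ∨ 1 ≤ x.1 := by
  induction hx using AddSubmonoid.closure_induction with
  | mem x hx =>
    obtain ⟨g, _, rfl⟩ := hx
    exact Or.inr le_rfl
  | zero => exact Or.inl rfl
  | add x y _ _ hx hy =>
    rcases hx with rfl | hx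
    · rw [zero_add]
      exact hy
    · right
      change 1 ≤ x.1 + y.1
      omega

private theorem sr_Sg_add {n : ℕ} {G : Set (Fin n → ℤ)} :
    ∀ a ∈ Sg G, ∀ b ∈ Sg G, a + b ∈ Sg G := by
  rintro a ⟨ha, ha0⟩ b ⟨hb, _⟩
  refine ⟨AddSubmonoid.add_mem _ ha hb, fun h => ?_⟩
  have h1 := (sr_height ha).resolve_left ha0
  have h2 : a.1 + b.1 = 0 := congrArg Prod.fst h
  omega

/-- The duality map. -/
private def sr_f (n : ℕ) : Amb n →+ Amb n where
  toFun x := (x.1, fun i => (x.1 : ℤ) - x.2 i)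
  map_zero' := by
    ext i <;> simp
  map_add' x y := by
    refine Prod.ext rfl ?_
    funext i
    change ((x.1 + y.1 : ℕ) : ℤ) - (x.2 i + y.2 i) = ((x.1 : ℤ) - x.2 i) + ((y.1 : ℤ) - y.2 i)
    push_cast
    ring

private theorem sr_f_f {n : ℕ} (x : Amb n) : sr_f n (sr_f n x) = x := by
  refine Prod.ext rfl ?_
  funext i
  change (x.1 : ℤ) - ((x.1 : ℤ) - x.2 i) = x.2 i
  ring

private theorem sr_f_mem {n : ℕ} {C C' : Set (Fin n → ℤ)} (h : ∀ u ∈ C, (1 - u) ∈ C')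
    {x : Amb n} (hx : x ∈ Sg C) : sr_f n x ∈ Sg C' := by
  obtain ⟨hx, hx0⟩ := hx
  refine ⟨?_, fun h0 => hx0 ?_⟩
  · clear hx0
    induction hx using AddSubmonoid.closure_induction with
    | mem x hx =>
      obtain ⟨g, hg, rfl⟩ := hx
      refine AddSubmonoid.subset_closure ⟨1 - g, h g hg, ?_⟩
      refine Prod.ext rfl ?_
      funext i
      change 1 - g i = ((1 : ℕ) : ℤ) - g i
      norm_num
    | zero =>
      rw [map_zero]
      exact AddSubmonoid.zero_mem _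
    | add x y _ _ hx hy =>
      rw [map_add]
      exact AddSubmonoid.add_mem _ hx hy
  · rw [← sr_f_f x, h0, map_zero]

/-- Duality. -/
theorem TV_dual {K : Type} [CommRing K] {n : ℕ} (C : Set (Fin n → ℤ)) :
    TV K (dg n) (Sg ((fun u => 1 - u) '' C)) ↔ TV K (dg n) (Sg C) := by
  have himg : sr_f n '' Sg C = Sg ((fun u => 1 - u) '' C) := by
    apply Set.Subset.antisymm
    · rintro _ ⟨x, hx, rfl⟩
      exact sr_f_mem (C' := (fun u => 1 - u) '' C)
        (fun u hu => Set.mem_image_of_mem (fun u => 1 - u) hu) hx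
    · intro x hx
      refine ⟨sr_f n x, sr_f_mem ?_ hx, sr_f_f x⟩
      rintro _ ⟨u, hu, rfl⟩
      rw [sub_sub_cancel]
      exact hu
  rw [← himg]
  refine TV_image (dg n) (dg n) (sr_f n) sr_Sg_add ?_ fun x _ => rfl
  intro x _ y _ hxy
  rw [← sr_f_f x, hxy, sr_f_f]

private theorem sr_TV_empty {K : Type} [CommRing K] {n : ℕ} :
    TV K (dg n) (Sg (∅ : Set (Fin n → ℤ))) := by
  have hS : Sg (∅ : Set (Fin n → ℤ)) = ∅ := by
    rw [Set.eq_empty_iff_forall_notMem]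
    rintro x ⟨hx, hx0⟩
    rw [Set.image_empty, AddSubmonoid.closure_empty] at hx
    exact hx0 hx
  rw [hS]
  intro j U _ _ k _ z hz _
  have hH : Hom (Wd (∅ : Set (Amb n)) ∅) List.length (wdeg (dg n)) k j = ∅ := by
    rw [Set.eq_empty_iff_forall_notMem]
    rintro w ⟨⟨a, v, _, ha, _⟩, _⟩
    exact ha
  rw [hH, Finsupp.supported_empty, Submodule.mem_bot] at hz
  exact ⟨0, Submodule.zero_mem _, by rw [hz, map_zero]⟩

/-- Matroids of rank or corank at most two. -/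
theorem TV_small_rank {K : Type} [CommRing K] [Nontrivial K] {n : ℕ} {C : Set (Fin n → ℤ)}
    (hC : SymExch C) (h01 : ∀ u ∈ C, ∀ i, 0 ≤ u i ∧ u i ≤ 1) (d : ℤ)
    (hd2 : d ≤ 2 ∨ (n : ℤ) - 2 ≤ d) (hd : ∀ u ∈ C, ∑ i, u i = d) : TV K (dg n) (Sg C) := by
  have main : ∀ (C : Set (Fin n → ℤ)), SymExch C → (∀ u ∈ C, ∀ i, 0 ≤ u i ∧ u i ≤ 1) →
      ∀ d : ℤ, d ≤ 2 → (∀ u ∈ C, ∑ i, u i = d) → TV K (dg n) (Sg C) := by
    intro C hC h01 d hd2 hd
    rcases C.eq_empty_or_nonempty with he | hne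
    · rw [he]
      exact sr_TV_empty
    · obtain ⟨σ, lo, hi, h⟩ := exists_interval_of_rank_le_two hC hne h01 d hd2 hd
      exact TV_Sg_of_interval n σ lo hi C h
  rcases hd2 with hd2 | hd2
  · exact main C hC h01 d hd2 hd
  · rw [← TV_dual]
    refine main _ ?_ ?_ ((n : ℤ) - d) (by omega) ?_
    · rintro _ ⟨u, hu, rfl⟩ _ ⟨v, hv, rfl⟩ i hi
      have hi' : u i < v i := by
        simp only [Pi.sub_apply, Pi.one_apply] at hi
        omega
      obtain ⟨j, hj, h1, h2⟩ := hC v hv u hu i hi'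
      refine ⟨j, ?_, ⟨_, h2, ?_⟩, ⟨_, h1, ?_⟩⟩
      · simp only [Pi.sub_apply, Pi.one_apply]
        omega
      · simp only
        abel
      · simp only
        abel
    · rintro _ ⟨u, hu, rfl⟩ i
      have := h01 u hu i
      simp only [Pi.sub_apply, Pi.one_apply]
      omega
    · rintro _ ⟨u, hu, rfl⟩
      have := hd u hu
      simp only [Pi.sub_apply, Pi.one_apply, Finset.sum_sub_distrib, this, Finset.sum_const,
        Finset.card_univ, Fintype.card_fin, nsmul_eq_mul, mul_one]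

end MP7ea278
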