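import Pool.Agent.Lib.MP_7ea278_ag.Retract

namespace MP7ea278

open Finsupp

variable {K : Type} [CommRing K] {M : Type} [AddCommMonoid M]

open Classical in
/-- the homotopy: `(e + s) :: v ↦ e :: s :: v`, `e :: v ↦ 0` -/
noncomputable def fxs (K : Type) [CommRing K] (S : Set M) (e : M) : List M → (List M →₀ K)
  | [] => 0
  | x :: v => if h : ∃ s ∈ S, x = e + s then single (e :: h.choose :: v) 1 else 0

theorem fxs_add (S : Set M) (e : M) (hcanc : ∀ s ∈ S, ∀ t ∈ S, e + s = e + t → s = t) (s : M)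
    (hs : s ∈ S) (v : List M) : fxs K S e ((e + s) :: v) = single (e :: s :: v) 1 := by
  classical
  have h : ∃ t ∈ S, e + s = e + t := ⟨s, hs, rfl⟩
  have h1 : h.choose = s := (hcanc s hs _ h.choose_spec.1 h.choose_spec.2).symm
  have h2 : fxs K S e ((e + s) :: v) = single (e :: h.choose :: v) 1 := dif_pos h
  rw [h2, h1]

theorem fxs_e (S : Set M) (e : M) (hne : ∀ s ∈ S, e + s ≠ e) (v : List M) :
    fxs K S e (e :: v) = 0 := by
  apply dif_neg
  rintro ⟨s, hs, h⟩
  exact hne s hs h.symm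

theorem fxs_homotopy (S D : Set M) (hS : ∀ a ∈ S, ∀ b ∈ S, a + b ∈ S)
    (e : M) (hJ : ∀ x ∈ S \ D, x = e ∨ ∃ s ∈ S, x = e + s)
    (hcanc : ∀ s ∈ S, ∀ t ∈ S, e + s = e + t → s = t) (hne : ∀ s ∈ S, e + s ≠ e)
    (w : List M) (hw : w ∈ Wd (S \ D) S) (hwe : w ≠ [e]) :
    ext K (dl K (one2 K)) K (fxs K S e w) + ext K (fxs K S e) K (dl K (one2 K) w)
      = single w (1 : K) := by
  classical
  obtain ⟨x, v, rfl, hx, hv⟩ := hw
  rcases hJ x hx with rfl | ⟨s, hs, rfl⟩
  · rw [fxs_e S x hne, map_zero, zero_add, dl_cons, map_sub, ext_mapDomain]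
    have h1 : (fun w' => fxs K S x (x :: w')) = fun _ => (0 : List M →₀ K) := by
      funext w'
      exact fxs_e S x hne w'
    rw [h1, ext_zero_fun, sub_zero]
    cases v with
    | nil => exact absurd rfl hwe
    | cons b u =>
      show ext K (fxs K S x) K (single ((x + b) :: u) (one2 K x b)) = _
      have h2 : (one2 K x b : K) = 1 := rfl
      rw [h2, ext_single_one, fxs_add S x hcanc b (hv b (by simp))]
  · rw [fxs_add S e hcanc s hs, ext_single_one, dl_cons, dl_cons, dl_cons, map_sub, ext_mapDomain]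
    have h1 : (fun w' => fxs K S e ((e + s) :: w')) =
        fun w' => single ((fun w' => e :: s :: w') w') (1 : K) := by
      funext w'
      exact fxs_add S e hcanc s hs w'
    rw [h1, ext_single_fun]
    have h2 : mu (one2 K) e (s :: v) = single ((e + s) :: v) (1 : K) := rfl
    rw [h2]
    have h3 : (mu (one2 K) s v - (dl K (one2 K) v).mapDomain (List.cons s)).mapDomain
        (List.cons e) = (mu (one2 K) s v).mapDomain (List.cons e) -
          (dl K (one2 K) v).mapDomain (fun w' => e :: s :: w') := by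
      rw [sub_eq_add_neg, Finsupp.mapDomain_add, sub_eq_add_neg]
      congr 1
      have h4 := (Finsupp.mapDomain.addMonoidHom (M := K) (List.cons e)).map_neg
        ((dl K (one2 K) v).mapDomain (List.cons s))
      have h5 : ((dl K (one2 K) v).mapDomain (List.cons s)).mapDomain (List.cons e) =
          (dl K (one2 K) v).mapDomain (fun w' => e :: s :: w') := by
        rw [← Finsupp.mapDomain_comp]
        rfl
      rw [← h5]
      exact h4
    rw [h3]
    have h6 : ext K (fxs K S e) K (mu (one2 K) (e + s) v) =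
        (mu (one2 K) s v).mapDomain (List.cons e) := by
      cases v with
      | nil => simp [mu]
      | cons b u =>
        show ext K (fxs K S e) K (single ((e + s + b) :: u) (1 : K)) =
          (single ((s + b) :: u) (1 : K)).mapDomain (List.cons e)
        rw [ext_single_one, Finsupp.mapDomain_single, add_assoc,
          fxs_add S e hcanc (s + b) (hS s hs b (hv b (by simp)))]
    rw [h6]
    abel

/-- the ideal off the face has a linear resolution -/
theorem TVX_freeIdeal (deg : M →+ ℕ) (S D : Set M) (hS : ∀ a ∈ S, ∀ b ∈ S, a + b ∈ S)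
    (e : M) (he : e ∈ S \ D) (hde : deg e = 1)
    (hJ : ∀ x ∈ S \ D, x = e ∨ ∃ s ∈ S, x = e + s)
    (hcanc : ∀ s ∈ S, ∀ t ∈ S, e + s = e + t → s = t) (hne : ∀ s ∈ S, e + s ≠ e) (j : ℕ) :
    TVX K deg (one2 K) (one2 K) (S \ D) S j := by
  classical
  intro U _ _ k hk z hz hdz
  have hself : dl0 K (one2 K) (one2 K) = dl K (one2 K) (M := M) := by
    funext w
    exact dl0_self K (one2 K) w
  rw [hself] at hdz ⊢
  refine ⟨ext K (fxs K S e) U z, ?_, ?_⟩
  · refine ext_mem_supported _ U (X := Hom (Wd (S \ D) S) List.length (wdeg deg) k j) ?_ hz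
    rintro w ⟨⟨x, v, rfl, hx, hv⟩, h1, h2⟩ w' hw'
    rcases hJ x hx with rfl | ⟨s, hs, rfl⟩
    · rw [fxs_e S x hne] at hw'
      simp at hw'
    · rw [fxs_add S e hcanc s hs] at hw'
      have h3 := Finset.mem_singleton.1 (Finsupp.support_single_subset hw')
      rw [h3]
      refine ⟨⟨e, s :: v, rfl, he, ?_⟩, ?_, ?_⟩
      · intro y hy
        rcases List.mem_cons.1 hy with rfl | hy
        · exact hs
        · exact hv y hy
      · rw [List.length_cons] at h1 ⊢
        rw [List.length_cons]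
        omega
      · rw [← h2]
        unfold wdeg
        simp [add_assoc]
  · have h1 : ext K (dl K (one2 K)) U (ext K (fxs K S e) U z) +
        ext K (fxs K S e) U (ext K (dl K (one2 K)) U z) = z := by
      rw [ext_ext, ext_ext, ← ext_add_fun]
      rw [ext_congr _ U (φ' := fun w => single (id w) (1 : K))
        (X := Hom (Wd (S \ D) S) List.length (wdeg deg) k j) ?_ hz, ext_single_fun,
        Finsupp.mapDomain_id]
      rintro w ⟨hw, h2, h3⟩
      apply fxs_homotopy S D hS e hJ hcanc hne w hw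
      rintro rfl
      apply hk
      rw [← h2, ← h3]
      simp [wdeg, hde]
    rw [hdz, map_zero, add_zero] at h1
    exact h1

omit [AddCommMonoid M] in
theorem Wd_union (S0 S1 S : Set M) : Wd S0 S ∪ Wd S1 S = Wd (S0 ∪ S1) S := by
  ext w
  constructor
  · rintro (⟨a, v, h1, h2, h3⟩ | ⟨a, v, h1, h2, h3⟩)
    · exact ⟨a, v, h1, Or.inl h2, h3⟩
    · exact ⟨a, v, h1, Or.inr h2, h3⟩
  · rintro ⟨a, v, h1, h2 | h2, h3⟩
    · exact Or.inl ⟨a, v, h1, h2, h3⟩
    · exact Or.inr ⟨a, v, h1, h2, h3⟩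

/-- Cone over a face with a new free generator. -/
theorem TV_freeExt (deg : M →+ ℕ) (S D : Set M) (hS : ∀ a ∈ S, ∀ b ∈ S, a + b ∈ S)
    (hdeg : ∀ a ∈ S, 1 ≤ deg a) (hDS : D ⊆ S)
    (hD : ∀ a ∈ S, ∀ b ∈ S, (a + b ∈ D ↔ a ∈ D ∧ b ∈ D))
    (e : M) (he : e ∈ S \ D) (hde : deg e = 1)
    (hJ : ∀ x ∈ S \ D, x = e ∨ ∃ s ∈ S, x = e + s)
    (hcanc : ∀ s ∈ S, ∀ t ∈ S, e + s = e + t → s = t) (hne : ∀ s ∈ S, e + s ≠ e)
    (hT : TV K deg D) : TV K deg S := by
  classical
  intro j
  have hid := TVX_freeIdeal (K := K) deg S D hS e he hde hJ hcanc hne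
  have hDJ : D ∪ (S \ D) = S := Set.union_sdiff_cancel hDS
  set c0 : M → M → K := fun _ b => if b ∈ D then 1 else 0 with hc0
  -- first letter in `D`
  have h2 : TVX K deg c0 (one2 K) D S j := by
    have h3 := TVX_twoLevel (K := K) deg c0 (one2 K) D D (S \ D) Set.disjoint_sdiff_right
      (fun a _ b hb => if_neg hb.2)
      (fun a ha b hb _ => (hD a (hDS ha) b (hDS hb)).2 ⟨ha, hb⟩)
      (fun a ha b hb _ => (hD a (hDS ha) b (hDS hb)).2 ⟨ha, hb⟩)
      (fun a ha b hb _ => ⟨hS a (hDS ha) b hb.1, fun h => hb.2 ((hD a (hDS ha) b hb.1).1 h).2⟩)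
      (fun a ha b hb _ => by
        have hb' : b ∈ S := by rw [← hDJ]; exact hb
        exact ⟨hS a ha.1 b hb', fun h => ha.2 ((hD a ha.1 b hb').1 h).1⟩)
      (fun a ha => hdeg a (hDS ha))
      (fun a ha => hdeg a (by rw [← hDJ]; exact ha))
      (fun a ha b hb f hf => by
        have hb' : b ∈ S := by rw [← hDJ]; exact hb
        have hf' : f ∈ S := by rw [← hDJ]; exact hf
        show (if b ∈ D then (1:K) else 0) * (if f ∈ D then 1 else 0) =
          1 * (if b + f ∈ D then 1 else 0)
        have h4 := hD b hb' f hf'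
        by_cases h5 : b ∈ D
        · by_cases h6 : f ∈ D
          · rw [if_pos h5, if_pos h6, if_pos (h4.2 ⟨h5, h6⟩), one_mul]
          · rw [if_pos h5, if_neg h6, if_neg (fun h => h6 (h4.1 h).2)]
        · rw [if_neg h5, if_neg (fun h => h5 (h4.1 h).1)]
          simp)
      (fun _ _ _ _ _ _ => rfl) j
      (fun j' _ => (TVX_congr deg c0 (one2 K) (one2 K) (one2 K) D D
        (fun a _ b hb => if_pos hb) (fun _ _ _ _ => rfl) j').2 (hT j'))
      (fun j' _ => by rw [hDJ]; exact hid j')
    rw [hDJ] at h3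
    exact h3
  -- union
  have hBC : IsBC K (Wd (S \ D) S ∪ Wd D S) (dl0 K (one2 K) (one2 K)) List.length (wdeg deg) := by
    rw [Wd_union, Set.sdiff_union_of_subset hDS]
    exact isBC_words deg (one2 K) (one2 K) S S (fun a ha b hb _ => hS a ha b hb)
      (fun a ha b hb _ => hS a ha b hb) hdeg hdeg (fun _ _ _ _ _ _ => rfl)
      (fun _ _ _ _ _ _ => rfl)
  have hJadd : ∀ a ∈ S \ D, ∀ b ∈ S, a + b ∈ S \ D := fun a ha b hb =>
    ⟨hS a ha.1 b hb, fun h => ha.2 ((hD a ha.1 b hb).1 h).1⟩
  have hBC1 : IsBC K (Wd (S \ D) S) (dl0 K (one2 K) (one2 K)) List.length (wdeg deg) :=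
    isBC_words deg (one2 K) (one2 K) (S \ D) S (fun a ha b hb _ => hJadd a ha b hb)
      (fun a ha b hb _ => hS a ha b hb) (fun a ha => hdeg a ha.1) hdeg
      (fun _ _ _ _ _ _ => rfl) (fun _ _ _ _ _ _ => rfl)
  have hBC2 : IsBC K (Wd D S) (dl0 K c0 (one2 K)) List.length (wdeg deg) := by
    refine isBC_words deg c0 (one2 K) D S ?_
      (fun a ha b hb _ => hS a ha b hb) (fun a ha => hdeg a (hDS ha)) hdeg ?_
      (fun _ _ _ _ _ _ => rfl)
    · intro a ha b hb hne0
      have hbD : b ∈ D := by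
        by_contra h
        exact hne0 (if_neg h)
      exact (hD a (hDS ha) b hb).2 ⟨ha, hbD⟩
    · intro a _ b hb f hf
      show (if b ∈ D then (1:K) else 0) * (if f ∈ D then 1 else 0) =
        1 * (if b + f ∈ D then 1 else 0)
      have h4 := hD b hb f hf
      by_cases h5 : b ∈ D
      · by_cases h6 : f ∈ D
        · rw [if_pos h5, if_pos h6, if_pos (h4.2 ⟨h5, h6⟩), one_mul]
        · rw [if_pos h5, if_neg h6, if_neg (fun h => h6 (h4.1 h).2)]
      · rw [if_neg h5, if_neg (fun h => h5 (h4.1 h).1)]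
        simp
  have hdisj : Disjoint (Wd (S \ D) S) (Wd D S) := by
    rw [Set.disjoint_left]
    rintro w ⟨a, v, h4, h5, _⟩ ⟨a', v', h6, h7, _⟩
    rw [h4] at h6
    obtain ⟨rfl, _⟩ := List.cons.inj h6
    exact h5.2 h7
  have hfin := ODat_union (K := K) hBC hdisj (fun w hw w' hw' => (hBC1.maps w hw w' hw').1)
    (δ2 := dl0 K c0 (one2 K)) ?_ (fun w hw w' hw' => (hBC2.maps w hw w' hw').1) (hid j) h2
  · rw [Wd_union, Set.sdiff_union_of_subset hDS] at hfin
    exact hfin
  · rintro w ⟨a, v, rfl, ha, hv⟩ w' ⟨a', v', rfl, ha', hv'⟩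
    cases v with
    | nil => rfl
    | cons b u =>
      by_cases hb : b ∈ D
      · have : dl0 K c0 (one2 K) (a :: b :: u) = dl0 K (one2 K) (one2 K) (a :: b :: u) := by
          show single ((a + b) :: u) (if b ∈ D then (1:K) else 0) - _ =
            single ((a + b) :: u) (1:K) - _
          rw [if_pos hb]
        rw [this]
      · have e1 : dl0 K c0 (one2 K) (a :: b :: u) (a' :: v') =
            (single ((a + b) :: u) (if b ∈ D then (1:K) else 0) : List M →₀ K) (a' :: v') -
              (dl K (one2 K) (b :: u)).mapDomain (List.cons a) (a' :: v') := rfl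
        have e2 : dl0 K (one2 K) (one2 K) (a :: b :: u) (a' :: v') =
            (single ((a + b) :: u) (1:K) : List M →₀ K) (a' :: v') -
              (dl K (one2 K) (b :: u)).mapDomain (List.cons a) (a' :: v') := rfl
        have hne' : (a + b) :: u ≠ a' :: v' := by
          intro h
          obtain ⟨h5, _⟩ := List.cons.inj h
          have h6 : a + b ∈ D := by rw [h5]; exact ha'
          exact hb ((hD a (hDS ha) b (hv b (by simp))).1 h6).2
        rw [e1, e2, if_neg hb, Finsupp.single_eq_of_ne hne'.symm,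
          Finsupp.single_eq_of_ne hne'.symm]

/-- In a semigroup with vanishing off-diagonal homology every element of degree at least two
decomposes. -/
theorem TV_decomp [Nontrivial K] (deg : M →+ ℕ) (S : Set M) (hT : TV K deg S) (x : M)
    (hx : x ∈ S) (hd : 2 ≤ deg x) : ∃ a ∈ S, ∃ b ∈ S, a + b = x := by
  classical
  by_contra hcon
  push Not at hcon
  have hz : (single [x] (1 : K) : List M →₀ K) ∈
      Finsupp.supported K K (Hom (Wd S S) List.length (wdeg deg) 1 (deg x)) := by
    intro w hw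
    have h1 := Finset.mem_singleton.1 (Finsupp.support_single_subset hw)
    rw [h1]
    exact ⟨⟨x, [], rfl, hx, by simp⟩, rfl, by simp [wdeg]⟩
  obtain ⟨y, hy, hyz⟩ := hT (deg x) K 1 (by omega) (single [x] 1) hz
    (by rw [ext_single_one]; rfl)
  have h1 : ext K (dl0 K (one2 K) (one2 K)) K y [x] = 0 := by
    rw [ext_apply, Finsupp.sum]
    apply Finset.sum_eq_zero
    intro w hw
    obtain ⟨⟨a, v, rfl, ha, hv⟩, h2, _⟩ := hy hw
    have h3 : v.length = 1 := by
      rw [List.length_cons] at h2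
      omega
    obtain ⟨b, rfl⟩ := List.length_eq_one_iff.mp h3
    have h4 : dl0 K (one2 K) (one2 K) [a, b] = single [a + b] (1:K) := by
      show single [a + b] (1:K) - (dl K (one2 K) [b]).mapDomain (List.cons a) = _
      have : dl K (one2 K) [b] = 0 := rfl
      rw [this, Finsupp.mapDomain_zero, sub_zero]
    have h5 : [a + b] ≠ [x] := by
      intro h
      exact hcon a ha b (hv b (by simp)) (List.cons.inj h).1
    rw [h4, Finsupp.single_eq_of_ne h5.symm, zero_smul]
  rw [hyz, Finsupp.single_eq_same] at h1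
  exact one_ne_zero h1

end MP7ea278
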