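import Pool.Agent.Lib.MP_7ea278_ag.Alcoved

namespace MP7ea278

/-- Sum of the coordinates of `u`, relabelled by `σ`, over the interval from `i` to `j`. -/
def isum {n : ℕ} (σ : Equiv.Perm (Fin n)) (u : Fin n → ℤ) (i j : ℕ) : ℤ :=
  ∑ t ∈ Finset.univ.filter (fun t : Fin n => i ≤ t.val ∧ t.val < j), u (σ t)

private theorem isum_add {n : ℕ} (σ : Equiv.Perm (Fin n)) (u v : Fin n → ℤ) (i j : ℕ) :
    isum σ (u + v) i j = isum σ u i j + isum σ v i j := by
  unfold isum
  rw [← Finset.sum_add_distrib]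
  rfl

private theorem isum_self {n : ℕ} (σ : Equiv.Perm (Fin n)) (u : Fin n → ℤ) (i : ℕ) :
    isum σ u i i = 0 := by
  unfold isum
  refine Finset.sum_eq_zero fun t ht => ?_
  rw [Finset.mem_filter] at ht
  omega

private theorem isum_succ {n : ℕ} (σ : Equiv.Perm (Fin n)) (u : Fin n → ℤ) (i j : ℕ) (hij : i ≤ j)
    (hj : j < n) : isum σ u i (j + 1) = isum σ u i j + u (σ ⟨j, hj⟩) := by
  classical
  unfold isum
  have h1 : Finset.univ.filter (fun t : Fin n => i ≤ t.val ∧ t.val < j + 1) =
      insert ⟨j, hj⟩ (Finset.univ.filter (fun t : Fin n => i ≤ t.val ∧ t.val < j)) := by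
    ext t
    simp only [Finset.mem_filter, Finset.mem_univ, true_and, Finset.mem_insert, Fin.ext_iff]
    omega
  rw [h1, Finset.sum_insert (by simp), add_comm]

private theorem isum_split {n : ℕ} (σ : Equiv.Perm (Fin n)) (u : Fin n → ℤ) (i j : ℕ)
    (hij : i ≤ j) : isum σ u 0 j = isum σ u 0 i + isum σ u i j := by
  classical
  unfold isum
  rw [← Finset.sum_union]
  · refine Finset.sum_congr ?_ fun _ _ => rfl
    ext t
    simp only [Finset.mem_filter, Finset.mem_univ, true_and, Finset.mem_union]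
    omega
  · rw [Finset.disjoint_left]
    intro t h1 h2
    rw [Finset.mem_filter] at h1 h2
    omega

/-- from partial sums to coordinates -/
private def fromSums {n : ℕ} (σ : Equiv.Perm (Fin n)) : Amb n →+ Amb n where
  toFun x := (x.1, fun s => (Fin.cons 0 x.2 : Fin (n + 1) → ℤ) (σ.symm s).succ -
    (Fin.cons 0 x.2 : Fin (n + 1) → ℤ) (σ.symm s).castSucc)
  map_zero' := by
    have h : ∀ i : Fin (n + 1), (Fin.cons 0 (0 : Fin n → ℤ) : Fin (n + 1) → ℤ) i = 0 := by
      intro i
      refine Fin.cases ?_ (fun j => ?_) i <;> simp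
    refine Prod.ext rfl ?_
    funext s
    simp [h]
  map_add' := by
    intro x y
    have h : ∀ i : Fin (n + 1), (Fin.cons 0 (x.2 + y.2) : Fin (n + 1) → ℤ) i =
        (Fin.cons 0 x.2 : Fin (n + 1) → ℤ) i + (Fin.cons 0 y.2 : Fin (n + 1) → ℤ) i := by
      intro i
      refine Fin.cases ?_ (fun j => ?_) i <;> simp
    refine Prod.ext rfl ?_
    funext s
    show (Fin.cons 0 (x.2 + y.2) : Fin (n + 1) → ℤ) _ - (Fin.cons 0 (x.2 + y.2) : Fin (n + 1) → ℤ) _ =
      _ - _ + (_ - _)
    rw [h, h]
    ring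

private theorem isum_fromSums {n : ℕ} (σ : Equiv.Perm (Fin n)) (x : Amb n) (i j : ℕ) (hij : i ≤ j)
    (hj : j ≤ n) : isum σ (fromSums σ x).2 i j =
      (Fin.cons 0 x.2 : Fin (n + 1) → ℤ) ⟨j, by omega⟩ -
        (Fin.cons 0 x.2 : Fin (n + 1) → ℤ) ⟨i, by omega⟩ := by
  induction j, hij using Nat.le_induction with
  | base => rw [isum_self, sub_self]
  | succ j hij ih =>
    rw [isum_succ σ _ i j hij (by omega), ih (by omega)]
    show _ + ((Fin.cons 0 x.2 : Fin (n + 1) → ℤ) (σ.symm (σ ⟨j, by omega⟩)).succ -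
      (Fin.cons 0 x.2 : Fin (n + 1) → ℤ) (σ.symm (σ ⟨j, by omega⟩)).castSucc) = _
    rw [Equiv.symm_apply_apply]
    have h1 : (⟨j, by omega⟩ : Fin n).succ = ⟨j + 1, by omega⟩ := rfl
    have h2 : (⟨j, by omega⟩ : Fin n).castSucc = ⟨j, by omega⟩ := rfl
    rw [h1, h2]
    ring

/-- Cones described by bounds on the sums over intervals of coordinates, after a permutation
of the coordinates. -/
theorem TV_interval {K : Type} [CommRing K] (n : ℕ) (σ : Equiv.Perm (Fin n)) (lo hi : ℕ → ℕ → ℤ) :
    TV K (dg n) {x | 1 ≤ x.1 ∧ ∀ i j : ℕ, i ≤ j → j ≤ n →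
      lo i j * (x.1 : ℤ) ≤ isum σ x.2 i j ∧ isum σ x.2 i j ≤ hi i j * (x.1 : ℤ)} := by
  set c : Fin (n + 1) → Fin (n + 1) → ℤ := fun i j =>
    if i.val < j.val then hi i j else if j.val < i.val then -lo j i else min (hi i i) (-lo i i)
    with hc
  have hT := TV_alcoved (K := K) n c
  set S : Set (Amb n) := {x | 1 ≤ x.1 ∧ ∀ i j : Fin (n + 1),
      (Fin.cons 0 x.2 : Fin (n + 1) → ℤ) j - (Fin.cons 0 x.2 : Fin (n + 1) → ℤ) i
        ≤ c i j * (x.1 : ℤ)} with hSdef
  have hadd : ∀ a ∈ S, ∀ b ∈ S, a + b ∈ S := by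
    rintro a ⟨ha1, ha2⟩ b ⟨hb1, hb2⟩
    refine ⟨?_, ?_⟩
    · show 1 ≤ a.1 + b.1
      omega
    · intro i j
      have h : ∀ i : Fin (n + 1), (Fin.cons 0 (a.2 + b.2) : Fin (n + 1) → ℤ) i =
          (Fin.cons 0 a.2 : Fin (n + 1) → ℤ) i + (Fin.cons 0 b.2 : Fin (n + 1) → ℤ) i := by
        intro i
        refine Fin.cases ?_ (fun j => ?_) i <;> simp
      show (Fin.cons 0 (a.2 + b.2) : Fin (n + 1) → ℤ) j - (Fin.cons 0 (a.2 + b.2) : Fin (n + 1) → ℤ) i
        ≤ c i j * ((a.1 + b.1 : ℕ) : ℤ)
      rw [h, h]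
      push_cast
      have h1 := ha2 i j
      have h2 := hb2 i j
      linarith
  have hinj : Set.InjOn (fromSums σ) S := by
    intro a _ b _ hab
    refine Prod.ext ?_ ?_
    · have h0 : (fromSums σ a).1 = (fromSums σ b).1 := by rw [hab]
      exact h0
    · funext t
      have h1 := isum_fromSums σ a 0 (t.val + 1) (by omega) (by omega)
      have h2 := isum_fromSums σ b 0 (t.val + 1) (by omega) (by omega)
      rw [hab, h2] at h1
      have h3 : (⟨t.val + 1, by omega⟩ : Fin (n + 1)) = t.succ := rfl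
      have h4 : (⟨0, by omega⟩ : Fin (n + 1)) = 0 := rfl
      rw [h3, h4] at h1
      simp only [Fin.cons_succ, Fin.cons_zero, sub_zero] at h1
      exact h1.symm
  have hkey := (TV_image (K := K) (dg n) (dg n) (fromSums σ) hadd hinj (fun x _ => rfl)).mpr hT
  have himg : (fromSums σ) '' S = {x | 1 ≤ x.1 ∧ ∀ i j : ℕ, i ≤ j → j ≤ n →
      lo i j * (x.1 : ℤ) ≤ isum σ x.2 i j ∧ isum σ x.2 i j ≤ hi i j * (x.1 : ℤ)} := by
    ext x
    constructor
    · rintro ⟨y, ⟨hy1, hy2⟩, rfl⟩
      refine ⟨hy1, ?_⟩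
      intro i j hij hj
      rw [isum_fromSums σ y i j hij hj]
      show lo i j * (y.1 : ℤ) ≤ _ ∧ _ ≤ hi i j * (y.1 : ℤ)
      have h1 := hy2 ⟨i, by omega⟩ ⟨j, by omega⟩
      have h2 := hy2 ⟨j, by omega⟩ ⟨i, by omega⟩
      have hy0 : (0 : ℤ) < y.1 := by exact_mod_cast hy1
      simp only [hc] at h1 h2
      rcases Nat.lt_or_ge i j with hlt | hge
      · rw [if_pos hlt] at h1
        rw [if_neg (by omega), if_pos hlt] at h2
        constructor <;> linarith
      · have hij' : i = j := by omega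
        subst hij'
        rw [if_neg (by omega), if_neg (by omega)] at h1
        rw [sub_self] at h1 ⊢
        have h3 : (0 : ℤ) ≤ min (hi i i) (-lo i i) := by
          by_contra hneg
          push Not at hneg
          nlinarith
        have h4 := le_min_iff.mp h3
        constructor
        · nlinarith [h4.2]
        · nlinarith [h4.1]
    · rintro ⟨hx1, hx2⟩
      have hY : ∀ j : Fin (n + 1), (Fin.cons 0 (fun t : Fin n => isum σ x.2 0 (t.val + 1)) :
          Fin (n + 1) → ℤ) j = isum σ x.2 0 j.val := by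
        intro j
        refine Fin.cases ?_ (fun t => ?_) j
        · simp [isum_self]
        · simp
      refine ⟨(x.1, fun t => isum σ x.2 0 (t.val + 1)), ⟨hx1, ?_⟩, ?_⟩
      · intro i j
        show (Fin.cons 0 (fun t : Fin n => isum σ x.2 0 (t.val + 1)) : Fin (n + 1) → ℤ) j -
          (Fin.cons 0 (fun t : Fin n => isum σ x.2 0 (t.val + 1)) : Fin (n + 1) → ℤ) i
            ≤ c i j * (x.1 : ℤ)
        rw [hY, hY]
        simp only [hc]
        have hi' := i.isLt
        have hj' := j.isLt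
        split_ifs with h1 h2
        · have h3 := (hx2 i.val j.val (by omega) (by omega)).2
          rw [isum_split σ x.2 i.val j.val (by omega)]
          linarith
        · have h3 := (hx2 j.val i.val (by omega) (by omega)).1
          rw [isum_split σ x.2 j.val i.val (by omega)]
          linarith
        · have hij : i = j := Fin.ext (by omega)
          subst hij
          have h3 := hx2 i.val i.val (by omega) (by omega)
          rw [isum_self] at h3
          rw [sub_self]
          rcases min_choice (hi i i) (-lo i i) with h4 | h4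
          · rw [h4]; exact h3.2
          · rw [h4]; linarith [h3.1]
      · refine Prod.ext rfl ?_
        funext s
        show (Fin.cons 0 (fun t : Fin n => isum σ x.2 0 (t.val + 1)) : Fin (n + 1) → ℤ)
          (σ.symm s).succ - (Fin.cons 0 (fun t : Fin n => isum σ x.2 0 (t.val + 1)) :
            Fin (n + 1) → ℤ) (σ.symm s).castSucc = x.2 s
        rw [hY, hY]
        have h1 : ((σ.symm s).succ : Fin (n + 1)).val = (σ.symm s).val + 1 := rfl
        have h2 : ((σ.symm s).castSucc : Fin (n + 1)).val = (σ.symm s).val := rfl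
        rw [h1, h2, isum_succ σ x.2 0 _ (Nat.zero_le _) (σ.symm s).isLt]
        have h3 : (⟨(σ.symm s).val, (σ.symm s).isLt⟩ : Fin n) = σ.symm s := rfl
        rw [h3, Equiv.apply_symm_apply]
        ring
  rw [himg] at hkey
  exact hkey

/-- If the points of `C` are all the lattice points satisfying such bounds at height one, the
semigroup generated by `C` has vanishing off-diagonal homology. -/
theorem TV_Sg_of_interval {K : Type} [CommRing K] [Nontrivial K] (n : ℕ) (σ : Equiv.Perm (Fin n))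
    (lo hi : ℕ → ℕ → ℤ) (C : Set (Fin n → ℤ))
    (hC : C = {u | ∀ i j : ℕ, i ≤ j → j ≤ n → lo i j ≤ isum σ u i j ∧ isum σ u i j ≤ hi i j}) :
    TV K (dg n) (Sg C) := by
  have hT := TV_interval (K := K) n σ lo hi
  set R : Set (Amb n) := {x | 1 ≤ x.1 ∧ ∀ i j : ℕ, i ≤ j → j ≤ n →
      lo i j * (x.1 : ℤ) ≤ isum σ x.2 i j ∧ isum σ x.2 i j ≤ hi i j * (x.1 : ℤ)} with hR
  have hadd : ∀ a ∈ R, ∀ b ∈ R, a + b ∈ R := by
    rintro a ⟨ha1, ha2⟩ b ⟨hb1, hb2⟩
    refine ⟨?_, ?_⟩
    · show 1 ≤ a.1 + b.1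
      omega
    · intro i j hij hj
      show lo i j * ((a.1 + b.1 : ℕ) : ℤ) ≤ isum σ (a.2 + b.2) i j ∧
        isum σ (a.2 + b.2) i j ≤ hi i j * ((a.1 + b.1 : ℕ) : ℤ)
      rw [isum_add]
      have h1 := ha2 i j hij hj
      have h2 := hb2 i j hij hj
      push_cast
      constructor <;> linarith [h1.1, h1.2, h2.1, h2.2]
  have hle : Sg C ⊆ R := by
    rintro x ⟨hx, hx0⟩
    have h1 : x = 0 ∨ x ∈ R := by
      induction hx using AddSubmonoid.closure_induction with
      | mem y hy =>
        right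
        obtain ⟨g, hg, rfl⟩ := hy
        rw [hC] at hg
        refine ⟨le_refl _, ?_⟩
        intro i j hij hj
        have := hg i j hij hj
        simpa using this
      | zero => exact Or.inl rfl
      | add a b _ _ iha ihb =>
        by_cases ha : a = 0
        · by_cases hb : b = 0
          · left; rw [ha, hb, add_zero]
          · right
            rw [ha, zero_add]
            exact (ihb hb).resolve_left hb
        · by_cases hb : b = 0
          · right
            rw [hb, add_zero]
            exact (iha ha).resolve_left ha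
          · right
            exact hadd a ((iha ha).resolve_left ha) b ((ihb hb).resolve_left hb)
    exact h1.resolve_left hx0
  have hge : ∀ k : ℕ, ∀ x ∈ R, x.1 ≤ k → x ∈ Sg C := by
    intro k
    induction k with
    | zero =>
      rintro x ⟨hx1, -⟩ hk
      omega
    | succ k ih =>
      intro x hx hk
      have hx1 : 1 ≤ x.1 := hx.1
      have hne : x ≠ 0 := by
        rintro rfl
        simp at hx1
      rcases Nat.lt_or_ge x.1 2 with h1 | h1
      · have h2 : x.1 = 1 := by omega
        refine ⟨?_, hne⟩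
        apply AddSubmonoid.subset_closure
        refine ⟨x.2, ?_, Prod.ext h2.symm rfl⟩
        rw [hC]
        intro i j hij hj
        have h3 := hx.2 i j hij hj
        rw [h2] at h3
        simpa using h3
      · obtain ⟨a, ha, b, hb, hab⟩ := TV_decomp (dg n) R hT x hx h1
        have ha1 : 1 ≤ a.1 := ha.1
        have hb1 : 1 ≤ b.1 := hb.1
        have hs : a.1 + b.1 = x.1 := congrArg Prod.fst hab
        refine ⟨?_, hne⟩
        rw [← hab]
        exact add_mem (ih a ha (by omega)).1 (ih b hb (by omega)).1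
  have hEq : Sg C = R := Set.Subset.antisymm hle fun x hx => hge x.1 x hx le_rfl
  rw [hEq]
  exact hT

end MP7ea278
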