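import Pool.Agent.Lib.MP_7ea278_ag.Interval
import Pool.Agent.Lib.MP_7ea278_ag.Cut

/-!
The cycle matroid of the complete graph on four vertices: its base polytope is cut by five
hyperplanes into six pieces given by interval sums.
-/

namespace MP7ea278

/-- A semigroup of lattice points of a cone with vanishing off-diagonal homology is generated by its
points at height one. -/
theorem TV_Sg_of_cone {K : Type} [CommRing K] [Nontrivial K] {n : ℕ} (R : Set (Amb n))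
    (hT : TV K (dg n) R) (hadd : ∀ a ∈ R, ∀ b ∈ R, a + b ∈ R) (hpos : ∀ a ∈ R, 1 ≤ a.1)
    (C : Set (Fin n → ℤ)) (hC : ∀ u, u ∈ C ↔ ((1 : ℕ), u) ∈ R) : TV K (dg n) (Sg C) := by
  have hle : Sg C ⊆ R := by
    rintro x ⟨hx, hx0⟩
    have h1 : x = 0 ∨ x ∈ R := by
      induction hx using AddSubmonoid.closure_induction with
      | mem y hy =>
        right
        obtain ⟨g, hg, rfl⟩ := hy
        exact (hC g).1 hg
      | zero => exact Or.inl rfl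
      | add a b _ _ iha ihb =>
        by_cases ha : a = 0
        · by_cases hb : b = 0
          · left; rw [ha, hb, add_zero]
          · right
            rw [ha, zero_add]
            exact (ihb hb).resolve_left hb
        · by_cases hb : b = 0
          · right
            rw [hb, add_zero]
            exact (iha ha).resolve_left ha
          · right
            exact hadd a ((iha ha).resolve_left ha) b ((ihb hb).resolve_left hb)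
    exact h1.resolve_left hx0
  have hge : ∀ k : ℕ, ∀ x ∈ R, x.1 ≤ k → x ∈ Sg C := by
    intro k
    induction k with
    | zero =>
      intro x hx hk
      have := hpos x hx
      omega
    | succ k ih =>
      intro x hx hk
      have hx1 : 1 ≤ x.1 := hpos x hx
      have hne : x ≠ 0 := by
        rintro rfl
        simp at hx1
      rcases Nat.lt_or_ge x.1 2 with h1 | h1
      · have h2 : x.1 = 1 := by omega
        refine ⟨?_, hne⟩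
        have h3 : x = ((1 : ℕ), x.2) := Prod.ext h2 rfl
        apply AddSubmonoid.subset_closure
        refine ⟨x.2, ?_, Prod.ext h2.symm rfl⟩
        rw [hC, ← h3]
        exact hx
      · obtain ⟨a, ha, b, hb, hab⟩ := TV_decomp (dg n) R hT x hx h1
        have ha1 : 1 ≤ a.1 := hpos a ha
        have hb1 : 1 ≤ b.1 := hpos b hb
        have hs : a.1 + b.1 = x.1 := congrArg Prod.fst hab
        refine ⟨?_, hne⟩
        rw [← hab]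
        exact add_mem (ih a ha (by omega)).1 (ih b hb (by omega)).1
  have hEq : Sg C = R := Set.Subset.antisymm hle fun x hx => hge x.1 x hx le_rfl
  rw [hEq]
  exact hT

/-- The functional with value `k` times the height minus the sum of the coordinates with
coefficients `c`. -/
def cutH (k c0 c1 c2 c3 c4 c5 : ℤ) : Amb 6 →+ ℤ where
  toFun x := k * (x.1 : ℤ) - (c0 * x.2 0 + c1 * x.2 1 + c2 * x.2 2 + c3 * x.2 3 + c4 * x.2 4 +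
    c5 * x.2 5)
  map_zero' := by
    change k * ((0 : ℕ) : ℤ) - (c0 * 0 + c1 * 0 + c2 * 0 + c3 * 0 + c4 * 0 + c5 * 0) = 0
    simp
  map_add' x y := by
    change k * ((x.1 + y.1 : ℕ) : ℤ) - (c0 * (x.2 0 + y.2 0) + c1 * (x.2 1 + y.2 1) +
      c2 * (x.2 2 + y.2 2) + c3 * (x.2 3 + y.2 3) + c4 * (x.2 4 + y.2 4) +
      c5 * (x.2 5 + y.2 5)) = _
    push_cast
    ring

/-- A permutation from a table and the table of its inverse. -/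
def mkP (f g : Fin 6 → Fin 6) (h1 : ∀ x, g (f x) = x) (h2 : ∀ x, f (g x) = x) :
    Equiv.Perm (Fin 6) := ⟨f, g, h1, h2⟩

theorem isum_six (σ : Equiv.Perm (Fin 6)) (u : Fin 6 → ℤ) (i j : ℕ) : isum σ u i j =
    (if i ≤ 0 ∧ 0 < j then u (σ 0) else 0) + (if i ≤ 1 ∧ 1 < j then u (σ 1) else 0) +
    (if i ≤ 2 ∧ 2 < j then u (σ 2) else 0) + (if i ≤ 3 ∧ 3 < j then u (σ 3) else 0) +
    (if i ≤ 4 ∧ 4 < j then u (σ 4) else 0) + (if i ≤ 5 ∧ 5 < j then u (σ 5) else 0) := by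
  unfold isum
  rw [Finset.sum_filter, Fin.sum_univ_six]
  rfl

/-- Table of numbers. -/
def tb (l : List (List ℤ)) (i j : ℕ) : ℤ := (l.getD i []).getD j 0

/-- The bounds of all interval sums of six numbers. -/
def B6 (lo hi : ℕ → ℕ → ℤ) (h a b c d e f : ℤ) : Prop :=
  (lo 0 1 * h ≤ a ∧ a ≤ hi 0 1 * h) ∧
  (lo 0 2 * h ≤ a + b ∧ a + b ≤ hi 0 2 * h) ∧
  (lo 0 3 * h ≤ a + b + c ∧ a + b + c ≤ hi 0 3 * h) ∧
  (lo 0 4 * h ≤ a + b + c + d ∧ a + b + c + d ≤ hi 0 4 * h) ∧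
  (lo 0 5 * h ≤ a + b + c + d + e ∧ a + b + c + d + e ≤ hi 0 5 * h) ∧
  (lo 0 6 * h ≤ a + b + c + d + e + f ∧ a + b + c + d + e + f ≤ hi 0 6 * h) ∧
  (lo 1 2 * h ≤ b ∧ b ≤ hi 1 2 * h) ∧
  (lo 1 3 * h ≤ b + c ∧ b + c ≤ hi 1 3 * h) ∧
  (lo 1 4 * h ≤ b + c + d ∧ b + c + d ≤ hi 1 4 * h) ∧
  (lo 1 5 * h ≤ b + c + d + e ∧ b + c + d + e ≤ hi 1 5 * h) ∧
  (lo 1 6 * h ≤ b + c + d + e + f ∧ b + c + d + e + f ≤ hi 1 6 * h) ∧
  (lo 2 3 * h ≤ c ∧ c ≤ hi 2 3 * h) ∧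
  (lo 2 4 * h ≤ c + d ∧ c + d ≤ hi 2 4 * h) ∧
  (lo 2 5 * h ≤ c + d + e ∧ c + d + e ≤ hi 2 5 * h) ∧
  (lo 2 6 * h ≤ c + d + e + f ∧ c + d + e + f ≤ hi 2 6 * h) ∧
  (lo 3 4 * h ≤ d ∧ d ≤ hi 3 4 * h) ∧
  (lo 3 5 * h ≤ d + e ∧ d + e ≤ hi 3 5 * h) ∧
  (lo 3 6 * h ≤ d + e + f ∧ d + e + f ≤ hi 3 6 * h) ∧
  (lo 4 5 * h ≤ e ∧ e ≤ hi 4 5 * h) ∧
  (lo 4 6 * h ≤ e + f ∧ e + f ≤ hi 4 6 * h) ∧
  (lo 5 6 * h ≤ f ∧ f ≤ hi 5 6 * h)

theorem int6_iff (σ : Equiv.Perm (Fin 6)) (lo hi : ℕ → ℕ → ℤ) (h0 : ∀ i, i ≤ 6 → lo i i = 0)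
    (h1 : ∀ i, i ≤ 6 → hi i i = 0) (h : ℤ) (u : Fin 6 → ℤ) :
    (∀ i j : ℕ, i ≤ j → j ≤ 6 → lo i j * h ≤ isum σ u i j ∧ isum σ u i j ≤ hi i j * h) ↔
    B6 lo hi h (u (σ 0)) (u (σ 1)) (u (σ 2)) (u (σ 3)) (u (σ 4)) (u (σ 5)) := by
  constructor
  · intro H
    unfold B6
    refine ⟨?_, ?_, ?_, ?_, ?_, ?_, ?_, ?_, ?_, ?_, ?_, ?_, ?_, ?_, ?_, ?_, ?_, ?_, ?_, ?_, ?_⟩
    · have h2 := H 0 1 (by norm_num) (by norm_num)
      simpa [isum_six] using h2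
    · have h2 := H 0 2 (by norm_num) (by norm_num)
      simpa [isum_six] using h2
    · have h2 := H 0 3 (by norm_num) (by norm_num)
      simpa [isum_six] using h2
    · have h2 := H 0 4 (by norm_num) (by norm_num)
      simpa [isum_six] using h2
    · have h2 := H 0 5 (by norm_num) (by norm_num)
      simpa [isum_six] using h2
    · have h2 := H 0 6 (by norm_num) (by norm_num)
      simpa [isum_six] using h2
    · have h2 := H 1 2 (by norm_num) (by norm_num)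
      simpa [isum_six] using h2
    · have h2 := H 1 3 (by norm_num) (by norm_num)
      simpa [isum_six] using h2
    · have h2 := H 1 4 (by norm_num) (by norm_num)
      simpa [isum_six] using h2
    · have h2 := H 1 5 (by norm_num) (by norm_num)
      simpa [isum_six] using h2
    · have h2 := H 1 6 (by norm_num) (by norm_num)
      simpa [isum_six] using h2
    · have h2 := H 2 3 (by norm_num) (by norm_num)
      simpa [isum_six] using h2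
    · have h2 := H 2 4 (by norm_num) (by norm_num)
      simpa [isum_six] using h2
    · have h2 := H 2 5 (by norm_num) (by norm_num)
      simpa [isum_six] using h2
    · have h2 := H 2 6 (by norm_num) (by norm_num)
      simpa [isum_six] using h2
    · have h2 := H 3 4 (by norm_num) (by norm_num)
      simpa [isum_six] using h2
    · have h2 := H 3 5 (by norm_num) (by norm_num)
      simpa [isum_six] using h2
    · have h2 := H 3 6 (by norm_num) (by norm_num)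
      simpa [isum_six] using h2
    · have h2 := H 4 5 (by norm_num) (by norm_num)
      simpa [isum_six] using h2
    · have h2 := H 4 6 (by norm_num) (by norm_num)
      simpa [isum_six] using h2
    · have h2 := H 5 6 (by norm_num) (by norm_num)
      simpa [isum_six] using h2
  · intro H i j hij hj
    obtain ⟨g01, g02, g03, g04, g05, g06, g12, g13, g14, g15, g16, g23, g24, g25, g26, g34, g35, g36, g45, g46, g56⟩ := H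
    rcases Nat.eq_or_lt_of_le hij with rfl | hlt
    · rw [h0 i hj, h1 i hj, isum_six]
      have e : ∀ k : ℕ, ¬ (i ≤ k ∧ k < i) := by
        intro k
        omega
      rw [if_neg (e 0), if_neg (e 1), if_neg (e 2), if_neg (e 3), if_neg (e 4), if_neg (e 5)]
      simp
    · have hi : i ≤ 5 := by omega
      rw [isum_six]
      interval_cases i <;> interval_cases j <;> omega

/-- A piece given by interval sums. -/
theorem TV_leaf {K : Type} [CommRing K] (σ : Equiv.Perm (Fin 6)) (lo hi : ℕ → ℕ → ℤ)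
    (h0 : ∀ i, i ≤ 6 → lo i i = 0) (h1 : ∀ i, i ≤ 6 → hi i i = 0) (S : Set (Amb 6))
    (hS : ∀ x : Amb 6, x ∈ S ↔ 1 ≤ x.1 ∧
      B6 lo hi (x.1 : ℤ) (x.2 (σ 0)) (x.2 (σ 1)) (x.2 (σ 2)) (x.2 (σ 3)) (x.2 (σ 4)) (x.2 (σ 5))) :
    TV K (dg 6) S := by
  have hT := TV_interval (K := K) 6 σ lo hi
  have he : {x : Amb 6 | 1 ≤ x.1 ∧ ∀ i j : ℕ, i ≤ j → j ≤ 6 →
      lo i j * (x.1 : ℤ) ≤ isum σ x.2 i j ∧ isum σ x.2 i j ≤ hi i j * (x.1 : ℤ)} = S := by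
    ext x
    rw [hS, ← int6_iff σ lo hi h0 h1]
    rfl
  rw [he] at hT
  exact hT

/-- The cone over the base polytope of the cycle matroid of the complete graph on four vertices. -/
def k4R : Set (Amb 6) := {x | 1 ≤ x.1 ∧
  (0 ≤ x.2 0 ∧ x.2 0 ≤ (x.1 : ℤ)) ∧ (0 ≤ x.2 1 ∧ x.2 1 ≤ (x.1 : ℤ)) ∧
  (0 ≤ x.2 2 ∧ x.2 2 ≤ (x.1 : ℤ)) ∧ (0 ≤ x.2 3 ∧ x.2 3 ≤ (x.1 : ℤ)) ∧
  (0 ≤ x.2 4 ∧ x.2 4 ≤ (x.1 : ℤ)) ∧ (0 ≤ x.2 5 ∧ x.2 5 ≤ (x.1 : ℤ)) ∧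
  x.2 0 + x.2 1 + x.2 2 + x.2 3 + x.2 4 + x.2 5 = 3 * (x.1 : ℤ) ∧
  x.2 0 + x.2 1 + x.2 5 ≤ 2 * (x.1 : ℤ) ∧ x.2 0 + x.2 2 + x.2 4 ≤ 2 * (x.1 : ℤ) ∧
  x.2 1 + x.2 2 + x.2 3 ≤ 2 * (x.1 : ℤ) ∧ x.2 3 + x.2 4 + x.2 5 ≤ 2 * (x.1 : ℤ)}

theorem k4R_add : ∀ a ∈ k4R, ∀ b ∈ k4R, a + b ∈ k4R := by
  rintro a ha b hb
  unfold k4R at ha hb ⊢
  rw [Set.mem_ofPred_eq] at ha hb ⊢
  have e1 : (a + b).1 = a.1 + b.1 := rfl
  have e2 : ∀ i, (a + b).2 i = a.2 i + b.2 i := fun _ => rfl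
  simp only [e1, e2]
  push_cast
  omega

/-- Order of leaf 0. -/
def ks0 : Equiv.Perm (Fin 6) := mkP ![0, 1, 3, 5, 4, 2] ![0, 1, 5, 2, 4, 3] (by decide) (by decide)

/-- Lower bounds of leaf 0. -/
def kl0 : ℕ → ℕ → ℤ := tb [[0, 0, 0, 0, 1, 2, 3], [0, 0, 0, 0, 1, 1, 2], [0, 0, 0, 0, 0, 1, 2], [0, 0, 0, 0, 0, 0, 1], [0, 0, 0, 0, 0, 0, 0], [0, 0, 0, 0, 0, 0, 0], [0, 0, 0, 0, 0, 0, 0]]

/-- Upper bounds of leaf 0. -/
def kh0 : ℕ → ℕ → ℤ := tb [[0, 1, 1, 2, 3, 3, 3], [0, 0, 1, 1, 2, 3, 3], [0, 0, 0, 1, 2, 2, 3], [0, 0, 0, 0, 1, 2, 3], [0, 0, 0, 0, 0, 1, 2], [0, 0, 0, 0, 0, 0, 1], [0, 0, 0, 0, 0, 0, 0]]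

/-- Order of leaf 1. -/
def ks1 : Equiv.Perm (Fin 6) := mkP ![0, 1, 3, 4, 5, 2] ![0, 1, 5, 2, 3, 4] (by decide) (by decide)

/-- Lower bounds of leaf 1. -/
def kl1 : ℕ → ℕ → ℤ := tb [[0, 0, 0, 1, 1, 2, 3], [0, 0, 0, 1, 1, 2, 2], [0, 0, 0, 0, 0, 1, 2], [0, 0, 0, 0, 0, 1, 1], [0, 0, 0, 0, 0, 0, 0], [0, 0, 0, 0, 0, 0, 0], [0, 0, 0, 0, 0, 0, 0]]

/-- Upper bounds of leaf 1. -/
def kh1 : ℕ → ℕ → ℤ := tb [[0, 1, 1, 2, 3, 3, 3], [0, 0, 1, 2, 3, 3, 3], [0, 0, 0, 1, 2, 2, 3], [0, 0, 0, 0, 1, 2, 2], [0, 0, 0, 0, 0, 1, 2], [0, 0, 0, 0, 0, 0, 1], [0, 0, 0, 0, 0, 0, 0]]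

/-- Order of leaf 2. -/
def ks2 : Equiv.Perm (Fin 6) := mkP ![0, 1, 3, 2, 4, 5] ![0, 1, 3, 2, 4, 5] (by decide) (by decide)

/-- Lower bounds of leaf 2. -/
def kl2 : ℕ → ℕ → ℤ := tb [[0, 0, 0, 1, 2, 2, 3], [0, 0, 0, 1, 1, 1, 2], [0, 0, 0, 0, 1, 1, 2], [0, 0, 0, 0, 0, 0, 1], [0, 0, 0, 0, 0, 0, 0], [0, 0, 0, 0, 0, 0, 0], [0, 0, 0, 0, 0, 0, 0]]

/-- Upper bounds of leaf 2. -/
def kh2 : ℕ → ℕ → ℤ := tb [[0, 1, 1, 2, 3, 3, 3], [0, 0, 1, 2, 2, 3, 3], [0, 0, 0, 1, 2, 3, 3], [0, 0, 0, 0, 1, 2, 2], [0, 0, 0, 0, 0, 1, 1], [0, 0, 0, 0, 0, 0, 1], [0, 0, 0, 0, 0, 0, 0]]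

/-- Order of leaf 3. -/
def ks3 : Equiv.Perm (Fin 6) := mkP ![0, 1, 3, 2, 4, 5] ![0, 1, 3, 2, 4, 5] (by decide) (by decide)

/-- Lower bounds of leaf 3. -/
def kl3 : ℕ → ℕ → ℤ := tb [[0, 0, 1, 1, 1, 2, 3], [0, 0, 0, 0, 0, 1, 2], [0, 0, 0, 0, 0, 1, 1], [0, 0, 0, 0, 0, 0, 1], [0, 0, 0, 0, 0, 0, 0], [0, 0, 0, 0, 0, 0, 0], [0, 0, 0, 0, 0, 0, 0]]

/-- Upper bounds of leaf 3. -/
def kh3 : ℕ → ℕ → ℤ := tb [[0, 1, 2, 2, 3, 3, 3], [0, 0, 1, 1, 2, 2, 3], [0, 0, 0, 1, 2, 2, 2], [0, 0, 0, 0, 1, 1, 2], [0, 0, 0, 0, 0, 1, 2], [0, 0, 0, 0, 0, 0, 1], [0, 0, 0, 0, 0, 0, 0]]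

/-- Order of leaf 4. -/
def ks4 : Equiv.Perm (Fin 6) := mkP ![0, 1, 3, 5, 2, 4] ![0, 1, 4, 2, 5, 3] (by decide) (by decide)

/-- Lower bounds of leaf 4. -/
def kl4 : ℕ → ℕ → ℤ := tb [[0, 0, 1, 1, 1, 2, 3], [0, 0, 0, 0, 1, 1, 2], [0, 0, 0, 0, 0, 0, 1], [0, 0, 0, 0, 0, 0, 1], [0, 0, 0, 0, 0, 0, 1], [0, 0, 0, 0, 0, 0, 0], [0, 0, 0, 0, 0, 0, 0]]

/-- Upper bounds of leaf 4. -/
def kh4 : ℕ → ℕ → ℤ := tb [[0, 1, 2, 2, 2, 3, 3], [0, 0, 1, 1, 2, 3, 3], [0, 0, 0, 1, 1, 2, 2], [0, 0, 0, 0, 1, 2, 2], [0, 0, 0, 0, 0, 1, 2], [0, 0, 0, 0, 0, 0, 1], [0, 0, 0, 0, 0, 0, 0]]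

/-- Order of leaf 5. -/
def ks5 : Equiv.Perm (Fin 6) := mkP ![0, 1, 3, 2, 4, 5] ![0, 1, 3, 2, 4, 5] (by decide) (by decide)

/-- Lower bounds of leaf 5. -/
def kl5 : ℕ → ℕ → ℤ := tb [[0, 0, 1, 1, 1, 2, 3], [0, 0, 0, 1, 1, 1, 2], [0, 0, 0, 0, 0, 1, 1], [0, 0, 0, 0, 0, 0, 0], [0, 0, 0, 0, 0, 0, 0], [0, 0, 0, 0, 0, 0, 0], [0, 0, 0, 0, 0, 0, 0]]

/-- Upper bounds of leaf 5. -/
def kh5 : ℕ → ℕ → ℤ := tb [[0, 1, 2, 3, 3, 3, 3], [0, 0, 1, 2, 2, 3, 3], [0, 0, 0, 1, 2, 2, 2], [0, 0, 0, 0, 1, 2, 2], [0, 0, 0, 0, 0, 1, 2], [0, 0, 0, 0, 0, 0, 1], [0, 0, 0, 0, 0, 0, 0]]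

theorem leaf0 (K : Type) [CommRing K] : TV K (dg 6) {a : Amb 6 | a ∈ {a : Amb 6 | a ∈ k4R ∧ 0 ≤ cutH 1 1 1 0 0 0 0 a} ∧ 0 ≤ cutH 1 0 1 0 1 0 0 a} := by
  refine TV_leaf ks0 kl0 kh0 (by decide) (by decide) _ fun x => ?_
  simp only [Set.mem_ofPred_eq, k4R, B6, kl0, kh0, tb, ks0, mkP, cutH, AddMonoidHom.coe_mk,
    ZeroHom.coe_mk, Equiv.coe_fn_mk, List.getD_cons_zero, List.getD_cons_succ, Matrix.cons_val]
  constructor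
  · intro h
    omega
  · intro h
    omega

theorem leaf1 (K : Type) [CommRing K] : TV K (dg 6) {a : Amb 6 | a ∈ {a : Amb 6 | a ∈ {a : Amb 6 | a ∈ k4R ∧ 0 ≤ cutH 1 1 1 0 0 0 0 a} ∧ cutH 1 0 1 0 1 0 0 a ≤ 0} ∧ 0 ≤ cutH 2 1 1 1 1 0 0 a} := by
  refine TV_leaf ks1 kl1 kh1 (by decide) (by decide) _ fun x => ?_
  simp only [Set.mem_ofPred_eq, k4R, B6, kl1, kh1, tb, ks1, mkP, cutH, AddMonoidHom.coe_mk,
    ZeroHom.coe_mk, Equiv.coe_fn_mk, List.getD_cons_zero, List.getD_cons_succ, Matrix.cons_val]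
  constructor
  · intro h
    omega
  · intro h
    omega

theorem leaf2 (K : Type) [CommRing K] : TV K (dg 6) {a : Amb 6 | a ∈ {a : Amb 6 | a ∈ {a : Amb 6 | a ∈ k4R ∧ 0 ≤ cutH 1 1 1 0 0 0 0 a} ∧ cutH 1 0 1 0 1 0 0 a ≤ 0} ∧ cutH 2 1 1 1 1 0 0 a ≤ 0} := by
  refine TV_leaf ks2 kl2 kh2 (by decide) (by decide) _ fun x => ?_
  simp only [Set.mem_ofPred_eq, k4R, B6, kl2, kh2, tb, ks2, mkP, cutH, AddMonoidHom.coe_mk,
    ZeroHom.coe_mk, Equiv.coe_fn_mk, List.getD_cons_zero, List.getD_cons_succ, Matrix.cons_val]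
  constructor
  · intro h
    omega
  · intro h
    omega

theorem leaf3 (K : Type) [CommRing K] : TV K (dg 6) {a : Amb 6 | a ∈ {a : Amb 6 | a ∈ {a : Amb 6 | a ∈ k4R ∧ cutH 1 1 1 0 0 0 0 a ≤ 0} ∧ 0 ≤ cutH 1 0 1 0 1 0 0 a} ∧ 0 ≤ cutH 1 0 0 1 0 1 0 a} := by
  refine TV_leaf ks3 kl3 kh3 (by decide) (by decide) _ fun x => ?_
  simp only [Set.mem_ofPred_eq, k4R, B6, kl3, kh3, tb, ks3, mkP, cutH, AddMonoidHom.coe_mk,
    ZeroHom.coe_mk, Equiv.coe_fn_mk, List.getD_cons_zero, List.getD_cons_succ, Matrix.cons_val]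
  constructor
  · intro h
    omega
  · intro h
    omega

theorem leaf4 (K : Type) [CommRing K] : TV K (dg 6) {a : Amb 6 | a ∈ {a : Amb 6 | a ∈ {a : Amb 6 | a ∈ k4R ∧ cutH 1 1 1 0 0 0 0 a ≤ 0} ∧ 0 ≤ cutH 1 0 1 0 1 0 0 a} ∧ cutH 1 0 0 1 0 1 0 a ≤ 0} := by
  refine TV_leaf ks4 kl4 kh4 (by decide) (by decide) _ fun x => ?_
  simp only [Set.mem_ofPred_eq, k4R, B6, kl4, kh4, tb, ks4, mkP, cutH, AddMonoidHom.coe_mk,
    ZeroHom.coe_mk, Equiv.coe_fn_mk, List.getD_cons_zero, List.getD_cons_succ, Matrix.cons_val]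
  constructor
  · intro h
    omega
  · intro h
    omega

theorem leaf5 (K : Type) [CommRing K] : TV K (dg 6) {a : Amb 6 | a ∈ {a : Amb 6 | a ∈ k4R ∧ cutH 1 1 1 0 0 0 0 a ≤ 0} ∧ cutH 1 0 1 0 1 0 0 a ≤ 0} := by
  refine TV_leaf ks5 kl5 kh5 (by decide) (by decide) _ fun x => ?_
  simp only [Set.mem_ofPred_eq, k4R, B6, kl5, kh5, tb, ks5, mkP, cutH, AddMonoidHom.coe_mk,
    ZeroHom.coe_mk, Equiv.coe_fn_mk, List.getD_cons_zero, List.getD_cons_succ, Matrix.cons_val]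
  constructor
  · intro h
    omega
  · intro h
    omega

theorem piece_add (S : Set (Amb 6)) (hS : ∀ a ∈ S, ∀ b ∈ S, a + b ∈ S) (h : Amb 6 →+ ℤ) :
    ∀ a ∈ {a : Amb 6 | a ∈ S ∧ 0 ≤ h a}, ∀ b ∈ {a : Amb 6 | a ∈ S ∧ 0 ≤ h a},
      a + b ∈ {a : Amb 6 | a ∈ S ∧ 0 ≤ h a} := by
  rintro a ⟨ha, ha2⟩ b ⟨hb, hb2⟩
  refine ⟨hS a ha b hb, ?_⟩
  rw [map_add]
  omega

theorem piece_add' (S : Set (Amb 6)) (hS : ∀ a ∈ S, ∀ b ∈ S, a + b ∈ S) (h : Amb 6 →+ ℤ) :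
    ∀ a ∈ {a : Amb 6 | a ∈ S ∧ h a ≤ 0}, ∀ b ∈ {a : Amb 6 | a ∈ S ∧ h a ≤ 0},
      a + b ∈ {a : Amb 6 | a ∈ S ∧ h a ≤ 0} := by
  rintro a ⟨ha, ha2⟩ b ⟨hb, hb2⟩
  refine ⟨hS a ha b hb, ?_⟩
  rw [map_add]
  omega

theorem k4R_pos : ∀ a ∈ k4R, 1 ≤ dg 6 a := fun _ ha => ha.1

/-- The cut tree of the cycle matroid of the complete graph on four vertices. -/
theorem TV_k4R (K : Type) [CommRing K] : TV K (dg 6) k4R := by
  refine TV_cut (dg 6) k4R k4R_add k4R_pos (cutH 1 1 1 0 0 0 0) ?_ ?_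
  · refine TV_cut (dg 6) _ (piece_add _ k4R_add _) (fun a ha => ha.1.1) (cutH 1 0 1 0 1 0 0)
      (leaf0 K) ?_
    refine TV_cut (dg 6) _ (piece_add' _ (piece_add _ k4R_add _) _) (fun a ha => ha.1.1.1)
      (cutH 2 1 1 1 1 0 0) (leaf1 K) (leaf2 K)
  · refine TV_cut (dg 6) _ (piece_add' _ k4R_add _) (fun a ha => ha.1.1) (cutH 1 0 1 0 1 0 0) ?_
      (leaf5 K)
    refine TV_cut (dg 6) _ (piece_add _ (piece_add' _ k4R_add _) _) (fun a ha => ha.1.1.1)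
      (cutH 1 0 0 1 0 1 0) (leaf3 K) (leaf4 K)

/-- The cycle matroid of the complete graph on four vertices. -/
theorem TV_k4 {K : Type} [CommRing K] [Nontrivial K] (C : Set (Fin 6 → ℤ))
    (hC : ∀ u, u ∈ C ↔ ((1 : ℕ), u) ∈ k4R) : TV K (dg 6) (Sg C) :=
  TV_Sg_of_cone k4R (TV_k4R K) k4R_add (fun _ ha => ha.1) C hC

end MP7ea278
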