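import Pool.Agent.Lib.MP_7ea278_ag.Ring
import Pool.Agent.Lib.MP_7ea278_ag.Box
import Pool.Agent.Lib.MP_7ea278_ag.Exchange
import Pool.Agent.Lib.MP_7ea278_ag.Exchange2
import Pool.Agent.Lib.MP_7ea278_ag.SmallRank

namespace MP7ea278

theorem castZ_injective {n : ℕ} : Function.Injective (castZ (n := n)) := by
  intro u v h
  funext i
  have := congrFun h i
  simpa [castZ] using this

theorem basesZ_finite {n : ℕ} (P : Finset (Fin n → ℕ)) : (basesZ P).Finite :=
  (Finset.finite_toSet _).image _

/-- If the maximal modulus is zero the polymatroid is trivial. -/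
theorem modulus_pos {n : ℕ} {P : Finset (Fin n → ℕ)} (hP : IsDPM P) (h0 : P ≠ {0}) {d : ℕ}
    (hd : ∀ b ∈ bases P, ∑ i, b i = d) : 0 < d := by
  classical
  rcases Nat.eq_zero_or_pos d with h | h
  · exfalso
    apply h0
    obtain ⟨b, hb⟩ := (exists_modulus hP).1
    have hb' := hb
    rw [bases, Finset.mem_filter] at hb'
    have key : ∀ v ∈ P, v = 0 := by
      intro v hv
      have h1 := hb'.2 v hv
      rw [hd b hb, h] at h1
      funext i
      have h2 : v i ≤ ∑ i, v i := Finset.single_le_sum (f := v) (fun _ _ => Nat.zero_le _)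
        (Finset.mem_univ i)
      have h3 : v i = 0 := by omega
      simpa using h3
    refine Finset.eq_singleton_iff_nonempty_unique_mem.2 ⟨hP.1, key⟩
  · exact h

/-- The translated cell is a set of `0/1` vectors of constant modulus. -/
theorem cell01 {n : ℕ} {B : Set (Fin n → ℤ)} (q : Fin n → ℤ) :
    ∀ u ∈ (fun b => b - q) '' cell B q, ∀ i, 0 ≤ u i ∧ u i ≤ 1 := by
  rintro _ ⟨b, ⟨_, hb⟩, rfl⟩ i
  have := hb i
  simp only [Pi.sub_apply]
  constructor <;> omega

theorem cell_sum {n : ℕ} {P : Finset (Fin n → ℕ)} (q : Fin n → ℤ) {d : ℕ}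
    (hd : ∀ b ∈ bases P, ∑ i, b i = d) :
    ∀ u ∈ (fun b => b - q) '' cell (basesZ P) q, ∑ i, u i = (d : ℤ) - ∑ i, q i := by
  rintro _ ⟨_, ⟨⟨b, hb, rfl⟩, _⟩, rfl⟩
  have h := hd b hb
  have h2 : ∑ i, (castZ b) i = (d : ℤ) := by
    rw [← h]; push_cast; rfl
  simp only [Pi.sub_apply, Finset.sum_sub_distrib]
  rw [h2]

/-- Koszulness from the cells. -/
theorem koszul_of_cells (K : Type) [Field K] {n : ℕ} {P : Finset (Fin n → ℕ)} (hP : IsDPM P)
    (h0 : P ≠ {0})
    (h : ∀ q, TV K (dg n) (Sg ((fun b => b - q) '' cell (basesZ P) q))) : KoszulBaseRing K P := by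
  obtain ⟨_, d, hd⟩ := exists_modulus hP
  have hpos := modulus_pos hP h0 hd
  rw [KoszulBaseRing, koszul_iff_TV K (bases P) d hpos hd]
  refine TV_of_cells (basesZ_finite P) (symExch_bases hP) fun q => ?_
  exact (TV_translate _ q).1 (h q)

/-- Koszulness for all matroids on `n` elements implies Koszulness for all discrete polymatroids
on `n` elements. -/
theorem reduction_to_matroids (K : Type) [Field K] (n : ℕ)
    (hmat : ∀ P : Finset (Fin n → ℕ), IsDPM P → P ≠ {0} → (∀ u ∈ P, ∀ i, u i ≤ 1) →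
      KoszulBaseRing K P) :
    ∀ P : Finset (Fin n → ℕ), IsDPM P → P ≠ {0} → KoszulBaseRing K P := by
  intro P hP h0
  obtain ⟨_, d, hd⟩ := exists_modulus hP
  refine koszul_of_cells K hP h0 fun q => ?_
  set C := (fun b => b - q) '' cell (basesZ P) q with hC
  have hex : SymExch C := symExch_cell (symExch_bases hP) q
  have h01 : ∀ u ∈ C, ∀ i, 0 ≤ u i ∧ u i ≤ 1 := cell01 (B := basesZ P) q
  have hsum : ∀ u ∈ C, ∑ i, u i = (d : ℤ) - ∑ i, q i := cell_sum (P := P) q hd
  rcases le_or_gt ((d : ℤ) - ∑ i, q i) 0 with hle | hgt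
  · exact TV_small_rank hex h01 _ (Or.inl (by omega)) hsum
  · rcases C.eq_empty_or_nonempty with he | hne
    · rw [he] at hsum hex h01 ⊢
      exact TV_small_rank hex h01 0 (Or.inl (by omega)) (by simp)
    · obtain ⟨P', hP', h01', hB'⟩ := exists_matroid hex hne h01 _ hsum
      obtain ⟨⟨b', hb'⟩, d', hd'⟩ := exists_modulus hP'
      have hpos' : 0 < d' := by
        have h1 : castZ b' ∈ basesZ P' := ⟨b', hb', rfl⟩
        rw [hB'] at h1
        have h2 := hsum _ h1
        have h3 : ∑ i, (castZ b') i = (d' : ℤ) := by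
          rw [← hd' b' hb']; push_cast; rfl
        omega
      have hne0 : P' ≠ {0} := by
        intro h
        have h1 : b' = 0 := by
          have : b' ∈ P' := by
            rw [bases, Finset.mem_filter] at hb'; exact hb'.1
          rw [h] at this; simpa using this
        have h2 := hd' b' hb'
        rw [h1] at h2
        simp at h2
        omega
      have hK := hmat P' hP' hne0 h01'
      rw [KoszulBaseRing, koszul_iff_TV K (bases P') d' hpos' hd'] at hK
      have : castZ '' (bases P' : Set (Fin n → ℕ)) = C := hB'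
      rwa [this] at hK

/-- All discrete polymatroids on at most five elements. -/
theorem koszul_of_le_five (K : Type) [Field K] (n : ℕ) (hn : n ≤ 5) (P : Finset (Fin n → ℕ))
    (hP : IsDPM P) (h0 : P ≠ {0}) : KoszulBaseRing K P := by
  obtain ⟨_, d, hd⟩ := exists_modulus hP
  refine koszul_of_cells K hP h0 fun q => ?_
  have hsum := cell_sum (P := P) q hd
  refine TV_small_rank (symExch_cell (symExch_bases hP) q) (cell01 q) _ ?_ hsum
  have : (n : ℤ) ≤ 5 := by exact_mod_cast hn
  omega

end MP7ea278
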