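import Pool.Agent.Lib.MP_7ea278_ag.Main
import Pool.Agent.Lib.MP_7ea278_ag.Box2

namespace MP7ea278

/-- Koszulness from the cells with nonnegative corner. -/
theorem koszul_of_cells_nonneg (K : Type) [Field K] {n : ℕ} {P : Finset (Fin n → ℕ)}
    (hP : IsDPM P) (h0 : P ≠ {0})
    (h : ∀ q : Fin n → ℤ, (∀ i, 0 ≤ q i) →
      TV K (dg n) (Sg ((fun b => b - q) '' cell (basesZ P) q))) : KoszulBaseRing K P := by
  obtain ⟨_, d, hd⟩ := exists_modulus hP
  have hpos := modulus_pos hP h0 hd
  rw [KoszulBaseRing, koszul_iff_TV K (bases P) d hpos hd]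
  refine TV_of_cells_nonneg (basesZ_finite P) (symExch_bases hP) ?_ fun q hq => ?_
  · rintro _ ⟨b, _, rfl⟩ i
    exact Int.natCast_nonneg _
  · exact (TV_translate _ q).1 (h q hq)

/-- Local criterion: a discrete polymatroid has a Koszul base ring as soon as the base rings of
all its unit cube sections (which are matroids) are Koszul. -/
theorem local_criterion (K : Type) [Field K] (n : ℕ) (P : Finset (Fin n → ℕ)) (hP : IsDPM P)
    (h0 : P ≠ {0})
    (h : ∀ (q : Fin n → ℕ) (M : Finset (Fin n → ℕ)), IsDPM M → (∀ u ∈ M, ∀ i, u i ≤ 1) →
      M ≠ {0} → (∀ b : Fin n → ℕ, b ∈ bases M ↔ (∀ i, b i ≤ 1) ∧ b + q ∈ bases P) →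
      KoszulBaseRing K M) : KoszulBaseRing K P := by
  obtain ⟨_, d, hd⟩ := exists_modulus hP
  refine koszul_of_cells_nonneg K hP h0 fun q hq => ?_
  set C := (fun b => b - q) '' cell (basesZ P) q with hC
  have hex : SymExch C := symExch_cell (symExch_bases hP) q
  have h01 : ∀ u ∈ C, ∀ i, 0 ≤ u i ∧ u i ≤ 1 := cell01 (B := basesZ P) q
  have hsum : ∀ u ∈ C, ∑ i, u i = (d : ℤ) - ∑ i, q i := cell_sum (P := P) q hd
  rcases le_or_gt ((d : ℤ) - ∑ i, q i) 0 with hle | hgt
  · exact TV_small_rank hex h01 _ (Or.inl (by omega)) hsum
  · rcases C.eq_empty_or_nonempty with he | hne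
    · rw [he] at hsum hex h01 ⊢
      exact TV_small_rank hex h01 0 (Or.inl (by omega)) (by simp)
    · obtain ⟨P', hP', h01', hB'⟩ := exists_matroid hex hne h01 _ hsum
      obtain ⟨⟨b', hb'⟩, d', hd'⟩ := exists_modulus hP'
      have hpos' : 0 < d' := by
        have h1 : castZ b' ∈ basesZ P' := ⟨b', hb', rfl⟩
        rw [hB'] at h1
        have h2 := hsum _ h1
        have h3 : ∑ i, (castZ b') i = (d' : ℤ) := by
          rw [← hd' b' hb']; push_cast; rfl
        omega
      have hne0 : P' ≠ {0} := by
        intro h
        have h1 : b' = 0 := by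
          have : b' ∈ P' := by
            rw [bases, Finset.mem_filter] at hb'; exact hb'.1
          rw [h] at this; simpa using this
        have h2 := hd' b' hb'
        rw [h1] at h2
        simp at h2
        omega
      have hbases : ∀ b : Fin n → ℕ, b ∈ bases P' ↔
          (∀ i, b i ≤ 1) ∧ b + (fun i => (q i).toNat) ∈ bases P := by
        intro b
        have hcast : ∀ i, ((q i).toNat : ℤ) = q i := fun i => Int.toNat_of_nonneg (hq i)
        have e1 : b ∈ bases P' ↔ castZ b ∈ C := by
          rw [← hB']
          constructor
          · exact fun hb => ⟨b, hb, rfl⟩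
          · rintro ⟨b2, hb2, hbb⟩
            rwa [castZ_injective hbb] at hb2
        rw [e1]
        constructor
        · intro hb
          have h1 := h01 _ hb
          obtain ⟨_, ⟨⟨c, hc, rfl⟩, hc2⟩, hcb⟩ := hb
          refine ⟨fun i => ?_, ?_⟩
          · have := (h1 i).2
            simp only [castZ] at this
            exact_mod_cast this
          · have e2 : b + (fun i => (q i).toNat) = c := by
              funext i
              have h2 := congrFun hcb i
              simp only [Pi.sub_apply, castZ] at h2
              have h3 := hcast i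
              have h4 : ((b i + (q i).toNat : ℕ) : ℤ) = (c i : ℤ) := by
                push_cast
                rw [h3]
                omega
              simp only [Pi.add_apply]
              exact_mod_cast h4
            rw [e2]
            exact hc
        · rintro ⟨h1, h2⟩
          refine ⟨castZ (b + fun i => (q i).toNat), ⟨⟨_, h2, rfl⟩, fun i => ?_⟩, ?_⟩
          · have h3 := hcast i
            have h4 := h1 i
            simp only [castZ, Pi.add_apply]
            push_cast
            rw [h3]
            omega
          · funext i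
            have h3 := hcast i
            simp only [castZ, Pi.sub_apply, Pi.add_apply]
            push_cast
            rw [h3]
            ring
      have hK := h (fun i => (q i).toNat) P' hP' h01' hne0 hbases
      rw [KoszulBaseRing, koszul_iff_TV K (bases P') d' hpos' hd'] at hK
      have : castZ '' (bases P' : Set (Fin n → ℕ)) = C := hB'
      rwa [this] at hK

end MP7ea278
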