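import Pool.Agent.Lib.MP_7ea278_ag.Chain

/-!
Words with letters in a commutative monoid, the bar differential with structure constants, and
the vanishing properties `TVX` and `TV`.
-/

namespace MP7ea278

open Finsupp

section Words

variable (K : Type) [CommRing K] {M : Type} [AddCommMonoid M]

/-- Reduced bar differential with structure constants `c` (the product of the letters `a`, `b`
is `c a b` times the letter `a + b`). -/
noncomputable def dl (c : M → M → K) : List M → (List M →₀ K)
  | [] => 0
  | [_] => 0
  | a :: b :: w => single ((a + b) :: w) (c a b) - (dl c (b :: w)).mapDomain (List.cons a)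

/-- The same differential, where the first letter multiplies with its own structure
constants `c0`. -/
noncomputable def dl0 (c0 c : M → M → K) : List M → (List M →₀ K)
  | [] => 0
  | [_] => 0
  | a :: b :: w => single ((a + b) :: w) (c0 a b) - (dl K c (b :: w)).mapDomain (List.cons a)

theorem dl0_self (c : M → M → K) (w : List M) : dl0 K c c w = dl K c w := by
  cases w with
  | nil => rfl
  | cons a w =>
    cases w with
    | nil => rfl
    | cons b w => rfl

/-- The constant structure constants. -/
def one2 : M → M → K := fun _ _ => 1

/-- Words with first letter in `S0` and the other letters in `S`. -/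
def Wd (S0 S : Set M) : Set (List M) := {w | ∃ a v, w = a :: v ∧ a ∈ S0 ∧ ∀ x ∈ v, x ∈ S}

/-- Degree of a word. -/
def wdeg (deg : M →+ ℕ) (w : List M) : ℕ := deg w.sum

/-- Off-diagonal exactness in degree `j` of the complex of words with first letter in `S0` and the
other letters in `S`. -/
def TVX (deg : M →+ ℕ) (c0 c : M → M → K) (S0 S : Set M) (j : ℕ) : Prop :=
  ODat K (Wd S0 S) (dl0 K c0 c) List.length (wdeg deg) j

/-- Off-diagonal exactness of the reduced bar complex of the semigroup `S`. -/
def TV (deg : M →+ ℕ) (S : Set M) : Prop := ∀ j, TVX K deg (one2 K) (one2 K) S S j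

end Words

end MP7ea278
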