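import Pool.Agent.Lib.MP_7ea278_ag.Defs
import Pool.Agent.Lib.MP_7ea278_ag.WordsDef

/-!
Ambient monoid, semigroups spanned by sets of lattice points at height one, exchange property.
-/

namespace MP7ea278

/-- Ambient monoid: height and lattice point. -/
abbrev Amb (n : ℕ) : Type := ℕ × (Fin n → ℤ)

/-- Height. -/
def dg (n : ℕ) : Amb n →+ ℕ := AddMonoidHom.fst ℕ (Fin n → ℤ)

/-- The nonzero elements of the monoid generated by the points of `G` put at height one. -/
def Sg {n : ℕ} (G : Set (Fin n → ℤ)) : Set (Amb n) :=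
  {x | x ∈ AddSubmonoid.closure ((fun g => ((1 : ℕ), g)) '' G) ∧ x ≠ 0}

/-- Cast of a vector of natural numbers. -/
def castZ {n : ℕ} (u : Fin n → ℕ) : Fin n → ℤ := fun i => (u i : ℤ)

/-- Bases as integer vectors. -/
def basesZ {n : ℕ} (P : Finset (Fin n → ℕ)) : Set (Fin n → ℤ) := castZ '' (bases P : Set (Fin n → ℕ))

/-- Symmetric exchange property. -/
def SymExch {n : ℕ} (B : Set (Fin n → ℤ)) : Prop :=
  ∀ u ∈ B, ∀ v ∈ B, ∀ i, v i < u i → ∃ j, u j < v j ∧
    u - Pi.single i 1 + Pi.single j 1 ∈ B ∧ v + Pi.single i 1 - Pi.single j 1 ∈ B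

/-- The points of `B` in the unit cube with lower corner `q`. -/
def cell {n : ℕ} (B : Set (Fin n → ℤ)) (q : Fin n → ℤ) : Set (Fin n → ℤ) :=
  {b | b ∈ B ∧ ∀ i, q i ≤ b i ∧ b i ≤ q i + 1}

end MP7ea278
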