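import Pool.Agent.Lib.MP_7ea278_ag.Chain

namespace MP7ea278

open Finsupp

variable {K : Type} [CommRing K] {Ωp Ωs : Type}

/-- The tensor product differential on pairs. -/
noncomputable def dPair (δp : Ωp → Ωp →₀ K) (ℓp : Ωp → ℕ) (δs : Ωs → Ωs →₀ K) :
    Ωp × Ωs → (Ωp × Ωs) →₀ K :=
  fun x => (δp x.1).mapDomain (fun p => (p, x.2)) +
    ((-1 : K) ^ (ℓp x.1)) • (δs x.2).mapDomain (fun s => (x.1, s))

private theorem pair_inj_left (s : Ωs) : Function.Injective (fun p : Ωp => (p, s)) :=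
  fun _ _ h => (Prod.ext_iff.1 h).1

private theorem pair_inj_right (p : Ωp) : Function.Injective (fun s : Ωs => (p, s)) :=
  fun _ _ h => (Prod.ext_iff.1 h).2

open Classical in
private theorem pair_left_apply (x : Ωp →₀ K) (s : Ωs) (a : Ωp) (b : Ωs) :
    (x.mapDomain (fun p => (p, s))) (a, b) = if s = b then x a else 0 := by
  split_ifs with h
  · subst h
    exact Finsupp.mapDomain_apply (pair_inj_left s) x a
  · refine Finsupp.mapDomain_of_notMem_range x (a, b) ?_
    rintro ⟨p, hp⟩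
    exact h (Prod.ext_iff.1 hp).2

open Classical in
private theorem pair_right_apply (y : Ωs →₀ K) (p : Ωp) (a : Ωp) (b : Ωs) :
    (y.mapDomain (fun s => (p, s))) (a, b) = if p = a then y b else 0 := by
  split_ifs with h
  · subst h
    exact Finsupp.mapDomain_apply (pair_inj_right p) y b
  · refine Finsupp.mapDomain_of_notMem_range y (a, b) ?_
    rintro ⟨s, hs⟩
    exact h (Prod.ext_iff.1 hs).1

open Classical in
private theorem pair_dPair_apply (δp : Ωp → Ωp →₀ K) (ℓp : Ωp → ℕ) (δs : Ωs → Ωs →₀ K)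
    (p a : Ωp) (s b : Ωs) : dPair δp ℓp δs (p, s) (a, b) =
      (if s = b then δp p a else 0) + (-1 : K) ^ (ℓp p) * (if p = a then δs s b else 0) := by
  rw [dPair, Finsupp.add_apply, Finsupp.smul_apply, pair_left_apply, pair_right_apply,
    smul_eq_mul]

open Classical in
private theorem pair_ext_left (δp : Ωp → Ωp →₀ K) (ℓp : Ωp → ℕ) (δs : Ωs → Ωs →₀ K)
    (x : Ωp →₀ K) (s : Ωs) (a : Ωp) (b : Ωs) :
    ext K (dPair δp ℓp δs) K (x.mapDomain (fun p => (p, s))) (a, b) =
      (if s = b then ext K δp K x a else 0) + (-1 : K) ^ (ℓp a) * δs s b * x a := by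
  rw [ext_apply, Finsupp.sum_mapDomain_index_inj (pair_inj_left s)]
  have h1 : (x.sum fun p u => dPair δp ℓp δs (p, s) (a, b) • u) =
      (x.sum fun p u => (if s = b then δp p a else 0) * u) +
        x.sum fun p u => (-1 : K) ^ (ℓp p) * (if p = a then δs s b else 0) * u := by
    rw [← Finsupp.sum_add]
    refine Finsupp.sum_congr fun p _ => ?_
    rw [pair_dPair_apply, smul_eq_mul, add_mul]
  rw [h1]
  congr 1
  · split_ifs with h
    · rw [ext_apply]
      rfl
    · simp
  · rw [Finsupp.sum, Finset.sum_eq_single a]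
    · rw [if_pos rfl]
    · intro p _ hp
      rw [if_neg hp, mul_zero, zero_mul]
    · intro ha
      rw [Finsupp.notMem_support_iff.1 ha, mul_zero]

open Classical in
private theorem pair_ext_right (δp : Ωp → Ωp →₀ K) (ℓp : Ωp → ℕ) (δs : Ωs → Ωs →₀ K)
    (y : Ωs →₀ K) (p : Ωp) (a : Ωp) (b : Ωs) :
    ext K (dPair δp ℓp δs) K (y.mapDomain (fun s => (p, s))) (a, b) =
      δp p a * y b + (-1 : K) ^ (ℓp p) * (if p = a then ext K δs K y b else 0) := by
  rw [ext_apply, Finsupp.sum_mapDomain_index_inj (pair_inj_right p)]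
  have h1 : (y.sum fun s u => dPair δp ℓp δs (p, s) (a, b) • u) =
      (y.sum fun s u => (if s = b then δp p a else 0) * u) +
        y.sum fun s u => (-1 : K) ^ (ℓp p) * (if p = a then δs s b else 0) * u := by
    rw [← Finsupp.sum_add]
    refine Finsupp.sum_congr fun s _ => ?_
    rw [pair_dPair_apply, smul_eq_mul, add_mul]
  rw [h1]
  congr 1
  · rw [Finsupp.sum, Finset.sum_eq_single b]
    · rw [if_pos rfl]
    · intro s _ hs
      rw [if_neg hs, zero_mul]
    · intro hb
      rw [Finsupp.notMem_support_iff.1 hb, mul_zero]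
  · split_ifs with h
    · rw [ext_apply, Finsupp.mul_sum]
      refine Finsupp.sum_congr fun s _ => ?_
      rw [smul_eq_mul, mul_assoc]
    · simp

theorem isBC_pair {Xp : Set Ωp} {δp : Ωp → Ωp →₀ K} {ℓp gp : Ωp → ℕ} {Xs : Set Ωs}
    {δs : Ωs → Ωs →₀ K} {ℓs gs : Ωs → ℕ} (hp : IsBC K Xp δp ℓp gp) (hs : IsBC K Xs δs ℓs gs) :
    IsBC K (Xp ×ˢ Xs) (dPair δp ℓp δs) (fun x => ℓp x.1 + ℓs x.2) (fun x => gp x.1 + gs x.2) := by
  classical
  refine ⟨?_, ?_, ?_⟩
  · rintro ⟨p, s⟩ ⟨hpX, hsX⟩ ⟨a, b⟩ hab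
    rw [Finsupp.mem_support_iff, pair_dPair_apply] at hab
    by_cases h : s = b ∧ δp p a ≠ 0
    · obtain ⟨rfl, h2⟩ := h
      obtain ⟨m1, m2, m3⟩ := hp.maps p hpX a (Finsupp.mem_support_iff.2 h2)
      exact ⟨⟨m1, hsX⟩, by simp only; omega, by simp only; omega⟩
    · have h1 : (if s = b then δp p a else 0) = 0 := by
        split_ifs with h3
        · by_contra h4
          exact h ⟨h3, h4⟩
        · rfl
      rw [h1, zero_add] at hab
      have h2 : p = a := by
        by_contra h3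
        rw [if_neg h3, mul_zero] at hab
        exact hab rfl
      subst h2
      rw [if_pos rfl] at hab
      have h3 : δs s b ≠ 0 := fun h4 => hab (by rw [h4, mul_zero])
      obtain ⟨m1, m2, m3⟩ := hs.maps s hsX b (Finsupp.mem_support_iff.2 h3)
      exact ⟨⟨hpX, m1⟩, by simp only; omega, by simp only; omega⟩
  · rintro ⟨p, s⟩ ⟨hpX, hsX⟩
    refine Finsupp.ext fun ⟨a, b⟩ => ?_
    have h1 : dPair δp ℓp δs (p, s) = (δp p).mapDomain (fun p => (p, s)) +
      ((-1 : K) ^ (ℓp p)) • (δs s).mapDomain (fun s => (p, s)) := rfl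
    rw [h1, map_add, map_smul, Finsupp.add_apply, Finsupp.smul_apply, pair_ext_left,
      pair_ext_right, hp.sq p hpX, hs.sq s hsX]
    have h2 : (-1 : K) ^ (ℓp a) * δs s b * δp p a = -((-1 : K) ^ (ℓp p) * (δp p a * δs s b)) := by
      by_cases h3 : δp p a = 0
      · rw [h3]; ring
      · have h4 := (hp.maps p hpX a (Finsupp.mem_support_iff.2 h3)).2.1
        rw [← h4, pow_succ]
        ring
    rw [h2]
    simp
  · rintro ⟨p, s⟩ ⟨hpX, hsX⟩
    have h1 := hp.le p hpX
    have h2 := hs.le s hsX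
    simp only
    omega

end MP7ea278
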