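import Pool.Agent.Lib.MP_7ea278_ag.Res1
import Pool.Agent.Lib.MP_7ea278_ag.Coeff

namespace MP7ea278

open Finsupp

namespace Res2Aux

section DlFacts

variable (K : Type) [CommRing K] {L : Type} [AddCommMonoid L]

/-- The bar differential on chains. -/
noncomputable abbrev bd (N : Type) [AddCommGroup N] [Module K N] :
    (List L →₀ N) →ₗ[K] (List L →₀ N) := ext K (dl K (one2 K)) N

variable (N : Type) [AddCommGroup N] [Module K N]

theorem bd_nil (n : N) : bd K N (single ([] : List L) n) = 0 := by
  rw [ext_single]; simp [dl]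

theorem bd_one (a : L) (n : N) : bd K N (single [a] n) = 0 := by
  rw [ext_single]; simp [dl]

theorem bd_mapRange {N' : Type} [AddCommGroup N'] [Module K N'] (f : N →ₗ[K] N')
    (z : List L →₀ N) :
    bd K N' (Finsupp.mapRange f f.map_zero z) = Finsupp.mapRange f f.map_zero (bd K N z) :=
  ext_mapRange _ N f z

theorem bd_single (w : List L) (n : N) :
    bd K N (single w n) =
      Finsupp.mapRange (LinearMap.toSpanSingleton K N n) (LinearMap.map_zero _)
        (dl K (one2 K) w) := by
  have h := bd_mapRange K K (LinearMap.toSpanSingleton K N n) (single w (1 : K))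
  rw [Finsupp.mapRange_single, ext_single_one] at h
  simpa using h

theorem mapDomain_mapRange' {N' : Type} [AddCommGroup N'] [Module K N'] (f : N →ₗ[K] N')
    (g : List L → List L) (z : List L →₀ N) :
    Finsupp.mapRange f f.map_zero (Finsupp.mapDomain g z) =
      Finsupp.mapDomain g (Finsupp.mapRange f f.map_zero z) := by
  induction z using Finsupp.induction_linear with
  | zero => simp
  | add a b ha hb =>
    rw [Finsupp.mapDomain_add, Finsupp.mapRange_add', Finsupp.mapRange_add', Finsupp.mapDomain_add,
      ha, hb]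
  | single a b => rw [Finsupp.mapDomain_single, Finsupp.mapRange_single, Finsupp.mapRange_single,
      Finsupp.mapDomain_single]

theorem bd_cons_cons (a b : L) (w : List L) (n : N) :
    bd K N (single (a :: b :: w) n) =
      single ((a + b) :: w) n - Finsupp.mapDomain (List.cons a) (bd K N (single (b :: w) n)) := by
  rw [bd_single, bd_single, dl, one2]
  rw [← mapDomain_mapRange']
  have : ∀ x y : List L →₀ K,
      Finsupp.mapRange (LinearMap.toSpanSingleton K N n) (LinearMap.map_zero _) (x - y) =
      Finsupp.mapRange (LinearMap.toSpanSingleton K N n) (LinearMap.map_zero _) x -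
      Finsupp.mapRange (LinearMap.toSpanSingleton K N n) (LinearMap.map_zero _) y := by
    intro x y
    refine Finsupp.ext fun u => ?_
    simp [sub_smul]
  rw [this, Finsupp.mapRange_single]
  simp

/-- add to the first letter -/
def hd (a : L) : List L → List L
  | [] => []
  | b :: w => (a + b) :: w

theorem dl_support (w : List L) : ∀ w' ∈ (dl K (one2 K) w).support,
    w'.length + 1 = w.length ∧ w'.sum = w.sum ∧ w' ≠ [] := by
  classical
  induction w with
  | nil => intro w' h; simp [dl] at h
  | cons a w ih =>
    cases w with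
    | nil => intro w' h; simp [dl] at h
    | cons b w =>
      intro w' h
      rw [dl] at h
      rcases Finset.mem_union.1 (Finsupp.support_sub h) with h | h
      · have := Finsupp.support_single_subset h
        rw [Finset.mem_singleton] at this
        subst this
        refine ⟨by simp, by simp [add_assoc], by simp⟩
      · obtain ⟨w'', h1, rfl⟩ := Finset.mem_image.1 (Finsupp.mapDomain_support h)
        obtain ⟨h2, h3, h4⟩ := ih w'' h1
        refine ⟨by simp at h2 ⊢; omega, by simp [h3], by simp⟩

theorem dl_hd (a b : L) (w : List L) :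
    Finsupp.mapDomain (hd a) (dl K (one2 K) (b :: w)) = dl K (one2 K) ((a + b) :: w) := by
  cases w with
  | nil => simp [dl]
  | cons c w =>
    rw [dl, dl]
    have hsub : ∀ x y : List L →₀ K, Finsupp.mapDomain (hd a) (x - y) =
        Finsupp.mapDomain (hd a) x - Finsupp.mapDomain (hd a) y := fun x y =>
      (Finsupp.lmapDomain K K (hd a)).map_sub x y
    rw [hsub, Finsupp.mapDomain_single, ← Finsupp.mapDomain_comp]
    have h1 : hd a ((b + c) :: w) = (a + b + c) :: w := by simp [hd, add_assoc]
    have h2 : hd a ∘ List.cons b = List.cons (a + b) := by funext x; rfl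
    rw [h1, h2]
    rfl

theorem bd_cons (a : L) (y : List L →₀ K) (hy : ∀ w ∈ y.support, w ≠ []) :
    bd K K (Finsupp.mapDomain (List.cons a) y) =
      Finsupp.mapDomain (hd a) y - Finsupp.mapDomain (List.cons a) (bd K K y) := by
  classical
  have key : ∀ w : List L, w ≠ [] → ∀ c : K,
      bd K K (Finsupp.mapDomain (List.cons a) (single w c)) =
      Finsupp.mapDomain (hd a) (single w c) -
        Finsupp.mapDomain (List.cons a) (bd K K (single w c)) := by
    intro w hw c
    obtain ⟨b, w, rfl⟩ := List.exists_cons_of_ne_nil hw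
    rw [Finsupp.mapDomain_single, Finsupp.mapDomain_single, bd_cons_cons]
    rfl
  have h1 : y = ∑ w ∈ y.support, single w (y w) := (Finsupp.sum_single y).symm
  have h2 : ∀ g : List L → List L, Finsupp.mapDomain g y =
      ∑ w ∈ y.support, Finsupp.mapDomain g (single w (y w)) := by
    intro g
    conv_lhs => rw [h1]
    exact map_sum (Finsupp.lmapDomain K K g) _ _
  have h3 : Finsupp.mapDomain (List.cons a) (bd K K y) =
      ∑ w ∈ y.support, Finsupp.mapDomain (List.cons a) (bd K K (single w (y w))) := by
    conv_lhs => rw [h1, map_sum]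
    exact map_sum (Finsupp.lmapDomain K K (List.cons a)) _ _
  rw [h2, map_sum, h2, h3, ← Finset.sum_sub_distrib]
  exact Finset.sum_congr rfl fun w hw => key w (hy w hw) _

theorem dl_sq (w : List L) : bd K K (dl K (one2 K) w) = 0 := by
  induction w with
  | nil => simp [dl]
  | cons a w ih =>
    cases w with
    | nil => simp [dl]
    | cons b w =>
      rw [dl, map_sub, bd_cons K a _ (fun w' hw' => (dl_support K _ w' hw').2.2), ih, dl_hd, one2,
        ext_single_one]
      simp

theorem bd_bd (z : List L →₀ N) : bd K N (bd K N z) = 0 := by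
  rw [ext_ext]
  have : (fun w : List L => ext K (dl K (one2 K)) K (dl K (one2 K) w)) = fun _ => 0 :=
    funext fun w => dl_sq K w
  rw [this, ext_zero_fun]

end DlFacts

section Modules

variable (K : Type) [Field K] {L : Type} [AddCommMonoid L]
variable (N : Type) [AddCommGroup N] [Module K N] [Module (AddMonoidAlgebra K L) N]
  [IsScalarTower K (AddMonoidAlgebra K L) N]

/-- action of a monomial -/
noncomputable def act (a : L) : N →ₗ[K] N :=
  Algebra.lsmul K K N (AddMonoidAlgebra.single a (1 : K))

theorem act_apply (a : L) (n : N) : act K N a n = (AddMonoidAlgebra.single a (1 : K)) • n := rfl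

theorem act_act (a b : L) (n : N) : act K N b (act K N a n) = act K N (a + b) n := by
  rw [act_apply, act_apply, act_apply, ← mul_smul, AddMonoidAlgebra.single_mul_single, one_mul,
    add_comm]

/-- the multiplication of the first letter into the module -/
noncomputable def PP1 : (List L →₀ N) →ₗ[K] (List L →₀ N) :=
  Finsupp.lsum K fun w => match w with
    | [] => 0
    | a :: w' => Finsupp.lsingle w' ∘ₗ act K N a

theorem PP1_nil (n : N) : PP1 K N (single ([] : List L) n) = 0 := by
  simp [PP1]

theorem PP1_cons (a : L) (w : List L) (n : N) :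
    PP1 K N (single (a :: w) n) = single w (act K N a n) := by
  simp [PP1]

theorem PP1_mapDomain_cons (a : L) (y : List L →₀ N) :
    PP1 K N (Finsupp.mapDomain (List.cons a) y) =
      Finsupp.mapRange (act K N a) (LinearMap.map_zero _) y := by
  induction y using Finsupp.induction_linear with
  | zero => simp
  | add x y hx hy => rw [Finsupp.mapDomain_add, map_add, hx, hy, Finsupp.mapRange_add']
  | single w n => rw [Finsupp.mapDomain_single, PP1_cons, Finsupp.mapRange_single]

/-- the bar differential with coefficients in a module -/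
noncomputable def DD : (List L →₀ N) →ₗ[K] (List L →₀ N) := PP1 K N - bd K N

theorem DD_apply (z : List L →₀ N) : DD K N z = PP1 K N z - bd K N z := rfl

theorem DD_DD (z : List L →₀ N) : DD K N (DD K N z) = 0 := by
  have key : ∀ (w : List L) (n : N), PP1 K N (PP1 K N (single w n)) -
      PP1 K N (bd K N (single w n)) - bd K N (PP1 K N (single w n)) = 0 := by
    intro w n
    cases w with
    | nil => simp [PP1_nil, bd_nil]
    | cons a w =>
      cases w with
      | nil => simp [PP1_nil, PP1_cons, bd_nil, bd_one]
      | cons b w =>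
        rw [PP1_cons, PP1_cons, bd_cons_cons, map_sub, PP1_cons, PP1_mapDomain_cons,
          ← bd_mapRange, Finsupp.mapRange_single, act_act]
        simp
  have h : PP1 K N (PP1 K N z) - PP1 K N (bd K N z) - bd K N (PP1 K N z) = 0 := by
    induction z using Finsupp.induction_linear with
    | zero => simp
    | add x y hx hy =>
      simp only [map_add]
      calc _ = (PP1 K N (PP1 K N x) - PP1 K N (bd K N x) - bd K N (PP1 K N x)) +
            (PP1 K N (PP1 K N y) - PP1 K N (bd K N y) - bd K N (PP1 K N y)) := by abel
        _ = 0 := by rw [hx, hy, add_zero]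
    | single w n => exact key w n
  rw [DD_apply, DD_apply, map_sub, map_sub, bd_bd, sub_zero, h]

/-- naturality -/
theorem DD_mapRange {N' : Type} [AddCommGroup N'] [Module K N'] [Module (AddMonoidAlgebra K L) N']
    [IsScalarTower K (AddMonoidAlgebra K L) N'] (f : N →ₗ[AddMonoidAlgebra K L] N')
    (z : List L →₀ N) :
    DD K N' (Finsupp.mapRange f f.map_zero z) = Finsupp.mapRange f f.map_zero (DD K N z) := by
  induction z using Finsupp.induction_linear with
  | zero => simp
  | add x y hx hy => rw [Finsupp.mapRange_add', map_add, hx, hy, map_add, Finsupp.mapRange_add']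
  | single w n =>
    have hb := bd_mapRange K N (f.restrictScalars K) (single w n)
    rw [Finsupp.mapRange_single] at hb
    rw [Finsupp.mapRange_single, DD_apply, DD_apply]
    have hsub : ∀ x y : List L →₀ N, Finsupp.mapRange f f.map_zero (x - y) =
        Finsupp.mapRange f f.map_zero x - Finsupp.mapRange f f.map_zero y := by
      intro x y
      exact Finsupp.ext fun u => by simp
    rw [hsub]
    congr 1
    · cases w with
      | nil => simp [PP1_nil]
      | cons a w =>
        rw [PP1_cons, PP1_cons, Finsupp.mapRange_single, act_apply, act_apply, map_smul]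

end Modules

section Contraction

variable (K : Type) [Field K] {L : Type} [AddCommMonoid L] (deg : L →+ ℕ)

/-- words of length `k` with nonzero letters -/
def Wk (L : Type) [AddCommMonoid L] (k : ℕ) : Set (List L) := {w | w.length = k ∧ ∀ x ∈ w, x ≠ 0}

open Classical in
/-- the contraction -/
noncomputable def sR : (List L →₀ AddMonoidAlgebra K L) →ₗ[K] (List L →₀ AddMonoidAlgebra K L) :=
  Finsupp.lsum K fun w =>
    (Finsupp.lsum K fun l => if l = 0 then (0 : K →ₗ[K] (List L →₀ AddMonoidAlgebra K L)) else
      Finsupp.lsingle (l :: w) ∘ₗ AddMonoidAlgebra.lsingle (0 : L)) ∘ₗ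
      (AddMonoidAlgebra.coeffLinearEquiv K).toLinearMap

open Classical in
theorem sR_single (w : List L) (l : L) (c : K) :
    sR K (single w (AddMonoidAlgebra.single l c)) =
      if l = 0 then 0 else single (l :: w) (AddMonoidAlgebra.single 0 c) := by
  rw [sR, Finsupp.lsum_single]
  simp only [LinearMap.comp_apply]
  have h1 : (AddMonoidAlgebra.coeffLinearEquiv K).toLinearMap (AddMonoidAlgebra.single l c) =
      Finsupp.single l c := rfl
  rw [h1, Finsupp.lsum_single]
  split_ifs with h
  · rfl
  · rfl

open Classical in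
theorem sR_mapRange (l : L) (y : List L →₀ K) :
    sR K (Finsupp.mapRange (AddMonoidAlgebra.lsingle (S := K) (R := K) l) (LinearMap.map_zero _) y) =
      if l = 0 then 0 else Finsupp.mapDomain (List.cons l)
        (Finsupp.mapRange (AddMonoidAlgebra.lsingle (S := K) (R := K) (0 : L))
          (LinearMap.map_zero _) y) := by
  induction y using Finsupp.induction_linear with
  | zero => simp
  | add x y hx hy =>
    rw [Finsupp.mapRange_add', map_add, hx, hy, Finsupp.mapRange_add', Finsupp.mapDomain_add]
    split_ifs <;> simp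
  | single w c =>
    rw [Finsupp.mapRange_single, Finsupp.mapRange_single, Finsupp.mapDomain_single]
    exact sR_single K w l c

theorem act_single (a l : L) (c : K) : act K (AddMonoidAlgebra K L) a (AddMonoidAlgebra.single l c) =
    AddMonoidAlgebra.single (a + l) c := by
  rw [act_apply, smul_eq_mul, AddMonoidAlgebra.single_mul_single, one_mul]

variable (h0 : ∀ x, deg x = 0 → x = 0)

include h0 in
theorem add_ne_zero' {a b : L} (h : a ≠ 0) : a + b ≠ 0 := by
  intro hab
  apply h
  apply h0
  have := congrArg deg hab
  rw [map_add, map_zero] at this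
  omega

include h0 in
theorem DD_sR (b : L) (w : List L) (hb : b ≠ 0) (x : AddMonoidAlgebra K L) :
    DD K (AddMonoidAlgebra K L) (sR K (single (b :: w) x)) +
      sR K (DD K (AddMonoidAlgebra K L) (single (b :: w) x)) = single (b :: w) x := by
  induction x using AddMonoidAlgebra.induction_linear with
  | zero => simp
  | add x y hx hy =>
    rw [Finsupp.single_add, map_add, map_add, map_add, map_add]
    calc _ = _ := add_add_add_comm _ _ _ _
      _ = _ := by rw [hx, hy]
  | single l c =>
    have hd : bd K (AddMonoidAlgebra K L) (single (b :: w) (AddMonoidAlgebra.single l c)) =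
        Finsupp.mapRange (AddMonoidAlgebra.lsingle (S := K) (R := K) l) (LinearMap.map_zero _)
          (bd K K (single (b :: w) c)) := by
      rw [← bd_mapRange, Finsupp.mapRange_single]
      rfl
    have hd0 : bd K (AddMonoidAlgebra K L) (single (b :: w) (AddMonoidAlgebra.single 0 c)) =
        Finsupp.mapRange (AddMonoidAlgebra.lsingle (S := K) (R := K) (0 : L)) (LinearMap.map_zero _)
          (bd K K (single (b :: w) c)) := by
      rw [← bd_mapRange, Finsupp.mapRange_single]
      rfl
    rw [sR_single, DD_apply K _ (single (b :: w) _), map_sub, PP1_cons, hd, sR_mapRange, act_single,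
      sR_single, if_neg (add_ne_zero' deg h0 hb)]
    by_cases hl : l = 0
    · subst hl
      simp
    · rw [if_neg hl, if_neg hl, DD_apply, PP1_cons, bd_cons_cons, act_single, hd0, add_zero,
        add_comm b l]
      abel

theorem supp_induct {N : Type} [AddCommGroup N] [Module K N] {W : Set (List L)}
    {P : (List L →₀ N) → Prop} (hz : P 0) (ha : ∀ x y, P x → P y → P (x + y))
    (hs : ∀ w ∈ W, ∀ n, P (single w n)) {z : List L →₀ N} (h : z ∈ Finsupp.supported N K W) :
    P z := by
  classical
  rw [← Finsupp.sum_single z, Finsupp.sum]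
  refine Finset.sum_induction _ P ha hz fun w hw => hs w ?_ _
  exact h (by simpa using hw)

/-- `sR` raises the length of words by one. -/
theorem sR_mem {k : ℕ} {z : List L →₀ AddMonoidAlgebra K L}
    (hz : z ∈ Finsupp.supported (AddMonoidAlgebra K L) K (Wk L k)) :
    sR K z ∈ Finsupp.supported (AddMonoidAlgebra K L) K (Wk L (k + 1)) := by
  classical
  refine supp_induct K (W := Wk L k)
    (P := fun z => sR K z ∈ Finsupp.supported (AddMonoidAlgebra K L) K (Wk L (k + 1))) ?_ ?_ ?_ hz
  · rw [map_zero]; exact Submodule.zero_mem _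
  · intro x y hx hy; rw [map_add]; exact Submodule.add_mem _ hx hy
  · intro w hw x
    induction x using AddMonoidAlgebra.induction_linear with
    | zero => simp
    | add x y hx hy => rw [Finsupp.single_add, map_add]; exact Submodule.add_mem _ hx hy
    | single l c =>
      rw [sR_single]
      split_ifs with hl
      · exact Submodule.zero_mem _
      · refine Finsupp.single_mem_supported K _ ⟨by simp [hw.1], ?_⟩
        intro x hx
        rcases List.mem_cons.1 hx with h | h
        · rw [h]; exact hl
        · exact hw.2 x h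

include h0 in
theorem contr_R {k : ℕ} {z : List L →₀ AddMonoidAlgebra K L}
    (hz : z ∈ Finsupp.supported (AddMonoidAlgebra K L) K (Wk L (k + 1)))
    (hD : DD K (AddMonoidAlgebra K L) z = 0) :
    DD K (AddMonoidAlgebra K L) (sR K z) = z := by
  have h : DD K (AddMonoidAlgebra K L) (sR K z) + sR K (DD K (AddMonoidAlgebra K L) z) = z := by
    refine supp_induct K (W := Wk L (k + 1))
      (P := fun z => DD K (AddMonoidAlgebra K L) (sR K z) + sR K (DD K (AddMonoidAlgebra K L) z) = z)
      ?_ ?_ ?_ hz
    · simp
    · intro x y hx hy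
      rw [map_add, map_add, map_add, map_add]
      calc _ = _ := add_add_add_comm _ _ _ _
        _ = _ := by rw [hx, hy]
    · intro w hw x
      obtain ⟨b, w, rfl⟩ := List.exists_cons_of_length_eq_add_one hw.1
      exact DD_sR K deg h0 b w (hw.2 b (by simp)) x
  rw [hD, map_zero, add_zero] at h
  exact h

theorem dl_letters {K : Type} [CommRing K] (h0 : ∀ x, deg x = 0 → x = 0) (w : List L)
    (hw : ∀ x ∈ w, x ≠ 0) : ∀ w' ∈ (dl K (one2 K) w).support, ∀ x ∈ w', x ≠ 0 := by
  classical
  induction w with
  | nil => intro w' h; simp [dl] at h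
  | cons a w ih =>
    cases w with
    | nil => intro w' h; simp [dl] at h
    | cons b w =>
      intro w' h
      rw [dl] at h
      rcases Finset.mem_union.1 (Finsupp.support_sub h) with h | h
      · have := Finsupp.support_single_subset h
        rw [Finset.mem_singleton] at this
        subst this
        intro x hx
        rcases List.mem_cons.1 hx with hx | hx
        · rw [hx]; exact add_ne_zero' deg h0 (hw a (by simp))
        · exact hw x (by simp [hx])
      · obtain ⟨w'', h1, rfl⟩ := Finset.mem_image.1 (Finsupp.mapDomain_support h)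
        intro x hx
        rcases List.mem_cons.1 hx with hx | hx
        · rw [hx]; exact hw a (by simp)
        · exact ih (fun x hx => hw x (by simp at hx ⊢; right; exact hx)) w'' h1 x hx

/-- the support of the bar differential -/
theorem bd_mem {K : Type} [CommRing K] {N : Type} [AddCommGroup N] [Module K N]
    (h0 : ∀ x, deg x = 0 → x = 0) {k : ℕ}
    {z : List L →₀ N} (hz : z ∈ Finsupp.supported N K (Wk L (k + 1))) :
    bd K N z ∈ Finsupp.supported N K (Wk L k) := by
  refine ext_mem_supported _ _ (X := Wk L (k + 1)) ?_ hz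
  rintro w ⟨hw1, hw2⟩ w' hw'
  refine ⟨?_, dl_letters deg h0 w hw2 w' hw'⟩
  have := (dl_support K w w' hw').1
  omega

/-- the support of the differential -/
theorem DD_mem {N : Type} [AddCommGroup N] [Module K N] [Module (AddMonoidAlgebra K L) N]
    [IsScalarTower K (AddMonoidAlgebra K L) N] (h0 : ∀ x, deg x = 0 → x = 0) {k : ℕ}
    {z : List L →₀ N} (hz : z ∈ Finsupp.supported N K (Wk L (k + 1))) :
    DD K N z ∈ Finsupp.supported N K (Wk L k) := by
  rw [DD_apply]
  refine Submodule.sub_mem _ ?_ (bd_mem deg h0 hz)
  refine supp_induct K (W := Wk L (k + 1))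
    (P := fun z => PP1 K N z ∈ Finsupp.supported N K (Wk L k)) ?_ ?_ ?_ hz
  · rw [map_zero]; exact Submodule.zero_mem _
  · intro x y hx hy; rw [map_add]; exact Submodule.add_mem _ hx hy
  · intro w hw n
    obtain ⟨b, w, rfl⟩ := List.exists_cons_of_length_eq_add_one hw.1
    rw [PP1_cons]
    refine Finsupp.single_mem_supported K _ ⟨by simpa using hw.1, ?_⟩
    intro x hx
    exact hw.2 x (by simp [hx])

/-- contraction on free modules -/
noncomputable def sF (r : ℕ) (z : List L →₀ (Fin r → AddMonoidAlgebra K L)) :
    List L →₀ (Fin r → AddMonoidAlgebra K L) :=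
  ∑ p, Finsupp.mapRange (LinearMap.single (AddMonoidAlgebra K L) (fun _ : Fin r => AddMonoidAlgebra K L) p)
    (LinearMap.map_zero _) (sR K (Finsupp.mapRange (LinearMap.proj (R := AddMonoidAlgebra K L)
      (φ := fun _ : Fin r => AddMonoidAlgebra K L) p) (LinearMap.map_zero _) z))

theorem mapRange_mem {N N' : Type} [AddCommGroup N] [Module K N] [AddCommGroup N'] [Module K N']
    (f : N → N') (hf : f 0 = 0) {W : Set (List L)} {z : List L →₀ N}
    (hz : z ∈ Finsupp.supported N K W) : Finsupp.mapRange f hf z ∈ Finsupp.supported N' K W := by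
  rw [Finsupp.mem_supported] at hz ⊢
  intro w hw
  apply hz
  have h1 : Finsupp.mapRange f hf z w ≠ 0 := by simpa using hw
  have : z w ≠ 0 := by
    intro h
    apply h1
    rw [Finsupp.mapRange_apply, h, hf]
  simpa using this

theorem sum_single_proj (r : ℕ) (z : List L →₀ (Fin r → AddMonoidAlgebra K L)) :
    ∑ p, Finsupp.mapRange (LinearMap.single (AddMonoidAlgebra K L)
      (fun _ : Fin r => AddMonoidAlgebra K L) p)
    (LinearMap.map_zero _) ((Finsupp.mapRange (LinearMap.proj (R := AddMonoidAlgebra K L)
      (φ := fun _ : Fin r => AddMonoidAlgebra K L) p) (LinearMap.map_zero _) z)) = z := by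
  refine Finsupp.ext fun w => ?_
  rw [Finsupp.finset_sum_apply]
  simp only [Finsupp.mapRange_apply]
  funext q
  simp [Finset.sum_apply, Pi.single_apply]

include h0 in
theorem contr_F (r : ℕ) {k : ℕ} {z : List L →₀ (Fin r → AddMonoidAlgebra K L)}
    (hz : z ∈ Finsupp.supported (Fin r → AddMonoidAlgebra K L) K (Wk L (k + 1)))
    (hD : DD K (Fin r → AddMonoidAlgebra K L) z = 0) :
    ∃ y ∈ Finsupp.supported (Fin r → AddMonoidAlgebra K L) K (Wk L (k + 2)),
      DD K (Fin r → AddMonoidAlgebra K L) y = z := by
  refine ⟨sF K r z, ?_, ?_⟩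
  · refine Submodule.sum_mem _ fun p _ => ?_
    exact mapRange_mem K _ _ (sR_mem K (mapRange_mem K _ _ hz))
  · rw [sF, map_sum]
    conv_rhs => rw [← sum_single_proj K r z]
    refine Finset.sum_congr rfl fun p _ => ?_
    rw [DD_mapRange, contr_R K deg h0 (mapRange_mem K _ _ hz)]
    rw [DD_mapRange, hD]
    simp

theorem DD_sR_nil (x : AddMonoidAlgebra K L) :
    DD K (AddMonoidAlgebra K L) (sR K (single [] x)) =
      single [] (x - AddMonoidAlgebra.single 0 (x.coeff 0)) := by
  classical
  induction x using AddMonoidAlgebra.induction_linear with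
  | zero => simp
  | add x y hx hy =>
    rw [Finsupp.single_add, map_add, map_add, hx, hy, ← Finsupp.single_add,
      AddMonoidAlgebra.coeff_add, Finsupp.add_apply, AddMonoidAlgebra.single_add]
    congr 1
    abel
  | single l c =>
    rw [sR_single]
    by_cases hl : l = 0
    · subst hl
      simp
    · rw [if_neg hl, DD_apply, PP1_cons, bd_one, act_single, add_zero]
      simp [Finsupp.single_apply, hl]

theorem contr_F0 (r : ℕ) {z : List L →₀ (Fin r → AddMonoidAlgebra K L)}
    (hz : z ∈ Finsupp.supported (Fin r → AddMonoidAlgebra K L) K (Wk L 0))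
    (hD : ∀ p, (z [] p).coeff 0 = 0) :
    ∃ y ∈ Finsupp.supported (Fin r → AddMonoidAlgebra K L) K (Wk L 1),
      DD K (Fin r → AddMonoidAlgebra K L) y = z := by
  refine ⟨sF K r z, ?_, ?_⟩
  · refine Submodule.sum_mem _ fun p _ => ?_
    exact mapRange_mem K _ _ (sR_mem K (mapRange_mem K _ _ hz))
  · rw [sF, map_sum]
    conv_rhs => rw [← sum_single_proj K r z]
    refine Finset.sum_congr rfl fun p _ => ?_
    rw [DD_mapRange]
    have h1 : Finsupp.mapRange (LinearMap.proj (R := AddMonoidAlgebra K L)
        (φ := fun _ : Fin r => AddMonoidAlgebra K L) p) (LinearMap.map_zero _) z =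
        single [] (z [] p) := by
      refine Finsupp.ext fun w => ?_
      rw [Finsupp.mapRange_apply]
      by_cases hw : w = []
      · subst hw; simp
      · rw [Finsupp.single_eq_of_ne hw]
        have : z w = 0 := by
          by_contra hne
          have : w ∈ Wk L 0 := hz (by simpa using hne)
          exact hw (List.length_eq_zero_iff.1 this.1)
        rw [this]; rfl
    rw [h1, DD_sR_nil, hD, AddMonoidAlgebra.single_zero, sub_zero]

end Contraction

section Grading

variable (K : Type) [Field K] {L : Type} [AddCommMonoid L] (deg : L →+ ℕ)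

open Classical in
/-- the projection to the component of degree `e` -/
noncomputable def prj (e : ℕ) (x : AddMonoidAlgebra K L) : AddMonoidAlgebra K L :=
  .ofCoeff (x.coeff.filter fun l => deg l = e)

theorem prj_add (e : ℕ) (x y : AddMonoidAlgebra K L) :
    prj K deg e (x + y) = prj K deg e x + prj K deg e y := by
  classical
  unfold prj
  rw [AddMonoidAlgebra.coeff_add, Finsupp.filter_add]
  rfl

theorem prj_zero (e : ℕ) : prj K deg e (0 : AddMonoidAlgebra K L) = 0 := by
  classical
  unfold prj
  rw [AddMonoidAlgebra.coeff_zero, Finsupp.filter_zero]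
  rfl

theorem prj_smul (e : ℕ) (c : K) (x : AddMonoidAlgebra K L) :
    prj K deg e (c • x) = c • prj K deg e x := by
  classical
  unfold prj
  rw [AddMonoidAlgebra.coeff_smul, Finsupp.filter_smul]
  rfl

open Classical in
theorem prj_single (e : ℕ) (l : L) (c : K) :
    prj K deg e (AddMonoidAlgebra.single l c) = if deg l = e then AddMonoidAlgebra.single l c else 0 := by
  unfold prj
  rw [AddMonoidAlgebra.coeff_single]
  split_ifs with h
  · rw [Finsupp.filter_single_of_pos (fun l => deg l = e) h]; rfl
  · rw [Finsupp.filter_single_of_neg (fun l => deg l = e) h]; rfl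

theorem prj_sum {ι : Type} (s : Finset ι) (e : ℕ) (f : ι → AddMonoidAlgebra K L) :
    prj K deg e (∑ i ∈ s, f i) = ∑ i ∈ s, prj K deg e (f i) := by
  classical
  induction s using Finset.induction_on with
  | empty => simp [prj_zero]
  | insert a s ha ih => rw [Finset.sum_insert ha, Finset.sum_insert ha, prj_add, ih]

theorem prj_mul_succ (e : ℕ) (a x : AddMonoidAlgebra K L) (ha : a ∈ linForms K L deg) :
    prj K deg (e + 1) (a * x) = a * prj K deg e x := by
  classical
  induction ha using Submodule.span_induction with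
  | mem a ha =>
    obtain ⟨b, hb, rfl⟩ := ha
    induction x using AddMonoidAlgebra.induction_linear with
    | zero => simp [prj_zero]
    | add x y hx hy => rw [mul_add, prj_add, prj_add, mul_add, hx, hy]
    | single l c =>
      rw [AddMonoidAlgebra.single_mul_single, prj_single, prj_single, map_add, hb]
      by_cases h : deg l = e
      · rw [if_pos h, if_pos (by omega), AddMonoidAlgebra.single_mul_single]
      · rw [if_neg h, if_neg (by omega), mul_zero]
  | zero => simp [prj_zero]
  | add a b _ _ ha hb => rw [add_mul, prj_add, ha, hb, add_mul]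
  | smul c a _ ha => rw [smul_mul_assoc, prj_smul, ha, smul_mul_assoc]

theorem prj_mul_zero (a x : AddMonoidAlgebra K L) (ha : a ∈ linForms K L deg) :
    prj K deg 0 (a * x) = 0 := by
  classical
  induction ha using Submodule.span_induction with
  | mem a ha =>
    obtain ⟨b, hb, rfl⟩ := ha
    induction x using AddMonoidAlgebra.induction_linear with
    | zero => simp [prj_zero]
    | add x y hx hy => rw [mul_add, prj_add, hx, hy, add_zero]
    | single l c =>
      rw [AddMonoidAlgebra.single_mul_single, prj_single, map_add, hb, if_neg (by omega)]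
  | zero => simp [prj_zero]
  | add a b _ _ ha hb => rw [add_mul, prj_add, ha, hb, add_zero]
  | smul c a _ ha => rw [smul_mul_assoc, prj_smul, ha, smul_zero]

theorem prj_coeff_ne (e : ℕ) (x : AddMonoidAlgebra K L) (l : L) (h : (prj K deg e x).coeff l ≠ 0) :
    deg l = e := by
  classical
  by_contra hne
  apply h
  unfold prj
  rw [AddMonoidAlgebra.coeff_ofCoeff, Finsupp.filter_apply, if_neg hne]

theorem prj_eq_self (e : ℕ) (x : AddMonoidAlgebra K L) (h : ∀ l, x.coeff l ≠ 0 → deg l = e) :
    prj K deg e x = x := by
  classical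
  unfold prj
  rw [Finsupp.filter_eq_self_iff _ _ |>.2 h]

theorem lift_hom {r r' : ℕ} (A : Matrix (Fin r) (Fin r') (AddMonoidAlgebra K L))
    (hA : ∀ p q, A p q ∈ linForms K L deg) (f : Fin r → AddMonoidAlgebra K L)
    (g0 : Fin r' → AddMonoidAlgebra K L) (hf : f = A.mulVec g0) (c j : ℕ)
    (hh : ∀ p l, (f p).coeff l ≠ 0 → c + deg l = j) :
    ∃ g : Fin r' → AddMonoidAlgebra K L, f = A.mulVec g ∧
      (∀ q l, (g q).coeff l ≠ 0 → c + 1 + deg l = j) ∧ (f = 0 → g = 0) := by
  classical
  by_cases hf0 : f = 0
  · exact ⟨0, by simp [hf0], by simp, fun _ => rfl⟩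
  · obtain ⟨e, he⟩ : ∃ e, c + e = j := by
      by_contra hne
      push Not at hne
      apply hf0
      funext p
      apply AddMonoidAlgebra.coeff_injective
      refine Finsupp.ext fun l => ?_
      by_contra h
      exact hne _ (hh p l h)
    have h1 : ∀ p, prj K deg e (f p) = f p := fun p =>
      prj_eq_self K deg e (f p) fun l hl => by have := hh p l hl; omega
    have h2 : ∀ p, f p = ∑ q, A p q * g0 q := fun p => by rw [hf]; rfl
    rcases e with _ | e
    · exfalso
      apply hf0
      funext p
      rw [← h1 p, h2 p, prj_sum]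
      exact Finset.sum_eq_zero fun q _ => prj_mul_zero K deg _ _ (hA p q)
    · refine ⟨fun q => prj K deg e (g0 q), ?_, ?_, fun h => absurd h hf0⟩
      · funext p
        rw [← h1 p, h2 p, prj_sum]
        exact Finset.sum_congr rfl fun q _ => prj_mul_succ K deg e _ _ (hA p q)
      · intro q l hl
        have := prj_coeff_ne K deg e _ l hl
        omega

/-- homogeneous chains -/
def HH (r c j : ℕ) (u : List L →₀ (Fin r → AddMonoidAlgebra K L)) : Prop :=
  ∀ w p l, (u w p).coeff l ≠ 0 → c + deg l + wdeg deg w = j

theorem lift_chain {r r' : ℕ} (A : Matrix (Fin r) (Fin r') (AddMonoidAlgebra K L))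
    (hA : ∀ p q, A p q ∈ linForms K L deg) (z : List L →₀ (Fin r → AddMonoidAlgebra K L))
    (W : Set (List L)) (hz : z ∈ Finsupp.supported (Fin r → AddMonoidAlgebra K L) K W)
    (hzA : ∀ w, ∃ g, z w = A.mulVec g) (c j : ℕ) (hh : HH K deg r c j z) :
    ∃ u ∈ Finsupp.supported (Fin r' → AddMonoidAlgebra K L) K W, HH K deg r' (c + 1) j u ∧
      Finsupp.mapRange A.mulVecLin (LinearMap.map_zero _) u = z := by
  classical
  have h1 : ∀ w, ∃ g : Fin r' → AddMonoidAlgebra K L, z w = A.mulVec g ∧
      (∀ q l, (g q).coeff l ≠ 0 → c + wdeg deg w + 1 + deg l = j) ∧ (z w = 0 → g = 0) := by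
    intro w
    obtain ⟨g0, hg0⟩ := hzA w
    refine lift_hom K deg A hA (z w) g0 hg0 _ j fun p l hl => ?_
    have := hh w p l hl
    omega
  choose g hg1 hg2 hg3 using h1
  refine ⟨Finsupp.onFinset z.support g fun w hw => ?_, ?_, ?_, ?_⟩
  · rw [Finsupp.mem_support_iff]
    intro h
    exact hw (hg3 w h)
  · rw [Finsupp.mem_supported]
    intro w hw
    apply hz
    exact Finsupp.support_onFinset_subset hw
  · intro w p l hl
    have := hg2 w p l hl
    omega
  · refine Finsupp.ext fun w => ?_
    rw [Finsupp.mapRange_apply, Finsupp.onFinset_apply, hg1 w]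
    rfl

theorem HH_add {r c j : ℕ} {u v : List L →₀ (Fin r → AddMonoidAlgebra K L)}
    (hu : HH K deg r c j u) (hv : HH K deg r c j v) : HH K deg r c j (u + v) := by
  intro w p l h
  rw [Finsupp.add_apply, Pi.add_apply, AddMonoidAlgebra.coeff_add, Finsupp.add_apply] at h
  by_cases h1 : (u w p).coeff l = 0
  · rw [h1, zero_add] at h
    exact hv w p l h
  · exact hu w p l h1

theorem HH_sub {r c j : ℕ} {u v : List L →₀ (Fin r → AddMonoidAlgebra K L)}
    (hu : HH K deg r c j u) (hv : HH K deg r c j v) : HH K deg r c j (u - v) := by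
  intro w p l h
  have h2 : ((u - v) w p).coeff l = (u w p).coeff l - (v w p).coeff l := by
    rw [Finsupp.sub_apply, Pi.sub_apply]
    rw [show (u w p - v w p).coeff = (u w p).coeff - (v w p).coeff from rfl, Finsupp.sub_apply]
  rw [h2] at h
  by_cases h1 : (u w p).coeff l = 0
  · rw [h1, zero_sub, neg_ne_zero] at h
    exact hv w p l h
  · exact hu w p l h1

theorem HH_zero {r c j : ℕ} : HH K deg r c j (0 : List L →₀ (Fin r → AddMonoidAlgebra K L)) := by
  intro w p l h
  simp at h

theorem mul_coeff_ne (a : L) (x : AddMonoidAlgebra K L) (l : L)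
    (h : (AddMonoidAlgebra.single a (1 : K) * x).coeff l ≠ 0) : ∃ l', a + l' = l ∧ x.coeff l' ≠ 0 := by
  classical
  rw [AddMonoidAlgebra.coeff_mul, AddMonoidAlgebra.coeff_single,
    Finsupp.sum_single_index (by simp)] at h
  obtain ⟨l', hl', h1⟩ := Finset.exists_ne_zero_of_sum_ne_zero h
  refine ⟨l', ?_, by simpa using hl'⟩
  by_contra hne
  exact h1 (if_neg hne)

theorem DD_HH {r c j : ℕ} {u : List L →₀ (Fin r → AddMonoidAlgebra K L)}
    (hu : HH K deg r c j u) : HH K deg r c j (DD K (Fin r → AddMonoidAlgebra K L) u) := by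
  classical
  have key : ∀ w : List L, ∀ n : Fin r → AddMonoidAlgebra K L,
      HH K deg r c j (single w n) → HH K deg r c j (DD K (Fin r → AddMonoidAlgebra K L) (single w n)) := by
    intro w n hn
    rw [DD_apply]
    refine HH_sub K deg ?_ ?_
    · cases w with
      | nil => rw [PP1_nil]; exact HH_zero K deg
      | cons a w =>
        rw [PP1_cons]
        intro w' p l h
        by_cases hw : w' = w
        · subst hw
          rw [Finsupp.single_eq_same] at h
          obtain ⟨l', rfl, hl'⟩ := mul_coeff_ne K a (n p) l h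
          have := hn (a :: w') p l' (by rwa [Finsupp.single_eq_same])
          unfold wdeg at this ⊢
          rw [List.sum_cons, map_add] at this
          rw [map_add]
          omega
        · rw [Finsupp.single_eq_of_ne hw] at h
          simp at h
    · intro w' p l h
      rw [ext_single_apply] at h
      have h1 : dl K (one2 K) w w' ≠ 0 := by
        intro h2
        rw [h2, zero_smul] at h
        simp at h
      have h2 := (dl_support K w w' (Finsupp.mem_support_iff.2 h1)).2.1
      have h3 : (n p).coeff l ≠ 0 := by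
        intro h4
        apply h
        rw [Pi.smul_apply, AddMonoidAlgebra.coeff_smul, Finsupp.smul_apply, h4, smul_zero]
      have := hn w p l (by rwa [Finsupp.single_eq_same])
      unfold wdeg at this ⊢
      rw [h2]
      exact this
  have h1 : u = ∑ w ∈ u.support, single w (u w) := (Finsupp.sum_single u).symm
  rw [h1, map_sum]
  refine Finset.sum_induction _ (HH K deg r c j) (fun a b ha hb => HH_add K deg ha hb)
    (HH_zero K deg) fun w _ => key w _ ?_
  intro w' p l h
  by_cases hw : w' = w
  · subst hw
    rw [Finsupp.single_eq_same] at h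
    exact hu w' p l h
  · rw [Finsupp.single_eq_of_ne hw] at h
    simp at h

end Grading

section Main

variable (K : Type) [Field K] {L : Type} [AddCommMonoid L] (deg : L →+ ℕ)

theorem main_step (h0 : ∀ x, deg x = 0 → x = 0) (r : ℕ → ℕ)
    (A : ∀ i, Matrix (Fin (r i)) (Fin (r (i + 1))) (AddMonoidAlgebra K L))
    (hA : ∀ i p q, A i p q ∈ linForms K L deg)
    (hex : ∀ i, ∀ v : Fin (r (i + 1)) → AddMonoidAlgebra K L,
      (A i).mulVec v = 0 ↔ ∃ w, v = (A (i + 1)).mulVec w) (j k : ℕ) :
    ∀ (i : ℕ) (u : List L →₀ (Fin (r (i + 1)) → AddMonoidAlgebra K L)),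
      u ∈ Finsupp.supported (Fin (r (i + 1)) → AddMonoidAlgebra K L) K (Wk L k) →
      HH K deg (r (i + 1)) (i + 1) j u → j ≠ k + i + 1 →
      DD K (Fin (r i) → AddMonoidAlgebra K L)
        (Finsupp.mapRange (A i).mulVecLin (LinearMap.map_zero _) u) = 0 →
      ∃ v ∈ Finsupp.supported (Fin (r (i + 1)) → AddMonoidAlgebra K L) K (Wk L (k + 1)),
        Finsupp.mapRange (A i).mulVecLin (LinearMap.map_zero _) u =
          DD K (Fin (r i) → AddMonoidAlgebra K L)
            (Finsupp.mapRange (A i).mulVecLin (LinearMap.map_zero _) v) := by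
  induction k with
  | zero =>
    intro i u hu hH hj _
    obtain ⟨y, hy, hDy⟩ := contr_F0 K (r (i + 1)) hu (by
      intro p
      by_contra h
      have := hH [] p 0 h
      unfold wdeg at this
      simp at this
      omega)
    refine ⟨y, hy, ?_⟩
    rw [DD_mapRange, hDy]
  | succ k ih =>
    intro i u hu hH hj hD
    have h1 : DD K _ u ∈ Finsupp.supported (Fin (r (i + 1)) → AddMonoidAlgebra K L) K (Wk L k) :=
      DD_mem K deg h0 hu
    have h2 : Finsupp.mapRange (A i).mulVecLin (LinearMap.map_zero _)
        (DD K (Fin (r (i + 1)) → AddMonoidAlgebra K L) u) = 0 := by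
      rw [← DD_mapRange, hD]
    obtain ⟨u', hu', hH', hu'eq⟩ := lift_chain K deg (A (i + 1)) (hA (i + 1)) (DD K _ u) _ h1
      (by
        intro w
        refine (hex i _).1 ?_
        have := DFunLike.congr_fun h2 w
        rw [Finsupp.mapRange_apply] at this
        exact this) (i + 1) j (DD_HH K deg hH)
    obtain ⟨v', hv', hv'eq⟩ := ih (i + 1) u' hu' hH' (by omega) (by
      rw [hu'eq, DD_DD])
    have h3 : DD K (Fin (r (i + 1)) → AddMonoidAlgebra K L)
        (u - Finsupp.mapRange (A (i + 1)).mulVecLin (LinearMap.map_zero _) v') = 0 := by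
      rw [map_sub, ← hv'eq, hu'eq, sub_self]
    obtain ⟨v, hv, hDv⟩ := contr_F K deg h0 (r (i + 1)) (Submodule.sub_mem _ hu
      (mapRange_mem K _ _ hv')) h3
    refine ⟨v, hv, ?_⟩
    rw [DD_mapRange, hDv]
    refine Finsupp.ext fun w => ?_
    rw [Finsupp.mapRange_apply, Finsupp.mapRange_apply, Finsupp.sub_apply, map_sub,
      Finsupp.mapRange_apply]
    have : (A i).mulVecLin ((A (i + 1)).mulVecLin (v' w)) = 0 := (hex i _).2 ⟨v' w, rfl⟩
    rw [this, sub_zero]

theorem single_mem_ideal (hgen : AddSubmonoid.closure {b : L | deg b = 1} = ⊤) (a : L) :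
    a = 0 ∨ AddMonoidAlgebra.single a (1 : K) ∈
      Ideal.span (linForms K L deg : Set (AddMonoidAlgebra K L)) := by
  have ha : a ∈ AddSubmonoid.closure {b : L | deg b = 1} := by rw [hgen]; trivial
  induction ha using AddSubmonoid.closure_induction with
  | mem b hb => exact Or.inr (Ideal.subset_span (Submodule.subset_span ⟨b, hb, rfl⟩))
  | zero => exact Or.inl rfl
  | add a b _ _ iha ihb =>
    rcases iha with rfl | iha
    · rw [zero_add]; exact ihb
    · right
      have : AddMonoidAlgebra.single (a + b) (1 : K) =
          AddMonoidAlgebra.single b (1 : K) * AddMonoidAlgebra.single a (1 : K) := by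
        rw [AddMonoidAlgebra.single_mul_single, one_mul, add_comm]
      rw [this]
      exact Ideal.mul_mem_left _ _ iha

/-- the coefficient of `1` in the coordinate `p0` -/
noncomputable def eps0 {r : ℕ} (p0 : Fin r) : (Fin r → AddMonoidAlgebra K L) →ₗ[K] K where
  toFun f := (f p0).coeff 0
  map_add' f g := by simp
  map_smul' c f := by simp

/-- inclusion of constants -/
noncomputable def iot (r : ℕ) : K →ₗ[K] (Fin r → AddMonoidAlgebra K L) where
  toFun c := fun _ => AddMonoidAlgebra.single 0 c
  map_add' f g := by funext p; simp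
  map_smul' c f := by funext p; simp

end Main

end Res2Aux

open Res2Aux

variable (K : Type) [Field K] (L : Type) [AddCommMonoid L] (deg : L →+ ℕ)

/-- Koszulness implies off-diagonal exactness of the bar complex. -/
theorem TV_of_koszul (h0 : ∀ x, deg x = 0 → x = 0) (hfin : {b : L | deg b = 1}.Finite)
    (hgen : AddSubmonoid.closure {b : L | deg b = 1} = ⊤)
    (hK : IsKoszulAlg K (AddMonoidAlgebra K L) (linForms K L deg)) :
    TV K deg {x : L | x ≠ 0} := by
  classical
  obtain ⟨r, A, hr0, hA, hA0, hex⟩ := hK
  intro j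
  refine ODat_of_base fun k hkj z hz hDz => ?_
  -- words of length zero
  rcases k with _ | k
  · have hz0 : z = 0 := by
      refine Finsupp.ext fun w => ?_
      by_contra h
      obtain ⟨⟨a, v, rfl, _⟩, h2, _⟩ := hz (by simpa using h : w ∈ (z.support : Set (List L)))
      simp at h2
    exact ⟨0, Submodule.zero_mem _, by rw [hz0, map_zero]⟩
  have hdl : (dl0 K (one2 K) (one2 K) : List L → (List L →₀ K)) = dl K (one2 K) :=
    funext fun w => dl0_self K _ w
  have hDz' : bd K K z = 0 := by
    rw [hdl] at hDz
    exact hDz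
  have hzW : z ∈ Finsupp.supported K K (Wk L (k + 1)) := by
    intro w hw
    obtain ⟨⟨a, v, rfl, h1, h2⟩, h3, _⟩ := hz hw
    refine ⟨h3, ?_⟩
    intro x hx
    rcases List.mem_cons.1 hx with h | h
    · rw [h]; exact h1
    · exact h2 x h
  have hzj : ∀ w, z w ≠ 0 → wdeg deg w = j := by
    intro w hw
    exact (hz (by simpa using hw : w ∈ (z.support : Set (List L)))).2.2
  -- the chain `1 ⊗ z`
  set iz : List L →₀ (Fin (r 0) → AddMonoidAlgebra K L) :=
    Finsupp.mapRange (iot K (r 0)) (LinearMap.map_zero _) z with hiz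
  have hizW : iz ∈ Finsupp.supported (Fin (r 0) → AddMonoidAlgebra K L) K (Wk L (k + 1)) :=
    mapRange_mem K _ _ hzW
  have hbd : bd K (Fin (r 0) → AddMonoidAlgebra K L) iz = 0 := by
    rw [hiz, bd_mapRange, hDz']
    simp
  have hizH : HH K deg (r 0) 0 j iz := by
    intro w p l h
    rw [hiz, Finsupp.mapRange_apply] at h
    change (AddMonoidAlgebra.single (0 : L) (z w)).coeff l ≠ 0 at h
    rw [AddMonoidAlgebra.coeff_single] at h
    by_cases hl : l = 0
    · subst hl
      rw [Finsupp.single_eq_same] at h
      have := hzj w h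
      simp [this]
    · rw [Finsupp.single_eq_of_ne hl] at h
      exact absurd rfl h
  have hPid : ∀ w p, (PP1 K (Fin (r 0) → AddMonoidAlgebra K L) iz) w p ∈
      Ideal.span (linForms K L deg : Set (AddMonoidAlgebra K L)) := by
    have : ∀ y : List L →₀ K, y ∈ Finsupp.supported K K (Wk L (k + 1)) →
        ∀ w p, (PP1 K (Fin (r 0) → AddMonoidAlgebra K L)
          (Finsupp.mapRange (iot K (r 0)) (LinearMap.map_zero _) y)) w p ∈
        Ideal.span (linForms K L deg : Set (AddMonoidAlgebra K L)) := by
      intro y hy
      refine supp_induct K (W := Wk L (k + 1))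
        (P := fun y => ∀ w p, (PP1 K (Fin (r 0) → AddMonoidAlgebra K L)
          (Finsupp.mapRange (iot K (r 0)) (LinearMap.map_zero _) y)) w p ∈
        Ideal.span (linForms K L deg : Set (AddMonoidAlgebra K L))) ?_ ?_ ?_ hy
      · intro w p; simp
      · intro x y hx hy w p
        rw [Finsupp.mapRange_add', map_add]
        exact Ideal.add_mem _ (hx w p) (hy w p)
      · intro w hw n w' p
        obtain ⟨b, w, rfl⟩ := List.exists_cons_of_length_eq_add_one hw.1
        rw [Finsupp.mapRange_single, PP1_cons]
        by_cases hww : w' = w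
        · subst hww
          rw [Finsupp.single_eq_same]
          change AddMonoidAlgebra.single b (1 : K) * AddMonoidAlgebra.single (0 : L) n ∈ _
          rcases single_mem_ideal K deg hgen b with hb | hb
          · exact absurd hb (hw.2 b (by simp))
          · exact Ideal.mul_mem_right _ _ hb
        · rw [Finsupp.single_eq_of_ne hww]
          exact Ideal.zero_mem _
    exact this z hzW
  have hDiz : DD K _ iz = PP1 K (Fin (r 0) → AddMonoidAlgebra K L) iz := by
    rw [DD_apply, hbd, sub_zero]
  obtain ⟨u, hu, huH, hueq⟩ := lift_chain K deg (A 0) (hA 0)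
    (DD K (Fin (r 0) → AddMonoidAlgebra K L) iz) (Wk L k) (DD_mem K deg h0 hizW)
    (by
      intro w
      refine (hA0 _).1 ?_
      intro p
      rw [hDiz]
      exact hPid w p) 0 j (DD_HH K deg hizH)
  obtain ⟨v, hv, hveq⟩ := main_step K deg h0 r A hA hex j k 0 u hu huH (by omega) (by
    rw [hueq, DD_DD])
  rw [hueq] at hveq
  have h3 : DD K (Fin (r 0) → AddMonoidAlgebra K L)
      (iz - Finsupp.mapRange (A 0).mulVecLin (LinearMap.map_zero _) v) = 0 := by
    rw [map_sub, ← hveq, sub_self]
  obtain ⟨y, hy, hDy⟩ := contr_F K deg h0 (r 0) (Submodule.sub_mem _ hizW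
    (mapRange_mem K _ _ hv)) h3
  -- take the coefficient of `1`
  let p0 : Fin (r 0) := ⟨0, by omega⟩
  have e1 : Finsupp.mapRange (eps0 K p0) (LinearMap.map_zero _) iz = z := by
    refine Finsupp.ext fun w => ?_
    rw [hiz, Finsupp.mapRange_apply, Finsupp.mapRange_apply]
    change (AddMonoidAlgebra.single (0 : L) (z w)).coeff 0 = z w
    simp
  have e2 : ∀ w, eps0 K p0 ((A 0).mulVecLin (v w)) = 0 := by
    intro w
    change (((A 0).mulVec (v w)) p0).coeff 0 = 0
    by_contra h
    have h4 : ((A 0).mulVec (v w)) p0 = ∑ q, A 0 p0 q * v w q := rfl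
    have h5 : prj K deg 0 (((A 0).mulVec (v w)) p0) = 0 := by
      rw [h4, prj_sum]
      exact Finset.sum_eq_zero fun q _ => prj_mul_zero K deg _ _ (hA 0 p0 q)
    apply h
    have h6 : (prj K deg 0 (((A 0).mulVec (v w)) p0)).coeff 0 =
        (((A 0).mulVec (v w)) p0).coeff 0 := by
      unfold prj
      rw [AddMonoidAlgebra.coeff_ofCoeff, Finsupp.filter_apply, if_pos (map_zero deg)]
    rw [← h6, h5]
    simp
  have e3 : ∀ y : List L →₀ (Fin (r 0) → AddMonoidAlgebra K L),
      y ∈ Finsupp.supported (Fin (r 0) → AddMonoidAlgebra K L) K (Wk L (k + 2)) →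
      Finsupp.mapRange (eps0 K p0) (LinearMap.map_zero _)
        (PP1 K (Fin (r 0) → AddMonoidAlgebra K L) y) = 0 := by
    intro y hy
    refine supp_induct K (W := Wk L (k + 2))
      (P := fun y => Finsupp.mapRange (eps0 K p0) (LinearMap.map_zero _)
        (PP1 K (Fin (r 0) → AddMonoidAlgebra K L) y) = 0) ?_ ?_ ?_ hy
    · simp
    · intro x y hx hy
      rw [map_add, Finsupp.mapRange_add', hx, hy, add_zero]
    · intro w hw n
      obtain ⟨b, w, rfl⟩ := List.exists_cons_of_length_eq_add_one hw.1
      rw [PP1_cons, Finsupp.mapRange_single]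
      have : eps0 K p0 (act K (Fin (r 0) → AddMonoidAlgebra K L) b n) = 0 := by
        change (AddMonoidAlgebra.single b (1 : K) * n p0).coeff 0 = 0
        by_contra h
        obtain ⟨l', hl', _⟩ := mul_coeff_ne K b (n p0) 0 h
        exact add_ne_zero' deg h0 (hw.2 b (by simp)) hl'
      rw [this, Finsupp.single_zero]
  have e4 : z = bd K K (- Finsupp.mapRange (eps0 K p0) (LinearMap.map_zero _) y) := by
    have h5 := congrArg (Finsupp.mapRange (eps0 K p0) (LinearMap.map_zero _)) hDy
    have hsub : ∀ x y : List L →₀ (Fin (r 0) → AddMonoidAlgebra K L),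
        Finsupp.mapRange (eps0 K p0) (LinearMap.map_zero _) (x - y) =
        Finsupp.mapRange (eps0 K p0) (LinearMap.map_zero _) x -
        Finsupp.mapRange (eps0 K p0) (LinearMap.map_zero _) y := by
      intro x y
      exact Finsupp.ext fun u => by simp
    rw [DD_apply, hsub, hsub, e3 y hy, e1, ← bd_mapRange] at h5
    have h6 : Finsupp.mapRange (eps0 K p0) (LinearMap.map_zero _)
        (Finsupp.mapRange (A 0).mulVecLin (LinearMap.map_zero _) v) = 0 := by
      refine Finsupp.ext fun w => ?_
      rw [Finsupp.mapRange_apply, Finsupp.mapRange_apply, e2 w]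
      rfl
    rw [h6, sub_zero, zero_sub] at h5
    rw [map_neg, h5]
  set y1 : List L →₀ K := - Finsupp.mapRange (eps0 K p0) (LinearMap.map_zero _) y with hy1
  have hy1W : y1 ∈ Finsupp.supported K K (Wk L (k + 2)) :=
    Submodule.neg_mem _ (mapRange_mem K _ _ hy)
  -- project to degree `j`
  have hsplit : y1 = y1.filter (fun w => wdeg deg w = j) + y1.filter (fun w => ¬ wdeg deg w = j) :=
    (Finsupp.filter_add_filter_not _ _).symm
  have hW : ∀ (p : List L → Prop) [DecidablePred p], ∀ w ∈ (y1.filter p).support,
      w ∈ Wk L (k + 2) ∧ p w := by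
    intro p _ w hw
    rw [Finsupp.support_filter, Finset.mem_filter] at hw
    exact ⟨hy1W hw.1, hw.2⟩
  refine ⟨y1.filter (fun w => wdeg deg w = j), ?_, ?_⟩
  · intro w hw
    obtain ⟨⟨h1, h2⟩, h3⟩ := hW (fun w => wdeg deg w = j) w (Finset.mem_coe.1 hw)
    obtain ⟨b, w, rfl⟩ := List.exists_cons_of_length_eq_add_one h1
    exact ⟨⟨b, w, rfl, h2 b (by simp), fun x hx => h2 x (by simp [hx])⟩, h1, h3⟩
  · rw [hdl]
    have f1 : bd K K (y1.filter (fun w => wdeg deg w = j)) ∈
        Finsupp.supported K K {w : List L | wdeg deg w = j} := by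
      refine ext_mem_supported _ _ (X := {w : List L | wdeg deg w = j}) ?_ ?_
      · intro w hw w' hw'
        have := (Res2Aux.dl_support K w w' hw').2.1
        unfold wdeg at hw ⊢
        rw [Set.mem_setOf_eq, this]
        exact hw
      · intro w hw
        exact (hW (fun w => wdeg deg w = j) w (Finset.mem_coe.1 hw)).2
    have f2 : bd K K (y1.filter (fun w => ¬ wdeg deg w = j)) ∈
        Finsupp.supported K K {w : List L | ¬ wdeg deg w = j} := by
      refine ext_mem_supported _ _ (X := {w : List L | ¬ wdeg deg w = j}) ?_ ?_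
      · intro w hw w' hw'
        have := (Res2Aux.dl_support K w w' hw').2.1
        unfold wdeg at hw ⊢
        rw [Set.mem_setOf_eq, this]
        exact hw
      · intro w hw
        exact (hW (fun w => ¬ wdeg deg w = j) w (Finset.mem_coe.1 hw)).2
    have f3 : z = bd K K (y1.filter (fun w => wdeg deg w = j)) +
        bd K K (y1.filter (fun w => ¬ wdeg deg w = j)) := by
      rw [← map_add, ← hsplit]
      exact e4
    refine Finsupp.ext fun w => ?_
    have f4 := DFunLike.congr_fun f3 w
    rw [Finsupp.add_apply] at f4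
    by_cases hw : wdeg deg w = j
    · have f5 : (bd K K (y1.filter (fun w => ¬ wdeg deg w = j))) w = 0 := by
        by_contra h
        exact (f2 (by simpa using h : w ∈ ((bd K K (y1.filter
          (fun w => ¬ wdeg deg w = j))).support : Set (List L)))) hw
      rw [f4, f5, add_zero]
    · have f5 : (bd K K (y1.filter (fun w => wdeg deg w = j))) w = 0 := by
        by_contra h
        exact hw (f1 (by simpa using h : w ∈ ((bd K K (y1.filter
          (fun w => wdeg deg w = j))).support : Set (List L))))
      have f6 : z w = 0 := by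
        by_contra h
        exact hw (hzj w h)
      rw [f6]
      exact f5

end MP7ea278
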