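import Pool.Agent.Lib.MP_7ea278_ag.BaseRingIso
import Pool.Agent.Lib.MP_7ea278_ag.Res2
import Pool.Agent.Lib.MP_7ea278_ag.PDefs
import Pool.Agent.Lib.MP_7ea278_ag.Transport

namespace MP7ea278

/-- cast to the ambient monoid -/
def ringCast (n : ℕ) : ℕ × (Fin n → ℕ) →+ Amb n where
  toFun x := (x.1, castZ x.2)
  map_zero' := by
    refine Prod.ext rfl ?_
    funext i
    simp [castZ]
  map_add' x y := by
    refine Prod.ext rfl ?_
    funext i
    simp [castZ]

theorem ringCast_injective (n : ℕ) : Function.Injective (ringCast n) := by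
  rintro ⟨k, u⟩ ⟨l, v⟩ h
  simp only [ringCast, AddMonoidHom.coe_mk, ZeroHom.coe_mk, Prod.mk.injEq] at h
  obtain ⟨h1, h2⟩ := h
  refine Prod.ext h1 ?_
  funext i
  have := congrFun h2 i
  simpa [castZ] using this

theorem LB_height {n : ℕ} (B : Finset (Fin n → ℕ)) {x : ℕ × (Fin n → ℕ)} (hx : x ∈ LB B) :
    (x.1 = 0 → x = 0) ∧ (x.1 = 1 → x.2 ∈ B) := by
  unfold LB at hx
  induction hx using AddSubmonoid.closure_induction with
  | mem x hx =>
    obtain ⟨b, hb, rfl⟩ := hx
    exact ⟨fun h => absurd h one_ne_zero, fun _ => hb⟩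
  | zero => exact ⟨fun _ => rfl, fun h => absurd h zero_ne_one⟩
  | add x y _ _ ihx ihy =>
    constructor
    · intro h
      have h' : x.1 + y.1 = 0 := h
      rw [ihx.1 (by omega), ihy.1 (by omega), add_zero]
    · intro h
      have h' : x.1 + y.1 = 1 := h
      rcases Nat.eq_zero_or_pos x.1 with h0 | h0
      · rw [ihx.1 h0, zero_add]
        exact ihy.2 (by omega)
      · have hy0 : y.1 = 0 := by omega
        rw [ihy.1 hy0, add_zero]
        exact ihx.2 (by omega)

theorem degLB_apply {n : ℕ} (B : Finset (Fin n → ℕ)) (x : LB B) : degLB B x = x.1.1 := rfl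

theorem degLB_eq_zero {n : ℕ} (B : Finset (Fin n → ℕ)) (x : LB B) (h : degLB B x = 0) : x = 0 :=
  Subtype.ext ((LB_height B x.2).1 h)

/-- Koszulness of the base ring in terms of the bar complex. -/
theorem koszul_iff_TV (K : Type) [Field K] {n : ℕ} (B : Finset (Fin n → ℕ)) (d : ℕ) (hd : 0 < d)
    (hB : ∀ b ∈ B, ∑ i, b i = d) :
    IsKoszulAlg K (BaseRing K B) (degOne K B) ↔
      TV K (dg n) (Sg (castZ '' (B : Set (Fin n → ℕ)))) := by
  have h0 := degLB_eq_zero B
  have hfin : {b : LB B | degLB B b = 1}.Finite := by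
    have h1 : ((fun b => ((1 : ℕ), b)) '' (B : Set (Fin n → ℕ))).Finite := B.finite_toSet.image _
    refine (h1.preimage (Subtype.val_injective (p := fun x => x ∈ LB B)).injOn).subset ?_
    intro x hx
    exact ⟨x.1.2, (LB_height B x.2).2 hx, Prod.ext (Eq.symm hx) rfl⟩
  have hgen : AddSubmonoid.closure {b : LB B | degLB B b = 1} = ⊤ := by
    rw [eq_top_iff]
    have h1 : AddSubmonoid.closure (((↑) : LB B → ℕ × (Fin n → ℕ)) ⁻¹'
        ((fun b => ((1 : ℕ), b)) '' (B : Set (Fin n → ℕ)))) = ⊤ :=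
      AddSubmonoid.closure_closure_coe_preimage
    rw [← h1]
    apply AddSubmonoid.closure_mono
    rintro x ⟨b, _, hb⟩
    change x.1.1 = 1
    rw [← hb]
  rw [baseRing_iff K B d hd hB]
  have h2 : IsKoszulAlg K (AddMonoidAlgebra K (LB B)) (linForms K (LB B) (degLB B)) ↔
      TV K (degLB B) {x : LB B | x ≠ 0} :=
    ⟨fun h => TV_of_koszul K (LB B) (degLB B) h0 hfin hgen h,
      fun h => koszul_of_TV K (LB B) (degLB B) h0 hfin hgen h⟩
  rw [h2]
  have himg : ((ringCast n).comp (LB B).subtype) '' {x : LB B | x ≠ 0} =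
      Sg (castZ '' (B : Set (Fin n → ℕ))) := by
    have hmap : (LB B).map (ringCast n) =
        AddSubmonoid.closure ((fun g => ((1 : ℕ), g)) '' (castZ '' (B : Set (Fin n → ℕ)))) := by
      unfold LB
      rw [AddMonoidHom.map_mclosure, Set.image_image, Set.image_image]
      rfl
    ext y
    constructor
    · rintro ⟨x, hx, rfl⟩
      refine ⟨?_, ?_⟩
      · rw [← hmap]
        exact ⟨x.1, x.2, rfl⟩
      · intro h
        apply hx
        have h3 : ringCast n x.1 = ringCast n 0 := by rw [map_zero]; exact h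
        exact Subtype.ext (ringCast_injective n h3)
    · rintro ⟨hy, hy0⟩
      rw [← hmap] at hy
      obtain ⟨x, hx, rfl⟩ := hy
      refine ⟨⟨x, hx⟩, ?_, rfl⟩
      intro h
      apply hy0
      have h3 : x = 0 := congrArg Subtype.val h
      rw [h3, map_zero]
  rw [← himg]
  refine (TV_image (degLB B) (dg n) ((ringCast n).comp (LB B).subtype) ?_ ?_ ?_).symm
  · intro a ha b hb hab
    apply ha
    apply h0
    have h3 : degLB B a + degLB B b = 0 := by rw [← map_add, hab, map_zero]
    omega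
  · intro a _ b _ hab
    exact Subtype.ext (ringCast_injective n hab)
  · intro x _
    rfl

end MP7ea278
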