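import Pool.Agent.Lib.MP_7ea278_ag.Defs

namespace MP7ea278

private theorem rc_mulVec {R R' : Type} [CommRing R] [CommRing R'] (e : R →+* R') {a b : ℕ}
    (M : Matrix (Fin a) (Fin b) R) (w : Fin b → R) :
    (M.map e).mulVec (fun j => e (w j)) = fun i => e (M.mulVec w i) := by
  funext i
  exact (RingHom.map_mulVec e M w i).symm

private theorem rc_span {K R R' : Type} [Field K] [CommRing R] [Algebra K R] [CommRing R']
    [Algebra K R'] (e : R ≃ₐ[K] R') (V : Submodule K R) (V' : Submodule K R')
    (hV : V.map e.toLinearMap = V') (x : R) (hx : x ∈ Ideal.span (V : Set R)) :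
    e x ∈ Ideal.span (V' : Set R') := by
  have h1 := Ideal.mem_map_of_mem (e : R →+* R') hx
  rw [Ideal.map_span] at h1
  refine Ideal.span_mono ?_ h1
  rintro _ ⟨v, hv, rfl⟩
  rw [← hV]
  exact ⟨v, hv, rfl⟩

private theorem rc_map {K R R' : Type} [Field K] [CommRing R] [Algebra K R] [CommRing R']
    [Algebra K R'] (e : R ≃ₐ[K] R') (V : Submodule K R) (V' : Submodule K R')
    (hV : V.map e.toLinearMap = V') (hV2 : V'.map e.symm.toLinearMap = V)
    (h : IsKoszulAlg K R V) : IsKoszulAlg K R' V' := by
  obtain ⟨r, A, h0, hA, hA0, hex⟩ := h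
  refine ⟨r, fun i => (A i).map (e : R →+* R'), h0, ?_, ?_, ?_⟩
  · intro i p q
    rw [← hV]
    exact ⟨A i p q, hA i p q, rfl⟩
  · intro v
    constructor
    · intro hv
      have h1 : ∀ p, e.symm (v p) ∈ Ideal.span (V : Set R) := fun p =>
        rc_span e.symm V' V hV2 (v p) (hv p)
      obtain ⟨w, hw⟩ := (hA0 fun p => e.symm (v p)).mp h1
      refine ⟨fun j => e (w j), ?_⟩
      have h2 := rc_mulVec (e : R →+* R') (A 0) w
      refine Eq.trans ?_ h2.symm
      rw [← hw]
      funext p
      exact (e.apply_symm_apply (v p)).symm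
    · rintro ⟨w, hw⟩ p
      have h2 := rc_mulVec (e : R →+* R') (A 0) (fun j => e.symm (w j))
      have h3 : (fun j => (e : R →+* R') (e.symm (w j))) = w := by
        funext j
        exact e.apply_symm_apply (w j)
      rw [h3] at h2
      rw [hw, h2]
      exact rc_span e V V' hV _ ((hA0 _).mpr ⟨_, rfl⟩ p)
  · intro i v
    constructor
    · intro hv
      have h2 := rc_mulVec (e : R →+* R') (A i) (fun j => e.symm (v j))
      have h3 : (fun j => (e : R →+* R') (e.symm (v j))) = v := by
        funext j
        exact e.apply_symm_apply (v j)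
      rw [h3] at h2
      rw [hv] at h2
      have h4 : (A i).mulVec (fun j => e.symm (v j)) = 0 := by
        funext p
        have h5 := congrFun h2 p
        simp only [Pi.zero_apply] at h5
        have h6 : e ((A i).mulVec (fun j => e.symm (v j)) p) = 0 := h5.symm
        exact (map_eq_zero_iff e e.injective).mp h6
      obtain ⟨w, hw⟩ := (hex i _).mp h4
      refine ⟨fun j => e (w j), ?_⟩
      have h7 := rc_mulVec (e : R →+* R') (A (i + 1)) w
      refine Eq.trans ?_ h7.symm
      rw [← hw]
      funext p
      exact (e.apply_symm_apply (v p)).symm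
    · rintro ⟨w, hw⟩
      have h2 := rc_mulVec (e : R →+* R') (A (i + 1)) (fun j => e.symm (w j))
      have h3 : (fun j => (e : R →+* R') (e.symm (w j))) = w := by
        funext j
        exact e.apply_symm_apply (w j)
      rw [h3] at h2
      have h4 : (A i).mulVec ((A (i + 1)).mulVec fun j => e.symm (w j)) = 0 :=
        (hex i _).mpr ⟨_, rfl⟩
      rw [hw, h2, rc_mulVec, h4]
      funext p
      exact map_zero _

/-- Koszulness is invariant under isomorphism. -/
theorem IsKoszulAlg.congr {K R R' : Type} [Field K] [CommRing R] [Algebra K R] [CommRing R']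
    [Algebra K R'] (e : R ≃ₐ[K] R') (V : Submodule K R) (V' : Submodule K R')
    (hV : V.map e.toLinearMap = V') : IsKoszulAlg K R V ↔ IsKoszulAlg K R' V' := by
  have hV2 : V'.map e.symm.toLinearMap = V := by
    rw [← hV]
    ext x
    constructor
    · rintro ⟨_, ⟨y, hy, rfl⟩, rfl⟩
      have h : e.symm.toLinearMap (e.toLinearMap y) = y := e.symm_apply_apply y
      rw [h]
      exact hy
    · intro hx
      exact ⟨e x, ⟨x, hx, rfl⟩, e.symm_apply_apply x⟩
  exact ⟨rc_map e V V' hV hV2, rc_map e.symm V' V hV2 (by simpa using hV)⟩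

end MP7ea278
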