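import Pool.Agent.Lib.MP_7ea278_ag.WordsDef

namespace MP7ea278

open Finsupp

section Shuffle

variable (K : Type) [CommRing K] {M : Type} [AddCommMonoid M]

/-- Signed shuffle product of two words. -/
noncomputable def sh : List M → List M → (List M →₀ K)
  | [], v => single v 1
  | a :: u, [] => single (a :: u) 1
  | a :: u, b :: v => (sh u (b :: v)).mapDomain (List.cons a) +
      ((-1 : K) ^ (u.length + 1)) • (sh (a :: u) v).mapDomain (List.cons b)
termination_by u v => u.length + v.length

/-- Bilinear extension of the shuffle product. -/
noncomputable def shE (x y : List M →₀ K) : List M →₀ K :=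
  x.sum fun u a => y.sum fun v b => (a * b) • sh K u v

variable {K}

theorem sh_nil_left (v : List M) : sh K [] v = single v 1 := by rw [sh]

theorem sh_nil_right (u : List M) : sh K u [] = single u 1 := by
  cases u with
  | nil => rw [sh]
  | cons a u => rw [sh]

theorem sh_cons_cons (a : M) (u : List M) (b : M) (v : List M) :
    sh K (a :: u) (b :: v) = (sh K u (b :: v)).mapDomain (List.cons a) +
      ((-1 : K) ^ (u.length + 1)) • (sh K (a :: u) v).mapDomain (List.cons b) := by
  rw [sh]

theorem shE_single_right (x : List M →₀ K) (v : List M) :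
    shE K x (single v 1) = ext K (fun u => sh K u v) K x := by
  classical
  refine Finsupp.ext fun w => ?_
  rw [shE, ext_apply, Finsupp.sum_apply]
  refine Finsupp.sum_congr fun u _ => ?_
  rw [Finsupp.sum_single_index (by simp)]
  simp [mul_comm]

theorem shE_single_left (u : List M) (y : List M →₀ K) :
    shE K (single u 1) y = ext K (sh K u) K y := by
  classical
  refine Finsupp.ext fun w => ?_
  rw [shE, ext_apply, Finsupp.sum_single_index (by simp), Finsupp.sum_apply]
  refine Finsupp.sum_congr fun v _ => ?_
  simp [mul_comm]

/-- `mapDomain` after an extension. -/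
theorem shf_mapDomain_ext' {Ω Ω' Ω'' : Type} (f : Ω' → Ω'') (φ : Ω → Ω' →₀ K) (x : Ω →₀ K) :
    Finsupp.mapDomain f (ext K φ K x) = ext K (fun ω => Finsupp.mapDomain f (φ ω)) K x := by
  rw [← ext_single_fun (K := K) K f, ext_ext]
  congr 2
  funext ω
  rw [ext_single_fun]

/-- An extension after `mapDomain`. -/
theorem shf_ext_mapDomain' {Ω Ω' Ω'' : Type} (f : Ω → Ω') (φ : Ω' → Ω'' →₀ K) (x : Ω →₀ K) :
    ext K φ K (Finsupp.mapDomain f x) = ext K (fun ω => φ (f ω)) K x := by
  rw [← ext_single_fun (K := K) K f, ext_ext]
  congr 2
  funext ω
  rw [ext_single_one]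

/-- multiplication of the first letter by `a` -/
noncomputable def shf_mu1 (a : M) : List M → (List M →₀ K)
  | [] => 0
  | b :: v => single ((a + b) :: v) 1

theorem shf_dl_cons (a : M) (w : List M) :
    dl K (one2 K) (a :: w) = shf_mu1 a w - (dl K (one2 K) w).mapDomain (List.cons a) := by
  cases w with
  | nil => simp [dl, shf_mu1]
  | cons b v => simp [dl, shf_mu1, one2]

theorem shf_dl_length (w : List M) :
    dl K (one2 K) w ∈ Finsupp.supported K K {v : List M | v.length + 1 = w.length} := by
  classical
  induction w with
  | nil => simp [dl]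
  | cons a w ih =>
    rw [shf_dl_cons]
    refine Submodule.sub_mem _ ?_ ?_
    · cases w with
      | nil => simp [shf_mu1]
      | cons b v =>
        simp only [shf_mu1]
        exact Finsupp.single_mem_supported K _ (by simp)
    · rw [Finsupp.mem_supported]
      intro v hv
      have := Finsupp.mapDomain_support hv
      obtain ⟨v', hv', rfl⟩ := Finset.mem_image.1 this
      have := ih hv'
      simp only [Set.mem_ofPred_eq] at this ⊢
      simp [this]

theorem shf_D_cons (a : M) (x : List M →₀ K) :
    ext K (dl K (one2 K)) K (x.mapDomain (List.cons a)) =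
      ext K (shf_mu1 a) K x - (ext K (dl K (one2 K)) K x).mapDomain (List.cons a) := by
  rw [shf_ext_mapDomain', shf_mapDomain_ext', ← ext_sub_fun]
  congr 2
  funext w
  exact shf_dl_cons a w

theorem shf_mu_cons (a b : M) (x : List M →₀ K) :
    ext K (shf_mu1 a) K (x.mapDomain (List.cons b)) = x.mapDomain (List.cons (a + b)) := by
  rw [shf_ext_mapDomain', ← ext_single_fun (K := K) K]
  rfl

theorem shf_L_cons (a b : M) (v : List M) (n : ℕ) {x : List M →₀ K}
    (hx : x ∈ Finsupp.supported K K {w : List M | w.length + 1 = n}) :
    ext K (fun u => sh K u (b :: v)) K (x.mapDomain (List.cons a)) =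
      (ext K (fun u => sh K u (b :: v)) K x).mapDomain (List.cons a) +
      ((-1 : K) ^ n) • (ext K (fun u => sh K u v) K (x.mapDomain (List.cons a))).mapDomain
        (List.cons b) := by
  rw [shf_ext_mapDomain', shf_mapDomain_ext', shf_ext_mapDomain', shf_mapDomain_ext', ← ext_smul_fun,
    ← ext_add_fun]
  refine ext_congr _ _ (X := {w : List M | w.length + 1 = n}) ?_ hx
  intro w hw
  simp only [Set.mem_ofPred_eq] at hw
  rw [sh_cons_cons, hw]

theorem shf_R_cons (a b : M) (u : List M) (y : List M →₀ K) :
    ext K (sh K (a :: u)) K (y.mapDomain (List.cons b)) =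
      (ext K (sh K u) K (y.mapDomain (List.cons b))).mapDomain (List.cons a) +
      ((-1 : K) ^ (u.length + 1)) • (ext K (sh K (a :: u)) K y).mapDomain (List.cons b) := by
  rw [shf_ext_mapDomain', shf_ext_mapDomain', shf_mapDomain_ext', shf_mapDomain_ext', ← ext_smul_fun,
    ← ext_add_fun]
  congr 2
  funext w
  rw [sh_cons_cons]

theorem sh_key (a b : M) (u v : List M) :
    ext K (shf_mu1 a) K (sh K u (b :: v)) +
      ((-1 : K) ^ (u.length + 1)) • ext K (shf_mu1 b) K (sh K (a :: u) v) +
      ((-1 : K) ^ (u.length + 1)) • (ext K (sh K u) K (shf_mu1 b v)).mapDomain (List.cons a) -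
      ((-1 : K) ^ (u.length + 1)) • (ext K (fun u => sh K u v) K (shf_mu1 a u)).mapDomain
        (List.cons b) -
      ext K (fun u => sh K u (b :: v)) K (shf_mu1 a u) -
      ((-1 : K) ^ (u.length + 1)) • ext K (sh K (a :: u)) K (shf_mu1 b v) = 0 := by
  have hsq : ∀ n : ℕ, ((-1 : K) ^ n) * ((-1 : K) ^ n) = 1 := by
    intro n; rw [← mul_pow]; simp
  cases u with
  | nil =>
    cases v with
    | nil =>
      simp only [shf_mu1, sh_nil_left, sh_nil_right, ext_single_one, map_zero,
        Finsupp.mapDomain_zero, smul_zero, List.length_nil]
      rw [add_comm a b]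
      simp
    | cons c w =>
      simp only [shf_mu1, sh_nil_left, sh_cons_cons, ext_single_one, map_zero, map_add, map_smul,
        shf_mu_cons, Finsupp.mapDomain_zero, smul_zero, List.length_nil, Finsupp.mapDomain_single]
      rw [add_comm a b]
      simp only [zero_add, pow_one, neg_smul, one_smul, sub_zero]
      abel
  | cons a' u =>
    cases v with
    | nil =>
      simp only [shf_mu1, sh_nil_right, sh_cons_cons, ext_single_one, map_zero, map_add, map_smul,
        shf_mu_cons, Finsupp.mapDomain_zero, smul_zero, List.length_cons, Finsupp.mapDomain_single]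
      rw [add_comm b a, pow_succ (-1 : K) (u.length + 1)]
      simp only [mul_neg, mul_one, neg_smul]
      abel
    | cons c w =>
      simp only [shf_mu1, sh_cons_cons, ext_single_one, map_add, map_smul,
        shf_mu_cons, List.length_cons, smul_add, smul_smul, hsq, one_smul]
      rw [add_comm b a, pow_succ (-1 : K) (u.length + 1)]
      simp only [mul_neg, mul_one, neg_smul]
      abel

theorem dl_sh_aux (n : ℕ) : ∀ u v : List M, u.length + v.length ≤ n →
    ext K (dl K (one2 K)) K (sh K u v) =
      ext K (fun u => sh K u v) K (dl K (one2 K) u) +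
        ((-1 : K) ^ u.length) • ext K (sh K u) K (dl K (one2 K) v) := by
  have hsq : ∀ n : ℕ, ((-1 : K) ^ n) * ((-1 : K) ^ n) = 1 := by
    intro n; rw [← mul_pow]; simp
  induction n with
  | zero =>
    intro u v h
    have hu : u = [] := List.length_eq_zero_iff.1 (by omega)
    have hv : v = [] := List.length_eq_zero_iff.1 (by omega)
    subst hu; subst hv
    simp [sh_nil_left, dl]
  | succ n ih =>
    intro u v h
    cases u with
    | nil =>
      simp only [sh_nil_left, ext_single_one, dl, map_zero, zero_add, List.length_nil, pow_zero,
        one_smul]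
      have : (sh K ([] : List M)) = fun v => single v 1 := by
        funext v; exact sh_nil_left v
      rw [this, ext_single_fun (K := K) K (fun v : List M => v)]
      exact (Finsupp.mapDomain_id).symm
    | cons a u =>
      cases v with
      | nil =>
        have h1 : (fun u : List M => sh K u []) = fun v => single v 1 := by
          funext v; exact sh_nil_right v
        rw [sh_nil_right, ext_single_one, h1, ext_single_fun (K := K) K (fun v : List M => v)]
        simp only [dl, map_zero, smul_zero, add_zero]
        exact (Finsupp.mapDomain_id).symm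
      | cons b v =>
        simp only [List.length_cons] at h
        have ih1 := ih u (b :: v) (by simp only [List.length_cons]; omega)
        have ih2 := ih (a :: u) v (by simp only [List.length_cons]; omega)
        have key := sh_key (K := K) a b u v
        have hL := shf_L_cons (K := K) a b v u.length (shf_dl_length (K := K) u)
        have hR := shf_R_cons (K := K) a b u (dl K (one2 K) v)
        have e1 : dl K (one2 K) (a :: u) = shf_mu1 a u - (dl K (one2 K) u).mapDomain (List.cons a) :=
          shf_dl_cons a u
        have e2 : dl K (one2 K) (b :: v) = shf_mu1 b v - (dl K (one2 K) v).mapDomain (List.cons b) :=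
          shf_dl_cons b v
        rw [sh_cons_cons, map_add, map_smul, shf_D_cons, shf_D_cons, ih1, ih2]
        rw [e1, e2]
        simp only [map_sub, List.length_cons, Finsupp.mapDomain_add, Finsupp.mapDomain_smul,
          Finsupp.mapDomain_sub]
        rw [hL, hR]
        rw [pow_succ] at key ⊢
        simp only [mul_neg, mul_one, neg_smul] at key ⊢
        simp only [smul_sub, smul_add, smul_neg, smul_smul, hsq, one_smul]
        linear_combination (norm := module) key

/-- Leibniz rule for the bar differential of a commutative semigroup. -/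
theorem dl_sh (u v : List M) :
    ext K (dl K (one2 K)) K (sh K u v) =
      shE K (dl K (one2 K) u) (single v 1) +
        ((-1 : K) ^ u.length) • shE K (single u 1) (dl K (one2 K) v) := by
  rw [shE_single_left, shE_single_right]
  exact dl_sh_aux _ u v le_rfl

end Shuffle

end MP7ea278
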