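import Pool.Agent.Lib.MP_7ea278_ag.FreeExt
import Pool.Agent.Lib.MP_7ea278_ag.Cut
import Pool.Agent.Lib.MP_7ea278_ag.PDefs

namespace MP7ea278

/-- the chain cone -/
def chainS (m : ℕ) : Set (Amb m) :=
  {x | 1 ≤ x.1 ∧ (∀ i, 0 ≤ x.2 i ∧ x.2 i ≤ x.1) ∧ ∀ i j, i ≤ j → x.2 i ≤ x.2 j}

theorem chainS_add {m : ℕ} {a b : Amb m} (ha : a ∈ chainS m) (hb : b ∈ chainS m) :
    a + b ∈ chainS m := by
  obtain ⟨a1, a2, a3⟩ := ha
  obtain ⟨b1, b2, b3⟩ := hb
  refine ⟨?_, fun i => ⟨?_, ?_⟩, fun i j hij => ?_⟩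
  · change 1 ≤ a.1 + b.1
    omega
  · change 0 ≤ a.2 i + b.2 i
    have := (a2 i).1
    have := (b2 i).1
    omega
  · change a.2 i + b.2 i ≤ ((a.1 + b.1 : ℕ) : ℤ)
    have := (a2 i).2
    have := (b2 i).2
    push_cast
    omega
  · change a.2 i + b.2 i ≤ a.2 j + b.2 j
    have := a3 i j hij
    have := b3 i j hij
    omega

theorem TV_empty {K : Type} [CommRing K] {M : Type} [AddCommMonoid M] (deg : M →+ ℕ) :
    TV K deg (∅ : Set M) := by
  intro j U _ _ k hk z hz _
  refine ⟨0, Submodule.zero_mem _, ?_⟩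
  rw [map_zero]
  have h1 : Hom (Wd (∅ : Set M) ∅) List.length (wdeg deg) k j = ∅ := by
    ext w
    constructor
    · rintro ⟨⟨a, v, _, ha, _⟩, _⟩
      exact ha.elim
    · exact fun h => h.elim
  rw [h1, Finsupp.supported_empty] at hz
  exact ((Submodule.mem_bot K).1 hz).symm

theorem Amb_sub {m : ℕ} (x e : Amb m) (h : e.1 ≤ x.1) : x = e + (x.1 - e.1, x.2 - e.2) := by
  refine Prod.ext ?_ ?_
  · change x.1 = e.1 + (x.1 - e.1)
    omega
  · change x.2 = e.2 + (x.2 - e.2)
    abel

/-- the inclusion of the facet `x_0 = 0` -/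
def consHom (m : ℕ) : Amb m →+ Amb (m + 1) where
  toFun x := (x.1, Fin.cons 0 x.2)
  map_zero' := by
    refine Prod.ext rfl ?_
    funext i
    refine Fin.cases ?_ (fun i => ?_) i <;> rfl
  map_add' x y := by
    refine Prod.ext rfl ?_
    funext i
    refine Fin.cases ?_ (fun i => ?_) i
    · change (0 : ℤ) = 0 + 0
      rfl
    · rfl

theorem consHom_injective (m : ℕ) : Function.Injective (consHom m) := by
  rintro ⟨k, u⟩ ⟨l, v⟩ h
  have h1 : k = l := congrArg Prod.fst h
  have h2 : (Fin.cons 0 u : Fin (m + 1) → ℤ) = Fin.cons 0 v := congrArg Prod.snd h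
  refine Prod.ext h1 ?_
  funext i
  have := congrFun h2 i.succ
  simpa using this

theorem chainS_image (m : ℕ) :
    (consHom m) '' (chainS m) = {x | x ∈ chainS (m + 1) ∧ x.2 0 = 0} := by
  ext x
  constructor
  · rintro ⟨y, ⟨y1, y2, y3⟩, rfl⟩
    refine ⟨⟨y1, ?_, ?_⟩, rfl⟩
    · intro i
      refine Fin.cases ?_ (fun i => ?_) i
      · change (0 : ℤ) ≤ 0 ∧ (0 : ℤ) ≤ (y.1 : ℤ)
        exact ⟨le_refl _, Int.natCast_nonneg _⟩
      · exact y2 i
    · intro i j
      refine Fin.cases ?_ (fun i => ?_) i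
      · refine Fin.cases ?_ (fun j => ?_) j
        · intro _
          exact le_refl _
        · intro _
          exact (y2 j).1
      · refine Fin.cases ?_ (fun j => ?_) j
        · intro h
          exact absurd h (by simp)
        · intro h
          exact y3 i j (Fin.succ_le_succ_iff.1 h)
  · rintro ⟨⟨x1, x2, x3⟩, x0⟩
    refine ⟨(x.1, fun i => x.2 i.succ), ⟨x1, fun i => x2 i.succ, fun i j h => x3 _ _
      (Fin.succ_le_succ_iff.2 h)⟩, ?_⟩
    refine Prod.ext rfl ?_
    funext i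
    refine Fin.cases ?_ (fun i => ?_) i
    · exact x0.symm
    · rfl

theorem TV_chainS {K : Type} [CommRing K] (m : ℕ) : TV K (dg m) (chainS m) := by
  induction m with
  | zero =>
    refine TV_freeExt (dg 0) (chainS 0) ∅ (fun a ha b hb => chainS_add ha hb) (fun a ha => ha.1)
      (Set.empty_subset _) ?_ (1, 0) ?_ rfl ?_ ?_ ?_ (TV_empty _)
    · intro a _ b _
      exact ⟨fun h => h.elim, fun h => h.1.elim⟩
    · exact ⟨⟨le_refl _, fun i => i.elim0, fun i => i.elim0⟩, fun h => h⟩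
    · rintro x ⟨⟨x1, _, _⟩, _⟩
      rcases Nat.lt_or_ge 1 x.1 with h | h
      · right
        refine ⟨(x.1 - 1, x.2 - 0), ⟨?_, fun i => i.elim0, fun i => i.elim0⟩, ?_⟩
        · change 1 ≤ x.1 - 1
          omega
        · exact Amb_sub x (1, 0) x1
      · left
        refine Prod.ext ?_ ?_
        · change x.1 = 1
          omega
        · funext i
          exact i.elim0
    · intro s _ t _ h
      exact add_left_cancel h
    · intro s hs h
      have h1 : 1 + s.1 = 1 := congrArg Prod.fst h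
      have h2 := hs.1
      omega
  | succ m ih =>
    have hD : TV K (dg (m + 1)) {x | x ∈ chainS (m + 1) ∧ x.2 0 = 0} := by
      rw [← chainS_image m]
      refine (TV_image (dg m) (dg (m + 1)) (consHom m) (fun a ha b hb => chainS_add ha hb)
        (consHom_injective m).injOn (fun x _ => rfl)).2 ih
    refine TV_freeExt (dg (m + 1)) (chainS (m + 1)) {x | x ∈ chainS (m + 1) ∧ x.2 0 = 0}
      (fun a ha b hb => chainS_add ha hb) (fun a ha => ha.1) (fun x hx => hx.1) ?_
      (1, fun _ => 1) ?_ rfl ?_ ?_ ?_ hD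
    · intro a ha b hb
      constructor
      · rintro ⟨_, h⟩
        have h' : a.2 0 + b.2 0 = 0 := h
        have h1 := (ha.2.1 0).1
        have h2 := (hb.2.1 0).1
        exact ⟨⟨ha, by omega⟩, ⟨hb, by omega⟩⟩
      · rintro ⟨⟨_, h1⟩, ⟨_, h2⟩⟩
        refine ⟨chainS_add ha hb, ?_⟩
        change a.2 0 + b.2 0 = 0
        rw [h1, h2, add_zero]
    · refine ⟨⟨le_refl _, fun i => ?_, fun i j _ => le_refl _⟩, fun h => ?_⟩
      · change (0 : ℤ) ≤ 1 ∧ (1 : ℤ) ≤ ((1 : ℕ) : ℤ)
        norm_num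
      · exact absurd h.2 (by norm_num)
    · rintro x ⟨⟨x1, x2, x3⟩, hx⟩
      have hx0 : 1 ≤ x.2 0 := by
        by_contra hc
        apply hx
        have := (x2 0).1
        exact ⟨⟨x1, x2, x3⟩, by omega⟩
      have hxi : ∀ i, 1 ≤ x.2 i := fun i => hx0.trans (x3 0 i (Fin.zero_le i))
      rcases Nat.lt_or_ge 1 x.1 with h | h
      · right
        refine ⟨(x.1 - 1, x.2 - fun _ => 1), ⟨?_, fun i => ⟨?_, ?_⟩, fun i j hij => ?_⟩, ?_⟩
        · change 1 ≤ x.1 - 1
          omega
        · change 0 ≤ x.2 i - 1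
          have := hxi i
          omega
        · change x.2 i - 1 ≤ ((x.1 - 1 : ℕ) : ℤ)
          have := (x2 i).2
          omega
        · change x.2 i - 1 ≤ x.2 j - 1
          have := x3 i j hij
          omega
        · exact Amb_sub x (1, fun _ => 1) x1
      · left
        refine Prod.ext ?_ ?_
        · change x.1 = 1
          omega
        · funext i
          change x.2 i = 1
          have h1 := (x2 i).2
          have h2 := hxi i
          omega
    · intro s _ t _ h
      exact add_left_cancel h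
    · intro s hs h
      have h1 : 1 + s.1 = 1 := congrArg Prod.fst h
      have h2 := hs.1
      omega

/-- The chain simplex: the cone of weakly increasing vectors between zero and the height. -/
theorem TV_chain {K : Type} [CommRing K] (m : ℕ) :
    TV K (dg m) {x | 1 ≤ x.1 ∧ (∀ i, 0 ≤ x.2 i ∧ x.2 i ≤ x.1) ∧ ∀ i j, i ≤ j → x.2 i ≤ x.2 j} :=
  TV_chainS m

end MP7ea278
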