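import Pool.Agent.Lib.MP_7ea278_ag.Interval

namespace MP7ea278

theorem sra_exists_pos {n : ℕ} {w : Fin n → ℤ} (h0 : ∀ i, 0 ≤ w i) (hs : 0 < ∑ i, w i) :
    ∃ a, 1 ≤ w a := by
  by_contra hcon
  push Not at hcon
  have h1 : ∀ i, w i = 0 := fun i => by
    have := h0 i
    have := hcon i
    omega
  rw [Finset.sum_eq_zero fun i _ => h1 i] at hs
  exact lt_irrefl _ hs

theorem sra_eq_zero {n : ℕ} {w : Fin n → ℤ} (h0 : ∀ i, 0 ≤ w i) (hs : ∑ i, w i = 0) : w = 0 := by
  funext i
  exact (Finset.sum_eq_zero_iff_of_nonneg fun i _ => h0 i).1 hs i (Finset.mem_univ i)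

/-- splitting off a unit vector -/
theorem sra_split {n : ℕ} {w : Fin n → ℤ} (h0 : ∀ i, 0 ≤ w i) {k : ℤ} (hs : ∑ i, w i = k)
    {a : Fin n} (ha : 1 ≤ w a) :
    ∃ w' : Fin n → ℤ, w = Pi.single a 1 + w' ∧ (∀ i, 0 ≤ w' i) ∧ ∑ i, w' i = k - 1 := by
  refine ⟨w - Pi.single a 1, by abel, fun i => ?_, ?_⟩
  · simp only [Pi.sub_apply]
    by_cases hi : i = a
    · subst hi
      rw [Pi.single_eq_same]
      omega
    · rw [Pi.single_eq_of_ne hi, sub_zero]
      exact h0 i
  · simp only [Pi.sub_apply]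
    rw [Finset.sum_sub_distrib, hs, Finset.sum_pi_single' a 1 Finset.univ]
    simp

theorem sra_one {n : ℕ} {w : Fin n → ℤ} (h0 : ∀ i, 0 ≤ w i) (hs : ∑ i, w i = 1) {a : Fin n}
    (ha : 1 ≤ w a) : w = Pi.single a 1 := by
  obtain ⟨w', h1, h2, h3⟩ := sra_split h0 hs ha
  rw [sub_self] at h3
  rw [h1, sra_eq_zero h2 h3, add_zero]

theorem sra_two {n : ℕ} {w : Fin n → ℤ} (h0 : ∀ i, 0 ≤ w i) (hs : ∑ i, w i = 2) {a : Fin n}
    (ha : 1 ≤ w a) : ∃ b, w = Pi.single a 1 + Pi.single b 1 := by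
  obtain ⟨w', h1, h2, h3⟩ := sra_split h0 hs ha
  obtain ⟨b, hb⟩ := sra_exists_pos h2 (by rw [h3]; norm_num)
  exact ⟨b, by rw [h1, sra_one h2 (by rw [h3]; norm_num) hb]⟩

/-- the basis property of a pair -/
def sraJ {n : ℕ} (C : Set (Fin n → ℤ)) (a b : Fin n) : Prop :=
  (Pi.single a 1 + Pi.single b 1 : Fin n → ℤ) ∈ C

theorem sraJ_symm {n : ℕ} {C : Set (Fin n → ℤ)} {a b : Fin n} (h : sraJ C a b) : sraJ C b a := by
  unfold sraJ at h ⊢
  rwa [add_comm]

/-- `a` is not a loop -/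
def sraN {n : ℕ} (C : Set (Fin n → ℤ)) (a : Fin n) : Prop := ∃ w ∈ C, 1 ≤ w a

theorem sra_trans {n : ℕ} {C : Set (Fin n → ℤ)} (hC : SymExch C)
    (h01 : ∀ u ∈ C, ∀ i, 0 ≤ u i ∧ u i ≤ 1) (hd : ∀ u ∈ C, ∑ i, u i = 2) {a b c : Fin n}
    (hac : sraJ C a c) (hb : sraN C b) : sraJ C a b ∨ sraJ C b c := by
  obtain ⟨w, hw, hwb⟩ := hb
  obtain ⟨x, hx⟩ := sra_two (fun i => (h01 w hw i).1) (hd w hw) hwb
  have hJ : sraJ C b x := by
    unfold sraJ
    rw [← hx]
    exact hw
  by_cases hxa : x = a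
  · exact Or.inl (sraJ_symm (hxa ▸ hJ))
  by_cases hxc : x = c
  · exact Or.inr (hxc ▸ hJ)
  -- exchange
  have h1 : (Pi.single a 1 + Pi.single c 1 : Fin n → ℤ) x < w x := by
    rw [hx]
    simp only [Pi.add_apply]
    rw [Pi.single_eq_of_ne hxa, Pi.single_eq_of_ne hxc, Pi.single_eq_same]
    have : (0 : ℤ) ≤ (Pi.single b 1 : Fin n → ℤ) x := by
      by_cases h : x = b
      · rw [h, Pi.single_eq_same]; norm_num
      · rw [Pi.single_eq_of_ne h]
    omega
  obtain ⟨j, hj, hj1, _⟩ := hC w hw _ hac x h1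
  have hwj := (h01 w hw j).1
  have h2 : w - Pi.single x 1 + Pi.single j 1 = Pi.single b 1 + Pi.single j 1 := by
    rw [hx]
    abel
  rw [h2] at hj1
  by_cases hja : j = a
  · subst hja
    exact Or.inl (sraJ_symm hj1)
  by_cases hjc : j = c
  · subst hjc
    exact Or.inr hj1
  · exfalso
    simp only [Pi.add_apply] at hj
    rw [Pi.single_eq_of_ne hja, Pi.single_eq_of_ne hjc] at hj
    omega

/-- the key for sorting -/
noncomputable def sraK {n : ℕ} (C : Set (Fin n → ℤ)) (a : Fin n) : ℕ := by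
  classical
  exact if sraN C a then sInf {m : ℕ | ∃ b : Fin n, b.val = m ∧ sraN C b ∧ ¬ sraJ C a b} else n

theorem sraK_of {n : ℕ} {C : Set (Fin n → ℤ)} {a : Fin n} (ha : sraN C a) :
    sraK C a = sInf {m : ℕ | ∃ b : Fin n, b.val = m ∧ sraN C b ∧ ¬ sraJ C a b} := by
  unfold sraK
  rw [if_pos ha]

theorem sra_irrefl {n : ℕ} {C : Set (Fin n → ℤ)} (h01 : ∀ u ∈ C, ∀ i, 0 ≤ u i ∧ u i ≤ 1)
    (a : Fin n) : ¬ sraJ C a a := by
  intro h
  have := (h01 _ h a).2
  simp only [Pi.add_apply] at this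
  rw [Pi.single_eq_same] at this
  norm_num at this

theorem sraK_mem {n : ℕ} {C : Set (Fin n → ℤ)} (h01 : ∀ u ∈ C, ∀ i, 0 ≤ u i ∧ u i ≤ 1)
    {a : Fin n} (ha : sraN C a) : ∃ b : Fin n, b.val = sraK C a ∧ sraN C b ∧ ¬ sraJ C a b := by
  rw [sraK_of ha]
  exact Nat.sInf_mem (s := {m : ℕ | ∃ b : Fin n, b.val = m ∧ sraN C b ∧ ¬ sraJ C a b})
    ⟨a.val, a, rfl, ha, sra_irrefl h01 a⟩

theorem sraK_eq {n : ℕ} {C : Set (Fin n → ℤ)} (hC : SymExch C)
    (h01 : ∀ u ∈ C, ∀ i, 0 ≤ u i ∧ u i ≤ 1) (hd : ∀ u ∈ C, ∑ i, u i = 2) {a b : Fin n}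
    (ha : sraN C a) (hb : sraN C b) (hab : ¬ sraJ C a b) : sraK C a = sraK C b := by
  rw [sraK_of ha, sraK_of hb]
  congr 1
  ext m
  constructor
  · rintro ⟨x, hx, hxN, hxJ⟩
    refine ⟨x, hx, hxN, fun h => ?_⟩
    rcases sra_trans hC h01 hd h ha with h1 | h1
    · exact hab (sraJ_symm h1)
    · exact hxJ h1
  · rintro ⟨x, hx, hxN, hxJ⟩
    refine ⟨x, hx, hxN, fun h => ?_⟩
    rcases sra_trans hC h01 hd h hb with h1 | h1
    · exact hab h1
    · exact hxJ h1

theorem sraK_not {n : ℕ} {C : Set (Fin n → ℤ)} (hC : SymExch C)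
    (h01 : ∀ u ∈ C, ∀ i, 0 ≤ u i ∧ u i ≤ 1) (hd : ∀ u ∈ C, ∑ i, u i = 2) {a b : Fin n}
    (ha : sraN C a) (hb : sraN C b) (hab : sraK C a = sraK C b) : ¬ sraJ C a b := by
  obtain ⟨x, hx, hxN, hxJ⟩ := sraK_mem h01 ha
  obtain ⟨y, hy, _, hyJ⟩ := sraK_mem h01 hb
  have hxy : x = y := Fin.ext (by rw [hx, hy, hab])
  subst hxy
  intro h
  rcases sra_trans hC h01 hd h hxN with h1 | h1
  · exact hxJ h1
  · exact hyJ (sraJ_symm h1)

theorem sra_isum_single {n : ℕ} (σ : Equiv.Perm (Fin n)) (x : Fin n) (i j : ℕ) :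
    isum σ (Pi.single x 1) i j = if i ≤ (σ.symm x).val ∧ (σ.symm x).val < j then 1 else 0 := by
  unfold isum
  have h1 : ∀ t : Fin n, (Pi.single x (1 : ℤ) : Fin n → ℤ) (σ t) =
      if t = σ.symm x then 1 else 0 := by
    intro t
    rw [Pi.single_apply]
    simp only [Equiv.eq_symm_apply]
  simp only [h1]
  rw [Finset.sum_ite_eq']
  simp

theorem sra_isum_add {n : ℕ} (σ : Equiv.Perm (Fin n)) (u v : Fin n → ℤ) (i j : ℕ) :
    isum σ (u + v) i j = isum σ u i j + isum σ v i j := by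
  unfold isum
  rw [← Finset.sum_add_distrib]
  rfl

theorem sra_isum_nonneg {n : ℕ} (σ : Equiv.Perm (Fin n)) (u : Fin n → ℤ) (h : ∀ i, 0 ≤ u i)
    (i j : ℕ) : 0 ≤ isum σ u i j := Finset.sum_nonneg fun t _ => h _

theorem sra_isum_total {n : ℕ} (σ : Equiv.Perm (Fin n)) (u : Fin n → ℤ) :
    isum σ u 0 n = ∑ i, u i := by
  unfold isum
  rw [Finset.filter_true_of_mem fun t _ => ⟨Nat.zero_le _, t.2⟩]
  exact Equiv.sum_comp σ u

theorem sra_isum_one {n : ℕ} (σ : Equiv.Perm (Fin n)) (u : Fin n → ℤ) (t : Fin n) :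
    isum σ u t.val (t.val + 1) = u (σ t) := by
  unfold isum
  have : Finset.univ.filter (fun s : Fin n => t.val ≤ s.val ∧ s.val < t.val + 1) = {t} := by
    ext s
    simp only [Finset.mem_filter, Finset.mem_univ, true_and, Finset.mem_singleton]
    constructor
    · rintro ⟨h1, h2⟩
      exact Fin.ext (by omega)
    · rintro rfl
      exact ⟨le_rfl, by omega⟩
  rw [this, Finset.sum_singleton]

theorem sra_isum_le {n : ℕ} (σ : Equiv.Perm (Fin n)) (u : Fin n → ℤ) (h : ∀ i, u i ≤ 1)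
    (i j : ℕ) : isum σ u i j ≤ n := by
  unfold isum
  calc ∑ t ∈ Finset.univ.filter (fun t : Fin n => i ≤ t.val ∧ t.val < j), u (σ t)
      ≤ ∑ t ∈ Finset.univ.filter (fun t : Fin n => i ≤ t.val ∧ t.val < j), (1 : ℤ) :=
        Finset.sum_le_sum fun t _ => h _
    _ = ((Finset.univ.filter (fun t : Fin n => i ≤ t.val ∧ t.val < j)).card : ℤ) := by simp
    _ ≤ n := by
        have := Finset.card_filter_le (Finset.univ : Finset (Fin n))
          (fun t : Fin n => i ≤ t.val ∧ t.val < j)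
        rw [Finset.card_univ, Fintype.card_fin] at this
        exact_mod_cast this

/-- Matroids of rank at most two are interval matroids after a relabelling. -/
theorem exists_interval_of_rank_le_two {n : ℕ} {C : Set (Fin n → ℤ)} (hC : SymExch C)
    (hne : C.Nonempty) (h01 : ∀ u ∈ C, ∀ i, 0 ≤ u i ∧ u i ≤ 1) (d : ℤ) (hd2 : d ≤ 2)
    (hd : ∀ u ∈ C, ∑ i, u i = d) :
    ∃ (σ : Equiv.Perm (Fin n)) (lo hi : ℕ → ℕ → ℤ), C = {u | ∀ i j : ℕ, i ≤ j → j ≤ n →
      lo i j ≤ isum σ u i j ∧ isum σ u i j ≤ hi i j} := by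
  classical
  set σ : Equiv.Perm (Fin n) := Tuple.sort (sraK C) with hσ
  have hmono : Monotone (sraK C ∘ σ) := Tuple.monotone_sort (sraK C)
  set V : ℕ → ℕ → Set ℤ := fun i j => (fun c => isum σ c i j) '' C with hV
  have hVb : ∀ i j, BddAbove (V i j) := by
    intro i j
    refine ⟨n, ?_⟩
    rintro _ ⟨c, hc, rfl⟩
    exact sra_isum_le σ c (fun t => (h01 c hc t).2) i j
  have hVn : ∀ i j, (V i j).Nonempty := fun i j => hne.image _
  refine ⟨σ, fun i j => if i = 0 ∧ j = n then d else 0, fun i j => sSup (V i j), ?_⟩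
  ext u
  constructor
  · intro hu i j _ _
    refine ⟨?_, le_csSup (hVb i j) ⟨u, hu, rfl⟩⟩
    dsimp only
    split_ifs with h
    · rw [h.1, h.2, sra_isum_total, hd u hu]
    · exact sra_isum_nonneg σ u (fun t => (h01 u hu t).1) i j
  · intro hu
    -- the values are attained
    have hatt : ∀ i j, i ≤ j → j ≤ n → ∃ c ∈ C, isum σ u i j ≤ isum σ c i j := by
      intro i j hij hj
      obtain ⟨c, hc, hc'⟩ := Int.csSup_mem (hVn i j) (hVb i j)
      refine ⟨c, hc, ?_⟩
      have h1 := (hu i j hij hj).2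
      dsimp only at hc' h1
      rw [hc']
      exact h1
    have hlow : ∀ t : Fin n, 0 ≤ u (σ t) := by
      intro t
      have h1 := (hu t.val (t.val + 1) (by omega) t.2).1
      dsimp only at h1
      rw [sra_isum_one] at h1
      split_ifs at h1 with h2
      · have h3 : 0 ≤ d := by
          obtain ⟨c, hc⟩ := hne
          rw [← hd c hc]
          exact Finset.sum_nonneg fun i _ => (h01 c hc i).1
        linarith
      · exact h1
    have hlow' : ∀ a, 0 ≤ u a := fun a => by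
      have := hlow (σ.symm a)
      rwa [Equiv.apply_symm_apply] at this
    have htot : ∑ i, u i = d := by
      refine le_antisymm ?_ ?_
      · obtain ⟨c, hc, h1⟩ := hatt 0 n (Nat.zero_le _) le_rfl
        rw [sra_isum_total, sra_isum_total, hd c hc] at h1
        exact h1
      · have h1 := (hu 0 n (Nat.zero_le _) le_rfl).1
        dsimp only at h1
        rw [if_pos ⟨rfl, rfl⟩, sra_isum_total] at h1
        exact h1
    have hN : ∀ a, 1 ≤ u a → sraN C a := by
      intro a ha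
      obtain ⟨c, hc, h1⟩ := hatt (σ.symm a).val ((σ.symm a).val + 1) (by omega) (σ.symm a).2
      rw [sra_isum_one, sra_isum_one, Equiv.apply_symm_apply] at h1
      exact ⟨c, hc, ha.trans h1⟩
    have hd0 : 0 ≤ d := by
      rw [← htot]
      exact Finset.sum_nonneg fun i _ => hlow' i
    have hcases : d = 0 ∨ d = 1 ∨ d = 2 := by omega
    rcases hcases with h | h | h
    · subst h
      obtain ⟨c, hc⟩ := hne
      rw [sra_eq_zero hlow' htot, ← sra_eq_zero (fun i => (h01 c hc i).1) (hd c hc)]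
      exact hc
    · subst h
      obtain ⟨a, ha⟩ := sra_exists_pos hlow' (by rw [htot]; norm_num)
      obtain ⟨c, hc, hca⟩ := hN a ha
      rw [sra_one hlow' htot ha, ← sra_one (fun i => (h01 c hc i).1) (hd c hc) hca]
      exact hc
    · subst h
      obtain ⟨a, ha⟩ := sra_exists_pos hlow' (by rw [htot]; norm_num)
      obtain ⟨b, hb⟩ := sra_two hlow' htot ha
      have key : ∀ a b : Fin n, u = Pi.single a 1 + Pi.single b 1 →
          (σ.symm a).val ≤ (σ.symm b).val → u ∈ C := by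
        intro a b hab hle
        have hua : 1 ≤ u a := by
          rw [hab]
          simp only [Pi.add_apply]
          rw [Pi.single_eq_same]
          have : (0 : ℤ) ≤ (Pi.single b 1 : Fin n → ℤ) a := by
            by_cases h : a = b
            · rw [h, Pi.single_eq_same]; norm_num
            · rw [Pi.single_eq_of_ne h]
          omega
        have hub : 1 ≤ u b := by
          rw [hab]
          simp only [Pi.add_apply]
          rw [Pi.single_eq_same]
          have : (0 : ℤ) ≤ (Pi.single a 1 : Fin n → ℤ) b := by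
            by_cases h : b = a
            · rw [h, Pi.single_eq_same]; norm_num
            · rw [Pi.single_eq_of_ne h]
          omega
        by_contra hcon
        have hJ : ¬ sraJ C a b := fun h => hcon (by rw [hab]; exact h)
        have hK := sraK_eq hC h01 hd (hN a hua) (hN b hub) hJ
        obtain ⟨c, hc, h1⟩ := hatt (σ.symm a).val ((σ.symm b).val + 1) (by omega) (σ.symm b).2
        rw [hab, sra_isum_add, sra_isum_single, sra_isum_single, if_pos ⟨le_rfl, by omega⟩,
          if_pos ⟨hle, by omega⟩] at h1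
        obtain ⟨x, hx⟩ := sra_exists_pos (fun i => (h01 c hc i).1) (by rw [hd c hc]; norm_num)
        obtain ⟨y, hy⟩ := sra_two (fun i => (h01 c hc i).1) (hd c hc) hx
        have hcy : 1 ≤ c y := by
          rw [hy]
          simp only [Pi.add_apply]
          rw [Pi.single_eq_same]
          have : (0 : ℤ) ≤ (Pi.single x 1 : Fin n → ℤ) y := by
            by_cases h : y = x
            · rw [h, Pi.single_eq_same]; norm_num
            · rw [Pi.single_eq_of_ne h]
          omega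
        rw [hy, sra_isum_add, sra_isum_single, sra_isum_single] at h1
        have hpx : (σ.symm a).val ≤ (σ.symm x).val ∧ (σ.symm x).val < (σ.symm b).val + 1 := by
          by_contra h2
          rw [if_neg h2] at h1
          split_ifs at h1 <;> omega
        have hpy : (σ.symm a).val ≤ (σ.symm y).val ∧ (σ.symm y).val < (σ.symm b).val + 1 := by
          by_contra h2
          rw [if_neg h2] at h1
          split_ifs at h1 <;> omega
        have hkey : ∀ z : Fin n, (σ.symm a).val ≤ (σ.symm z).val →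
            (σ.symm z).val < (σ.symm b).val + 1 → sraK C z = sraK C a := by
          intro z h2 h3
          have h4 := hmono (show σ.symm a ≤ σ.symm z from h2)
          have h5 := hmono (show σ.symm z ≤ σ.symm b from Nat.lt_succ_iff.1 h3)
          simp only [Function.comp_apply, Equiv.apply_symm_apply] at h4 h5
          rw [← hK] at h5
          exact le_antisymm h5 h4
        have hKxy : sraK C x = sraK C y := by
          rw [hkey x hpx.1 hpx.2, hkey y hpy.1 hpy.2]
        refine sraK_not hC h01 hd ⟨c, hc, hx⟩ ⟨c, hc, hcy⟩ hKxy ?_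
        unfold sraJ
        rw [← hy]
        exact hc
      rcases le_total (σ.symm a).val (σ.symm b).val with h | h
      · exact key a b hb h
      · exact key b a (by rw [hb, add_comm]) h

end MP7ea278
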